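import Pool.Agent.Lib.MP_4f1247_co.Stmts

set_option autoImplicit false

/-!
# Neighborly polyhedral surfaces are not dense: points in boxes

The number of points in a box and in a ball, when every ball of radius one contains at most `μ`
points.
-/

namespace Pool.Agent.Lib.MP_4f1247_co

open Finset
open scoped RealInnerProductSpace

namespace BoxAux

/-- The cell of a number of absolute value at most `a`. -/
lemma cell {s a : ℝ} (h : |s| ≤ a) :
    ⌊s + a⌋₊ < ⌊2 * a⌋₊ + 1 ∧ |s - ((⌊s + a⌋₊ : ℝ) + 1 / 2 - a)| ≤ 1 / 2 := by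
  obtain ⟨h1, h2⟩ := abs_le.1 h
  have h0 : 0 ≤ s + a := by linarith
  refine ⟨Nat.lt_succ_of_le (Nat.floor_le_floor (by linarith)), ?_⟩
  have e1 := Nat.floor_le h0
  have e2 := Nat.lt_floor_add_one (s + a)
  rw [abs_le]
  constructor <;> linarith

lemma sq_le {t : ℝ} (h : |t| ≤ 1 / 2) : t ^ 2 ≤ 1 / 4 := by
  obtain ⟨h1, h2⟩ := abs_le.1 h
  nlinarith

/-- The number of cells. -/
lemma cells_le {a : ℝ} (ha : 0 ≤ a) : ((⌊2 * a⌋₊ + 1 : ℕ) : ℝ) ≤ 2 * a + 1 := by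
  push_cast
  have := Nat.floor_le (show 0 ≤ 2 * a by linarith)
  linarith

lemma den_nonneg {ι : Type} {I : Finset ι} {A : ι → E3} {μ : ℝ} (h : Den I A μ) : 0 ≤ μ :=
  le_trans (Nat.cast_nonneg _) (h 0)

/-- The inner product of a vector given by its coordinates in a frame. -/
lemma inner_frame {u v w : E3} (h : Fr u v w) (p q r : ℝ) :
    ⟪p • u + q • v + r • w, u⟫ = p ∧ ⟪p • u + q • v + r • w, v⟫ = q ∧
      ⟪p • u + q • v + r • w, w⟫ = r := by
  have huu : ⟪u, u⟫ = 1 := by rw [real_inner_self_eq_norm_sq, h.nu]; norm_num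
  have hvv : ⟪v, v⟫ = 1 := by rw [real_inner_self_eq_norm_sq, h.nv]; norm_num
  have hww : ⟪w, w⟫ = 1 := by rw [real_inner_self_eq_norm_sq, h.nw]; norm_num
  have hvu : ⟪v, u⟫ = 0 := by rw [real_inner_comm]; exact h.uv
  have hwu : ⟪w, u⟫ = 0 := by rw [real_inner_comm]; exact h.uw
  have hwv : ⟪w, v⟫ = 0 := by rw [real_inner_comm]; exact h.vw
  refine ⟨?_, ?_, ?_⟩
  · simp only [inner_add_left, real_inner_smul_left, huu, hvu, hwu]
    ring
  · simp only [inner_add_left, real_inner_smul_left, h.uv, hvv, hwv]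
    ring
  · simp only [inner_add_left, real_inner_smul_left, h.uw, h.vw, hww]
    ring

end BoxAux

open BoxAux

theorem stBox : StBox := by
  classical
  intro ι I A μ hD u v w hF x a b c ha hb hc
  have hμ := den_nonneg hD
  set J := I.filter (fun i => |⟪A i - x, u⟫| ≤ a ∧ |⟪A i - x, v⟫| ≤ b ∧ |⟪A i - x, w⟫| ≤ c) with hJ
  set f : ι → ℕ × ℕ × ℕ := fun i =>
    (⌊⟪A i - x, u⟫ + a⌋₊, ⌊⟪A i - x, v⟫ + b⌋₊, ⌊⟪A i - x, w⟫ + c⌋₊) with hf
  set S : Finset (ℕ × ℕ × ℕ) :=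
    (range (⌊2 * a⌋₊ + 1)) ×ˢ ((range (⌊2 * b⌋₊ + 1)) ×ˢ (range (⌊2 * c⌋₊ + 1))) with hS
  have hmaps : ∀ i ∈ J, f i ∈ S := by
    intro i hi
    rw [hJ, mem_filter] at hi
    obtain ⟨_, h1, h2, h3⟩ := hi
    rw [hS, mem_product, mem_product]
    exact ⟨mem_range.2 (cell h1).1, mem_range.2 (cell h2).1, mem_range.2 (cell h3).1⟩
  have hcard : J.card = ∑ s ∈ S, (J.filter (fun i => f i = s)).card :=
    card_eq_sum_card_fiberwise hmaps
  have hfib : ∀ s ∈ S, ((J.filter (fun i => f i = s)).card : ℝ) ≤ μ := by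
    intro s _
    set y : E3 := x + (((s.1 : ℝ) + 1 / 2 - a) • u + ((s.2.1 : ℝ) + 1 / 2 - b) • v +
      ((s.2.2 : ℝ) + 1 / 2 - c) • w) with hy
    refine le_trans ?_ (hD y)
    refine Nat.cast_le.2 (card_le_card ?_)
    intro i hi
    rw [mem_filter, hJ, mem_filter] at hi
    obtain ⟨⟨hiI, h1, h2, h3⟩, h4⟩ := hi
    rw [mem_filter]
    refine ⟨hiI, ?_⟩
    have e1 : ⌊⟪A i - x, u⟫ + a⌋₊ = s.1 := congrArg Prod.fst h4
    have e2 : ⌊⟪A i - x, v⟫ + b⌋₊ = s.2.1 := congrArg (fun z => z.2.1) h4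
    have e3 : ⌊⟪A i - x, w⟫ + c⌋₊ = s.2.2 := congrArg (fun z => z.2.2) h4
    have k1 := (cell h1).2
    have k2 := (cell h2).2
    have k3 := (cell h3).2
    rw [e1] at k1
    rw [e2] at k2
    rw [e3] at k3
    obtain ⟨i1, i2, i3⟩ := inner_frame hF ((s.1 : ℝ) + 1 / 2 - a) ((s.2.1 : ℝ) + 1 / 2 - b)
      ((s.2.2 : ℝ) + 1 / 2 - c)
    have ey : A i - y = (A i - x) - (((s.1 : ℝ) + 1 / 2 - a) • u +
        ((s.2.1 : ℝ) + 1 / 2 - b) • v + ((s.2.2 : ℝ) + 1 / 2 - c) • w) := by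
      rw [hy]
      abel
    have hn : ‖A i - y‖ ^ 2 ≤ 3 / 4 := by
      rw [hF.norm_sq (A i - y), ey]
      simp only [inner_sub_left] at k1 k2 k3 ⊢
      rw [i1, i2, i3]
      have q1 := sq_le k1
      have q2 := sq_le k2
      have q3 := sq_le k3
      linarith
    nlinarith [norm_nonneg (A i - y)]
  have hsum : (J.card : ℝ) ≤ (S.card : ℝ) * μ := by
    rw [hcard]
    push_cast
    calc ∑ s ∈ S, ((J.filter (fun i => f i = s)).card : ℝ) ≤ ∑ _s ∈ S, μ := sum_le_sum hfib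
      _ = (S.card : ℝ) * μ := by rw [sum_const, nsmul_eq_mul]
  have hSc : (S.card : ℝ) ≤ (2 * a + 1) * (2 * b + 1) * (2 * c + 1) := by
    rw [hS, card_product, card_product, card_range, card_range, card_range]
    have h1 := cells_le ha
    have h2 := cells_le hb
    have h3 := cells_le hc
    rw [Nat.cast_mul, Nat.cast_mul, ← mul_assoc]
    exact mul_le_mul (mul_le_mul h1 h2 (Nat.cast_nonneg _) (by linarith)) h3 (Nat.cast_nonneg _)
      (mul_nonneg (by linarith) (by linarith))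
  calc (J.card : ℝ) ≤ (S.card : ℝ) * μ := hsum
    _ ≤ ((2 * a + 1) * (2 * b + 1) * (2 * c + 1)) * μ := mul_le_mul_of_nonneg_right hSc hμ
    _ = μ * ((2 * a + 1) * (2 * b + 1) * (2 * c + 1)) := mul_comm _ _

theorem stBall : StBall := by
  intro ι I A μ hD x a ha
  have hu : ‖(!₂[1, 0, 0] : E3)‖ = 1 := by
    have h := norm_sq_coord (!₂[1, 0, 0] : E3)
    have h2 : ‖(!₂[1, 0, 0] : E3)‖ ^ 2 = 1 := by
      rw [h]
      simp
    nlinarith [norm_nonneg (!₂[1, 0, 0] : E3)]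
  obtain ⟨v, w, hF⟩ := Fr.exists_of_unit (!₂[1, 0, 0] : E3) hu
  have hb := stBox ι I A μ hD _ v w hF x a a a ha ha ha
  have hle : ∀ z e : E3, ‖e‖ = 1 → ‖z‖ ≤ a → |⟪z, e⟫| ≤ a := by
    intro z e he hz
    have := abs_real_inner_le_norm z e
    rw [he, mul_one] at this
    exact this.trans hz
  have hsub : ((I.filter (fun i => ‖A i - x‖ ≤ a)).card : ℝ) ≤
      ((I.filter (fun i => |⟪A i - x, !₂[1, 0, 0]⟫| ≤ a ∧ |⟪A i - x, v⟫| ≤ a ∧
        |⟪A i - x, w⟫| ≤ a)).card : ℝ) := by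
    refine Nat.cast_le.2 (card_le_card ?_)
    intro i hi
    rw [mem_filter] at hi ⊢
    exact ⟨hi.1, hle _ _ hF.nu hi.2, hle _ _ hF.nv hi.2, hle _ _ hF.nw hi.2⟩
  refine hsub.trans (hb.trans (le_of_eq ?_))
  ring

end Pool.Agent.Lib.MP_4f1247_co
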