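import Pool.Agent.Lib.MP_4f1247_co.Stmts

set_option autoImplicit false

/-! # Cross and Tri: vectors -/

namespace Pool.Agent.Lib.MP_4f1247_co

open Finset
open scoped RealInnerProductSpace

theorem stCross : StCross := by
  intro A1 B1 A2 B2 l1 l2 τ hl1 hl1' hl2 hl2' hτ hp1 hp2 h1 h2 h3 h4
  obtain ⟨p1, hp1e⟩ : ∃ p, p = (1 - l1) • A1 + l1 • B1 := ⟨_, rfl⟩
  obtain ⟨p2, hp2e⟩ : ∃ p, p = (1 - l2) • A2 + l2 • B2 := ⟨_, rfl⟩
  rw [← hp1e] at hp1 h1 h3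
  rw [← hp2e] at hp2 h2 h4
  have n1 : 0 < ‖p1‖ := norm_pos_iff.2 hp1
  have n2 : 0 < ‖p2‖ := norm_pos_iff.2 hp2
  have nA1 : 0 < ‖A1‖ := by
    by_contra h
    have : ‖A1‖ = 0 := le_antisymm (not_lt.1 h) (norm_nonneg _)
    rw [this] at h1
    linarith
  have nA2 : 0 < ‖A2‖ := by
    by_contra h
    have : ‖A2‖ = 0 := le_antisymm (not_lt.1 h) (norm_nonneg _)
    rw [this] at h2
    linarith
  have hrel := relation A1 p1 A2 p2
  have e1 : dt A1 p1 A2 = -dt A1 A2 p1 := by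
    rw [dt_cyc A1 p1 A2, dt_cyc p1 A2 A1, dt_anti A1 A2 p1]
  rw [e1] at hrel
  have hX : |dt p1 A2 p2| ≤ ‖p1‖ * ‖A2‖ * ‖p2‖ := abs_dt_le' _ _ _
  have hY : |dt A1 p1 p2| ≤ ‖A1‖ * ‖p1‖ * ‖p2‖ := abs_dt_le' _ _ _
  obtain ⟨P, hP⟩ : ∃ P, P = dt A1 A2 p2 := ⟨_, rfl⟩
  obtain ⟨Q, hQ⟩ : ∃ Q, Q = dt A1 A2 p1 := ⟨_, rfl⟩
  obtain ⟨X, hXe⟩ : ∃ X, X = dt p1 A2 p2 := ⟨_, rfl⟩
  obtain ⟨Y, hYe⟩ : ∃ Y, Y = dt A1 p1 p2 := ⟨_, rfl⟩
  rw [← hP] at hrel h4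
  rw [← hQ] at hrel h3
  rw [← hXe] at hrel hX
  rw [← hYe] at hrel hY
  have hX2 : |X| < P / 2 := by
    have : ‖p1‖ * ‖A2‖ * ‖p2‖ < τ / 2 * ‖A1‖ * ‖A2‖ * ‖p2‖ := by
      gcongr
    linarith
  have hY2 : |Y| < Q / 2 := by
    have : ‖A1‖ * ‖p1‖ * ‖p2‖ < ‖A1‖ * ‖p1‖ * (τ / 2 * ‖A2‖) := by
      gcongr
    have e : ‖A1‖ * ‖p1‖ * (τ / 2 * ‖A2‖) = τ * (‖A1‖ * ‖A2‖ * ‖p1‖) / 2 := by ring
    linarith
  have hPpos : 0 < P := by linarith [abs_nonneg X]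
  have hQpos : 0 < Q := by linarith [abs_nonneg Y]
  refine ⟨P * (1 - l1) - X, P * l1, Q * (1 - l2) + Y, Q * l2, ?_, by positivity, ?_,
    by positivity, ?_⟩
  · have := le_abs_self X
    have h : P * (1 / 2) ≤ P * (1 - l1) := mul_le_mul_of_nonneg_left (by linarith) hPpos.le
    linarith
  · have := neg_abs_le Y
    have h : Q * (1 / 2) ≤ Q * (1 - l2) := mul_le_mul_of_nonneg_left (by linarith) hQpos.le
    linarith
  · have e2 : (P * (1 - l1) - X) • A1 + (P * l1) • B1 = P • p1 - X • A1 := by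
      rw [hp1e]
      module
    have e3 : (Q * (1 - l2) + Y) • A2 + (Q * l2) • B2 = Q • p2 + Y • A2 := by
      rw [hp2e]
      module
    rw [e2, e3, ← sub_eq_zero, ← neg_eq_zero, ← hrel]
    module

namespace CrossTriAux

lemma opp {x y z : ℝ} (h : x + y = z) (hz : |z| < |x|) : x * y < 0 := by
  have hy : y = z - x := by linarith
  have h1 : |x * z| < x * x := by
    rw [abs_mul, ← abs_mul_abs_self x]
    exact mul_lt_mul_of_pos_left hz (lt_of_le_of_lt (abs_nonneg z) hz)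
  have h2 := le_abs_self (x * z)
  rw [hy]
  nlinarith

end CrossTriAux

open CrossTriAux in
theorem stTri : StTri := by
  intro ε a1 m1 a2 m2 a3 m3 hε n1 n2 n3 k1 k2 k3 o1 o2 o3 H
  obtain ⟨g12, g21, g13, g31, c12, c13, c23, hd⟩ := H
  have C12 : ‖cr a1 a2‖ ≤ 1 := by
    have := norm_cr_le a1 a2
    rwa [n1, n2, mul_one] at this
  have C13 : ‖cr a1 a3‖ ≤ 1 := by
    have := norm_cr_le a1 a3
    rwa [n1, n3, mul_one] at this
  have C23 : ‖cr a2 a3‖ ≤ 1 := by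
    have := norm_cr_le a2 a3
    rwa [n2, n3, mul_one] at this
  have hε1 : ε ≤ 1 := c12.trans C12
  have r1 := relation' a1 a2 a3 m1
  have r2 := relation' a1 a2 a3 m2
  have r3 := relation' a1 a2 a3 m3
  rw [o1, cr_anti a1 a3, zero_smul, zero_add] at r1
  rw [o2, cr_anti a1 a3, zero_smul, add_zero] at r2
  rw [o3, cr_anti a1 a3, zero_smul, add_zero] at r3
  -- the numbers
  obtain ⟨d, hde⟩ : ∃ d, d = dt a1 a2 a3 := ⟨_, rfl⟩
  rw [← hde] at r1 r2 r3 hd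
  obtain ⟨G12, hG12⟩ : ∃ g, g = ⟪a1, m2⟫ := ⟨_, rfl⟩
  obtain ⟨G21, hG21⟩ : ∃ g, g = ⟪a2, m1⟫ := ⟨_, rfl⟩
  obtain ⟨G13, hG13⟩ : ∃ g, g = ⟪a1, m3⟫ := ⟨_, rfl⟩
  obtain ⟨G31, hG31⟩ : ∃ g, g = ⟪a3, m1⟫ := ⟨_, rfl⟩
  obtain ⟨G23, hG23⟩ : ∃ g, g = ⟪a2, m3⟫ := ⟨_, rfl⟩
  obtain ⟨G32, hG32⟩ : ∃ g, g = ⟪a3, m2⟫ := ⟨_, rfl⟩
  unfold Opp
  rw [← hG12, ← hG21, ← hG13, ← hG31, ← hG23, ← hG32]
  rw [← hG12] at g12 r2
  rw [← hG21] at g21 r1
  rw [← hG13] at g13 r3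
  rw [← hG31] at g31 r1
  rw [← hG23] at r3
  rw [← hG32] at r2
  -- inner products with `cr a2 a3`
  obtain ⟨s13, hs13⟩ : ∃ s, s = ⟪cr a1 a3, cr a2 a3⟫ := ⟨_, rfl⟩
  obtain ⟨s12, hs12⟩ : ∃ s, s = ⟪cr a1 a2, cr a2 a3⟫ := ⟨_, rfl⟩
  have i1 : G21 * (-s13) + G31 * s12 = d * ⟪m1, cr a2 a3⟫ := by
    have := congrArg (fun z => ⟪z, cr a2 a3⟫) r1
    simp only [inner_add_left, real_inner_smul_left, inner_neg_left, smul_neg] at this
    rw [hs13, hs12]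
    linarith
  have i2 : G12 * ‖cr a2 a3‖ ^ 2 + G32 * s12 = d * ⟪m2, cr a2 a3⟫ := by
    have := congrArg (fun z => ⟪z, cr a2 a3⟫) r2
    simp only [inner_add_left, real_inner_smul_left, real_inner_self_eq_norm_sq] at this
    rw [hs12]
    linarith
  have i3 : G13 * ‖cr a2 a3‖ ^ 2 + G23 * (-s13) = d * ⟪m3, cr a2 a3⟫ := by
    have := congrArg (fun z => ⟪z, cr a2 a3⟫) r3
    simp only [inner_add_left, real_inner_smul_left, inner_neg_left, smul_neg,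
      real_inner_self_eq_norm_sq] at this
    rw [hs13]
    linarith
  -- the size of `s13`
  have hs : s13 ^ 2 = ‖cr a1 a3‖ ^ 2 * ‖cr a2 a3‖ ^ 2 - d ^ 2 := by
    have h1 := norm_cr_sq (cr a1 a3) (cr a2 a3)
    have h2 : cr (cr a1 a3) (cr a2 a3) = d • a3 := by
      rw [cr_cr]
      have e1 : dt a1 a3 a3 = 0 := by rw [dt_coord]; ring
      have e2 : dt a1 a3 a2 = -d := by rw [hde, dt_coord, dt_coord]; ring
      rw [e1, e2]
      module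
    rw [h2, norm_smul, n3, mul_one, Real.norm_eq_abs, sq_abs, ← hs13] at h1
    linarith
  obtain ⟨x, hx⟩ : ∃ x, x = ‖cr a1 a2‖ := ⟨_, rfl⟩
  obtain ⟨y, hy⟩ : ∃ y, y = ‖cr a1 a3‖ := ⟨_, rfl⟩
  obtain ⟨z, hz⟩ : ∃ z, z = ‖cr a2 a3‖ := ⟨_, rfl⟩
  have inn : ∀ m : E3, ‖m‖ ≤ 1 → |⟪m, cr a2 a3⟫| ≤ z := by
    intro m hm
    have h := abs_real_inner_le_norm m (cr a2 a3)
    rw [← hz] at h
    have hz0 : 0 ≤ z := by rw [hz]; exact norm_nonneg _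
    exact h.trans (mul_le_of_le_one_left hz0 hm)
  have R2 : ‖G12 • cr a2 a3 + G32 • cr a1 a2‖ ≤ |d| := by
    rw [r2, norm_smul, Real.norm_eq_abs]
    exact mul_le_of_le_one_right (abs_nonneg d) k2
  have R3 : ‖G13 • cr a2 a3 + G23 • -cr a1 a3‖ ≤ |d| := by
    rw [r3, norm_smul, Real.norm_eq_abs]
    exact mul_le_of_le_one_right (abs_nonneg d) k3
  have R2' : |G12| * z ≤ |d| + |G32| * x := by
    have h := norm_sub_le (G12 • cr a2 a3 + G32 • cr a1 a2) (G32 • cr a1 a2)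
    rw [add_sub_cancel_right, norm_smul, norm_smul, Real.norm_eq_abs, Real.norm_eq_abs,
      ← hz, ← hx] at h
    linarith
  have R3' : |G13| * z ≤ |d| + |G23| * y := by
    have h := norm_sub_le (G13 • cr a2 a3 + G23 • -cr a1 a3) (G23 • -cr a1 a3)
    rw [add_sub_cancel_right, norm_smul, norm_smul, norm_neg, Real.norm_eq_abs,
      Real.norm_eq_abs, ← hz, ← hy] at h
    linarith
  rw [← hx] at g12 g21 c12 C12 hd
  rw [← hy] at g13 g31 c13 C13 hd hs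
  rw [← hz] at c23 C23 hs i2 i3
  have hx0 : 0 < x := hε.trans_le c12
  have hy0 : 0 < y := hε.trans_le c13
  have hz0 : 0 < z := hε.trans_le c23
  have dd : ∀ m : E3, ‖m‖ ≤ 1 → |d * ⟪m, cr a2 a3⟫| ≤ ε ^ 2 / 4 * (x * y) * z := by
    intro m hm
    rw [abs_mul]
    exact mul_le_mul hd (inn m hm) (abs_nonneg _) (by positivity)
  -- sizes of `G32` and `G23`
  have b1 : 3 / 4 * ε ^ 2 ≤ |G32| := by
    have h1 : ε * x * ε ≤ |G12| * z := mul_le_mul g12 c23 hε.le (abs_nonneg _)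
    have h2 : ε ^ 2 / 4 * (x * y) ≤ ε ^ 2 / 4 * x := by
      have : x * y ≤ x := mul_le_of_le_one_right hx0.le C13
      gcongr
    have h3 : 3 / 4 * ε ^ 2 * x ≤ |G32| * x := by linarith
    exact le_of_mul_le_mul_right h3 hx0
  have b2 : 3 / 4 * ε ^ 2 ≤ |G23| := by
    have h1 : ε * y * ε ≤ |G13| * z := mul_le_mul g13 c23 hε.le (abs_nonneg _)
    have h2 : ε ^ 2 / 4 * (x * y) ≤ ε ^ 2 / 4 * y := by
      have : x * y ≤ y := mul_le_of_le_one_left hy0.le C12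
      gcongr
    have h3 : 3 / 4 * ε ^ 2 * y ≤ |G23| * y := by linarith
    exact le_of_mul_le_mul_right h3 hy0
  have b3 : 3 / 4 * ε ^ 2 ≤ |G12| := by
    have : ε * ε ≤ ε * x := by gcongr
    linarith [sq_nonneg ε]
  have b4 : 3 / 4 * ε ^ 2 ≤ |G21| := by
    have : ε * ε ≤ ε * x := by gcongr
    linarith [sq_nonneg ε]
  have b5 : 3 / 4 * ε ^ 2 ≤ |G13| := by
    have : ε * ε ≤ ε * y := by gcongr
    linarith [sq_nonneg ε]
  have b6 : 3 / 4 * ε ^ 2 ≤ |G31| := by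
    have : ε * ε ≤ ε * y := by gcongr
    linarith [sq_nonneg ε]
  -- the size of `s13`
  have hs2 : 9 / 10 * (y * z) ≤ |s13| := by
    have hd2 : |d| ≤ 1 / 4 * (y * z) := by
      refine hd.trans ?_
      have h1 : ε ^ 2 * x ≤ z := by
        have : ε ^ 2 * x ≤ ε * 1 := by
          have : ε ^ 2 ≤ ε := pow_le_of_le_one hε.le hε1 two_ne_zero
          exact mul_le_mul this C12 hx0.le hε.le
        linarith
      have h2 : ε ^ 2 * x * y ≤ z * y := by gcongr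
      linarith
    have hd3 : d ^ 2 ≤ (1 / 4 * (y * z)) ^ 2 := by
      rw [← sq_abs d]
      gcongr
    have h4 : (9 / 10 * (y * z)) ^ 2 ≤ s13 ^ 2 := by
      rw [hs]
      have : 0 ≤ y ^ 2 * z ^ 2 := by positivity
      linarith
    rw [← sq_abs s13] at h4
    exact le_of_sq_le_sq h4 (abs_nonneg _)
  have q1 : G21 * (-s13) * (G31 * s12) < 0 := by
    refine opp i1 ((dd m1 k1).trans_lt ?_)
    rw [abs_mul, abs_neg]
    have h1 : ε * x * (9 / 10 * (y * z)) ≤ |G21| * |s13| :=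
      mul_le_mul g21 hs2 (by positivity) (abs_nonneg _)
    refine lt_of_lt_of_le ?_ h1
    have h2 : ε ^ 2 / 4 * (x * y) * z ≤ ε / 4 * (x * y) * z := by
      have : ε ^ 2 ≤ ε := pow_le_of_le_one hε.le hε1 two_ne_zero
      gcongr
    have h3 : 0 < ε * (x * y) * z := by positivity
    linarith
  have q2 : G12 * z ^ 2 * (G32 * s12) < 0 := by
    refine opp i2 ((dd m2 k2).trans_lt ?_)
    rw [abs_mul, abs_of_pos (by positivity : 0 < z ^ 2)]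
    have h1 : ε * x * z ^ 2 ≤ |G12| * z ^ 2 := by gcongr
    refine lt_of_lt_of_le ?_ h1
    have h2 : ε ^ 2 / 4 * (x * y) * z ≤ ε * x * z ^ 2 / 4 := by
      have h3 : ε * y ≤ z := (mul_le_of_le_one_right hε.le C13).trans c23
      have h4 : ε * x * z * (ε * y) ≤ ε * x * z * z := by gcongr
      linarith
    have h3 : 0 < ε * x * z ^ 2 := by positivity
    linarith
  have q3 : G13 * z ^ 2 * (G23 * (-s13)) < 0 := by
    refine opp i3 ((dd m3 k3).trans_lt ?_)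
    rw [abs_mul, abs_of_pos (by positivity : 0 < z ^ 2)]
    have h1 : ε * y * z ^ 2 ≤ |G13| * z ^ 2 := by gcongr
    refine lt_of_lt_of_le ?_ h1
    have h2 : ε ^ 2 / 4 * (x * y) * z ≤ ε * y * z ^ 2 / 4 := by
      have h3 : ε * x ≤ z := (mul_le_of_le_one_right hε.le C12).trans c23
      have h4 : ε * y * z * (ε * x) ≤ ε * y * z * z := by gcongr
      linarith
    have h3 : 0 < ε * y * z ^ 2 := by positivity
    linarith
  have q4 : (G12 * G21) * ((G13 * G31) * (G23 * G32)) < 0 := by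
    have h1 : 0 < (G21 * (-s13) * (G31 * s12)) * (G12 * z ^ 2 * (G32 * s12)) :=
      mul_pos_of_neg_of_neg q1 q2
    have h2 : (G21 * (-s13) * (G31 * s12)) * (G12 * z ^ 2 * (G32 * s12)) *
        (G13 * z ^ 2 * (G23 * (-s13))) < 0 := mul_neg_of_pos_of_neg h1 q3
    have h3 : (G21 * (-s13) * (G31 * s12)) * (G12 * z ^ 2 * (G32 * s12)) *
        (G13 * z ^ 2 * (G23 * (-s13))) =
        (s13 * s12 * z ^ 2) ^ 2 * ((G12 * G21) * ((G13 * G31) * (G23 * G32))) := by ring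
    rw [h3] at h2
    by_contra hcon
    exact absurd h2 (not_lt.2 (mul_nonneg (sq_nonneg _) (not_lt.1 hcon)))
  by_cases e1 : G12 * G21 < 0
  · exact Or.inl ⟨e1, b3, b4⟩
  by_cases e2 : G13 * G31 < 0
  · exact Or.inr (Or.inl ⟨e2, b5, b6⟩)
  by_cases e3 : G23 * G32 < 0
  · exact Or.inr (Or.inr ⟨e3, b2, b1⟩)
  exact absurd q4 (not_lt.2 (mul_nonneg (not_lt.1 e1) (mul_nonneg (not_lt.1 e2) (not_lt.1 e3))))

end Pool.Agent.Lib.MP_4f1247_co
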