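import Pool.Agent.Lib.MP_4f1247_co.Stmts

set_option autoImplicit false

/-!
# Neighborly polyhedral surfaces are not dense: the theorem from the modules
-/

namespace Pool.Agent.Lib.MP_4f1247_co

open Finset
open scoped RealInnerProductSpace

namespace FinAux

/-! ### Vectors -/

lemma dt_smul (s t r : ℝ) (u v w : E3) : dt (s • u) (t • v) (r • w) = s * t * r * dt u v w := by
  simp only [dt_coord, PiLp.smul_apply, smul_eq_mul]
  ring

lemma un_norm {x : E3} (hx : x ≠ 0) : ‖un x‖ = 1 := by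
  unfold un
  rw [norm_smul, norm_inv, norm_norm]
  exact inv_mul_cancel₀ (norm_ne_zero_iff.2 hx)

lemma dt_un {A B C : E3} (hA : A ≠ 0) (hB : B ≠ 0) (hC : C ≠ 0) :
    dt A B C = ‖A‖ * ‖B‖ * ‖C‖ * dt (un A) (un B) (un C) := by
  have hA' := norm_ne_zero_iff.2 hA
  have hB' := norm_ne_zero_iff.2 hB
  have hC' := norm_ne_zero_iff.2 hC
  unfold un
  rw [dt_smul]
  field_simp

/-- The foot of the height over the longest side. -/
lemma foot {A B : E3} (h1 : ‖A‖ ≤ ‖B‖) (h2 : ‖B‖ ≤ ‖B - A‖) (h3 : cr A B ≠ 0) :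
    ∃ l : ℝ, 0 < l ∧ l ≤ 1 / 2 ∧ ⟪(1 - l) • A + l • B, B - A⟫ = 0 ∧
      (1 - l) • A + l • B ≠ 0 ∧ ⟪A, (1 - l) • A + l • B⟫ = ‖(1 - l) • A + l • B‖ ^ 2 := by
  have hA : A ≠ 0 := by
    rintro rfl
    apply h3
    apply ext3 <;> simp
  have hAn : 0 < ‖A‖ := norm_pos_iff.2 hA
  have hBn : 0 < ‖B‖ := lt_of_lt_of_le hAn h1
  have hd : 0 < ‖B - A‖ := lt_of_lt_of_le hBn h2
  have e1 : ‖B - A‖ ^ 2 = ‖B‖ ^ 2 - 2 * ⟪A, B⟫ + ‖A‖ ^ 2 := by
    rw [norm_sub_sq_real, real_inner_comm]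
  have e2 : ‖B‖ ^ 2 ≤ ‖B - A‖ ^ 2 := pow_le_pow_left₀ hBn.le h2 2
  have e3 : ‖A‖ ^ 2 ≤ ‖B‖ ^ 2 := pow_le_pow_left₀ hAn.le h1 2
  have hAA : ⟪A, A⟫ = ‖A‖ ^ 2 := real_inner_self_eq_norm_sq A
  have hBB : ⟪B, B⟫ = ‖B‖ ^ 2 := real_inner_self_eq_norm_sq B
  have hBA : ⟪B, A⟫ = ⟪A, B⟫ := real_inner_comm _ _
  have hA2 : 0 < ‖A‖ ^ 2 := by positivity
  have hd2 : 0 < ‖B - A‖ ^ 2 := by positivity
  obtain ⟨l, hl⟩ : ∃ l : ℝ, l = (‖A‖ ^ 2 - ⟪A, B⟫) / ‖B - A‖ ^ 2 := ⟨_, rfl⟩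
  have hl0 : 0 < l := by
    rw [hl]
    apply div_pos _ hd2
    linarith
  have hls : l * ‖B - A‖ ^ 2 = ‖A‖ ^ 2 - ⟪A, B⟫ := by
    rw [hl]
    field_simp
  have horth : ⟪(1 - l) • A + l • B, B - A⟫ = 0 := by
    simp only [inner_add_left, inner_sub_right, real_inner_smul_left, hAA, hBB, hBA]
    rw [e1] at hls
    linear_combination hls
  refine ⟨l, hl0, ?_, horth, ?_, ?_⟩
  · rw [hl, div_le_iff₀ hd2]
    linarith
  · intro h0
    have e4 : cr A ((1 - l) • A + l • B) = l • cr A B := by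
      rw [cr_add_right, cr_smul_right, cr_smul_right, cr_self, smul_zero, zero_add]
    rw [h0] at e4
    have e5 : cr A 0 = 0 := by
      apply ext3 <;> simp
    rw [e5] at e4
    rcases smul_eq_zero.1 e4.symm with h | h
    · linarith
    · exact h3 h
  · have e4 : (1 - l) • A + l • B = A + l • (B - A) := by
      rw [sub_smul, one_smul, smul_sub]
      abel
    have e5 : ⟪(1 - l) • A + l • B, (1 - l) • A + l • B⟫ =
        ⟪(1 - l) • A + l • B, A + l • (B - A)⟫ := by rw [← e4]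
    have e6 : ⟪(1 - l) • A + l • B, A + l • (B - A)⟫ = ⟪(1 - l) • A + l • B, A⟫ := by
      rw [inner_add_right (𝕜 := ℝ) ((1 - l) • A + l • B), real_inner_smul_right, horth, mul_zero,
        add_zero]
    rw [← real_inner_self_eq_norm_sq, e5, e6, real_inner_comm]

/-- Two opposite flags cross. -/
lemma opp_cross (hC : StCross) {A B A' B' : E3} {l l' τ : ℝ} (hl : 0 < l) (hl2 : l ≤ 1 / 2)
    (hl' : 0 < l') (hl2' : l' ≤ 1 / 2) (hτ : 0 < τ) (hA : A ≠ 0) (hA' : A' ≠ 0)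
    (hp : (1 - l) • A + l • B ≠ 0) (hp' : (1 - l') • A' + l' • B' ≠ 0)
    (hs : ‖(1 - l) • A + l • B‖ < τ / 2 * ‖A‖) (hs' : ‖(1 - l') • A' + l' • B'‖ < τ / 2 * ‖A'‖)
    (hO : Opp τ (un A) (cr (un A) (un ((1 - l) • A + l • B))) (un A')
      (cr (un A') (un ((1 - l') • A' + l' • B')))) :
    ∃ α β γ δ : ℝ, 0 < α ∧ 0 < β ∧ 0 < γ ∧ 0 < δ ∧ α • A + β • B = γ • A' + δ • B' := by
  obtain ⟨h1, h2, h3⟩ := hO
  rw [← dt_eq_inner_right] at h1 h2
  rw [← dt_eq_inner_right] at h1 h3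
  have e1 := dt_un hA hA' hp
  have e2 := dt_un hA hA' hp'
  have e3 := dt_un hA' hA hp
  have e4 := dt_un hA' hA hp'
  have e5 := dt_anti (un A) (un A') (un ((1 - l) • A + l • B))
  have e6 := dt_anti (un A) (un A') (un ((1 - l') • A' + l' • B'))
  have n1 : 0 ≤ ‖A‖ * ‖A'‖ * ‖(1 - l) • A + l • B‖ := by positivity
  have n2 : 0 ≤ ‖A‖ * ‖A'‖ * ‖(1 - l') • A' + l' • B'‖ := by positivity
  rcases lt_or_ge 0 (dt (un A) (un A') (un ((1 - l') • A' + l' • B'))) with h | h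
  · have h4 : dt (un A') (un A) (un ((1 - l) • A + l • B)) < 0 := by
      by_contra h5
      have := mul_nonneg h.le (not_lt.1 h5)
      linarith
    rw [abs_of_pos h] at h2
    rw [abs_of_neg h4] at h3
    obtain ⟨α, β, γ, δ, hh⟩ := hC A B A' B' l l' τ hl hl2 hl' hl2' hτ hp hp' hs hs' (by
      rw [e1]
      have : τ ≤ dt (un A) (un A') (un ((1 - l) • A + l • B)) := by linarith
      nlinarith) (by
      rw [e2]
      nlinarith)
    exact ⟨α, β, γ, δ, hh⟩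
  · have h0 : dt (un A) (un A') (un ((1 - l') • A' + l' • B')) < 0 := by
      rcases h.lt_or_eq with h | h
      · exact h
      · rw [h, abs_zero] at h2
        linarith
    have h4 : 0 < dt (un A') (un A) (un ((1 - l) • A + l • B)) := by
      by_contra h5
      have := mul_nonneg_of_nonpos_of_nonpos h0.le (not_lt.1 h5)
      linarith
    rw [abs_of_neg h0] at h2
    rw [abs_of_pos h4] at h3
    obtain ⟨α, β, γ, δ, hα, hβ, hγ, hδ, hh⟩ := hC A' B' A B l' l τ hl' hl2' hl hl2 hτ hp' hp hs' hs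
      (by
        rw [e4]
        have : τ ≤ dt (un A') (un A) (un ((1 - l') • A' + l' • B')) := by linarith
        nlinarith) (by
        rw [e3]
        nlinarith)
    exact ⟨γ, δ, α, β, hγ, hδ, hα, hβ, hh.symm⟩

/-- The normal vector of a thin flag. -/
lemma norm_cr_un {A p : E3} {τ : ℝ} (hA : A ≠ 0) (hp : p ≠ 0) (hτ : τ ≤ 1)
    (h : ⟪A, p⟫ = ‖p‖ ^ 2) (hs : ‖p‖ < τ / 2 * ‖A‖) :
    1 / 2 ≤ ‖cr (un A) (un p)‖ ∧ ‖cr (un A) (un p)‖ ≤ 1 := by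
  have hAn : 0 < ‖A‖ := norm_pos_iff.2 hA
  have hpn : 0 < ‖p‖ := norm_pos_iff.2 hp
  have e1 := norm_cr_sq (un A) (un p)
  rw [un_norm hA, un_norm hp] at e1
  have e2 : ⟪un A, un p⟫ = ‖p‖ / ‖A‖ := by
    unfold un
    rw [real_inner_smul_left, real_inner_smul_right, h]
    field_simp
  have e3 : ‖p‖ / ‖A‖ ≤ 1 / 2 := by
    rw [div_le_iff₀ hAn]
    nlinarith
  have e4 : 0 ≤ ‖p‖ / ‖A‖ := by positivity
  rw [e2] at e1
  constructor
  · by_contra hcon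
    have h5 := norm_nonneg (cr (un A) (un p))
    nlinarith
  · have := norm_cr_le (un A) (un p)
    rwa [un_norm hA, un_norm hp, one_mul] at this

/-- The constants. -/
lemma consts {C m R N D : ℝ} (hC : 3 ≤ C) (hm : 1 ≤ m) (hR : 1 ≤ R) (hN0 : 0 ≤ N)
    (hN : 10 ^ 15 * C ^ 3 * m ^ 3 * R ^ 8 < N ^ 3) (hD1 : 1 ≤ D) (hD : D ≤ R) :
    12 * C * m * R ^ 2 ≤ N ∧ 864 * m ≤ N ∧ 4 ≤ (N / (19200 * m * R * D ^ 2)) ^ 2 * D ∧
      20 * (12 * C * m * R ^ 3 / N) < 3 / 16 * ((N / (19200 * m * R * D ^ 2)) ^ 2 * D) := by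
  have hm0 : 0 < m := by linarith
  have hR0 : 0 < R := by linarith
  have hC0 : 0 < C := by linarith
  have hD0 : 0 < D := by linarith
  have hR6 : R ^ 6 ≤ R ^ 8 := pow_le_pow_right₀ hR (by norm_num)
  have hbig : 10 ^ 15 * C ^ 3 * m ^ 3 * R ^ 6 < N ^ 3 :=
    lt_of_le_of_lt (mul_le_mul_of_nonneg_left hR6 (by positivity)) hN
  have h1 : 12 * C * m * R ^ 2 ≤ N := by
    by_contra hcon
    have h2 : N ^ 3 ≤ (12 * C * m * R ^ 2) ^ 3 := pow_le_pow_left₀ hN0 (not_le.1 hcon).le 3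
    have h3 : (12 * C * m * R ^ 2) ^ 3 = 1728 * (C ^ 3 * m ^ 3 * R ^ 6) := by ring
    have h4 : 0 < C ^ 3 * m ^ 3 * R ^ 6 := by positivity
    nlinarith
  have h2 : 864 * m ≤ N := by
    by_contra hcon
    have h2 : N ^ 3 ≤ (864 * m) ^ 3 := pow_le_pow_left₀ hN0 (not_le.1 hcon).le 3
    have h3 : (864 * m) ^ 3 = 864 ^ 3 * m ^ 3 := by ring
    have h4 : (1 : ℝ) ≤ R ^ 6 := one_le_pow₀ hR
    have h5 : (1 : ℝ) ≤ C ^ 3 := one_le_pow₀ (by linarith)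
    have h6 : m ^ 3 ≤ C ^ 3 * m ^ 3 * R ^ 6 := by
      have h7 : m ^ 3 * 1 ≤ m ^ 3 * (C ^ 3 * R ^ 6) := by
        apply mul_le_mul_of_nonneg_left _ (by positivity)
        exact one_le_mul_of_one_le_of_one_le h5 h4
      linarith
    have h8 : 0 < m ^ 3 := by positivity
    nlinarith
  have hNpos : 0 < N := by linarith
  have hD3 : D ^ 3 ≤ R ^ 3 := pow_le_pow_left₀ hD0.le hD 3
  have e1 : (N / (19200 * m * R * D ^ 2)) ^ 2 * D = N ^ 2 / (19200 ^ 2 * m ^ 2 * R ^ 2 * D ^ 3) := by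
    field_simp
  have e2 : N ^ 2 / (19200 ^ 2 * m ^ 2 * R ^ 5) ≤ N ^ 2 / (19200 ^ 2 * m ^ 2 * R ^ 2 * D ^ 3) := by
    apply div_le_div_of_nonneg_left (by positivity) (by positivity)
    have e3 : 19200 ^ 2 * m ^ 2 * R ^ 5 = 19200 ^ 2 * m ^ 2 * R ^ 2 * R ^ 3 := by ring
    rw [e3]
    exact mul_le_mul_of_nonneg_left hD3 (by positivity)
  refine ⟨h1, h2, ?_, ?_⟩
  · rw [e1]
    refine le_trans ?_ e2
    rw [le_div_iff₀ (by positivity)]
    by_contra hcon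
    have h3 : N ^ 2 ≤ 4 * 19200 ^ 2 * m ^ 2 * R ^ 5 := by linarith
    have h4 : (N ^ 2) ^ 3 ≤ (4 * 19200 ^ 2 * m ^ 2 * R ^ 5) ^ 3 :=
      pow_le_pow_left₀ (by positivity) h3 3
    have h5 : (10 ^ 15 * C ^ 3 * m ^ 3 * R ^ 8) ^ 2 < (N ^ 3) ^ 2 :=
      pow_lt_pow_left₀ hN (by positivity) (by norm_num)
    have h6 : (N ^ 2) ^ 3 = (N ^ 3) ^ 2 := by ring
    have h7 : (10 ^ 15 * C ^ 3 * m ^ 3 * R ^ 8) ^ 2 = 10 ^ 30 * C ^ 6 * m ^ 6 * R * R ^ 15 := by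
      ring
    have h8 : (4 * 19200 ^ 2 * m ^ 2 * R ^ 5) ^ 3 = (4 * 19200 ^ 2) ^ 3 * m ^ 6 * R ^ 15 := by ring
    have h9 : (4 * 19200 ^ 2 : ℝ) ^ 3 * m ^ 6 * R ^ 15 ≤
        10 ^ 30 * C ^ 6 * m ^ 6 * R * R ^ 15 := by
      have h10 : (1 : ℝ) ≤ C ^ 6 := one_le_pow₀ (by linarith)
      have h11 : (1 : ℝ) ≤ C ^ 6 * R := one_le_mul_of_one_le_of_one_le h10 hR
      have h12 : 0 < m ^ 6 * R ^ 15 := by positivity
      have h13 : m ^ 6 * R ^ 15 * 1 ≤ m ^ 6 * R ^ 15 * (C ^ 6 * R) :=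
        mul_le_mul_of_nonneg_left h11 h12.le
      nlinarith
    linarith
  · rw [e1]
    refine lt_of_lt_of_le ?_ (mul_le_mul_of_nonneg_left e2 (by norm_num))
    rw [mul_div_assoc', mul_div_assoc', div_lt_div_iff₀ hNpos (by positivity)]
    have h3 : 20 * (12 * C * m * R ^ 3) * (19200 ^ 2 * m ^ 2 * R ^ 5) =
        240 * 19200 ^ 2 * C * (m ^ 3 * R ^ 8) := by ring
    have h4 : 3 / 16 * N ^ 2 * N = 3 / 16 * N ^ 3 := by ring
    rw [h3, h4]
    have h5 : C ≤ C ^ 3 := by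
      calc C = C ^ 1 := (pow_one C).symm
        _ ≤ C ^ 3 := pow_le_pow_right₀ (by linarith) (by norm_num)
    have h6 : 0 < m ^ 3 * R ^ 8 := by positivity
    have h7 : C * (m ^ 3 * R ^ 8) ≤ C ^ 3 * (m ^ 3 * R ^ 8) := mul_le_mul_of_nonneg_right h5 h6.le
    nlinarith

end FinAux

open FinAux in
/-- A neighborly surface is not dense: normal form. -/
theorem norm_of (hCr : StCr) (hCon : StCon) (hBall : StBall) (hSur : StSur) (hSliv : StSliv)
    (hCross : StCross) (hTri : StTri) (hSel : StSel) (hPick : StPick) : StNorm := by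
  obtain ⟨C, hC3, hC⟩ := hSur
  have hC1 : (1 : ℝ) ≤ C ^ 3 := one_le_pow₀ (by linarith)
  refine ⟨10 ^ 15 * C ^ 3, by linarith, ?_⟩
  intro n q T m R hS hm hR hDen hdist
  by_contra hcon
  have hN : 10 ^ 15 * C ^ 3 * m ^ 3 * R ^ 8 < (n : ℝ) ^ 3 := not_le.1 hcon
  have hN0 : (0 : ℝ) ≤ n := Nat.cast_nonneg n
  have hm0 : 0 < m := by linarith
  have hR0 : 0 < R := by linarith
  have hC0 : 0 < C := by linarith
  obtain ⟨c1, c2, -, -⟩ := consts hC3 hm hR hN0 hN le_rfl hR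
  have hNpos : (0 : ℝ) < n := by linarith
  have hn2 : 2 ≤ n := by
    have : (2 : ℝ) ≤ n := by linarith
    exact_mod_cast this
  -- the number of points
  have hNR : (n : ℝ) ≤ m * (27 * R ^ 3) := by
    obtain ⟨i0⟩ : Nonempty (Fin n) := ⟨⟨0, by omega⟩⟩
    have h1 := hBall (Fin n) Finset.univ q m hDen (q i0) R hR0.le
    rw [Finset.filter_true_of_mem (fun i _ => hdist i i0), Finset.card_univ, Fintype.card_fin] at h1
    refine h1.trans (mul_le_mul_of_nonneg_left ?_ hm0.le)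
    have h2 : (2 * R + 1) ^ 3 ≤ (3 * R) ^ 3 := pow_le_pow_left₀ (by positivity) (by linarith) 3
    calc (2 * R + 1) ^ 3 ≤ (3 * R) ^ 3 := h2
      _ = 27 * R ^ 3 := by ring
  -- the scale
  obtain ⟨r, hr⟩ : ∃ r : ℝ, r = 12 * C * m * R ^ 3 / n := ⟨_, rfl⟩
  have hr1 : 1 ≤ r := by
    rw [hr, le_div_iff₀ hNpos]
    have : 0 < m * R ^ 3 := by positivity
    nlinarith
  have hrR : r ≤ R := by
    rw [hr, div_le_iff₀ hNpos]
    calc 12 * C * m * R ^ 3 = R * (12 * C * m * R ^ 2) := by ring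
      _ ≤ R * n := mul_le_mul_of_nonneg_left c1 hR0.le
  have hr0 : 0 < r := by linarith
  have hnS : 12 * ({i | ¬ Sur q r i}.ncard : ℝ) ≤ n := by
    have h1 := hC n q m R r hDen hr1 hrR hdist
    have h2 : C * m * R ^ 3 / r = n / 12 := by
      rw [hr]
      field_simp
    rw [h2] at h1
    linarith
  obtain ⟨x, J, a, w, D, hJT, hJ, hDJ, hD1, hDR, hDD, hcard⟩ :=
    hPick n q T m R r hS hn2 hDen hR hdist hnS c2
  obtain ⟨-, -, c3, c4⟩ := consts hC3 hm hR hN0 hN hD1 hDR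
  rw [← hr] at c4
  have hD0 : 0 < D := by linarith
  obtain ⟨ε, hε⟩ : ∃ ε : ℝ, ε = n / (19200 * m * R * D ^ 2) := ⟨_, rfl⟩
  rw [← hε] at c3 c4
  have hε0 : 0 < ε := by
    rw [hε]
    positivity
  have hM : 300 * (2 * m) * ε * D ^ 3 ≤ (J.card : ℝ) := by
    have h1 : 300 * (2 * m) * ε * D ^ 3 = n * D / (32 * R) := by
      rw [hε]
      field_simp
      norm_num
    rw [h1, div_le_iff₀ (by positivity)]
    linarith
  have hε1 : ε ≤ 1 := by
    have h1 := hBall (Finset (Fin n)) J (fun t => q (a t) - q x) (2 * m) hDJ 0 D hD0.le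
    rw [Finset.filter_true_of_mem (fun t ht => by rw [sub_zero]; exact (hDD t ht).2)] at h1
    have h2 : (2 * D + 1) ^ 3 ≤ (3 * D) ^ 3 := pow_le_pow_left₀ (by positivity) (by linarith) 3
    have h3 : 2 * m * (2 * D + 1) ^ 3 ≤ 2 * m * (3 * D) ^ 3 :=
      mul_le_mul_of_nonneg_left h2 (by positivity)
    have h4 : 2 * m * (3 * D) ^ 3 = 54 * (m * D ^ 3) := by ring
    have h5 : 300 * (2 * m) * ε * D ^ 3 = 600 * ε * (m * D ^ 3) := by ring
    have h6 : 0 < m * D ^ 3 := by positivity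
    by_contra h7
    have h8 : 1 < ε := not_le.1 h7
    nlinarith
  have hε2 : ε ^ 2 ≤ 1 := pow_le_one₀ hε0.le hε1
  -- the feet
  have hfoot : ∀ t : Finset (Fin n), ∃ l : ℝ, t ∈ J → 0 < l ∧ l ≤ 1 / 2 ∧
      (1 - l) • (q (a t) - q x) + l • (q (w t) - q x) ≠ 0 ∧
      ⟪q (a t) - q x, (1 - l) • (q (a t) - q x) + l • (q (w t) - q x)⟫ =
        ‖(1 - l) • (q (a t) - q x) + l • (q (w t) - q x)‖ ^ 2 ∧
      ‖(1 - l) • (q (a t) - q x) + l • (q (w t) - q x)‖ <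
        3 / 4 * ε ^ 2 / 2 * ‖q (a t) - q x‖ := by
    intro t
    by_cases ht : t ∈ J
    · obtain ⟨h1, h2, h3, h4, h5, h6⟩ := hJ t ht
      have htT : ({x, a t, w t} : Finset (Fin n)) ∈ T := h1 ▸ hJT ht
      obtain ⟨l, g1, g2, g3, g4, g5⟩ := foot (A := q (a t) - q x) (B := q (w t) - q x)
        (by rw [norm_sub_rev, norm_sub_rev (q (w t))]; exact h6)
        (by rw [sub_sub_sub_cancel_right, norm_sub_rev]; exact h5)
        (hCr n q T hS x (a t) (w t) htT)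
      refine ⟨l, fun _ => ⟨g1, g2, g4, g5, ?_⟩⟩
      rw [sub_sub_sub_cancel_right] at g3
      have h7 := hSliv n q T r hS x (a t) (w t) htT h2 h3 h4 h5 l g1.le (by linarith) g3
      have h8 := (hDD t ht).1
      have h9 : 0 < ε ^ 2 := by positivity
      nlinarith
    · exact ⟨0, fun h => absurd h ht⟩
  choose l hl using hfoot
  have hA0 : ∀ t ∈ J, q (a t) - q x ≠ 0 := by
    intro t ht h0
    have h1 := (hDD t ht).1
    rw [h0, norm_zero] at h1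
    linarith
  have hmm : ∀ t ∈ J, 1 / 2 ≤ ‖cr (un (q (a t) - q x))
      (un ((1 - l t) • (q (a t) - q x) + l t • (q (w t) - q x)))‖ ∧
      ‖cr (un (q (a t) - q x))
      (un ((1 - l t) • (q (a t) - q x) + l t • (q (w t) - q x)))‖ ≤ 1 := by
    intro t ht
    obtain ⟨g1, g2, g3, g4, g5⟩ := hl t ht
    exact norm_cr_un (τ := 3 / 4 * ε ^ 2) (hA0 t ht) g3 (by linarith) g4 g5
  obtain ⟨i, hi, j, hj, k, hk, hTH⟩ := hSel (Finset (Fin n)) J (fun t => q (a t) - q x)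
    (fun t => cr (un (q (a t) - q x))
      (un ((1 - l t) • (q (a t) - q x) + l t • (q (w t) - q x)))) (2 * m) D ε hDJ (by positivity)
    hD1 hε0 hε1 c3 (fun t ht => ⟨hA0 t ht, (hDD t ht).2⟩) (fun t ht => (hmm t ht).1) hM
  -- no two flags are opposite
  have hno : ∀ t ∈ J, ∀ t' ∈ J, ¬ Opp (3 / 4 * ε ^ 2) (un (q (a t) - q x))
      (cr (un (q (a t) - q x)) (un ((1 - l t) • (q (a t) - q x) + l t • (q (w t) - q x))))
      (un (q (a t') - q x))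
      (cr (un (q (a t') - q x))
        (un ((1 - l t') • (q (a t') - q x) + l t' • (q (w t') - q x)))) := by
    intro t ht t' ht' hO
    have htt : t ≠ t' := by
      rintro rfl
      have h1 := hO.1
      rw [real_inner_comm, inner_cr_left, mul_zero] at h1
      exact lt_irrefl _ h1
    obtain ⟨g1, g2, g3, g4, g5⟩ := hl t ht
    obtain ⟨g1', g2', g3', g4', g5'⟩ := hl t' ht'
    obtain ⟨α, β, γ, δ, hα, hβ, hγ, hδ, hh⟩ := opp_cross hCross g1 g2 g1' g2' (by positivity)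
      (hA0 t ht) (hA0 t' ht') g3 g3' g5 g5' hO
    have h1 := (hJ t ht).1
    have h1' := (hJ t' ht').1
    refine hCon n q T hS x (a t) (w t) (a t') (w t') (h1 ▸ hJT ht) (h1' ▸ hJT ht') ?_ α β γ δ hα hβ
      hγ hδ hh
    rw [← h1, ← h1']
    exact htt
  have hun : ∀ t ∈ J, ‖un (q (a t) - q x)‖ = 1 := fun t ht => un_norm (hA0 t ht)
  have horth : ∀ t, ⟪un (q (a t) - q x), cr (un (q (a t) - q x))
      (un ((1 - l t) • (q (a t) - q x) + l t • (q (w t) - q x)))⟫ = 0 := by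
    intro t
    rw [real_inner_comm]
    exact inner_cr_left _ _
  rcases hTri ε _ _ _ _ _ _ hε0 (hun i hi) (hun j hj) (hun k hk) (hmm i hi).2 (hmm j hj).2
    (hmm k hk).2 (horth i) (horth j) (horth k) hTH with h | h | h
  · exact hno i hi j hj h
  · exact hno i hi k hk h
  · exact hno j hj k hk h

end Pool.Agent.Lib.MP_4f1247_co
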