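import Pool.Agent.Lib.MP_4f1247_co.Stmts

set_option autoImplicit false

/-!
# Neighborly polyhedral surfaces: choice of the vertex and of the scale
-/

namespace Pool.Agent.Lib.MP_4f1247_co

open Finset
open scoped RealInnerProductSpace

namespace PickAux

/-- The order of the vertices of a triangle. -/
def Ord {n : ℕ} (q : Fin n → E3) (t : Finset (Fin n)) (x a w : Fin n) : Prop :=
  t = {x, a, w} ∧ x ≠ a ∧ ‖q x - q a‖ ≤ ‖q w - q a‖ ∧ ‖q x - q w‖ ≤ ‖q w - q a‖ ∧
    ‖q x - q a‖ ≤ ‖q x - q w‖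

lemma Ord.mx {n : ℕ} {q : Fin n → E3} {t : Finset (Fin n)} {x a w : Fin n} (h : Ord q t x a w) :
    x ∈ t := by
  rw [h.1]
  simp

lemma Ord.ma {n : ℕ} {q : Fin n → E3} {t : Finset (Fin n)} {x a w : Fin n} (h : Ord q t x a w) :
    a ∈ t := by
  rw [h.1]
  simp

lemma Ord.mw {n : ℕ} {q : Fin n → E3} {t : Finset (Fin n)} {x a w : Fin n} (h : Ord q t x a w) :
    w ∈ t := by
  rw [h.1]
  simp

lemma order3 {n : ℕ} (q : Fin n → E3) (t : Finset (Fin n)) (ht : t.card = 3) :
    ∃ x a w : Fin n, Ord q t x a w := by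
  obtain ⟨i, j, k, hij, hik, hjk, rfl⟩ := Finset.card_eq_three.1 ht
  have cij : ‖q j - q i‖ = ‖q i - q j‖ := norm_sub_rev _ _
  have cik : ‖q k - q i‖ = ‖q i - q k‖ := norm_sub_rev _ _
  have cjk : ‖q k - q j‖ = ‖q j - q k‖ := norm_sub_rev _ _
  unfold Ord
  rcases le_total ‖q i - q j‖ ‖q i - q k‖ with h1 | h1
  · rcases le_total ‖q i - q k‖ ‖q j - q k‖ with h2 | h2
    · -- the longest side is `j k`, the apex is `i`, `i j` is the shortest
      refine ⟨i, j, k, rfl, hij, ?_, ?_, h1⟩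
      · rw [cjk]; exact h1.trans h2
      · rw [cjk]; exact h2
    · -- the longest side is `i k`, the apex is `j`
      rcases le_total ‖q i - q j‖ ‖q j - q k‖ with h3 | h3
      · refine ⟨j, i, k, ?_, hij.symm, ?_, ?_, ?_⟩
        · ext z; simp; tauto
        · rw [cij, cik]; exact h1
        · rw [cik]; exact h2
        · rw [cij]; exact h3
      · refine ⟨j, k, i, ?_, hjk, ?_, ?_, ?_⟩
        · ext z; simp; tauto
        · exact h2
        · rw [cij]; exact h1
        · rw [cij]; exact h3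
  · rcases le_total ‖q i - q j‖ ‖q j - q k‖ with h2 | h2
    · -- the longest side is `j k`, the apex is `i`, `i k` is the shortest
      refine ⟨i, k, j, ?_, hik, ?_, ?_, h1⟩
      · ext z; simp; tauto
      · exact h1.trans h2
      · exact h2
    · -- the longest side is `i j`, the apex is `k`
      rcases le_total ‖q i - q k‖ ‖q j - q k‖ with h3 | h3
      · refine ⟨k, i, j, ?_, hik.symm, ?_, ?_, ?_⟩
        · ext z; simp; tauto
        · rw [cij, cik]; exact h1
        · rw [cij, cjk]; exact h2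
        · rw [cik, cjk]; exact h3
      · refine ⟨k, j, i, ?_, hjk.symm, ?_, ?_, ?_⟩
        · ext z; simp; tauto
        · rw [cjk]; exact h2
        · rw [cik]; exact h1
        · rw [cik, cjk]; exact h3

/-- The number of faces with surrounded vertices. -/
lemma good_card {n : ℕ} (q : Fin n → E3) (T : Finset (Finset (Fin n))) (r : ℝ) (hn : 2 ≤ n)
    (h3 : 3 * T.card = n * (n - 1)) (hi : ∀ i, (T.filter (fun t => i ∈ t)).card = n - 1)
    (hS : 12 * ({i | ¬ Sur q r i}.ncard : ℝ) ≤ n) :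
    ∃ G : Finset (Finset (Fin n)), G ⊆ T ∧ (∀ t ∈ G, ∀ i ∈ t, Sur q r i) ∧
      (n : ℝ) * ((n : ℝ) / 8) ≤ (G.card : ℝ) := by
  classical
  set NS : Finset (Fin n) := Finset.univ.filter (fun i => ¬ Sur q r i) with hNS
  have hNSc : ({i | ¬ Sur q r i}.ncard) = NS.card := by
    rw [← Set.ncard_coe_finset]
    congr 1
    ext i
    simp [hNS]
  rw [hNSc] at hS
  set G : Finset (Finset (Fin n)) := T.filter (fun t => ∀ i ∈ t, Sur q r i) with hG
  set B : Finset (Finset (Fin n)) := T.filter (fun t => ¬ ∀ i ∈ t, Sur q r i) with hB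
  have hGB : G.card + B.card = T.card := by
    rw [hG, hB]
    exact Finset.card_filter_add_card_filter_not (s := T) (fun t => ∀ i ∈ t, Sur q r i)
  have hBsub : B ⊆ NS.biUnion (fun i => T.filter (fun t => i ∈ t)) := by
    intro t ht
    rw [hB, Finset.mem_filter] at ht
    obtain ⟨htT, hne⟩ := ht
    push Not at hne
    obtain ⟨i, hit, hnot⟩ := hne
    rw [Finset.mem_biUnion]
    exact ⟨i, by simp [hNS, hnot], by simp [htT, hit]⟩
  have hBc : B.card ≤ NS.card * (n - 1) := by
    refine (Finset.card_le_card hBsub).trans ?_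
    refine Finset.card_biUnion_le_card_mul _ _ _ ?_
    intro i _
    exact (hi i).le
  refine ⟨G, Finset.filter_subset _ _, ?_, ?_⟩
  · intro t ht
    exact (Finset.mem_filter.1 ht).2
  · have hn1 : ((n - 1 : ℕ) : ℝ) = (n : ℝ) - 1 := by
      rw [Nat.cast_sub (by omega)]
      simp
    have e1 : 3 * (T.card : ℝ) = (n : ℝ) * ((n : ℝ) - 1) := by
      have := congrArg (fun z : ℕ => (z : ℝ)) h3
      simp only [Nat.cast_mul, Nat.cast_ofNat, hn1] at this
      exact this
    have e2 : (B.card : ℝ) ≤ (NS.card : ℝ) * ((n : ℝ) - 1) := by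
      have : (B.card : ℝ) ≤ ((NS.card * (n - 1) : ℕ) : ℝ) := by exact_mod_cast hBc
      rwa [Nat.cast_mul, hn1] at this
    have e3 : (G.card : ℝ) + B.card = T.card := by exact_mod_cast hGB
    have hn2 : (2 : ℝ) ≤ n := by exact_mod_cast hn
    nlinarith

/-- Many faces have the same apex. -/
lemma apex {n : ℕ} (G : Finset (Finset (Fin n))) (f : Finset (Fin n) → Fin n) (hn : 2 ≤ n)
    (hG : (n : ℝ) * ((n : ℝ) / 8) ≤ (G.card : ℝ)) :
    ∃ x : Fin n, (n : ℝ) / 8 ≤ ((G.filter (fun t => f t = x)).card : ℝ) := by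
  classical
  have hne : (Finset.univ : Finset (Fin n)).Nonempty := ⟨⟨0, by omega⟩, Finset.mem_univ _⟩
  obtain ⟨y, _, hy⟩ := Finset.exists_le_card_fiber_of_nsmul_le_card_of_maps_to (s := G)
    (t := (Finset.univ : Finset (Fin n))) (f := f) (b := (n : ℝ) / 8)
    (fun a _ => Finset.mem_univ _) hne (by
      rw [Finset.card_univ, Fintype.card_fin, nsmul_eq_mul]
      exact hG)
  exact ⟨y, hy⟩

/-- The density of the vectors from the apex. -/
lemma den {n : ℕ} (q : Fin n → E3) (T I : Finset (Finset (Fin n))) (m : ℝ) (hT : Srf q T)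
    (hD : Den Finset.univ q m) (x : Fin n) (a : Finset (Fin n) → Fin n) (hI : I ⊆ T)
    (hx : ∀ t ∈ I, x ∈ t ∧ a t ∈ t ∧ x ≠ a t) : Den I (fun t => q (a t) - q x) (2 * m) := by
  classical
  intro y
  have h1 : (I.filter (fun t => ‖q (a t) - q x - y‖ ≤ 1)).card ≤
      2 * (Finset.univ.filter (fun i => ‖q i - (q x + y)‖ ≤ 1)).card := by
    refine Finset.card_le_mul_card_image_of_maps_to (f := a) ?_ 2 ?_
    · intro t ht
      rw [Finset.mem_filter] at ht
      rw [Finset.mem_filter]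
      refine ⟨Finset.mem_univ _, ?_⟩
      have e : q (a t) - (q x + y) = q (a t) - q x - y := by abel
      rw [e]
      exact ht.2
    · intro i _
      by_cases hix : x = i
      · have h0 : ((I.filter (fun t => ‖q (a t) - q x - y‖ ≤ 1)).filter
            (fun t => a t = i)) = ∅ := by
          rw [Finset.eq_empty_iff_forall_notMem]
          intro t ht
          rw [Finset.mem_filter, Finset.mem_filter] at ht
          exact (hx t ht.1.1).2.2 (hix.trans ht.2.symm)
        rw [h0]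
        simp
      · rw [← hT.two x i hix]
        refine Finset.card_le_card ?_
        intro t ht
        rw [Finset.mem_filter, Finset.mem_filter] at ht
        rw [Finset.mem_filter]
        obtain ⟨h1, h2, _⟩ := hx t ht.1.1
        exact ⟨hI ht.1.1, h1, ht.2 ▸ h2⟩
  have h2 := hD (q x + y)
  have h3 : ((I.filter (fun t => ‖q (a t) - q x - y‖ ≤ 1)).card : ℝ) ≤
      2 * ((Finset.univ.filter (fun i => ‖q i - (q x + y)‖ ≤ 1)).card : ℝ) := by
    exact_mod_cast h1
  linarith

/-- The choice of the scale. -/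
lemma scale {ι : Type} [DecidableEq ι] (I : Finset ι) (A : ι → E3) (m R : ℝ) (N : ℝ) (hB : StBall)
    (hN : 0 < N) (hD : Den I A (2 * m)) (hm : 1 ≤ m) (hR : 1 ≤ R) (hA : ∀ t ∈ I, ‖A t‖ ≤ R)
    (hmN : 864 * m ≤ N) (hI : N / 8 ≤ (I.card : ℝ)) :
    ∃ (J : Finset ι) (D : ℝ), J ⊆ I ∧ 1 ≤ D ∧ D ≤ R ∧ (∀ t ∈ J, D / 2 < ‖A t‖ ∧ ‖A t‖ ≤ D) ∧
      N * D ≤ 32 * R * (J.card : ℝ) := by
  classical
  have hm0 : 0 < m := by linarith
  have hq1 : 1 ≤ N / (864 * m) := by
    rw [le_div_iff₀ (by positivity)]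
    linarith
  set D1 : ℝ := (N / (864 * m)) ^ (1 / 3 : ℝ) with hD1
  have hD1one : 1 ≤ D1 := Real.one_le_rpow hq1 (by norm_num)
  have hD13 : D1 ^ 3 = N / (864 * m) := by
    rw [hD1, ← Real.rpow_natCast, ← Real.rpow_mul (by positivity)]
    norm_num
  -- the short vectors
  have hshort : ((I.filter (fun i => ‖A i - 0‖ ≤ D1)).card : ℝ) ≤ N / 16 := by
    refine (hB ι I A (2 * m) hD 0 D1 (by linarith)).trans ?_
    have h1 : (2 * D1 + 1) ^ 3 ≤ (3 * D1) ^ 3 := by
      gcongr
      linarith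
    have h2 : 2 * m * (2 * D1 + 1) ^ 3 ≤ 2 * m * (3 * D1) ^ 3 :=
      mul_le_mul_of_nonneg_left h1 (by positivity)
    refine h2.trans (le_of_eq ?_)
    rw [mul_pow, hD13]
    field_simp
    ring
  simp only [sub_zero] at hshort
  set I' : Finset ι := I.filter (fun i => ¬ ‖A i‖ ≤ D1) with hI'
  have hsum : (I.filter (fun i => ‖A i‖ ≤ D1)).card + I'.card = I.card :=
    Finset.card_filter_add_card_filter_not (s := I) (fun i => ‖A i‖ ≤ D1)
  have hI'c : N / 16 ≤ (I'.card : ℝ) := by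
    have : ((I.filter (fun i => ‖A i‖ ≤ D1)).card : ℝ) + I'.card = I.card := by
      exact_mod_cast hsum
    linarith
  have hlong : ∀ t ∈ I', 1 < ‖A t‖ := by
    intro t ht
    rw [hI', Finset.mem_filter, not_le] at ht
    linarith [ht.2]
  -- the classes
  have hk : ∀ t : ι, ∃ k : ℕ, t ∈ I' → (2 : ℝ) ^ k ≤ R / ‖A t‖ ∧ R / ‖A t‖ < 2 ^ (k + 1) := by
    intro t
    by_cases ht : t ∈ I'
    · have h1 := hlong t ht
      have h2 := hA t (Finset.filter_subset _ _ ht)
      have h3 : 1 ≤ R / ‖A t‖ := by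
        rw [le_div_iff₀ (by linarith)]
        linarith
      obtain ⟨k, hk⟩ := exists_nat_pow_near h3 (by norm_num : (1 : ℝ) < 2)
      exact ⟨k, fun _ => hk⟩
    · exact ⟨0, fun h => absurd h ht⟩
  choose k hk using hk
  have key : ∃ c : ℕ, N / 32 * (1 / 2) ^ c ≤ ((I'.filter (fun t => k t = c)).card : ℝ) := by
    by_contra hcon
    push Not at hcon
    set K : ℕ := I'.sup k + 1 with hK
    have hmaps : ∀ t ∈ I', k t ∈ Finset.range K := by
      intro t ht
      rw [Finset.mem_range, hK]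
      exact Nat.lt_succ_of_le (Finset.le_sup (f := k) ht)
    have e1 : (I'.card : ℝ) = ∑ c ∈ Finset.range K, ((I'.filter (fun t => k t = c)).card : ℝ) := by
      rw [Finset.card_eq_sum_card_fiberwise hmaps]
      push_cast
      rfl
    have e2 : ∑ c ∈ Finset.range K, ((I'.filter (fun t => k t = c)).card : ℝ) <
        ∑ c ∈ Finset.range K, N / 32 * (1 / 2) ^ c :=
      Finset.sum_lt_sum_of_nonempty ⟨0, by simp [hK]⟩ (fun c _ => hcon c)
    have e3 : ∑ c ∈ Finset.range K, N / 32 * (1 / 2 : ℝ) ^ c ≤ N / 16 := by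
      rw [← Finset.mul_sum]
      have := sum_geometric_two_le K
      nlinarith
    linarith
  obtain ⟨c, hc⟩ := key
  set J : Finset ι := I'.filter (fun t => k t = c) with hJ
  have hpow : (0 : ℝ) < 2 ^ c := by positivity
  have hpow1 : (1 : ℝ) ≤ 2 ^ c := one_le_pow₀ (by norm_num)
  have hJA : ∀ t ∈ J, R / 2 ^ c / 2 < ‖A t‖ ∧ ‖A t‖ ≤ R / 2 ^ c := by
    intro t ht
    rw [hJ, Finset.mem_filter] at ht
    obtain ⟨ht1, ht2⟩ := ht
    obtain ⟨h1, h2⟩ := hk t ht1
    rw [ht2] at h1 h2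
    have hpos : 0 < ‖A t‖ := by linarith [hlong t ht1]
    rw [le_div_iff₀ hpos] at h1
    rw [div_lt_iff₀ hpos, pow_succ] at h2
    constructor
    · rw [div_div, div_lt_iff₀ (by positivity)]
      linarith
    · rw [le_div_iff₀ hpow]
      linarith
  have hJne : J.Nonempty := by
    rw [← Finset.card_pos]
    have : (0 : ℝ) < J.card := lt_of_lt_of_le (by positivity) hc
    exact_mod_cast this
  refine ⟨J, R / 2 ^ c, ?_, ?_, ?_, hJA, ?_⟩
  · exact (Finset.filter_subset _ _).trans (Finset.filter_subset _ _)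
  · obtain ⟨t, ht⟩ := hJne
    have h1 := hlong t (Finset.filter_subset _ _ ht)
    exact h1.le.trans (hJA t ht).2
  · exact div_le_self (by linarith) hpow1
  · have h1 : N / 32 * (1 / 2) ^ c * (32 * R) ≤ (J.card : ℝ) * (32 * R) :=
      mul_le_mul_of_nonneg_right hc (by linarith)
    have h2 : N / 32 * (1 / 2) ^ c * (32 * R) = N * (R / 2 ^ c) := by
      rw [one_div, inv_pow]
      field_simp
    rw [h2] at h1
    linarith

end PickAux

open PickAux in
/-- Many faces with the same vertex opposite to the longest side, at the same scale. -/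
theorem stPick (hN : StNum) (hB : StBall) : StPick := by
  classical
  intro n q T m R r hT hn hD hR hq hS hm
  obtain ⟨h3, hi⟩ := hN n q T hT
  obtain ⟨G, hGT, hGS, hGc⟩ := good_card q T r hn h3 hi hS
  have hn0 : (0 : ℝ) < n := by
    have : 0 < n := by omega
    exact_mod_cast this
  -- the order of the vertices
  have hord : ∀ t : Finset (Fin n), ∃ p : Fin n × Fin n × Fin n, t ∈ T → Ord q t p.1 p.2.1 p.2.2 := by
    intro t
    by_cases ht : t ∈ T
    · obtain ⟨x, a, w, h⟩ := order3 q t (hT.card t ht)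
      exact ⟨(x, a, w), fun _ => h⟩
    · exact ⟨(⟨0, by omega⟩, ⟨0, by omega⟩, ⟨0, by omega⟩), fun h => absurd h ht⟩
  choose p hp using hord
  obtain ⟨x, hx⟩ := apex G (fun t => (p t).1) hn hGc
  set I : Finset (Finset (Fin n)) := G.filter (fun t => (p t).1 = x) with hI
  have hIG : I ⊆ G := Finset.filter_subset _ _
  have hIo : ∀ t ∈ I, Ord q t x (p t).2.1 (p t).2.2 := by
    intro t ht
    have h1 := hp t (hGT (hIG ht))
    rw [hI, Finset.mem_filter] at ht
    rw [← ht.2]
    exact h1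
  have hm1 : 1 ≤ m := by
    have h1 := hD (q ⟨0, by omega⟩)
    refine le_trans ?_ h1
    have h2 : 0 < (Finset.univ.filter (fun i : Fin n => ‖q i - q ⟨0, by omega⟩‖ ≤ 1)).card := by
      rw [Finset.card_pos]
      exact ⟨⟨0, by omega⟩, by simp⟩
    exact_mod_cast h2
  have hden : Den I (fun t => q ((p t).2.1) - q x) (2 * m) := by
    refine den q T I m hT hD x (fun t => (p t).2.1) (hIG.trans hGT) ?_
    intro t ht
    exact ⟨(hIo t ht).mx, (hIo t ht).ma, (hIo t ht).2.1⟩
  obtain ⟨J, D, hJI, hD1, hDR, hJA, hJc⟩ := scale I (fun t => q ((p t).2.1) - q x) m R n hB hn0 hden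
    hm1 hR (fun t _ => hq _ _) hm hx
  refine ⟨x, J, fun t => (p t).2.1, fun t => (p t).2.2, D, ?_, ?_, ?_, hD1, hDR, hJA, hJc⟩
  · exact hJI.trans (hIG.trans hGT)
  · intro t ht
    have ho := hIo t (hJI ht)
    have hs := hGS t (hIG (hJI ht))
    exact ⟨ho.1, hs _ ho.ma, hs _ ho.mw, ho.2.2.1, ho.2.2.2.1, ho.2.2.2.2⟩
  · intro y
    refine le_trans ?_ (hden y)
    exact_mod_cast Finset.card_le_card (Finset.filter_subset_filter _ hJI)

end Pool.Agent.Lib.MP_4f1247_co
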