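import Pool.Agent.Lib.MP_4f1247_co.Stmts

set_option autoImplicit false

/-!
# Neighborly polyhedral surfaces are not dense: scaling
-/

namespace Pool.Agent.Lib.MP_4f1247_co

open Finset
open scoped RealInnerProductSpace Pointwise

namespace ScaleAux

lemma ind_smul {ι : Type} (p : ι → E3) {s : ℝ} (hs : s ≠ 0) (h : AffineIndependent ℝ p) :
    AffineIndependent ℝ (fun i => s • p i) := by
  have h1 : AffineIndependent ℝ (Units.mk0 s hs • p) := h.smul ℝ
  have h2 : (Units.mk0 s hs • p) = fun i => s • p i := by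
    funext i
    rw [Pi.smul_apply, Units.smul_mk0]
  rwa [h2] at h1

lemma hull_smul {n : ℕ} (q : Fin n → E3) (s : ℝ) (A : Set (Fin n)) :
    convexHull ℝ ((fun i => s • q i) '' A) = s • convexHull ℝ (q '' A) := by
  rw [← convexHull_smul, ← Set.image_smul, Set.image_image]

/-- Scaling. -/
lemma srf_smul {n : ℕ} {q : Fin n → E3} {T : Finset (Finset (Fin n))} (h : Srf q T) {s : ℝ}
    (hs : s ≠ 0) : Srf (fun i => s • q i) T where
  card := h.card
  two := h.two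
  ind := fun t ht => ind_smul _ hs (h.ind t ht)
  emb := by
    intro t₁ h₁ t₂ h₂
    rw [hull_smul, hull_smul, hull_smul, ← Set.smul_set_inter₀ hs, h.emb t₁ h₁ t₂ h₂]

lemma rpow_cube {z : ℝ} (hz : 0 ≤ z) : (z ^ (8 / 3 : ℝ)) ^ 3 = z ^ 8 := by
  rw [← Real.rpow_natCast, ← Real.rpow_mul hz]
  norm_num

lemma exists_dense {n : ℕ} (hn : 0 < n) (q : Fin n → E3) : ∃ x0 : E3,
    1 ≤ ((Finset.univ.filter (fun i => ‖q i - x0‖ ≤ 1)).card : ℝ) ∧
      Den Finset.univ q ((Finset.univ.filter (fun i => ‖q i - x0‖ ≤ 1)).card : ℝ) := by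
  have hfin : (Set.range fun x : E3 => (Finset.univ.filter (fun i => ‖q i - x‖ ≤ 1)).card).Finite := by
    refine (Set.finite_Iic n).subset ?_
    rintro _ ⟨x, rfl⟩
    have := Finset.card_le_univ (Finset.univ.filter (fun i => ‖q i - x‖ ≤ 1))
    rw [Fintype.card_fin] at this
    exact this
  obtain ⟨k, ⟨x0, hx0⟩, hk⟩ := Set.exists_max_image _ id hfin ⟨_, ⟨q ⟨0, hn⟩, rfl⟩⟩
  refine ⟨x0, ?_, ?_⟩
  · have h1 : 1 ≤ (Finset.univ.filter (fun i => ‖q i - q ⟨0, hn⟩‖ ≤ 1)).card := by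
      rw [Nat.one_le_iff_ne_zero, Finset.card_ne_zero]
      exact ⟨⟨0, hn⟩, by simp⟩
    have h2 := hk _ ⟨q ⟨0, hn⟩, rfl⟩
    simp only [id] at h2
    have h3 : 1 ≤ (Finset.univ.filter (fun i => ‖q i - x0‖ ≤ 1)).card := by
      rw [← hx0] at h2
      exact h1.trans h2
    exact_mod_cast h3
  · intro x
    have h2 := hk _ ⟨x, rfl⟩
    simp only [id] at h2
    rw [← hx0] at h2
    exact_mod_cast h2

end ScaleAux

open ScaleAux in
/-- The theorem from its normal form. -/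
theorem stFin (h : StNorm) : StFin := by
  obtain ⟨K, hK, h⟩ := h
  have hK0 : 0 < K := by linarith
  obtain ⟨c, hc⟩ : ∃ c : ℝ, c = K ^ (-(1 / 3) : ℝ) := ⟨_, rfl⟩
  have hc0 : 0 < c := by
    rw [hc]
    positivity
  have hc1 : c ≤ 1 := by
    rw [hc]
    exact Real.rpow_le_one_of_one_le_of_nonpos hK (by norm_num)
  have hc3 : c ^ 3 = K⁻¹ := by
    rw [hc, ← Real.rpow_natCast, ← Real.rpow_mul hK0.le]
    norm_num
    rw [Real.rpow_neg_one]
  have main : ∀ (n : ℕ) (q : Fin n → E3) (T : Finset (Finset (Fin n))), Srf q T →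
      ∀ R s : ℝ, 0 < s → s ≤ R → (∀ i j, dist (q i) (q j) ≤ R) →
        ∃ x : E3, c * (s / R) ^ (8 / 3 : ℝ) * n ≤ ({i | dist (q i) x ≤ s}.ncard : ℝ) := by
    intro n q T hS R s hs hsR hd
    have hR0 : 0 < R := lt_of_lt_of_le hs hsR
    rcases Nat.eq_zero_or_pos n with hn | hn
    · refine ⟨0, ?_⟩
      have : (n : ℝ) = 0 := by exact_mod_cast hn
      rw [this, mul_zero]
      positivity
    obtain ⟨x0, hx1, hx2⟩ := exists_dense hn (fun i => s⁻¹ • q i)
    have hs' : s⁻¹ ≠ 0 := inv_ne_zero hs.ne'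
    have h1 := h n (fun i => s⁻¹ • q i) T _ (R / s) (srf_smul hS hs') hx1
      (by rw [le_div_iff₀ hs]; linarith) hx2 (by
      intro i j
      rw [← smul_sub, norm_smul, norm_inv, Real.norm_of_nonneg hs.le, ← dist_eq_norm,
        inv_mul_eq_div]
      exact div_le_div_of_nonneg_right (hd i j) hs.le)
    obtain ⟨m, hm⟩ : ∃ m : ℝ,
        m = ((Finset.univ.filter (fun i => ‖s⁻¹ • q i - x0‖ ≤ 1)).card : ℝ) := ⟨_, rfl⟩
    rw [← hm] at h1 hx1
    refine ⟨s • x0, ?_⟩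
    have h2 : ({i | dist (q i) (s • x0) ≤ s}.ncard : ℝ) = m := by
      rw [hm]
      norm_cast
      rw [← Set.ncard_coe_finset]
      congr 1
      ext i
      simp only [Set.mem_ofPred_eq, Finset.coe_filter, Finset.mem_univ, true_and]
      have h3 : q i - s • x0 = s • (s⁻¹ • q i - x0) := by
        rw [smul_sub, smul_smul, mul_inv_cancel₀ hs.ne', one_smul]
      rw [dist_eq_norm, h3, norm_smul, Real.norm_of_nonneg hs.le]
      constructor
      · intro h4
        by_contra h5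
        have : s * 1 < s * ‖s⁻¹ • q i - x0‖ := mul_lt_mul_of_pos_left (not_le.1 h5) hs
        linarith
      · intro h4
        have := mul_le_mul_of_nonneg_left h4 hs.le
        linarith
    rw [h2]
    have hz : 0 ≤ s / R := by positivity
    have hpow : (c * (s / R) ^ (8 / 3 : ℝ) * n) ^ 3 ≤ m ^ 3 := by
      rw [mul_pow, mul_pow, hc3, rpow_cube hz]
      have h3 : K⁻¹ * (s / R) ^ 8 * (n : ℝ) ^ 3 ≤ K⁻¹ * (s / R) ^ 8 * (K * m ^ 3 * (R / s) ^ 8) :=
        mul_le_mul_of_nonneg_left h1 (by positivity)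
      refine h3.trans (le_of_eq ?_)
      field_simp
    exact le_of_pow_le_pow_left₀ (by norm_num) (by linarith) hpow
  refine ⟨c / 4, by positivity, ?_⟩
  intro n q T hS
  refine ⟨?_, ?_⟩
  · intro R s hs hsR hd
    obtain ⟨x, hx⟩ := main n q T hS R s hs hsR hd
    refine ⟨x, le_trans ?_ hx⟩
    have hR0 : 0 < R := lt_of_lt_of_le hs hsR
    have : 0 ≤ (s / R) ^ (8 / 3 : ℝ) * n := by positivity
    nlinarith
  · intro hn R s hs hd hsep
    have hne : (⟨0, by omega⟩ : Fin n) ≠ ⟨1, by omega⟩ := by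
      intro h0
      have := congrArg Fin.val h0
      simp at this
    have hsR : s ≤ R := (hsep _ _ hne).trans (hd _ _)
    have hR0 : 0 < R := lt_of_lt_of_le hs hsR
    obtain ⟨x, hx⟩ := main n q T hS R (s / 4) (by positivity) (by linarith) hd
    have h1 : {i | dist (q i) x ≤ s / 4}.ncard ≤ 1 := by
      rw [Set.ncard_le_one_iff]
      intro i j hi hj
      by_contra hij
      have h2 := hsep i j hij
      have h3 := dist_triangle_right (q i) (q j) x
      simp only [Set.mem_ofPred_eq] at hi hj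
      linarith
    have h2 : c * (s / 4 / R) ^ (8 / 3 : ℝ) * n ≤ 1 := hx.trans (by exact_mod_cast h1)
    -- take cubes, then the eighth root
    have h3 : c ^ 3 * (s / 4 / R) ^ 8 * (n : ℝ) ^ 3 ≤ 1 := by
      have h4 : (c * (s / 4 / R) ^ (8 / 3 : ℝ) * n) ^ 3 ≤ 1 ^ 3 :=
        pow_le_pow_left₀ (by positivity) h2 3
      rwa [mul_pow, mul_pow, rpow_cube (by positivity), one_pow] at h4
    have h5 : (c / 4 * (n : ℝ) ^ (3 / 8 : ℝ)) ^ 8 ≤ (R / s) ^ 8 := by
      have h6 : ((n : ℝ) ^ (3 / 8 : ℝ)) ^ 8 = (n : ℝ) ^ 3 := by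
        rw [← Real.rpow_natCast, ← Real.rpow_mul (Nat.cast_nonneg n)]
        norm_num
      rw [mul_pow, h6]
      have h7 : c ^ 8 ≤ c ^ 3 := pow_le_pow_of_le_one hc0.le hc1 (by norm_num)
      have h8 : (c / 4) ^ 8 * (n : ℝ) ^ 3 * (s / R) ^ 8 ≤ 1 := by
        calc (c / 4) ^ 8 * (n : ℝ) ^ 3 * (s / R) ^ 8 = c ^ 8 * (s / 4 / R) ^ 8 * (n : ℝ) ^ 3 := by
              field_simp
          _ ≤ c ^ 3 * (s / 4 / R) ^ 8 * (n : ℝ) ^ 3 := by gcongr
          _ ≤ 1 := h3
      have h9 : (s / R) ^ 8 * (R / s) ^ 8 = 1 := by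
        rw [← mul_pow]
        field_simp
      have h10 : 0 ≤ (R / s) ^ 8 := by positivity
      calc (c / 4) ^ 8 * (n : ℝ) ^ 3 = (c / 4) ^ 8 * (n : ℝ) ^ 3 * ((s / R) ^ 8 * (R / s) ^ 8) := by
            rw [h9, mul_one]
        _ = (c / 4) ^ 8 * (n : ℝ) ^ 3 * (s / R) ^ 8 * (R / s) ^ 8 := by ring
        _ ≤ 1 * (R / s) ^ 8 := mul_le_mul_of_nonneg_right h8 h10
        _ = (R / s) ^ 8 := one_mul _
    exact le_of_pow_le_pow_left₀ (by norm_num) (by positivity) h5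

end Pool.Agent.Lib.MP_4f1247_co
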