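import Pool.Agent.Lib.MP_4f1247_co.Stmts

set_option autoImplicit false

/-!
# Neighborly polyhedral surfaces are not dense: choice of three flags
-/

namespace Pool.Agent.Lib.MP_4f1247_co

open Finset Classical
open scoped RealInnerProductSpace

namespace SelAux

lemma norm_un {x : E3} (h : x ≠ 0) : ‖un x‖ = 1 := by
  rw [un, norm_smul, norm_inv, norm_norm]
  exact inv_mul_cancel₀ (norm_ne_zero_iff.2 h)

lemma inner_un {x : E3} (h : x ≠ 0) (y : E3) : ⟪x, y⟫ = ‖x‖ * ⟪un x, y⟫ := by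
  rw [un, real_inner_smul_left, ← mul_assoc, mul_inv_cancel₀ (norm_ne_zero_iff.2 h), one_mul]

lemma norm_cr_frame {a v w : E3} (h : Fr a v w) (x : E3) :
    ‖cr a x‖ ^ 2 = ⟪x, v⟫ ^ 2 + ⟪x, w⟫ ^ 2 := by
  rw [norm_cr_sq, h.nu, h.norm_sq x, real_inner_comm x a]
  ring

lemma abs_inner_le {a v w : E3} (h : Fr a v w) (x : E3) : |⟪x, v⟫| ≤ ‖cr a x‖ := by
  apply abs_le_of_sq_le_sq _ (norm_nonneg _)
  rw [norm_cr_frame h]
  nlinarith [sq_nonneg ⟪x, w⟫]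

lemma dt_sq {a v w : E3} (h : Fr a v w) (x y : E3) :
    dt a x y ^ 2 = (⟪x, v⟫ * ⟪y, w⟫ - ⟪x, w⟫ * ⟪y, v⟫) ^ 2 := by
  have e := cr_cr a x a y
  have e0 : dt a x a = 0 := inner_cr_left a x
  rw [e0, zero_smul, sub_zero] at e
  have e1 : ‖cr (cr a x) (cr a y)‖ ^ 2 = dt a x y ^ 2 := by
    rw [e, norm_smul, h.nu, mul_one, Real.norm_eq_abs, sq_abs]
  have e2 : ⟪a, a⟫ = 1 := by rw [real_inner_self_eq_norm_sq, h.nu]; norm_num
  have e3 : ⟪x, y⟫ = ⟪x, a⟫ * ⟪y, a⟫ + ⟪x, v⟫ * ⟪y, v⟫ + ⟪x, w⟫ * ⟪y, w⟫ := by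
    conv_lhs => rw [h.expand y]
    simp only [inner_add_right, real_inner_smul_right]
    ring
  rw [← e1, norm_cr_sq, norm_cr_frame h, norm_cr_frame h, inner_cr_cr, e2, e3,
    real_inner_comm y a]
  ring

lemma norm_cr_un_le {x y : E3} (hx : x ≠ 0) (hy : y ≠ 0) : ‖cr (un x) (un y)‖ ≤ 1 := by
  have h := norm_cr_le (un x) (un y)
  rw [norm_un hx, norm_un hy] at h
  linarith

lemma norm_cr_comm (x y : E3) : ‖cr x y‖ = ‖cr y x‖ := by
  rw [cr_anti y x, norm_neg]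

section

variable {ι : Type} {I : Finset ι} {A : ι → E3} {μ : ℝ}

lemma box_count (hB : StBox) (hD : Den I A μ) {u v w : E3} (hF : Fr u v w) {a b c : ℝ}
    (ha : 0 ≤ a) (hb : 0 ≤ b) (hc : 0 ≤ c) (P : ι → Prop) [DecidablePred P]
    (hP : ∀ i ∈ I, P i → |⟪A i, u⟫| ≤ a ∧ |⟪A i, v⟫| ≤ b ∧ |⟪A i, w⟫| ≤ c) :
    ((I.filter P).card : ℝ) ≤ μ * ((2 * a + 1) * (2 * b + 1) * (2 * c + 1)) := by
  refine le_trans ?_ (hB ι I A μ hD u v w hF 0 a b c ha hb hc)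
  have h : I.filter P ⊆ I.filter (fun i => |⟪A i - 0, u⟫| ≤ a ∧ |⟪A i - 0, v⟫| ≤ b ∧
      |⟪A i - 0, w⟫| ≤ c) := by
    intro i hi
    obtain ⟨h1, h2⟩ := Finset.mem_filter.1 hi
    refine Finset.mem_filter.2 ⟨h1, ?_⟩
    rw [sub_zero]
    exact hP i h1 h2
  exact_mod_cast Finset.card_le_card h

variable {D ε : ℝ}

/-- The flags with a small inner product with a given vector. -/
lemma count_inner (hB : StBox) (hD : Den I A μ) (hμ : 0 < μ) (hε : 0 < ε)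
    (hE : 4 ≤ ε * D) (hD4 : 4 ≤ D) (hA : ∀ i ∈ I, A i ≠ 0 ∧ ‖A i‖ ≤ D) {m0 : E3}
    (hm : 1 / 2 ≤ ‖m0‖) (c : ι → ℝ) (hc : ∀ i ∈ I, c i ≤ 1) :
    ((I.filter (fun j => |⟪un (A j), m0⟫| < ε * c j)).card : ℝ) ≤ 22 * (μ * ε * D ^ 3) := by
  have hm0 : m0 ≠ 0 := by
    rintro rfl
    rw [norm_zero] at hm
    norm_num at hm
  obtain ⟨v, w, hF⟩ := Fr.exists_of_unit (un m0) (norm_un hm0)
  have h := box_count hB hD hF (a := 2 * (ε * D)) (b := D) (c := D) (by linarith) (by linarith)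
    (by linarith) (fun j => |⟪un (A j), m0⟫| < ε * c j) (by
      intro j hj hj2
      obtain ⟨h1, h2⟩ := hA j hj
      refine ⟨?_, ?_, ?_⟩
      · rw [inner_un h1, abs_mul, abs_of_nonneg (norm_nonneg (A j))]
        have e1 : ⟪un (A j), m0⟫ = ‖m0‖ * ⟪un (A j), un m0⟫ := by
          rw [real_inner_comm, inner_un hm0, real_inner_comm]
        rw [e1, abs_mul, abs_of_nonneg (norm_nonneg m0)] at hj2
        have h3 : ‖m0‖ * |⟪un (A j), un m0⟫| < ε :=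
          lt_of_lt_of_le hj2 (mul_le_of_le_one_right hε.le (hc j hj))
        have h4 : |⟪un (A j), un m0⟫| ≤ 2 * ε := by
          nlinarith [abs_nonneg ⟪un (A j), un m0⟫]
        calc ‖A j‖ * |⟪un (A j), un m0⟫| ≤ D * (2 * ε) :=
              mul_le_mul h2 h4 (abs_nonneg _) (by linarith)
          _ = 2 * (ε * D) := by ring
      · refine (abs_real_inner_le_norm _ _).trans ?_
        rw [hF.nv, mul_one]
        exact h2
      · refine (abs_real_inner_le_norm _ _).trans ?_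
        rw [hF.nw, mul_one]
        exact h2)
  refine h.trans ?_
  have e1 : 2 * (2 * (ε * D)) + 1 ≤ 17 / 4 * (ε * D) := by linarith
  have e2 : 2 * D + 1 ≤ 9 / 4 * D := by linarith
  have e3 : (2 * (2 * (ε * D)) + 1) * (2 * D + 1) * (2 * D + 1) ≤
      17 / 4 * (ε * D) * (9 / 4 * D) * (9 / 4 * D) := by gcongr
  have e4 : 17 / 4 * (ε * D) * (9 / 4 * D) * (9 / 4 * D) ≤ 22 * (ε * D ^ 3) := by
    have : 0 < ε * D ^ 3 := by positivity
    nlinarith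
  calc μ * ((2 * (2 * (ε * D)) + 1) * (2 * D + 1) * (2 * D + 1)) ≤ μ * (22 * (ε * D ^ 3)) :=
        mul_le_mul_of_nonneg_left (e3.trans e4) hμ.le
    _ = 22 * (μ * ε * D ^ 3) := by ring

/-- The flags nearly in the direction of a given one. -/
lemma count_cr (hB : StBox) (hD : Den I A μ) (hμ : 0 < μ) (hε : 0 < ε) (hε1 : ε ≤ 1)
    (hE : 4 ≤ ε * D) (hD4 : 4 ≤ D) (hA : ∀ i ∈ I, A i ≠ 0 ∧ ‖A i‖ ≤ D) {a : E3}
    (ha : ‖a‖ = 1) :
    ((I.filter (fun j => ‖cr a (un (A j))‖ < ε)).card : ℝ) ≤ 12 * (μ * ε * D ^ 3) := by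
  obtain ⟨v, w, hF⟩ := Fr.exists_of_unit a ha
  have h := box_count hB hD hF (a := D) (b := ε * D) (c := ε * D) (by linarith) (by linarith)
    (by linarith) (fun j => ‖cr a (un (A j))‖ < ε) (by
      intro j hj hj2
      obtain ⟨h1, h2⟩ := hA j hj
      have key : ∀ z : E3, |⟪un (A j), z⟫| ≤ ‖cr a (un (A j))‖ → |⟪A j, z⟫| ≤ ε * D := by
        intro z hz
        rw [inner_un h1, abs_mul, abs_of_nonneg (norm_nonneg (A j)), mul_comm]
        exact mul_le_mul (hz.trans hj2.le) h2 (norm_nonneg _) hε.le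
      refine ⟨?_, ?_, ?_⟩
      · refine (abs_real_inner_le_norm _ _).trans ?_
        rw [ha, mul_one]
        exact h2
      · exact key v (abs_inner_le hF _)
      · exact key w (abs_inner_le hF.swap _))
  refine h.trans ?_
  have e1 : 2 * (ε * D) + 1 ≤ 9 / 4 * (ε * D) := by linarith
  have e2 : 2 * D + 1 ≤ 9 / 4 * D := by linarith
  have e3 : (2 * D + 1) * (2 * (ε * D) + 1) * (2 * (ε * D) + 1) ≤
      9 / 4 * D * (9 / 4 * (ε * D)) * (9 / 4 * (ε * D)) := by gcongr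
  have e4 : 9 / 4 * D * (9 / 4 * (ε * D)) * (9 / 4 * (ε * D)) ≤ 12 * (ε * D ^ 3) := by
    have h1 : ε * (ε * D ^ 3) ≤ 1 * (ε * D ^ 3) := by gcongr
    have : 0 < ε * D ^ 3 := by positivity
    nlinarith
  calc μ * ((2 * D + 1) * (2 * (ε * D) + 1) * (2 * (ε * D) + 1)) ≤ μ * (12 * (ε * D ^ 3)) :=
        mul_le_mul_of_nonneg_left (e3.trans e4) hμ.le
    _ = 12 * (μ * ε * D ^ 3) := by ring

/-- The flags nearly in the direction of a given one and nearly in a given plane. -/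
lemma count_plane (hB : StBox) (hD : Den I A μ) (hμ : 0 < μ) (hε : 0 < ε)
    (hE : 4 ≤ ε * D) (hD4 : 4 ≤ D) (hk : 4 ≤ ε ^ 2 * D)
    (hA : ∀ i ∈ I, A i ≠ 0 ∧ ‖A i‖ ≤ D) {a b : E3} (hb : ‖b‖ = 1)
    (hab : cr a b ≠ 0) :
    ((I.filter (fun k => ‖cr b (un (A k))‖ < ε ∧
      |dt a b (un (A k))| ≤ ε ^ 2 / 4 * ‖cr a b‖)).card : ℝ) ≤ 4 * (μ * ε ^ 3 * D ^ 3) := by
  have hn : (un (cr a b)) = ‖cr a b‖⁻¹ • cr a b := rfl
  have hF := Fr.of_two hb (norm_un hab) (by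
    rw [hn, real_inner_smul_right, real_inner_comm, inner_cr_right, mul_zero])
  have hpos : 0 < ‖cr a b‖ := norm_pos_iff.2 hab
  have h := box_count hB hD hF (a := D) (b := ε ^ 2 / 4 * D) (c := ε * D) (by linarith)
    (by linarith) (by linarith) (fun k => ‖cr b (un (A k))‖ < ε ∧
      |dt a b (un (A k))| ≤ ε ^ 2 / 4 * ‖cr a b‖) (by
      rintro j hj ⟨hj2, hj3⟩
      obtain ⟨h1, h2⟩ := hA j hj
      refine ⟨?_, ?_, ?_⟩
      · refine (abs_real_inner_le_norm _ _).trans ?_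
        rw [hb, mul_one]
        exact h2
      · rw [inner_un h1, abs_mul, abs_of_nonneg (norm_nonneg (A j)), mul_comm]
        refine mul_le_mul ?_ h2 (norm_nonneg _) (by positivity)
        rw [hn, real_inner_smul_right, real_inner_comm, abs_mul, abs_inv, abs_norm]
        have e1 : |⟪cr a b, un (A j)⟫| ≤ ε ^ 2 / 4 * ‖cr a b‖ := hj3
        rw [inv_mul_le_iff₀ hpos, mul_comm]
        exact e1
      · rw [inner_un h1, abs_mul, abs_of_nonneg (norm_nonneg (A j)), mul_comm]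
        refine mul_le_mul ((abs_inner_le hF.swap _).trans hj2.le) h2 (norm_nonneg _) hε.le)
  refine h.trans ?_
  have e1 : 2 * (ε * D) + 1 ≤ 9 / 4 * (ε * D) := by linarith
  have e2 : 2 * D + 1 ≤ 9 / 4 * D := by linarith
  have e5 : 2 * (ε ^ 2 / 4 * D) + 1 ≤ 3 / 4 * (ε ^ 2 * D) := by linarith
  have e3 : (2 * D + 1) * (2 * (ε ^ 2 / 4 * D) + 1) * (2 * (ε * D) + 1) ≤
      9 / 4 * D * (3 / 4 * (ε ^ 2 * D)) * (9 / 4 * (ε * D)) := by gcongr
  have e4 : 9 / 4 * D * (3 / 4 * (ε ^ 2 * D)) * (9 / 4 * (ε * D)) ≤ 4 * (ε ^ 3 * D ^ 3) := by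
    have : 0 < ε ^ 3 * D ^ 3 := by positivity
    nlinarith
  calc μ * ((2 * D + 1) * (2 * (ε ^ 2 / 4 * D) + 1) * (2 * (ε * D) + 1)) ≤
        μ * (4 * (ε ^ 3 * D ^ 3)) := mul_le_mul_of_nonneg_left (e3.trans e4) hμ.le
    _ = 4 * (μ * ε ^ 3 * D ^ 3) := by ring

end

/-- The class of a point of the plane: its slope up to `κ`. -/
noncomputable def sl (κ X Y : ℝ) : Bool × ℤ :=
  if |Y| ≤ |X| then (true, ⌊Y / X / κ⌋) else (false, ⌊X / Y / κ⌋)

lemma floor_mem {κ t : ℝ} (hκ : 0 < κ) (ht : |t| ≤ 1) : ⌊t / κ⌋ ∈ Finset.Icc (-⌈1 / κ⌉) ⌈1 / κ⌉ := by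
  obtain ⟨h1, h2⟩ := abs_le.1 ht
  have h3 : t / κ ≤ 1 / κ := by gcongr
  have h4 : -(1 / κ) ≤ t / κ := by
    rw [← neg_div]
    gcongr
  rw [Finset.mem_Icc]
  constructor
  · rw [Int.le_floor]
    push_cast
    have := Int.le_ceil (1 / κ)
    linarith
  · have h5 : (⌊t / κ⌋ : ℝ) ≤ ⌈1 / κ⌉ := (Int.floor_le _).trans (h3.trans (Int.le_ceil _))
    exact_mod_cast h5

lemma abs_div_le_one {x y : ℝ} (h : |y| ≤ |x|) : |y / x| ≤ 1 := by
  rw [abs_div]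
  exact div_le_one_of_le₀ h (abs_nonneg x)

lemma sl_mem {κ X Y : ℝ} (hκ : 0 < κ) :
    sl κ X Y ∈ (Finset.univ : Finset Bool) ×ˢ Finset.Icc (-⌈1 / κ⌉) ⌈1 / κ⌉ := by
  rw [Finset.mem_product]
  refine ⟨Finset.mem_univ _, ?_⟩
  unfold sl
  split_ifs with h
  · exact floor_mem hκ (abs_div_le_one h)
  · exact floor_mem hκ (abs_div_le_one (not_le.1 h).le)

lemma floor_eq {κ s t : ℝ} (hκ : 0 < κ) (h : ⌊s / κ⌋ = ⌊t / κ⌋) : |s - t| ≤ κ := by
  have h1 := Int.abs_sub_lt_one_of_floor_eq_floor h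
  rw [← sub_div, abs_div, abs_of_pos hκ, div_lt_one hκ] at h1
  exact h1.le

lemma sl_eq {κ X Y X' Y' : ℝ} (hκ : 0 < κ) (hX : 0 < X ^ 2 + Y ^ 2) (hX' : 0 < X' ^ 2 + Y' ^ 2)
    (h : sl κ X Y = sl κ X' Y') : (X * Y' - Y * X') ^ 2 ≤ κ ^ 2 * ((X ^ 2 + Y ^ 2) * (X' ^ 2 + Y' ^ 2)) := by
  have key : ∀ {X Y X' Y' : ℝ}, X ≠ 0 → X' ≠ 0 → |Y / X - Y' / X'| ≤ κ →
      (X * Y' - Y * X') ^ 2 ≤ κ ^ 2 * ((X ^ 2 + Y ^ 2) * (X' ^ 2 + Y' ^ 2)) := by
    intro X Y X' Y' hX hX' h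
    have e1 : X * Y' - Y * X' = -(X * X') * (Y / X - Y' / X') := by
      field_simp
      ring
    have e2 : (Y / X - Y' / X') ^ 2 ≤ κ ^ 2 := by
      rw [← sq_abs (Y / X - Y' / X')]
      gcongr
    have e3 : (X * X') ^ 2 ≤ (X ^ 2 + Y ^ 2) * (X' ^ 2 + Y' ^ 2) := by
      nlinarith [sq_nonneg (X * Y'), sq_nonneg (Y * X'), sq_nonneg (Y * Y')]
    rw [e1, mul_pow, neg_sq, mul_comm (κ ^ 2)]
    exact mul_le_mul e3 e2 (sq_nonneg _) (by positivity)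
  unfold sl at h
  split_ifs at h with h1 h2 h2
  · have hX0 : X ≠ 0 := by
      rintro rfl
      rw [abs_zero] at h1
      rw [abs_nonpos_iff.1 h1] at hX
      norm_num at hX
    have hX0' : X' ≠ 0 := by
      rintro rfl
      rw [abs_zero] at h2
      rw [abs_nonpos_iff.1 h2] at hX'
      norm_num at hX'
    exact key hX0 hX0' (floor_eq hκ (Prod.ext_iff.1 h).2)
  · simp at h
  · simp at h
  · have hY0 : Y ≠ 0 := by
      rintro rfl
      rw [abs_zero] at h1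
      exact h1 (abs_nonneg _)
    have hY0' : Y' ≠ 0 := by
      rintro rfl
      rw [abs_zero] at h2
      exact h2 (abs_nonneg _)
    have h3 := key hY0 hY0' (floor_eq hκ (Prod.ext_iff.1 h).2)
    have e1 : (X * Y' - Y * X') ^ 2 = (Y * X' - X * Y') ^ 2 := by ring
    rw [e1, add_comm (X ^ 2), add_comm (X' ^ 2)]
    exact h3

/-- A vertex with few bad partners. -/
lemma exists_few {ι : Type} {I : Finset ι} (hI : I.Nonempty) (r : ι → ι → Prop) {K : ℝ}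
    (h : ∀ j ∈ I, ((I.filter (fun i => r i j)).card : ℝ) ≤ K) :
    ∃ i ∈ I, ((I.filter (fun j => r i j)).card : ℝ) ≤ K := by
  have h1 : ∑ i ∈ I, (I.filter (fun j => r i j)).card = ∑ j ∈ I, (I.filter (fun i => r i j)).card :=
    Finset.sum_card_bipartiteAbove_eq_sum_card_bipartiteBelow r
  have h2 : ∑ i ∈ I, ((I.filter (fun j => r i j)).card : ℝ) ≤ ∑ _i ∈ I, K := by
    have h3 : ∑ i ∈ I, ((I.filter (fun j => r i j)).card : ℝ) =
        ∑ j ∈ I, ((I.filter (fun i => r i j)).card : ℝ) := by exact_mod_cast h1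
    rw [h3]
    exact Finset.sum_le_sum h
  exact Finset.exists_le_of_sum_le hI h2

end SelAux

open SelAux in
/-- Among many flags there are three nearly coplanar ones. -/
theorem stSel (hB : StBox) : StSel := by
  intro ι I A m μ D ε hD hμ hD1 hε hε1 hk hA hm hI
  have hE : 4 ≤ ε * D := by nlinarith [mul_le_mul_of_nonneg_right hε1 (by positivity : 0 ≤ ε * D)]
  have hD4 : 4 ≤ D := by nlinarith [mul_le_mul_of_nonneg_right hε1 (by positivity : 0 ≤ D)]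
  set P : ℝ := μ * ε * D ^ 3 with hP
  have hP0 : 0 < P := by positivity
  have hIP : 300 * P ≤ (I.card : ℝ) := by
    rw [hP]
    linarith
  have hIne : I.Nonempty := by
    rw [← Finset.card_pos]
    have : (0 : ℝ) < I.card := by linarith
    exact_mod_cast this
  -- the first flag
  obtain ⟨i, hi, hbad1⟩ := exists_few hIne
    (fun i j => |⟪un (A i), m j⟫| < ε * ‖cr (un (A i)) (un (A j))‖) (K := 22 * P) (by
      intro j hj
      exact count_inner hB hD hμ hε hE hD4 hA (hm j hj) (fun i => ‖cr (un (A i)) (un (A j))‖)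
        (fun i hi => norm_cr_un_le (hA i hi).1 (hA j hj).1))
  have hbad2 := count_inner hB hD hμ hε hE hD4 hA (hm i hi) (fun j => ‖cr (un (A i)) (un (A j))‖)
    (fun j hj => norm_cr_un_le (hA i hi).1 (hA j hj).1)
  have hna : ‖un (A i)‖ = 1 := norm_un (hA i hi).1
  have hbad3 := count_cr hB hD hμ hε hε1 hE hD4 hA hna
  -- the good flags
  set G := I.filter (fun j => ε * ‖cr (un (A i)) (un (A j))‖ ≤ |⟪un (A i), m j⟫| ∧
    ε * ‖cr (un (A i)) (un (A j))‖ ≤ |⟪un (A j), m i⟫| ∧ ε ≤ ‖cr (un (A i)) (un (A j))‖) with hG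
  have hsub : I ⊆ G ∪ (I.filter (fun j => |⟪un (A i), m j⟫| < ε * ‖cr (un (A i)) (un (A j))‖) ∪
      (I.filter (fun j => |⟪un (A j), m i⟫| < ε * ‖cr (un (A i)) (un (A j))‖) ∪
        I.filter (fun j => ‖cr (un (A i)) (un (A j))‖ < ε))) := by
    intro j hj
    simp only [Finset.mem_union, hG, Finset.mem_filter, hj, true_and]
    by_cases h1 : |⟪un (A i), m j⟫| < ε * ‖cr (un (A i)) (un (A j))‖
    · exact Or.inr (Or.inl h1)
    by_cases h2 : |⟪un (A j), m i⟫| < ε * ‖cr (un (A i)) (un (A j))‖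
    · exact Or.inr (Or.inr (Or.inl h2))
    by_cases h3 : ‖cr (un (A i)) (un (A j))‖ < ε
    · exact Or.inr (Or.inr (Or.inr h3))
    exact Or.inl ⟨not_lt.1 h1, not_lt.1 h2, not_lt.1 h3⟩
  have hGc : (I.card : ℝ) ≤ G.card + (22 * P + (22 * P + 12 * P)) := by
    have h1 := Finset.card_le_card hsub
    have h2 := h1.trans ((Finset.card_union_le _ _).trans (Nat.add_le_add_left
      ((Finset.card_union_le _ _).trans (Nat.add_le_add_left (Finset.card_union_le _ _) _)) _))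
    have h3 : (I.card : ℝ) ≤ G.card +
      ((I.filter (fun j => |⟪un (A i), m j⟫| < ε * ‖cr (un (A i)) (un (A j))‖)).card +
      ((I.filter (fun j => |⟪un (A j), m i⟫| < ε * ‖cr (un (A i)) (un (A j))‖)).card +
        (I.filter (fun j => ‖cr (un (A i)) (un (A j))‖ < ε)).card)) := by exact_mod_cast h2
    linarith
  -- the classes
  obtain ⟨v, w, hF⟩ := Fr.exists_of_unit (un (A i)) hna
  have hκ : 0 < ε ^ 2 / 4 := by positivity
  set κ : ℝ := ε ^ 2 / 4 with hκd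
  have hκ1 : κ ≤ 1 / 4 := by
    rw [hκd]
    nlinarith
  set S : Finset (Bool × ℤ) := (Finset.univ : Finset Bool) ×ˢ Finset.Icc (-⌈1 / κ⌉) ⌈1 / κ⌉ with hS
  have hSc : (S.card : ℝ) ≤ 22 / ε ^ 2 := by
    have h0 : (0 : ℝ) < 1 / κ := by positivity
    have h1 : 0 < ⌈1 / κ⌉ := Int.ceil_pos.2 h0
    have h2 : S.card = 2 * (⌈1 / κ⌉ + 1 - -⌈1 / κ⌉).toNat := by
      rw [hS, Finset.card_product, Int.card_Icc, Finset.card_univ, Fintype.card_bool]
    have h3 : ((⌈1 / κ⌉ + 1 - -⌈1 / κ⌉).toNat : ℤ) = ⌈1 / κ⌉ + 1 - -⌈1 / κ⌉ :=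
      Int.toNat_of_nonneg (by omega)
    have h4 : ((⌈1 / κ⌉ + 1 - -⌈1 / κ⌉).toNat : ℝ) = (⌈1 / κ⌉ : ℝ) + 1 - -(⌈1 / κ⌉ : ℝ) := by
      exact_mod_cast h3
    have h5 : (⌈1 / κ⌉ : ℝ) < 1 / κ + 1 := Int.ceil_lt_add_one _
    have h6 : 1 / κ = 4 / ε ^ 2 := by
      rw [hκd]
      field_simp
    have h7 : 1 ≤ 1 / ε ^ 2 := by
      rw [le_div_iff₀ (by positivity)]
      nlinarith
    rw [h2]
    push_cast
    rw [h4]
    have h8 : 4 / ε ^ 2 = 4 * (1 / ε ^ 2) := by ring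
    have h9 : 22 / ε ^ 2 = 22 * (1 / ε ^ 2) := by ring
    rw [h9]
    linarith
  have hmaps : ∀ j ∈ G, sl κ ⟪un (A j), v⟫ ⟪un (A j), w⟫ ∈ S := fun j _ => sl_mem hκ
  have hSne : S.Nonempty := by
    rw [← Finset.card_pos]
    obtain ⟨j, hj⟩ : G.Nonempty := by
      rw [← Finset.card_pos]
      have : (0 : ℝ) < G.card := by linarith
      exact_mod_cast this
    exact Finset.card_pos.2 ⟨_, hmaps j hj⟩
  obtain ⟨c, -, hc⟩ := Finset.exists_le_card_fiber_of_nsmul_le_card_of_maps_to (M := ℝ) (b := 5 * (μ * ε ^ 3 * D ^ 3))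
    hmaps hSne (by
      rw [nsmul_eq_mul]
      have h1 : (S.card : ℝ) * (5 * (μ * ε ^ 3 * D ^ 3)) ≤ 22 / ε ^ 2 * (5 * (μ * ε ^ 3 * D ^ 3)) :=
        mul_le_mul_of_nonneg_right hSc (by positivity)
      have h2 : 22 / ε ^ 2 * (5 * (μ * ε ^ 3 * D ^ 3)) = 110 * P := by
        rw [hP]
        field_simp
        ring
      linarith)
  have hpos : 0 < 5 * (μ * ε ^ 3 * D ^ 3) := by positivity
  obtain ⟨j, hj⟩ : (G.filter (fun j => sl κ ⟪un (A j), v⟫ ⟪un (A j), w⟫ = c)).Nonempty := by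
    rw [← Finset.card_pos]
    have := hpos.trans_le hc
    exact_mod_cast this
  obtain ⟨hjG, hjc⟩ := Finset.mem_filter.1 hj
  obtain ⟨hjI, hj1, hj2, hj3⟩ := Finset.mem_filter.1 hjG
  have hcrj : cr (un (A i)) (un (A j)) ≠ 0 := by
    rw [← norm_pos_iff]
    exact hε.trans_le hj3
  have hnj : ‖un (A j)‖ = 1 := norm_un (hA j hjI).1
  have hpl := count_plane hB hD hμ hε hE hD4 hk hA hnj hcrj
  -- members of the class are nearly coplanar
  have hdt : ∀ k ∈ I, 0 < ‖cr (un (A i)) (un (A k))‖ →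
      sl κ ⟪un (A k), v⟫ ⟪un (A k), w⟫ = c → |dt (un (A i)) (un (A j)) (un (A k))| ≤
        κ * (‖cr (un (A i)) (un (A j))‖ * ‖cr (un (A i)) (un (A k))‖) := by
    intro k hk2 hk3 hk4
    have hj0 : 0 < ‖cr (un (A i)) (un (A j))‖ := hε.trans_le hj3
    have h1 := sl_eq (X := ⟪un (A j), v⟫) (Y := ⟪un (A j), w⟫) (X' := ⟪un (A k), v⟫)
      (Y' := ⟪un (A k), w⟫) hκ (by rw [← norm_cr_frame hF]; positivity)
      (by rw [← norm_cr_frame hF]; positivity) (hjc.trans hk4.symm)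
    rw [← dt_sq hF, ← norm_cr_frame hF, ← norm_cr_frame hF, ← mul_pow, ← mul_pow] at h1
    exact abs_le_of_sq_le_sq h1 (by positivity)
  -- the third flag
  obtain ⟨k, hk1, hk2⟩ : ∃ k ∈ G.filter (fun j => sl κ ⟪un (A j), v⟫ ⟪un (A j), w⟫ = c),
      ε ≤ ‖cr (un (A j)) (un (A k))‖ := by
    by_contra hcon
    push Not at hcon
    have h1 : G.filter (fun j => sl κ ⟪un (A j), v⟫ ⟪un (A j), w⟫ = c) ⊆
        I.filter (fun k => ‖cr (un (A j)) (un (A k))‖ < ε ∧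
          |dt (un (A i)) (un (A j)) (un (A k))| ≤ ε ^ 2 / 4 * ‖cr (un (A i)) (un (A j))‖) := by
      intro k hk1
      have hk2 := hcon k hk1
      obtain ⟨hkG, hkc⟩ := Finset.mem_filter.1 hk1
      obtain ⟨hkI, -, -, hk3⟩ := Finset.mem_filter.1 hkG
      refine Finset.mem_filter.2 ⟨hkI, hk2, ?_⟩
      refine (hdt k hkI (hε.trans_le hk3) hkc).trans ?_
      have h2 := norm_cr_un_le (hA i hi).1 (hA k hkI).1
      have h3 : 0 ≤ κ * ‖cr (un (A i)) (un (A j))‖ := by positivity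
      calc κ * (‖cr (un (A i)) (un (A j))‖ * ‖cr (un (A i)) (un (A k))‖) =
            κ * ‖cr (un (A i)) (un (A j))‖ * ‖cr (un (A i)) (un (A k))‖ := by ring
        _ ≤ κ * ‖cr (un (A i)) (un (A j))‖ * 1 := mul_le_mul_of_nonneg_left h2 h3
        _ = ε ^ 2 / 4 * ‖cr (un (A i)) (un (A j))‖ := by rw [mul_one, hκd]
    have h2 := Finset.card_le_card h1
    have h3 : ((G.filter (fun j => sl κ ⟪un (A j), v⟫ ⟪un (A j), w⟫ = c)).card : ℝ) ≤
        4 * (μ * ε ^ 3 * D ^ 3) := le_trans (by exact_mod_cast h2) hpl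
    have h4 : 0 < μ * ε ^ 3 * D ^ 3 := by positivity
    linarith
  obtain ⟨hkG, hkc⟩ := Finset.mem_filter.1 hk1
  obtain ⟨hkI, hk3, hk4, hk5⟩ := Finset.mem_filter.1 hkG
  exact ⟨i, hi, j, hjI, k, hkI,
    { g12 := hj1, g21 := hj2, g13 := hk3, g31 := hk4, c12 := hj3, c13 := hk5, c23 := hk2,
      d123 := hdt k hkI (hε.trans_le hk5) hkc }⟩

end Pool.Agent.Lib.MP_4f1247_co
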