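import Pool.Agent.Lib.MP_4f1247_co.Stmts

set_option autoImplicit false

/-!
# Neighborly polyhedral surfaces are not dense: the triangles are thin
-/

namespace Pool.Agent.Lib.MP_4f1247_co

open Finset
open scoped RealInnerProductSpace

namespace SlivAux

/-- The two components of a vector which is nearly in a diagonal direction. -/
lemma diag {N c d : ℝ} (hN : 0 ≤ N) (h1 : c ^ 2 + d ^ 2 ≤ N ^ 2)
    (h2 : 9 / 10 * N * √2 ≤ c + d) : 3 / 10 * N ≤ c ∧ 3 / 10 * N ≤ d := by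
  have hs : √2 ^ 2 = 2 := Real.sq_sqrt (by norm_num)
  have h3 : (9 / 10 * N * √2) ^ 2 ≤ (c + d) ^ 2 := pow_le_pow_left₀ (by positivity) h2 2
  have h3' : (9 / 10 * N * √2) ^ 2 = 81 / 50 * N ^ 2 := by
    rw [mul_pow, hs]
    ring
  rw [h3'] at h3
  have h5 : 31 / 100 * N ^ 2 ≤ c * d := by nlinarith
  have h6 : 0 ≤ c + d := le_trans (by positivity) h2
  have hc : c ≤ N := le_of_sq_le_sq (by nlinarith [sq_nonneg d]) hN
  have hd : d ≤ N := le_of_sq_le_sq (by nlinarith [sq_nonneg c]) hN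
  constructor
  · by_contra hcon
    push Not at hcon
    rcases lt_or_ge c 0 with h | h
    · have : d ≤ 0 := by
        by_contra hd0
        push Not at hd0
        nlinarith [mul_pos_of_neg_of_neg h (neg_lt_zero.2 hd0), sq_nonneg N]
      linarith
    · nlinarith [mul_le_mul_of_nonneg_left hd h]
  · by_contra hcon
    push Not at hcon
    rcases lt_or_ge d 0 with h | h
    · have : c ≤ 0 := by
        by_contra hd0
        push Not at hd0
        nlinarith [mul_pos_of_neg_of_neg h (neg_lt_zero.2 hd0), sq_nonneg N]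
      linarith
    · nlinarith [mul_le_mul_of_nonneg_left hc h]

/-- The vector part of the proof. -/
lemma core {A B v v' e1 e2 e3 : E3} {r l h L : ℝ} (hr : 0 < r) (hl0 : 0 ≤ l) (hl1 : l ≤ 1)
    (hF : Fr e1 e2 e3) (hL : B - A = L • e1) (hh : A + l • (B - A) = -(h • e2))
    (h20 : 20 * r < h) (hhL : h ≤ L) (hv : ‖v‖ ≤ r) (hv' : ‖v'‖ ≤ r) (hv0 : v ≠ 0) (hv0' : v' ≠ 0)
    (h1 : 9 / 10 * ‖v‖ * √2 ≤ ⟪v, e2⟫ + ⟪v, e3⟫)
    (h2 : 9 / 10 * ‖v'‖ * √2 ≤ ⟪v', e2⟫ + -⟪v', e3⟫) :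
    0 < ⟪v, e3⟫ ∧ ⟪v', e3⟫ < 0 ∧ ∃ μ α β γ : ℝ, 0 ≤ μ ∧ μ ≤ 1 ∧ 0 ≤ α ∧ 0 ≤ β ∧ 0 ≤ γ ∧
      γ + α + β = 1 ∧ β • (B - A) + γ • (-A) = (1 - μ) • v + μ • (v' + (B - A)) := by
  have hn : 0 < ‖v‖ := norm_pos_iff.2 hv0
  have hn' : 0 < ‖v'‖ := norm_pos_iff.2 hv0'
  have e := hF.norm_sq v
  have e' := hF.norm_sq v'
  obtain ⟨c1, c2⟩ := diag hn.le (by nlinarith [sq_nonneg ⟪v, e1⟫]) h1
  obtain ⟨c1', c2'⟩ := diag hn'.le (by nlinarith [sq_nonneg ⟪v', e1⟫]) h2
  set z : ℝ := ⟪v, e3⟫ with hz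
  set z' : ℝ := -⟪v', e3⟫ with hz'
  have z0 : 0 < z := by linarith
  have z0' : 0 < z' := by linarith
  refine ⟨z0, by linarith, ?_⟩
  have hzr : z ≤ r := by
    have : |⟪v, e3⟫| ≤ ‖v‖ * ‖e3‖ := abs_real_inner_le_norm _ _
    rw [hF.nw, mul_one] at this
    exact (le_abs_self _).trans (this.trans hv)
  have hzr' : z' ≤ r := by
    have : |⟪v', e3⟫| ≤ ‖v'‖ * ‖e3‖ := abs_real_inner_le_norm _ _
    rw [hF.nw, mul_one] at this
    exact (neg_le_abs _).trans (this.trans hv')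
  set μ : ℝ := z / (z + z') with hμ
  have hs0 : 0 < z + z' := by linarith
  have μ0 : 0 < μ := div_pos z0 hs0
  have μ1 : 1 - μ = z' / (z + z') := by
    rw [hμ]
    field_simp
    ring
  have μ1' : 0 < 1 - μ := by
    rw [μ1]
    exact div_pos z0' hs0
  have hμz : (1 - μ) * z = μ * z' := by
    rw [μ1, hμ]
    ring
  set s : E3 := (1 - μ) • v + μ • v' with hs
  have hs3 : ⟪s, e3⟫ = 0 := by
    rw [hs, inner_add_left, real_inner_smul_left, real_inner_smul_left, ← hz]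
    have : ⟪v', e3⟫ = -z' := by rw [hz']; ring
    rw [this]
    linarith
  have hs2 : 0 ≤ ⟪s, e2⟫ := by
    rw [hs, inner_add_left, real_inner_smul_left, real_inner_smul_left]
    have : 0 ≤ ⟪v, e2⟫ := by linarith
    have : 0 ≤ ⟪v', e2⟫ := by linarith
    positivity
  -- the size of `s`
  have hsn : ‖s‖ ≤ 20 / 3 * ((1 - μ) * z) := by
    calc ‖s‖ ≤ ‖(1 - μ) • v‖ + ‖μ • v'‖ := norm_add_le _ _
      _ = (1 - μ) * ‖v‖ + μ * ‖v'‖ := by
          rw [norm_smul, norm_smul, Real.norm_of_nonneg μ1'.le, Real.norm_of_nonneg μ0.le]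
      _ ≤ (1 - μ) * (10 / 3 * z) + μ * (10 / 3 * z') := by
          gcongr
          · linarith
          · linarith
      _ = 20 / 3 * ((1 - μ) * z) := by
          linear_combination (-10 / 3) * hμz
  have hsa : ‖s‖ ≤ 7 * ((1 - μ) * r) := by
    have : (1 - μ) * z ≤ (1 - μ) * r := mul_le_mul_of_nonneg_left hzr μ1'.le
    have : 0 ≤ (1 - μ) * r := by positivity
    linarith
  have hsb : ‖s‖ ≤ 7 * (μ * r) := by
    rw [hμz] at hsn
    have : μ * z' ≤ μ * r := mul_le_mul_of_nonneg_left hzr' μ0.le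
    have : 0 ≤ μ * r := by positivity
    linarith
  have hh0 : 0 < h := by linarith
  have hL0 : 0 < L := by linarith
  -- the coordinates of `s`
  have a1 : |⟪s, e1⟫| ≤ ‖s‖ := by
    have : |⟪s, e1⟫| ≤ ‖s‖ * ‖e1‖ := abs_real_inner_le_norm _ _
    rwa [hF.nu, mul_one] at this
  have a2 : ⟪s, e2⟫ ≤ ‖s‖ := by
    have : |⟪s, e2⟫| ≤ ‖s‖ * ‖e2‖ := abs_real_inner_le_norm _ _
    rw [hF.nv, mul_one] at this
    exact (le_abs_self _).trans this
  set γ : ℝ := ⟪s, e2⟫ / h with hγ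
  set ρ : ℝ := ⟪s, e1⟫ / L with hρ
  have γ0 : 0 ≤ γ := div_nonneg hs2 hh0.le
  have bd : ∀ t : ℝ, 0 ≤ t → ‖s‖ ≤ 7 * (t * r) → γ ≤ 7 / 20 * t ∧ |ρ| ≤ 7 / 20 * t := by
    intro t ht hst
    have h5 : ‖s‖ ≤ 7 / 20 * t * h := by
      have : t * (20 * r) ≤ t * h := mul_le_mul_of_nonneg_left h20.le ht
      linarith
    constructor
    · rw [hγ, div_le_iff₀ hh0]
      exact a2.trans h5
    · rw [hρ, abs_div, abs_of_pos hL0, div_le_iff₀ hL0]
      have : 7 / 20 * t * h ≤ 7 / 20 * t * L := mul_le_mul_of_nonneg_left hhL (by positivity)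
      exact a1.trans (h5.trans this)
  obtain ⟨g1, g2⟩ := bd (1 - μ) μ1'.le hsa
  obtain ⟨g3, g4⟩ := bd μ μ0.le hsb
  have g5 := abs_le.1 g2
  have g6 := abs_le.1 g4
  have g7 : γ * l ≤ γ := by nlinarith
  have g8 : γ * (1 - l) ≤ γ := by nlinarith
  refine ⟨μ, 1 - μ - ρ - γ * (1 - l), μ + ρ - γ * l, γ, μ0.le, by linarith, by linarith,
    by linarith, γ0, by ring, ?_⟩
  have hexp := hF.expand s
  rw [hs3, zero_smul, add_zero] at hexp
  have h6 : (1 - μ) • v + μ • (v' + (B - A)) = μ • (B - A) + s := by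
    rw [hs]
    module
  have h7 : ⟪s, e1⟫ • e1 = ρ • (B - A) := by
    rw [hL, smul_smul, hρ, div_mul_cancel₀ _ hL0.ne']
  have h8 : ⟪s, e2⟫ • e2 = γ • (-(A + l • (B - A))) := by
    rw [hh, neg_neg, smul_smul, hγ, div_mul_cancel₀ _ hh0.ne']
  rw [h6, hexp, h7, h8]
  module

end SlivAux

open SlivAux in
/-- The triangles are thin. -/
theorem stSliv (hP : StPie) : StSliv := by
  intro n q T r hT x a w ht ha hw h1 h2 l hl0 hl1 horth
  by_contra hcon
  push Not at hcon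
  set A : E3 := q a - q x with hA
  set B : E3 := q w - q x with hB
  have hBA : q w - q a = B - A := by
    rw [hA, hB]
    abel
  rw [hBA] at horth h1 h2
  set p : E3 := (1 - l) • A + l • B with hp
  have hpA : p = A + l • (B - A) := by
    rw [hp]
    module
  have hA1 : ‖A‖ ≤ ‖B - A‖ := by
    rw [hA, ← norm_neg, neg_sub]
    exact h1
  -- the radius is positive
  have hr : 0 < r := by
    obtain ⟨j, hj1, hj2, -⟩ := ha (EuclideanSpace.single 0 1) (by simp)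
    exact (norm_pos_iff.2 (sub_ne_zero.2 hj1)).trans_le hj2
  have hp0 : 0 < ‖p‖ := by linarith
  have hpL : ‖p‖ ≤ ‖B - A‖ := by
    refine le_trans ?_ hA1
    have e : A = p - l • (B - A) := by
      rw [hpA]
      abel
    have e1 : ‖A‖ ^ 2 = ‖p‖ ^ 2 + l ^ 2 * ‖B - A‖ ^ 2 := by
      calc ‖A‖ ^ 2 = ‖p - l • (B - A)‖ ^ 2 := by rw [← e]
        _ = ‖p‖ ^ 2 + l ^ 2 * ‖B - A‖ ^ 2 := by
            rw [norm_sub_sq_real, real_inner_smul_right, horth, norm_smul, mul_pow,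
              Real.norm_eq_abs, sq_abs]
            ring
    exact le_of_sq_le_sq (by rw [e1]; nlinarith [mul_nonneg (sq_nonneg l) (sq_nonneg ‖B - A‖)])
      (norm_nonneg A)
  have hL0 : 0 < ‖B - A‖ := by linarith
  set e1 : E3 := ‖B - A‖⁻¹ • (B - A) with he1
  set e2 : E3 := -(‖p‖⁻¹ • p) with he2
  have n1 : ‖e1‖ = 1 := by
    rw [he1, norm_smul, norm_inv, norm_norm, inv_mul_cancel₀ hL0.ne']
  have n2 : ‖e2‖ = 1 := by
    rw [he2, norm_neg, norm_smul, norm_inv, norm_norm, inv_mul_cancel₀ hp0.ne']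
  have n12 : ⟪e1, e2⟫ = 0 := by
    rw [he1, he2, inner_neg_right, real_inner_smul_left, real_inner_smul_right,
      real_inner_comm, horth]
    simp
  have hF := Fr.of_two n1 n2 n12
  set e3 : E3 := cr e1 e2 with he3
  have hs : √2 ^ 2 = 2 := Real.sq_sqrt (by norm_num)
  have hs0 : 0 < √2 := Real.sqrt_pos.2 (by norm_num)
  -- unit vectors
  have unit : ∀ ε : ℝ, ε ^ 2 = 1 → ‖(√2)⁻¹ • (e2 + ε • e3)‖ = 1 := by
    intro ε hε
    have e : ‖e2 + ε • e3‖ ^ 2 = 2 := by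
      rw [hF.norm_sq]
      have u1 : ⟪e2, e1⟫ = 0 := by rw [real_inner_comm]; exact hF.uv
      have u2 : ⟪e3, e1⟫ = 0 := by rw [real_inner_comm]; exact hF.uw
      have u3 : ⟪e3, e2⟫ = 0 := by rw [real_inner_comm]; exact hF.vw
      have u4 : ⟪e2, e2⟫ = 1 := by rw [real_inner_self_eq_norm_sq, hF.nv]; norm_num
      have u5 : ⟪e3, e3⟫ = 1 := by rw [real_inner_self_eq_norm_sq, hF.nw]; norm_num
      simp only [inner_add_left, real_inner_smul_left, u1, u2, u3, u4, u5, hF.vw]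
      linear_combination hε
    have e' : ‖e2 + ε • e3‖ = √2 := by
      rw [← Real.sqrt_sq (norm_nonneg (e2 + ε • e3)), e]
    rw [norm_smul, e', norm_inv, Real.norm_of_nonneg hs0.le, inv_mul_cancel₀ hs0.ne']
  have val : ∀ (ε : ℝ) (v : E3), 9 / 10 * ‖v‖ ≤ ⟪v, (√2)⁻¹ • (e2 + ε • e3)⟫ →
      9 / 10 * ‖v‖ * √2 ≤ ⟪v, e2⟫ + ε * ⟪v, e3⟫ := by
    intro ε v h
    rw [real_inner_smul_right, inner_add_right, real_inner_smul_right, inv_mul_eq_div,
      le_div_iff₀ hs0] at h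
    exact h
  obtain ⟨j, j1, j2, j3⟩ := ha _ (unit 1 (by norm_num))
  obtain ⟨k, k1, k2, k3⟩ := hw _ (unit (-1) (by norm_num))
  have j4 := val _ _ j3
  have k4 := val _ _ k3
  rw [one_mul] at j4
  rw [neg_one_mul] at k4
  obtain ⟨z0, z0', μ, α, β, γ, m0, m1, al, be, ga, hsum, hc⟩ := core (A := A) (B := B) hr hl0 hl1 hF
    (L := ‖B - A‖) (h := ‖p‖) (by rw [he1, smul_smul, mul_inv_cancel₀ hL0.ne', one_smul])
    (by rw [← hpA, he2, smul_neg, smul_smul, mul_inv_cancel₀ hp0.ne', one_smul, neg_neg])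
    hcon hpL j2 k2 (sub_ne_zero.2 j1) (sub_ne_zero.2 k1) j4 k4
  have hBA3 : ⟪B - A, e3⟫ = 0 := by
    have : B - A = ‖B - A‖ • e1 := by
      rw [he1, smul_smul, mul_inv_cancel₀ hL0.ne', one_smul]
    rw [this, real_inner_smul_left, hF.uw, mul_zero]
  have hA3 : ⟪A, e3⟫ = 0 := by
    have : A = -(‖p‖ • e2) - l • (B - A) := by
      rw [he2, smul_neg, smul_smul, mul_inv_cancel₀ hp0.ne', one_smul, neg_neg, hpA]
      abel
    rw [this, inner_sub_left, inner_neg_left, real_inner_smul_left, real_inner_smul_left, hF.vw,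
      hBA3]
    ring
  have hja : j ≠ a := fun h => j1 (by rw [h])
  have hkw : k ≠ w := fun h => k1 (by rw [h])
  have hjw : j ≠ w := by
    rintro rfl
    rw [hBA, hBA3] at z0
    exact lt_irrefl _ z0
  have hka : k ≠ a := by
    rintro rfl
    have : q k - q w = -(B - A) := by rw [← hBA]; abel
    rw [this, inner_neg_left, hBA3, neg_zero] at z0'
    exact lt_irrefl _ z0'
  have hjx : j ≠ x := by
    rintro rfl
    have : q j - q a = -A := by rw [hA]; abel
    rw [this, inner_neg_left, hA3, neg_zero] at z0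
    exact lt_irrefl _ z0
  have hkx : k ≠ x := by
    rintro rfl
    have : q k - q w = -(B - A) - A := by rw [hB]; abel
    rw [this, inner_sub_left, inner_neg_left, hBA3, hA3, neg_zero, sub_zero] at z0'
    exact lt_irrefl _ z0'
  have hjk : j ≠ k := by
    rintro rfl
    have : q j - q a = (q j - q w) + (B - A) := by rw [← hBA]; abel
    rw [this, inner_add_left, hBA3, add_zero] at z0
    exact lt_irrefl _ (z0.trans z0')
  refine hP n q T hT x a w j k ht hjk (by simp [hjx, hja, hjw]) (by simp [hkx, hka, hkw])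
    γ α β μ ga al be hsum m0 m1 ?_
  have e4 : q a = q x + A := by rw [hA]; abel
  have e5 : q w = q x + B := by rw [hB]; abel
  have e6 : q j = q x + A + (q j - q a) := by rw [hA]; abel
  have e7 : q k = q x + B + (q k - q w) := by rw [hB]; abel
  have e8 : α = 1 - γ - β := by linarith
  set v : E3 := q j - q a with hv
  set v' : E3 := q k - q w with hv'
  rw [e6, e7, e4, e5, e8]
  have e9 : (1 - μ) • (q x + A + v) + μ • (q x + B + v') = q x + A +
      ((1 - μ) • v + μ • (v' + (B - A))) := by module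
  rw [e9, ← hc]
  module

end Pool.Agent.Lib.MP_4f1247_co
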