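import Pool.Agent.Lib.MP_4f1247_co.Stmts

set_option autoImplicit false

/-!
# Neighborly polyhedral surfaces are not dense: almost all points are surrounded
-/

namespace Pool.Agent.Lib.MP_4f1247_co

open Finset
open scoped RealInnerProductSpace

namespace SurNAux

/-- A finite net of the unit sphere. -/
lemma exists_net : ∃ U : Finset E3, (∀ u ∈ U, ‖u‖ = 1) ∧
    ∀ x : E3, ‖x‖ = 1 → ∃ u ∈ U, ‖x - u‖ ≤ 1 / 100 := by
  obtain ⟨t, ht1, ht2, ht3⟩ := (isCompact_sphere (0 : E3) 1).finite_cover_balls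
    (by norm_num : (0 : ℝ) < 1 / 100)
  refine ⟨ht2.toFinset, ?_, ?_⟩
  · intro u hu
    have := ht1 (ht2.mem_toFinset.1 hu)
    simpa using this
  · intro x hx
    have hx' : x ∈ Metric.sphere (0 : E3) 1 := by simpa using hx
    have h1 := ht3 hx'
    simp only [Set.mem_iUnion, exists_prop] at h1
    obtain ⟨u, hu1, hu2⟩ := h1
    refine ⟨u, ht2.mem_toFinset.2 hu1, ?_⟩
    rw [Metric.mem_ball, dist_eq_norm] at hu2
    exact hu2.le

/-- The range of the integer parts. -/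
lemma floor_mem {x X : ℝ} (h : |x| ≤ X) : ⌊x⌋ ∈ Finset.Icc (-⌈X⌉) ⌊X⌋ := by
  rw [Finset.mem_Icc]
  obtain ⟨h1, h2⟩ := abs_le.1 h
  constructor
  · apply Int.le_floor.2
    have h3 : X ≤ (⌈X⌉ : ℝ) := Int.le_ceil X
    push_cast
    linarith
  · exact Int.floor_mono h2

lemma card_floor {X : ℝ} (h : 0 ≤ X) : ((Finset.Icc (-⌈X⌉) ⌊X⌋).card : ℝ) ≤ 2 * X + 2 := by
  rw [Int.card_Icc]
  have h1 : (0 : ℤ) ≤ ⌊X⌋ := Int.floor_nonneg.2 h
  have h2 : (0 : ℤ) ≤ ⌈X⌉ := Int.ceil_nonneg h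
  have h3 : (((⌊X⌋ + 1 - -⌈X⌉).toNat : ℕ) : ℤ) = ⌊X⌋ + 1 - -⌈X⌉ := Int.toNat_of_nonneg (by omega)
  have h4 : (((⌊X⌋ + 1 - -⌈X⌉).toNat : ℕ) : ℝ) = (⌊X⌋ : ℝ) + 1 + (⌈X⌉ : ℝ) := by
    have := congrArg (fun z : ℤ => (z : ℝ)) h3
    push_cast at this ⊢
    linarith
  rw [h4]
  have h5 : (⌊X⌋ : ℝ) ≤ X := Int.floor_le X
  have h6 : (⌈X⌉ : ℝ) < X + 1 := Int.ceil_lt_add_one X
  linarith

/-- Two points which are not surrounded in nearly the same direction `v`. -/
lemma inner_le {n : ℕ} {q : Fin n → E3} {r : ℝ} {i j : Fin n} {u u' v : E3}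
    (hu : ∀ j, q j ≠ q i → ‖q j - q i‖ ≤ r → ⟪q j - q i, u⟫ < 9 / 10 * ‖q j - q i‖)
    (hu' : ∀ k, q k ≠ q j → ‖q k - q j‖ ≤ r → ⟪q k - q j, u'⟫ < 9 / 10 * ‖q k - q j‖)
    (h : ‖u - v‖ ≤ 1 / 100) (h' : ‖u' - v‖ ≤ 1 / 100) (hr : ‖q j - q i‖ ≤ r) :
    |⟪q j - q i, v⟫| ≤ 91 / 100 * ‖q j - q i‖ := by
  by_cases hne : q j = q i
  · rw [hne, sub_self, inner_zero_left, abs_zero, norm_zero, mul_zero]
  · have h1 := hu j hne hr
    have hr' : ‖q i - q j‖ ≤ r := by rw [norm_sub_rev]; exact hr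
    have h2 := hu' i (fun h => hne h.symm) hr'
    have h3 : |⟪q j - q i, u - v⟫| ≤ ‖q j - q i‖ * (1 / 100) :=
      (abs_real_inner_le_norm _ _).trans (mul_le_mul_of_nonneg_left h (norm_nonneg _))
    have h4 : |⟪q i - q j, u' - v⟫| ≤ ‖q i - q j‖ * (1 / 100) :=
      (abs_real_inner_le_norm _ _).trans (mul_le_mul_of_nonneg_left h' (norm_nonneg _))
    have e1 : ‖q i - q j‖ = ‖q j - q i‖ := norm_sub_rev _ _
    have e2 : ⟪q i - q j, v⟫ = -⟪q j - q i, v⟫ := by
      rw [← inner_neg_left, neg_sub]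
    rw [inner_sub_right] at h3 h4
    rw [e1] at h2 h4
    rw [e2] at h4
    rw [abs_le] at h3 h4 ⊢
    constructor
    · linarith [h3.1, h3.2, h4.1, h4.2]
    · linarith [h3.1, h3.2, h4.1, h4.2]

/-- Points of the same class in the same cell are close. -/
lemma close {z v f g : E3} {r : ℝ} (hF : Fr v f g)
    (hv : ‖z‖ ≤ r → |⟪z, v⟫| ≤ 91 / 100 * ‖z‖) (hr : 1 ≤ r) (h1 : |⟪z, v⟫| ≤ r / 2)
    (h2 : |⟪z, f⟫| ≤ 1 / 2) (h3 : |⟪z, g⟫| ≤ 1 / 2) : ‖z‖ ≤ 2 := by
  have hn := hF.norm_sq z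
  have a1 : ⟪z, v⟫ ^ 2 ≤ (r / 2) ^ 2 := by
    rw [← sq_abs]
    exact pow_le_pow_left₀ (abs_nonneg _) h1 2
  have a2 : ⟪z, f⟫ ^ 2 ≤ (1 / 2) ^ 2 := by
    rw [← sq_abs]
    exact pow_le_pow_left₀ (abs_nonneg _) h2 2
  have a3 : ⟪z, g⟫ ^ 2 ≤ (1 / 2) ^ 2 := by
    rw [← sq_abs]
    exact pow_le_pow_left₀ (abs_nonneg _) h3 2
  have hzr : ‖z‖ ≤ r := by
    apply le_of_sq_le_sq _ (by linarith)
    nlinarith
  have b1 : ⟪z, v⟫ ^ 2 ≤ (91 / 100 * ‖z‖) ^ 2 := by
    rw [← sq_abs]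
    exact pow_le_pow_left₀ (abs_nonneg _) (hv hzr) 2
  apply le_of_sq_le_sq _ (by norm_num)
  nlinarith

end SurNAux

open SurNAux in
/-- The number of points which are not surrounded. -/
theorem stSur (hB : StBall) : StSur := by
  classical
  obtain ⟨U, hU1, hU2⟩ := exists_net
  have hUc : 1 ≤ U.card := by
    obtain ⟨u, hu, -⟩ := hU2 (!₂[1, 0, 0] : E3) (by
      have h := norm_sq_coord (!₂[1, 0, 0] : E3)
      have h' : ‖(!₂[1, 0, 0] : E3)‖ ^ 2 = 1 := by rw [h]; simp
      nlinarith [norm_nonneg (!₂[1, 0, 0] : E3)])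
    exact Finset.card_pos.2 ⟨u, hu⟩
  have hUc' : (1 : ℝ) ≤ U.card := by exact_mod_cast hUc
  refine ⟨27000 * U.card, by linarith, ?_⟩
  intro n q m R r hD hr hrR hR
  have hr0 : 0 < r := by linarith
  have hR1 : 1 ≤ R := by linarith
  have hm : 0 ≤ m := by
    have h := hD 0
    exact (Nat.cast_nonneg _).trans h
  -- the set of points which are not surrounded
  set N : Finset (Fin n) := Finset.univ.filter (fun i => ¬ Sur q r i) with hN
  have hNc : {i | ¬ Sur q r i}.ncard = N.card := by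
    rw [← Set.ncard_coe_finset]
    congr 1
    ext i
    simp [hN]
  rw [hNc]
  have hdir : ∀ i : Fin n, ∃ u v : E3, i ∈ N → (v ∈ U ∧ ‖u - v‖ ≤ 1 / 100 ∧
      ∀ j, q j ≠ q i → ‖q j - q i‖ ≤ r → ⟪q j - q i, u⟫ < 9 / 10 * ‖q j - q i‖) := by
    intro i
    by_cases hi : i ∈ N
    · have h1 : ¬ Sur q r i := by simpa [hN] using hi
      unfold Sur at h1
      push Not at h1
      obtain ⟨u, hu1, hu2⟩ := h1
      obtain ⟨v, hv1, hv2⟩ := hU2 u hu1
      exact ⟨u, v, fun _ => ⟨hv1, hv2, hu2⟩⟩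
    · exact ⟨0, 0, fun h => absurd h hi⟩
  choose ud vd hvd using hdir
  -- one class
  have key : ∀ v ∈ U, ((N.filter (fun i => vd i = v)).card : ℝ) ≤ 27000 * m * R ^ 3 / r := by
    intro v hv
    obtain ⟨f, g, hF⟩ := Fr.exists_of_unit v (hU1 v hv)
    rcases (N.filter (fun i => vd i = v)).eq_empty_or_nonempty with he | ⟨i0, hi0⟩
    · rw [he, Finset.card_empty, Nat.cast_zero]
      positivity
    · set κ : Fin n → ℤ × ℤ × ℤ := fun i =>
        (⌊2 / r * ⟪q i - q i0, v⟫⌋, ⌊2 * ⟪q i - q i0, f⟫⌋, ⌊2 * ⟪q i - q i0, g⟫⌋) with hκ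
      set t : Finset (ℤ × ℤ × ℤ) := Finset.Icc (-⌈2 / r * R⌉) ⌊2 / r * R⌋ ×ˢ
        (Finset.Icc (-⌈2 * R⌉) ⌊2 * R⌋ ×ˢ Finset.Icc (-⌈2 * R⌉) ⌊2 * R⌋) with ht
      have hin : ∀ (i : Fin n) (e : E3), ‖e‖ = 1 → |⟪q i - q i0, e⟫| ≤ R := by
        intro i e he
        refine (abs_real_inner_le_norm _ _).trans ?_
        rw [he, mul_one]
        exact hR i i0
      have hmaps : ∀ i ∈ N.filter (fun i => vd i = v), κ i ∈ t := by
        intro i _
        rw [ht, Finset.mem_product, Finset.mem_product]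
        refine ⟨?_, ?_, ?_⟩
        · apply floor_mem
          rw [abs_mul, abs_of_pos (by positivity)]
          exact mul_le_mul_of_nonneg_left (hin i v hF.nu) (by positivity)
        · apply floor_mem
          rw [abs_mul, abs_of_pos (by norm_num)]
          exact mul_le_mul_of_nonneg_left (hin i f hF.nv) (by norm_num)
        · apply floor_mem
          rw [abs_mul, abs_of_pos (by norm_num)]
          exact mul_le_mul_of_nonneg_left (hin i g hF.nw) (by norm_num)
      have hfib : ∀ b ∈ t, ((N.filter (fun i => vd i = v)).filter (fun i => κ i = b)).card ≤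
          ⌊125 * m⌋₊ := by
        intro b _
        apply Nat.le_floor
        rcases ((N.filter (fun i => vd i = v)).filter (fun i => κ i = b)).eq_empty_or_nonempty
          with he | ⟨i, hi⟩
        · rw [he, Finset.card_empty, Nat.cast_zero]
          positivity
        · have hball := hB (Fin n) Finset.univ q m hD (q i) 2 (by norm_num)
          have e : m * (2 * 2 + 1) ^ 3 = 125 * m := by ring
          rw [e] at hball
          refine le_trans ?_ hball
          norm_cast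
          apply Finset.card_le_card
          intro j hj
          rw [Finset.mem_filter]
          refine ⟨Finset.mem_univ _, ?_⟩
          obtain ⟨hi1, hi2⟩ := Finset.mem_filter.1 hi
          obtain ⟨hi3, hi4⟩ := Finset.mem_filter.1 hi1
          obtain ⟨hj1, hj2⟩ := Finset.mem_filter.1 hj
          obtain ⟨hj3, hj4⟩ := Finset.mem_filter.1 hj1
          obtain ⟨-, hi6, hi7⟩ := hvd i hi3
          obtain ⟨-, hj6, hj7⟩ := hvd j hj3
          rw [hi4] at hi6
          rw [hj4] at hj6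
          rw [← hi2, hκ] at hj2
          simp only [Prod.mk.injEq] at hj2
          obtain ⟨k1, k2, k3⟩ := hj2
          have l1 := (Int.abs_sub_lt_one_of_floor_eq_floor k1).le
          have l2 := (Int.abs_sub_lt_one_of_floor_eq_floor k2).le
          have l3 := (Int.abs_sub_lt_one_of_floor_eq_floor k3).le
          have dif : ∀ e : E3, ⟪q j - q i, e⟫ = ⟪q j - q i0, e⟫ - ⟪q i - q i0, e⟫ := by
            intro e
            rw [← inner_sub_left]
            congr 1
            abel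
          rw [← mul_sub, ← dif, abs_mul, abs_of_pos (by positivity)] at l1
          rw [← mul_sub, ← dif, abs_mul, abs_of_pos (by norm_num)] at l2
          rw [← mul_sub, ← dif, abs_mul, abs_of_pos (by norm_num)] at l3
          refine close hF (fun hzr => inner_le hi7 hj7 hi6 hj6 hzr) hr ?_ ?_ ?_
          · rw [div_mul_eq_mul_div, div_le_one hr0] at l1
            linarith
          · linarith
          · linarith
      have hcard := Finset.card_le_mul_card_image_of_maps_to hmaps ⌊125 * m⌋₊ hfib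
      have ht1 : ((t.card : ℕ) : ℝ) ≤ 6 * (R / r) * (6 * R) ^ 2 := by
        rw [ht, Finset.card_product, Finset.card_product]
        push_cast
        have c1 := card_floor (X := 2 / r * R) (by positivity)
        have c2 := card_floor (X := 2 * R) (by positivity)
        have c3 : 2 * (2 / r * R) + 2 ≤ 6 * (R / r) := by
          have : 1 ≤ R / r := by rw [le_div_iff₀ hr0]; linarith
          have e : 2 / r * R = 2 * (R / r) := by ring
          rw [e]
          linarith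
        have c4 : 2 * (2 * R) + 2 ≤ 6 * R := by linarith
        rw [pow_two]
        apply mul_le_mul (c1.trans c3) _ (by positivity) (by positivity)
        exact mul_le_mul (c2.trans c4) (c2.trans c4) (by positivity) (by positivity)
      have h1 : ((N.filter (fun i => vd i = v)).card : ℝ) ≤ (⌊125 * m⌋₊ : ℝ) * t.card := by
        exact_mod_cast hcard
      have h2 : (⌊125 * m⌋₊ : ℝ) ≤ 125 * m := Nat.floor_le (by positivity)
      calc ((N.filter (fun i => vd i = v)).card : ℝ) ≤ (⌊125 * m⌋₊ : ℝ) * t.card := h1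
        _ ≤ 125 * m * (6 * (R / r) * (6 * R) ^ 2) :=
            mul_le_mul h2 ht1 (Nat.cast_nonneg _) (by positivity)
        _ = 27000 * m * R ^ 3 / r := by ring
  -- all classes
  have hsum : N.card = ∑ v ∈ U, (N.filter (fun i => vd i = v)).card :=
    Finset.card_eq_sum_card_fiberwise fun i hi => (hvd i hi).1
  rw [hsum]
  push_cast
  calc ∑ v ∈ U, ((N.filter (fun i => vd i = v)).card : ℝ)
      ≤ ∑ _v ∈ U, 27000 * m * R ^ 3 / r := Finset.sum_le_sum key
    _ = 27000 * U.card * m * R ^ 3 / r := by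
        rw [Finset.sum_const, nsmul_eq_mul]
        ring

end Pool.Agent.Lib.MP_4f1247_co
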