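import Pool.Agent.Lib.MP_4f1247_co.Ele
import Pool.Agent.Lib.MP_4f1247_co.Box
import Pool.Agent.Lib.MP_4f1247_co.SurN
import Pool.Agent.Lib.MP_4f1247_co.Sliv
import Pool.Agent.Lib.MP_4f1247_co.CrossTri
import Pool.Agent.Lib.MP_4f1247_co.Sel
import Pool.Agent.Lib.MP_4f1247_co.Pick
import Pool.Agent.Lib.MP_4f1247_co.Fin
import Pool.Agent.Lib.MP_4f1247_co.Scale

set_option autoImplicit false

/-!
# Neighborly polyhedral surfaces are not dense
-/

namespace Pool.Agent.Lib.MP_4f1247_co

theorem stFinAll : StFin :=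
  stFin (norm_of stCr stCon stBall (stSur stBall) (stSliv stPie) stCross stTri (stSel stBox)
    (stPick stNum stBall))

end Pool.Agent.Lib.MP_4f1247_co
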