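import Pool.Agent.Lib.MP_4f1247_co.Stmts2

set_option autoImplicit false

/-!
# (BoxW) the number of points in boxes, slabs and tubes
-/

namespace Pool.Agent.Lib.MP_4f1247_co

open Finset
open scoped RealInnerProductSpace

namespace BoxWAux

private theorem smul_norm_le {w : ℝ} (hw : 0 < w) (a x : E3) (s : ℝ) :
    ‖w⁻¹ • a - x‖ ≤ s ↔ ‖a - w • x‖ ≤ w * s := by
  have h : w⁻¹ • a - x = w⁻¹ • (a - w • x) := by
    rw [smul_sub, smul_smul, inv_mul_cancel₀ hw.ne', one_smul]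
  rw [h, norm_smul, norm_inv, Real.norm_of_nonneg hw.le, inv_mul_le_iff₀ hw]

private theorem inner_le {w : ℝ} (hw : 0 < w) (a x u : E3) (s : ℝ) :
    |⟪w⁻¹ • a - w⁻¹ • x, u⟫| ≤ s / w ↔ |⟪a - x, u⟫| ≤ s := by
  rw [← smul_sub, real_inner_smul_left, abs_mul, abs_of_pos (inv_pos.2 hw), inv_mul_eq_div,
    div_le_div_iff_of_pos_right hw]

private theorem nonneg {ι : Type} {I : Finset ι} {A : ι → E3} {w ν : ℝ} (h : DenW I A w ν) :
    0 ≤ ν := le_trans (Nat.cast_nonneg _) (h 0)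

end BoxWAux

open BoxWAux

/-- (BoxW) -/
theorem stBoxW (hB : StBox) : StBoxW := by
  classical
  intro ι I A w ν hw hD u v z hF x a b c ha hb hc
  have hD' : Den I (fun i => w⁻¹ • A i) ν := by
    intro y
    have h := hD (w • y)
    have e : (I.filter (fun i => ‖w⁻¹ • A i - y‖ ≤ 1)) = (I.filter (fun i => ‖A i - w • y‖ ≤ w)) := by
      apply Finset.filter_congr
      intro i _
      rw [smul_norm_le hw, mul_one]
    rw [e]
    exact h
  have h := hB ι I (fun i => w⁻¹ • A i) ν hD' u v z hF (w⁻¹ • x) (a / w) (b / w) (c / w)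
    (by positivity) (by positivity) (by positivity)
  simp only [inner_le hw] at h
  calc _ ≤ _ := h
    _ = _ := by ring

/-- (Slab) -/
theorem stSlab (hW : StBoxW) : StSlab := by
  classical
  intro ι I A w ν hw hw1 hD hA u hu
  obtain ⟨v, z, hF⟩ := Fr.exists_of_unit u hu
  have hν := nonneg hD
  have h7 : 6 / w + 1 ≤ 7 / w := by
    rw [div_add_one hw.ne', div_le_div_iff_of_pos_right hw]
    linarith
  have h0 : 0 ≤ 6 / w + 1 := by positivity
  have hww : 2 * (w / 2) / w + 1 = 2 := by field_simp; norm_num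
  have h6 : 2 * 3 / w + 1 = 6 / w + 1 := by norm_num
  have hle : ∀ i ∈ I, ∀ y : E3, ‖y‖ = 1 → |⟪A i - 0, y⟫| ≤ 3 := by
    intro i hi y hy
    calc |⟪A i - 0, y⟫| ≤ ‖A i - 0‖ * ‖y‖ := abs_real_inner_le_norm _ _
      _ = ‖A i‖ := by rw [hy, mul_one, sub_zero]
      _ ≤ 3 := hA i hi
  constructor
  · have h := hW ι I A w ν hw hD u v z hF 0 (w / 2) 3 3 (by positivity) (by norm_num) (by norm_num)
    rw [hww, h6] at h
    have hs : I.filter (fun i => |⟪A i, u⟫| ≤ w / 2) ⊆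
        I.filter (fun i => |⟪A i - 0, u⟫| ≤ w / 2 ∧ |⟪A i - 0, v⟫| ≤ 3 ∧ |⟪A i - 0, z⟫| ≤ 3) := by
      intro i hi
      rw [Finset.mem_filter] at hi ⊢
      exact ⟨hi.1, by rw [sub_zero]; exact hi.2, hle i hi.1 v hF.nv, hle i hi.1 z hF.nw⟩
    have hc : ((I.filter (fun i => |⟪A i, u⟫| ≤ w / 2)).card : ℝ) ≤ _ :=
      le_trans (Nat.cast_le.2 (Finset.card_le_card hs)) h
    refine hc.trans ?_
    have h1 : (6 / w + 1) * (6 / w + 1) ≤ (7 / w) * (7 / w) := mul_self_le_mul_self h0 h7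
    calc ν * (2 * (6 / w + 1) * (6 / w + 1)) = 2 * ν * ((6 / w + 1) * (6 / w + 1)) := by ring
      _ ≤ 2 * ν * ((7 / w) * (7 / w)) := mul_le_mul_of_nonneg_left h1 (by positivity)
      _ = 98 * ν / w ^ 2 := by field_simp; ring
  · have h := hW ι I A w ν hw hD u v z hF 0 3 (w / 2) (w / 2) (by norm_num) (by positivity)
      (by positivity)
    rw [hww, h6] at h
    have hs : I.filter (fun i => ‖cr (A i) u‖ ≤ w / 2) ⊆
        I.filter (fun i => |⟪A i - 0, u⟫| ≤ 3 ∧ |⟪A i - 0, v⟫| ≤ w / 2 ∧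
          |⟪A i - 0, z⟫| ≤ w / 2) := by
      intro i hi
      rw [Finset.mem_filter] at hi ⊢
      have e1 := norm_cr_sq (A i) u
      rw [hu, hF.norm_sq (A i)] at e1
      have e2 : ‖cr (A i) u‖ ^ 2 = ⟪A i, v⟫ ^ 2 + ⟪A i, z⟫ ^ 2 := by rw [e1]; ring
      refine ⟨hi.1, hle i hi.1 u hu, ?_, ?_⟩
      · rw [sub_zero]
        refine le_trans ?_ hi.2
        apply abs_le_of_sq_le_sq _ (norm_nonneg _)
        rw [e2]
        nlinarith [sq_nonneg ⟪A i, z⟫]
      · rw [sub_zero]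
        refine le_trans ?_ hi.2
        apply abs_le_of_sq_le_sq _ (norm_nonneg _)
        rw [e2]
        nlinarith [sq_nonneg ⟪A i, v⟫]
    have hc : ((I.filter (fun i => ‖cr (A i) u‖ ≤ w / 2)).card : ℝ) ≤ _ :=
      le_trans (Nat.cast_le.2 (Finset.card_le_card hs)) h
    refine hc.trans ?_
    calc ν * ((6 / w + 1) * 2 * 2) = 4 * ν * (6 / w + 1) := by ring
      _ ≤ 4 * ν * (7 / w) := mul_le_mul_of_nonneg_left h7 (by positivity)
      _ = 28 * ν / w := by ring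

end Pool.Agent.Lib.MP_4f1247_co
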