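import Pool.Agent.Lib.MP_4f1247_co.Stmts2
import Pool.Agent.Lib.MP_4f1247_co.Fin

set_option autoImplicit false

/-!
# The vertex sets of neighborly polyhedral surfaces have dimension at most two: the core
-/

namespace Pool.Agent.Lib.MP_4f1247_co

open Finset
open scoped RealInnerProductSpace

namespace CoreAux

open FinAux

lemma ne_of_cr {A B : E3} (h : cr A B ≠ 0) : A ≠ 0 ∧ B ≠ 0 ∧ un A + un B ≠ 0 := by
  have hA : A ≠ 0 := by
    rintro rfl
    apply h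
    apply ext3 <;> simp
  have hB : B ≠ 0 := by
    rintro rfl
    apply h
    apply ext3 <;> simp
  refine ⟨hA, hB, fun h0 => h ?_⟩
  have h1 : un B = -un A := (neg_eq_of_add_eq_zero_right h0).symm
  have hB' : B = ‖B‖ • un B := by
    unfold un
    rw [smul_smul, mul_inv_cancel₀ (norm_ne_zero_iff.2 hB), one_smul]
  have hA' : A = ‖A‖ • un A := by
    unfold un
    rw [smul_smul, mul_inv_cancel₀ (norm_ne_zero_iff.2 hA), one_smul]
  rw [hB', h1, smul_neg, ← neg_smul, cr_smul_right]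
  have h2 : cr A (un A) = 0 := by
    unfold un
    rw [cr_smul_right, cr_self, smul_zero]
  rw [h2, smul_zero]

lemma norm_flag {A B : E3} {β : ℝ} (hA : A ≠ 0) (hB : B ≠ 0) (hp : un A + un B ≠ 0)
    (hβ : β ≤ 1 / 2) (hs : ‖un A + un B‖ ≤ β) :
    1 / 2 ≤ ‖cr (un A) (un (un A + un B))‖ ∧ ‖cr (un A) (un (un A + un B))‖ ≤ 1 := by
  have hpn : 0 < ‖un A + un B‖ := norm_pos_iff.2 hp
  have nA := un_norm hA
  have nB := un_norm hB
  have nP := un_norm hp
  have e0 : ⟪un A, un A + un B⟫ = ‖un A + un B‖ ^ 2 / 2 := by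
    have e1 : ‖un A + un B‖ ^ 2 = ‖un A‖ ^ 2 + 2 * ⟪un A, un B⟫ + ‖un B‖ ^ 2 := norm_add_sq_real _ _
    rw [inner_add_right (𝕜 := ℝ), real_inner_self_eq_norm_sq, e1, nA, nB]
    ring
  have e2 : ⟪un A, un (un A + un B)⟫ = ‖un A + un B‖ / 2 := by
    have e3 : un (un A + un B) = ‖un A + un B‖⁻¹ • (un A + un B) := rfl
    rw [e3, real_inner_smul_right, e0]
    field_simp
  have e1 := norm_cr_sq (un A) (un (un A + un B))
  rw [nA, nP, e2] at e1
  constructor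
  · by_contra hcon
    have h5 := norm_nonneg (cr (un A) (un (un A + un B)))
    nlinarith
  · have := norm_cr_le (un A) (un (un A + un B))
    rwa [nA, nP, one_mul] at this

lemma denW_mono {ι : Type} {I : Finset ι} {A : ι → E3} {w ν ν' : ℝ} (h : DenW I A w ν)
    (hν : ν ≤ ν') : DenW I A w ν' := fun x => (h x).trans hν

end CoreAux

open FinAux CoreAux in
/-- The core. -/
theorem stCore (hCr : StCr) (hCon : StCon) (hSlab : StSlab) (hSurB : StSurB) (hCross : StCross2)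
    (hTri : StTri2) (hSel : StSel2) (hFlag : StFlag) : StCore := by
  intro g hg
  obtain ⟨C, hC3, hC⟩ := hSurB
  have hC0 : 0 < C := by linarith
  -- the constants
  obtain ⟨η1, hη1⟩ : ∃ η1 : ℝ, η1 = 1 / 10 ^ 8 := ⟨_, rfl⟩
  have hη10 : 0 < η1 := by rw [hη1]; positivity
  obtain ⟨w1, hw1⟩ : ∃ w1 : ℝ, w1 = g η1 := ⟨_, rfl⟩
  have hw10 : 0 < w1 := by rw [hw1]; exact (hg η1 hη10).1
  have hw11 : w1 ≤ 1 := by
    rw [hw1]
    refine (hg η1 hη10).2.trans ?_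
    rw [hη1]
    norm_num
  obtain ⟨ε, hε⟩ : ∃ ε : ℝ, ε = w1 / 12 := ⟨_, rfl⟩
  have hε0 : 0 < ε := by rw [hε]; positivity
  have hε1 : ε ≤ 1 := by rw [hε]; linarith
  obtain ⟨η3, hη3⟩ : ∃ η3 : ℝ, η3 = ε / 10 ^ 9 := ⟨_, rfl⟩
  have hη30 : 0 < η3 := by rw [hη3]; positivity
  have hη31 : η3 ≤ 1 := by
    rw [hη3, div_le_one (by positivity)]
    linarith [show (1 : ℝ) ≤ 10 ^ 9 by norm_num]
  obtain ⟨w3, hw3⟩ : ∃ w3 : ℝ, w3 = g η3 := ⟨_, rfl⟩
  have hw30 : 0 < w3 := by rw [hw3]; exact (hg η3 hη30).1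
  have hw31 : w3 ≤ 1 := by
    rw [hw3]
    exact (hg η3 hη30).2.trans hη31
  obtain ⟨ζ, hζ⟩ : ∃ ζ : ℝ, ζ = w3 / 6 := ⟨_, rfl⟩
  have hζ0 : 0 < ζ := by rw [hζ]; positivity
  have hζ1 : ζ ≤ 1 := by rw [hζ]; linarith
  obtain ⟨β, hβ⟩ : ∃ β : ℝ, β = ε * ζ / 2 := ⟨_, rfl⟩
  have hεζ : 0 < ε * ζ := by positivity
  have hεζ1 : ε * ζ ≤ 1 := mul_le_one₀ hε1 hζ0.le hζ1
  have hβ0 : 0 < β := by rw [hβ]; positivity
  have hβ1 : β ≤ 1 / 2 := by rw [hβ]; linarith
  obtain ⟨l, hl⟩ : ∃ l : ℝ, l = g (1 / 100) := ⟨_, rfl⟩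
  have hl0 : 0 < l := by rw [hl]; exact (hg _ (by norm_num)).1
  have hl1 : l ≤ 1 / 100 := by rw [hl]; exact (hg _ (by norm_num)).2
  obtain ⟨r, hr⟩ : ∃ r : ℝ, r = β * l / 120 := ⟨_, rfl⟩
  have hr0 : 0 < r := by rw [hr]; positivity
  have hrl : 30 * r < l := by
    rw [hr]
    nlinarith
  obtain ⟨η4, hη4⟩ : ∃ η4 : ℝ, η4 = r / (100 * C) := ⟨_, rfl⟩
  have hη40 : 0 < η4 := by rw [hη4]; positivity
  have hη4r : η4 ≤ r := by
    rw [hη4, div_le_iff₀ (by positivity)]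
    nlinarith
  obtain ⟨w4, hw4⟩ : ∃ w4 : ℝ, w4 = g η4 := ⟨_, rfl⟩
  have hw40 : 0 < w4 := by rw [hw4]; exact (hg η4 hη40).1
  have hw4r : w4 ≤ r := by
    rw [hw4]
    exact (hg η4 hη40).2.trans hη4r
  have hr1 : r ≤ 1 := by linarith
  refine ⟨min (min η1 η3) (min η4 (1 / 100)), by positivity, ?_, ?_⟩
  · exact (min_le_right _ _).trans ((min_le_right _ _).trans (by norm_num))
  intro n q T x0 hS hN0 hN2
  by_contra hcon
  push Not at hcon
  obtain ⟨N, hN⟩ : ∃ N : ℝ, N = ({i | ‖q i - x0‖ ≤ 1}.ncard : ℝ) := ⟨_, rfl⟩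
  rw [← hN] at hcon hN0 hN2
  have D1 := hcon η1 ((min_le_left _ _).trans (min_le_left _ _)) (by rw [hη1]; norm_num)
  have D3 := hcon η3 ((min_le_left _ _).trans (min_le_right _ _)) hη31
  have D4 := hcon η4 ((min_le_right _ _).trans (min_le_left _ _)) (hη4r.trans hr1)
  have Dl := hcon (1 / 100) ((min_le_right _ _).trans (min_le_right _ _)) (by norm_num)
  rw [← hw1] at D1
  rw [← hw3] at D3
  rw [← hw4] at D4
  rw [← hl] at Dl
  have hnS : 100 * ({i | ‖q i - x0‖ ≤ 1 ∧ ¬ Sur q r i}.ncard : ℝ) ≤ N := by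
    have h1 := hC n q w4 _ r x0 hw40 hw4r hr1 D4
    have h2 : C * (η4 * w4 ^ 2 * N) / (w4 ^ 2 * r) = N / 100 := by
      rw [hη4]
      field_simp
    rw [h2] at h1
    linarith
  have Dl' : DenW Finset.univ q l (N / 100) := by
    refine denW_mono Dl ?_
    have h1 : l ^ 2 ≤ 1 := pow_le_one₀ hl0.le (by linarith)
    nlinarith
  obtain ⟨x, J, a, w, hJT, hx2, hcard, hJ, hD⟩ := hFlag n q T x0 N r l β hS hr0 hrl (by linarith)
    (by
      rw [hr]
      apply le_of_eq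
      field_simp) hN0 hN hnS Dl' hN2
  have hM0 : 0 < (J.card : ℝ) := by linarith
  have hJne : J.Nonempty := by
    rw [← Finset.card_pos]
    exact_mod_cast hM0
  have hcr : ∀ t ∈ J, cr (q (a t) - q x) (q (w t) - q x) ≠ 0 := by
    intro t ht
    exact hCr n q T hS x (a t) (w t) ((hJ t ht).1 ▸ hJT ht)
  have hA3 : ∀ t ∈ J, ‖q (a t) - q x‖ ≤ 3 := by
    intro t ht
    have h1 : q (a t) - q x = (q (a t) - x0) - (q x - x0) := by abel
    rw [h1]
    refine (norm_sub_le _ _).trans ?_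
    linarith [(hJ t ht).2.1]
  have hp : ∀ t ∈ J, ‖un (q (a t) - q x) + un (q (w t) - q x)‖ ≤ β := fun t ht => (hJ t ht).2.2
  have hmm : ∀ t ∈ J, 1 / 2 ≤ ‖cr (un (q (a t) - q x))
      (un (un (q (a t) - q x) + un (q (w t) - q x)))‖ ∧
      ‖cr (un (q (a t) - q x)) (un (un (q (a t) - q x) + un (q (w t) - q x)))‖ ≤ 1 := by
    intro t ht
    obtain ⟨h1, h2, h3⟩ := ne_of_cr (hcr t ht)
    exact norm_flag h1 h2 h3 hβ1 (hp t ht)
  have hN0' : 0 ≤ N := hN0.le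
  obtain ⟨i, hi, j, hj, k, hk, hTH⟩ := hSel (Finset (Fin n)) J (fun t => q (a t) - q x)
    (fun t => cr (un (q (a t) - q x)) (un (un (q (a t) - q x) + un (q (w t) - q x)))) ε ζ hJne hε0
    hε1 hζ0 hζ1 (fun t ht => ⟨(ne_of_cr (hcr t ht)).1, hA3 t ht⟩) (fun t ht => (hmm t ht).1)
    (by
      intro u hu
      have h1 := (hSlab (Finset (Fin n)) J (fun t => q (a t) - q x) w1 _ hw10 hw11
        (hD w1 _ D1) hA3 u hu).1
      have h2 : 98 * (2 * (η1 * w1 ^ 2 * N)) / w1 ^ 2 = 196 * η1 * N := by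
        field_simp
        norm_num
      have h3 : w1 / 2 = 6 * ε := by
        rw [hε]
        ring
      rw [h2, h3, hη1] at h1
      norm_num at h1 ⊢
      linarith)
    (by
      intro u hu
      have h1 := (hSlab (Finset (Fin n)) J (fun t => q (a t) - q x) w3 _ hw30 hw31
        (hD w3 _ D3) hA3 u hu).2
      have h2 : 28 * (2 * (η3 * w3 ^ 2 * N)) / w3 = 336 / 10 ^ 9 * (ε * ζ) * N := by
        rw [hη3, hζ]
        field_simp
        norm_num
      have h3 : w3 / 2 = 3 * ζ := by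
        rw [hζ]
        ring
      rw [h2, h3] at h1
      refine lt_of_le_of_lt h1 ?_
      have h4 : ε * ζ * N ≤ ε * ζ * (24576 * (J.card : ℝ)) := mul_le_mul_of_nonneg_left hcard hεζ.le
      have h5 : 0 < ε * ζ * (J.card : ℝ) := by positivity
      have h6 : 336 / 10 ^ 9 * (ε * ζ) * N = 336 / 10 ^ 9 * (ε * ζ * N) := by ring
      have h7 : ε * ζ / 40 * (J.card : ℝ) = ε * ζ * (J.card : ℝ) / 40 := by ring
      rw [h6, h7]
      have h8 : ε * ζ * (24576 * (J.card : ℝ)) = 24576 * (ε * ζ * (J.card : ℝ)) := by ring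
      rw [h8] at h4
      norm_num
      linarith)
  -- no two flags are opposite
  have hno : ∀ t ∈ J, ∀ t' ∈ J, ¬ Opp (3 / 4 * (ε * ζ)) (un (q (a t) - q x))
      (cr (un (q (a t) - q x)) (un (un (q (a t) - q x) + un (q (w t) - q x))))
      (un (q (a t') - q x))
      (cr (un (q (a t') - q x)) (un (un (q (a t') - q x) + un (q (w t') - q x)))) := by
    intro t ht t' ht' hO
    have htt : t ≠ t' := by
      rintro rfl
      have h1 := hO.1
      rw [real_inner_comm, inner_cr_left, mul_zero] at h1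
      exact lt_irrefl _ h1
    obtain ⟨h1, h2, h3⟩ := ne_of_cr (hcr t ht)
    obtain ⟨h1', h2', h3'⟩ := ne_of_cr (hcr t' ht')
    obtain ⟨α, β', γ, δ, hα, hβ', hγ, hδ, hh⟩ := hCross _ _ _ _ (3 / 4 * (ε * ζ)) (by positivity)
      h1 h2 h1' h2' h3 h3' (lt_of_le_of_lt (hp t ht) (by rw [hβ]; linarith))
      (lt_of_le_of_lt (hp t' ht') (by rw [hβ]; linarith)) hO
    have g1 := (hJ t ht).1
    have g1' := (hJ t' ht').1
    refine hCon n q T hS x (a t) (w t) (a t') (w t') (g1 ▸ hJT ht) (g1' ▸ hJT ht') ?_ α β' γ δ hα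
      hβ' hγ hδ hh
    rw [← g1, ← g1']
    exact htt
  have hun : ∀ t ∈ J, ‖un (q (a t) - q x)‖ = 1 := fun t ht => un_norm (ne_of_cr (hcr t ht)).1
  have horth : ∀ t, ⟪un (q (a t) - q x), cr (un (q (a t) - q x))
      (un (un (q (a t) - q x) + un (q (w t) - q x)))⟫ = 0 := by
    intro t
    rw [real_inner_comm]
    exact inner_cr_left _ _
  rcases hTri ε ζ _ _ _ _ _ _ hε0 hε1 hζ0 (hun i hi) (hun j hj) (hun k hk) (hmm i hi).2
    (hmm j hj).2 (hmm k hk).2 (horth i) (horth j) (horth k) hTH with h | h | h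
  · exact hno i hi j hj h
  · exact hno i hi k hk h
  · exact hno j hj k hk h

end Pool.Agent.Lib.MP_4f1247_co
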