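import Pool.Agent.Lib.MP_4f1247_co.Stmts2
import Pool.Agent.Lib.MP_4f1247_co.Fin

set_option autoImplicit false

/-! # Cross and Tri for the second version -/

namespace Pool.Agent.Lib.MP_4f1247_co

open Finset
open scoped RealInnerProductSpace

namespace CrossTri2Aux

lemma opp {x y z : ℝ} (h : x + y = z) (hz : |z| < |x|) : x * y < 0 := by
  have hy : y = z - x := by linarith
  have h1 : |x * z| < x * x := by
    rw [abs_mul, ← abs_mul_abs_self x]
    exact mul_lt_mul_of_pos_left hz (lt_of_le_of_lt (abs_nonneg z) hz)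
  have h2 := le_abs_self (x * z)
  rw [hy]
  nlinarith

lemma un_smul_pos {c : ℝ} (hc : 0 < c) (p : E3) : un (c • p) = un p := by
  unfold un
  rw [norm_smul, Real.norm_eq_abs, abs_of_pos hc, smul_smul, mul_inv]
  congr 1
  field_simp

lemma un_pos (A : E3) (t : ℝ) : t • un A = (t * ‖A‖⁻¹) • A := by
  unfold un
  rw [smul_smul]

end CrossTri2Aux

open CrossTri2Aux FinAux in
theorem stCross2 (h : StCross) : StCross2 := by
  intro A1 B1 A2 B2 τ hτ hA1 hB1 hA2 hB2 hp1 hp2 hs1 hs2 hO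
  have nA1 : 0 < ‖A1‖ := norm_pos_iff.2 hA1
  have nB1 : 0 < ‖B1‖ := norm_pos_iff.2 hB1
  have nA2 : 0 < ‖A2‖ := norm_pos_iff.2 hA2
  have nB2 : 0 < ‖B2‖ := norm_pos_iff.2 hB2
  have e1 : (1 - (1 / 2 : ℝ)) • un A1 + (1 / 2 : ℝ) • un B1 = (1 / 2 : ℝ) • (un A1 + un B1) := by
    module
  have e2 : (1 - (1 / 2 : ℝ)) • un A2 + (1 / 2 : ℝ) • un B2 = (1 / 2 : ℝ) • (un A2 + un B2) := by
    module
  have u1 : un (un A1) = un A1 := un_smul_pos (inv_pos.2 nA1) A1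
  have u2 : un (un A2) = un A2 := un_smul_pos (inv_pos.2 nA2) A2
  have hu1 : un A1 ≠ 0 := by
    intro h0
    have := un_norm hA1
    rw [h0, norm_zero] at this
    exact zero_ne_one this
  have hu2 : un A2 ≠ 0 := by
    intro h0
    have := un_norm hA2
    rw [h0, norm_zero] at this
    exact zero_ne_one this
  obtain ⟨α, β, γ, δ, hα, hβ, hγ, hδ, hh⟩ := opp_cross h (A := un A1) (B := un B1)
    (A' := un A2) (B' := un B2) (l := 1 / 2) (l' := 1 / 2) (τ := τ) (by norm_num) le_rfl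
    (by norm_num) le_rfl hτ hu1 hu2
    (by rw [e1]; exact smul_ne_zero (by norm_num) hp1)
    (by rw [e2]; exact smul_ne_zero (by norm_num) hp2)
    (by
      rw [e1, norm_smul, Real.norm_eq_abs, abs_of_pos (by norm_num : (0 : ℝ) < 1 / 2),
        un_norm hA1]
      linarith)
    (by
      rw [e2, norm_smul, Real.norm_eq_abs, abs_of_pos (by norm_num : (0 : ℝ) < 1 / 2),
        un_norm hA2]
      linarith)
    (by
      rw [e1, e2, u1, u2, un_smul_pos (by norm_num), un_smul_pos (by norm_num)]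
      exact hO)
  refine ⟨α * ‖A1‖⁻¹, β * ‖B1‖⁻¹, γ * ‖A2‖⁻¹, δ * ‖B2‖⁻¹, by positivity, by positivity,
    by positivity, by positivity, ?_⟩
  rw [← un_pos A1, ← un_pos B1, ← un_pos A2, ← un_pos B2]
  exact hh

open CrossTri2Aux FinAux in
theorem stTri2 : StTri2 := by
  intro ε ζ a1 m1 a2 m2 a3 m3 hε hε1 hζ n1 n2 n3 k1 k2 k3 o1 o2 o3 H
  obtain ⟨g12, g21, g13, g31, c12, c13, c23, hd⟩ := H
  have C12 : ‖cr a1 a2‖ ≤ 1 := by
    have := norm_cr_le a1 a2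
    rwa [n1, n2, mul_one] at this
  have C13 : ‖cr a1 a3‖ ≤ 1 := by
    have := norm_cr_le a1 a3
    rwa [n1, n3, mul_one] at this
  have C23 : ‖cr a2 a3‖ ≤ 1 := by
    have := norm_cr_le a2 a3
    rwa [n2, n3, mul_one] at this
  have hζ1 : ζ ≤ 1 := c12.trans C12
  have r1 := relation' a1 a2 a3 m1
  have r2 := relation' a1 a2 a3 m2
  have r3 := relation' a1 a2 a3 m3
  rw [o1, cr_anti a1 a3, zero_smul, zero_add] at r1
  rw [o2, cr_anti a1 a3, zero_smul, add_zero] at r2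
  rw [o3, cr_anti a1 a3, zero_smul, add_zero] at r3
  -- the numbers
  obtain ⟨d, hde⟩ : ∃ d, d = dt a1 a2 a3 := ⟨_, rfl⟩
  rw [← hde] at r1 r2 r3 hd
  obtain ⟨G12, hG12⟩ : ∃ g, g = ⟪a1, m2⟫ := ⟨_, rfl⟩
  obtain ⟨G21, hG21⟩ : ∃ g, g = ⟪a2, m1⟫ := ⟨_, rfl⟩
  obtain ⟨G13, hG13⟩ : ∃ g, g = ⟪a1, m3⟫ := ⟨_, rfl⟩
  obtain ⟨G31, hG31⟩ : ∃ g, g = ⟪a3, m1⟫ := ⟨_, rfl⟩
  obtain ⟨G23, hG23⟩ : ∃ g, g = ⟪a2, m3⟫ := ⟨_, rfl⟩
  obtain ⟨G32, hG32⟩ : ∃ g, g = ⟪a3, m2⟫ := ⟨_, rfl⟩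
  unfold Opp
  rw [← hG12, ← hG21, ← hG13, ← hG31, ← hG23, ← hG32]
  rw [← hG12] at g12 r2
  rw [← hG21] at g21 r1
  rw [← hG13] at g13 r3
  rw [← hG31] at g31 r1
  rw [← hG23] at r3
  rw [← hG32] at r2
  -- inner products with `cr a2 a3`
  obtain ⟨s13, hs13⟩ : ∃ s, s = ⟪cr a1 a3, cr a2 a3⟫ := ⟨_, rfl⟩
  obtain ⟨s12, hs12⟩ : ∃ s, s = ⟪cr a1 a2, cr a2 a3⟫ := ⟨_, rfl⟩
  have i1 : G21 * (-s13) + G31 * s12 = d * ⟪m1, cr a2 a3⟫ := by
    have := congrArg (fun z => ⟪z, cr a2 a3⟫) r1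
    simp only [inner_add_left, real_inner_smul_left, inner_neg_left, smul_neg] at this
    rw [hs13, hs12]
    linarith
  have i2 : G12 * ‖cr a2 a3‖ ^ 2 + G32 * s12 = d * ⟪m2, cr a2 a3⟫ := by
    have := congrArg (fun z => ⟪z, cr a2 a3⟫) r2
    simp only [inner_add_left, real_inner_smul_left, real_inner_self_eq_norm_sq] at this
    rw [hs12]
    linarith
  have i3 : G13 * ‖cr a2 a3‖ ^ 2 + G23 * (-s13) = d * ⟪m3, cr a2 a3⟫ := by
    have := congrArg (fun z => ⟪z, cr a2 a3⟫) r3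
    simp only [inner_add_left, real_inner_smul_left, inner_neg_left, smul_neg,
      real_inner_self_eq_norm_sq] at this
    rw [hs13]
    linarith
  -- the size of `s13`
  have hs : s13 ^ 2 = ‖cr a1 a3‖ ^ 2 * ‖cr a2 a3‖ ^ 2 - d ^ 2 := by
    have h1 := norm_cr_sq (cr a1 a3) (cr a2 a3)
    have h2 : cr (cr a1 a3) (cr a2 a3) = d • a3 := by
      rw [cr_cr]
      have e1 : dt a1 a3 a3 = 0 := by rw [dt_coord]; ring
      have e2 : dt a1 a3 a2 = -d := by rw [hde, dt_coord, dt_coord]; ring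
      rw [e1, e2]
      module
    rw [h2, norm_smul, n3, mul_one, Real.norm_eq_abs, sq_abs, ← hs13] at h1
    linarith
  obtain ⟨x, hx⟩ : ∃ x, x = ‖cr a1 a2‖ := ⟨_, rfl⟩
  obtain ⟨y, hy⟩ : ∃ y, y = ‖cr a1 a3‖ := ⟨_, rfl⟩
  obtain ⟨z, hz⟩ : ∃ z, z = ‖cr a2 a3‖ := ⟨_, rfl⟩
  have inn : ∀ m : E3, ‖m‖ ≤ 1 → |⟪m, cr a2 a3⟫| ≤ z := by
    intro m hm
    have h := abs_real_inner_le_norm m (cr a2 a3)
    rw [← hz] at h
    have hz0 : 0 ≤ z := by rw [hz]; exact norm_nonneg _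
    exact h.trans (mul_le_of_le_one_left hz0 hm)
  have R2 : ‖G12 • cr a2 a3 + G32 • cr a1 a2‖ ≤ |d| := by
    rw [r2, norm_smul, Real.norm_eq_abs]
    exact mul_le_of_le_one_right (abs_nonneg d) k2
  have R3 : ‖G13 • cr a2 a3 + G23 • -cr a1 a3‖ ≤ |d| := by
    rw [r3, norm_smul, Real.norm_eq_abs]
    exact mul_le_of_le_one_right (abs_nonneg d) k3
  have R2' : |G12| * z ≤ |d| + |G32| * x := by
    have h := norm_sub_le (G12 • cr a2 a3 + G32 • cr a1 a2) (G32 • cr a1 a2)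
    rw [add_sub_cancel_right, norm_smul, norm_smul, Real.norm_eq_abs, Real.norm_eq_abs,
      ← hz, ← hx] at h
    linarith
  have R3' : |G13| * z ≤ |d| + |G23| * y := by
    have h := norm_sub_le (G13 • cr a2 a3 + G23 • -cr a1 a3) (G23 • -cr a1 a3)
    rw [add_sub_cancel_right, norm_smul, norm_smul, norm_neg, Real.norm_eq_abs,
      Real.norm_eq_abs, ← hz, ← hy] at h
    linarith
  rw [← hx] at g12 g21 c12 C12 hd
  rw [← hy] at g13 g31 c13 C13 hd hs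
  rw [← hz] at c23 C23 hs i2 i3
  have hx0 : 0 < x := hζ.trans_le c12
  have hy0 : 0 < y := hζ.trans_le c13
  have hz0 : 0 < z := hζ.trans_le c23
  have dd : ∀ m : E3, ‖m‖ ≤ 1 → |d * ⟪m, cr a2 a3⟫| ≤ ε * ζ / 4 * (x * y) * z := by
    intro m hm
    rw [abs_mul]
    exact mul_le_mul hd (inn m hm) (abs_nonneg _) (by positivity)
  -- sizes of `G32` and `G23`
  have b1 : 3 / 4 * (ε * ζ) ≤ |G32| := by
    have h1 : ε * x * ζ ≤ |G12| * z := mul_le_mul g12 c23 hζ.le (abs_nonneg _)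
    have h2 : ε * ζ / 4 * (x * y) ≤ ε * ζ / 4 * x := by
      have : x * y ≤ x := mul_le_of_le_one_right hx0.le C13
      gcongr
    have h3 : 3 / 4 * (ε * ζ) * x ≤ |G32| * x := by linarith
    exact le_of_mul_le_mul_right h3 hx0
  have b2 : 3 / 4 * (ε * ζ) ≤ |G23| := by
    have h1 : ε * y * ζ ≤ |G13| * z := mul_le_mul g13 c23 hζ.le (abs_nonneg _)
    have h2 : ε * ζ / 4 * (x * y) ≤ ε * ζ / 4 * y := by
      have : x * y ≤ y := mul_le_of_le_one_left hy0.le C12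
      gcongr
    have h3 : 3 / 4 * (ε * ζ) * y ≤ |G23| * y := by linarith
    exact le_of_mul_le_mul_right h3 hy0
  have hεζ : 0 < ε * ζ := mul_pos hε hζ
  have b3 : 3 / 4 * (ε * ζ) ≤ |G12| := by
    have : ε * ζ ≤ ε * x := by gcongr
    linarith
  have b4 : 3 / 4 * (ε * ζ) ≤ |G21| := by
    have : ε * ζ ≤ ε * x := by gcongr
    linarith
  have b5 : 3 / 4 * (ε * ζ) ≤ |G13| := by
    have : ε * ζ ≤ ε * y := by gcongr
    linarith
  have b6 : 3 / 4 * (ε * ζ) ≤ |G31| := by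
    have : ε * ζ ≤ ε * y := by gcongr
    linarith
  -- the size of `s13`
  have hs2 : 9 / 10 * (y * z) ≤ |s13| := by
    have hd2 : |d| ≤ 1 / 4 * (y * z) := by
      refine hd.trans ?_
      have h1 : ε * ζ * x ≤ z := by
        have h5 : ε * x ≤ 1 * 1 := mul_le_mul hε1 C12 hx0.le zero_le_one
        have h6 : ζ * (ε * x) ≤ ζ * 1 := by
          rw [one_mul] at h5
          gcongr
        linarith
      have h2 : ε * ζ * x * y ≤ z * y := by gcongr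
      linarith
    have hd3 : d ^ 2 ≤ (1 / 4 * (y * z)) ^ 2 := by
      rw [← sq_abs d]
      gcongr
    have h4 : (9 / 10 * (y * z)) ^ 2 ≤ s13 ^ 2 := by
      rw [hs]
      have : 0 ≤ y ^ 2 * z ^ 2 := by positivity
      linarith
    rw [← sq_abs s13] at h4
    exact le_of_sq_le_sq h4 (abs_nonneg _)
  have q1 : G21 * (-s13) * (G31 * s12) < 0 := by
    refine opp i1 ((dd m1 k1).trans_lt ?_)
    rw [abs_mul, abs_neg]
    have h1 : ε * x * (9 / 10 * (y * z)) ≤ |G21| * |s13| :=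
      mul_le_mul g21 hs2 (by positivity) (abs_nonneg _)
    refine lt_of_lt_of_le ?_ h1
    have h2 : ε * ζ / 4 * (x * y) * z ≤ ε / 4 * (x * y) * z := by
      have : ε * ζ ≤ ε := mul_le_of_le_one_right hε.le hζ1
      gcongr
    have h3 : 0 < ε * (x * y) * z := by positivity
    linarith
  have q2 : G12 * z ^ 2 * (G32 * s12) < 0 := by
    refine opp i2 ((dd m2 k2).trans_lt ?_)
    rw [abs_mul, abs_of_pos (by positivity : 0 < z ^ 2)]
    have h1 : ε * x * z ^ 2 ≤ |G12| * z ^ 2 := by gcongr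
    refine lt_of_lt_of_le ?_ h1
    have h2 : ε * ζ / 4 * (x * y) * z ≤ ε * x * z ^ 2 / 4 := by
      have h3 : ζ * y ≤ z := (mul_le_of_le_one_right hζ.le C13).trans c23
      have h4 : ε * x * z * (ζ * y) ≤ ε * x * z * z := by gcongr
      linarith
    have h3 : 0 < ε * x * z ^ 2 := by positivity
    linarith
  have q3 : G13 * z ^ 2 * (G23 * (-s13)) < 0 := by
    refine opp i3 ((dd m3 k3).trans_lt ?_)
    rw [abs_mul, abs_of_pos (by positivity : 0 < z ^ 2)]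
    have h1 : ε * y * z ^ 2 ≤ |G13| * z ^ 2 := by gcongr
    refine lt_of_lt_of_le ?_ h1
    have h2 : ε * ζ / 4 * (x * y) * z ≤ ε * y * z ^ 2 / 4 := by
      have h3 : ζ * x ≤ z := (mul_le_of_le_one_right hζ.le C12).trans c23
      have h4 : ε * y * z * (ζ * x) ≤ ε * y * z * z := by gcongr
      linarith
    have h3 : 0 < ε * y * z ^ 2 := by positivity
    linarith
  have q4 : (G12 * G21) * ((G13 * G31) * (G23 * G32)) < 0 := by
    have h1 : 0 < (G21 * (-s13) * (G31 * s12)) * (G12 * z ^ 2 * (G32 * s12)) :=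
      mul_pos_of_neg_of_neg q1 q2
    have h2 : (G21 * (-s13) * (G31 * s12)) * (G12 * z ^ 2 * (G32 * s12)) *
        (G13 * z ^ 2 * (G23 * (-s13))) < 0 := mul_neg_of_pos_of_neg h1 q3
    have h3 : (G21 * (-s13) * (G31 * s12)) * (G12 * z ^ 2 * (G32 * s12)) *
        (G13 * z ^ 2 * (G23 * (-s13))) =
        (s13 * s12 * z ^ 2) ^ 2 * ((G12 * G21) * ((G13 * G31) * (G23 * G32))) := by ring
    rw [h3] at h2
    by_contra hcon
    exact absurd h2 (not_lt.2 (mul_nonneg (sq_nonneg _) (not_lt.1 hcon)))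
  by_cases e1 : G12 * G21 < 0
  · exact Or.inl ⟨e1, b3, b4⟩
  by_cases e2 : G13 * G31 < 0
  · exact Or.inr (Or.inl ⟨e2, b5, b6⟩)
  by_cases e3 : G23 * G32 < 0
  · exact Or.inr (Or.inr ⟨e3, b2, b1⟩)
  exact absurd q4 (not_lt.2 (mul_nonneg (not_lt.1 e1) (mul_nonneg (not_lt.1 e2) (not_lt.1 e3))))

end Pool.Agent.Lib.MP_4f1247_co
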