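import Pool.Agent.Lib.MP_4f1247_co.Stmts2
import Pool.Agent.Lib.MP_4f1247_co.Scale

set_option autoImplicit false

/-!
# The vertex sets of neighborly polyhedral surfaces have dimension at most two: the scales
-/

namespace Pool.Agent.Lib.MP_4f1247_co

open Finset
open scoped RealInnerProductSpace

namespace Fin2Aux

open ScaleAux

/-- The number of points in a ball. -/
noncomputable def cb {n : ℕ} (q : Fin n → E3) (ρ : ℝ) (x : E3) : ℕ :=
  (Finset.univ.filter (fun i => ‖q i - x‖ ≤ ρ)).card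

/-- The largest number of points in a ball. -/
noncomputable def mx {n : ℕ} (q : Fin n → E3) (ρ : ℝ) : ℕ := sSup (Set.range (cb q ρ))

variable {n : ℕ} (q : Fin n → E3)

lemma cb_le (ρ : ℝ) (x : E3) : cb q ρ x ≤ n := by
  have := Finset.card_le_univ (Finset.univ.filter (fun i => ‖q i - x‖ ≤ ρ))
  rwa [Fintype.card_fin] at this

lemma bdd (ρ : ℝ) : BddAbove (Set.range (cb q ρ)) := by
  refine ⟨n, ?_⟩
  rintro _ ⟨x, rfl⟩
  exact cb_le q ρ x

lemma cb_le_mx (ρ : ℝ) (x : E3) : cb q ρ x ≤ mx q ρ := le_csSup (bdd q ρ) ⟨x, rfl⟩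

lemma exists_mx (ρ : ℝ) : ∃ x, cb q ρ x = mx q ρ := by
  have h : mx q ρ ∈ Set.range (cb q ρ) := Nat.sSup_mem (Set.range_nonempty _) (bdd q ρ)
  exact h

lemma mx_le (ρ : ℝ) : mx q ρ ≤ n := by
  obtain ⟨x, hx⟩ := exists_mx q ρ
  rw [← hx]
  exact cb_le q ρ x

lemma mx_mono {ρ ρ' : ℝ} (h : ρ ≤ ρ') : mx q ρ ≤ mx q ρ' := by
  obtain ⟨x, hx⟩ := exists_mx q ρ
  rw [← hx]
  refine le_trans ?_ (cb_le_mx q ρ' x)
  refine Finset.card_le_card ?_
  intro i hi
  rw [Finset.mem_filter] at hi ⊢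
  exact ⟨hi.1, hi.2.trans h⟩

lemma cb_smul {s : ℝ} (hs : 0 < s) (ρ : ℝ) (x : E3) :
    cb (fun i => s⁻¹ • q i) ρ x = cb q (s * ρ) (s • x) := by
  unfold cb
  congr 1
  ext i
  simp only [Finset.mem_filter, Finset.mem_univ, true_and]
  have h3 : q i - s • x = s • (s⁻¹ • q i - x) := by
    rw [smul_sub, smul_smul, mul_inv_cancel₀ hs.ne', one_smul]
  rw [h3, norm_smul, Real.norm_of_nonneg hs.le]
  exact (mul_le_mul_iff_right₀ hs).symm

lemma ncard_cb (ρ : ℝ) (x : E3) : {i | ‖q i - x‖ ≤ ρ}.ncard = cb q ρ x := by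
  unfold cb
  rw [← Set.ncard_coe_finset]
  congr 1
  ext i
  simp

/-- Covering. -/
lemma cover (hBall : StBall) {s : ℝ} (hs : 0 < s) {ρ : ℝ} (hρ : 0 ≤ ρ) :
    (mx q ρ : ℝ) ≤ (mx q s : ℝ) * (2 * (ρ / s) + 1) ^ 3 := by
  obtain ⟨x0, hx0⟩ := exists_mx q ρ
  have h1 := hBall (Fin n) Finset.univ (fun i => s⁻¹ • q i) (mx q s : ℝ) (by
    intro x
    have e1 : ((Finset.univ.filter (fun i => ‖s⁻¹ • q i - x‖ ≤ 1)).card : ℝ) =
        (cb q (s * 1) (s • x) : ℝ) := by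
      rw [← cb_smul q hs]
      rfl
    rw [e1, mul_one]
    exact_mod_cast cb_le_mx q s _) (s⁻¹ • x0) (ρ / s) (by positivity)
  have e2 : ((Finset.univ.filter (fun i => ‖s⁻¹ • q i - s⁻¹ • x0‖ ≤ ρ / s)).card : ℝ) =
      (mx q ρ : ℝ) := by
    have e3 : ((Finset.univ.filter (fun i => ‖s⁻¹ • q i - s⁻¹ • x0‖ ≤ ρ / s)).card : ℝ) =
        (cb (fun i => s⁻¹ • q i) (ρ / s) (s⁻¹ • x0) : ℝ) := rfl
    rw [e3, cb_smul q hs, smul_smul, mul_inv_cancel₀ hs.ne', one_smul, mul_div_cancel₀ _ hs.ne',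
      hx0]
  rwa [e2] at h1

/-- The main estimate. -/
lemma main (hC : StCore) (hBall : StBall) {d : ℝ} (hd2 : 2 < d) (hd3 : d ≤ 3) :
    ∃ c : ℝ, 0 < c ∧ ∀ (n : ℕ) (q : Fin n → E3) (T : Finset (Finset (Fin n))), Srf q T →
      ∀ R s : ℝ, 0 < s → s ≤ R →
        ∃ x : E3, c * (s / R) ^ d * (mx q R : ℝ) ≤ (cb q s x : ℝ) := by
  have hd20 : 0 < d - 2 := by linarith
  obtain ⟨g, hg⟩ : ∃ g : ℝ → ℝ, g = fun η => min η ((η / 8) ^ (1 / (d - 2))) := ⟨_, rfl⟩
  have hg0 : ∀ η, 0 < η → 0 < g η ∧ g η ≤ η := by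
    intro η hη
    rw [hg]
    refine ⟨lt_min hη (by positivity), min_le_left _ _⟩
  have hgd : ∀ η, 0 < η → 8 * (g η) ^ d ≤ η * (g η) ^ 2 := by
    intro η hη
    have h0 := (hg0 η hη).1
    have h1 : g η ≤ (η / 8) ^ (1 / (d - 2)) := by
      rw [hg]
      exact min_le_right _ _
    have h2 : (g η) ^ (d - 2) ≤ η / 8 := by
      calc (g η) ^ (d - 2) ≤ ((η / 8) ^ (1 / (d - 2))) ^ (d - 2) :=
            Real.rpow_le_rpow h0.le h1 hd20.le
        _ = η / 8 := by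
            rw [← Real.rpow_mul (by positivity), one_div_mul_cancel hd20.ne', Real.rpow_one]
    have h3 : (g η) ^ d = (g η) ^ (d - 2) * (g η) ^ 2 := by
      rw [← Real.rpow_natCast, ← Real.rpow_add h0]
      congr 1
      push_cast
      ring
    rw [h3]
    have h4 : 0 < (g η) ^ 2 := by positivity
    nlinarith
  have hgm : ∀ η η', 0 < η → η ≤ η' → g η ≤ g η' := by
    intro η η' hη h
    rw [hg]
    refine min_le_min h ?_
    exact Real.rpow_le_rpow (by positivity) (by linarith) (by positivity)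
  obtain ⟨σ, hσ0, hσ1, hcore⟩ := hC g hg0
  have hγ0 := (hg0 σ hσ0).1
  refine ⟨((2 / g σ + 1) ^ 3)⁻¹, by positivity, ?_⟩
  intro n q T hS R s hs hsR
  have hR0 : 0 < R := lt_of_lt_of_le hs hsR
  obtain ⟨x1, hx1⟩ := exists_mx q s
  refine ⟨x1, ?_⟩
  rw [hx1]
  rcases Nat.eq_zero_or_pos (mx q R) with hn | hn
  · have : (mx q R : ℝ) = 0 := by exact_mod_cast hn
    rw [this, mul_zero]
    positivity
  have hnR : (0 : ℝ) < mx q R := by exact_mod_cast hn
  obtain ⟨J0, hJ1, hJ2⟩ := exists_nat_pow_near (x := R / s) (y := 2)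
    (by rw [le_div_iff₀ hs]; linarith) (by norm_num)
  have hρ0 : ∀ j : ℕ, 0 < R / 2 ^ j := fun j => by positivity
  obtain ⟨j0, hj0, hmax⟩ := Finset.exists_max_image (Finset.range (J0 + 1))
    (fun j : ℕ => (mx q (R / 2 ^ j) : ℝ) / (R / 2 ^ j) ^ d) ⟨0, by simp⟩
  obtain ⟨ρ, hρ⟩ : ∃ ρ : ℝ, ρ = R / 2 ^ j0 := ⟨_, rfl⟩
  rw [← hρ] at hmax
  have hρpos : 0 < ρ := by rw [hρ]; exact hρ0 j0
  have hρd : 0 < ρ ^ d := by positivity
  have hsρ : s ≤ ρ := by
    rw [hρ, le_div_iff₀ (by positivity)]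
    have h1 : (2 : ℝ) ^ j0 ≤ 2 ^ J0 :=
      pow_le_pow_right₀ (by norm_num) (by rw [Finset.mem_range] at hj0; omega)
    have h2 : (2 : ℝ) ^ j0 ≤ R / s := h1.trans hJ1
    rw [le_div_iff₀ hs] at h2
    linarith
  obtain ⟨N, hN⟩ : ∃ N : ℝ, N = (mx q ρ : ℝ) := ⟨_, rfl⟩
  rw [← hN] at hmax
  have hN0' : 0 ≤ N := by rw [hN]; positivity
  -- (d)
  have hd' : (mx q R : ℝ) * (ρ / R) ^ d ≤ N := by
    have h1 := hmax 0 (by simp)
    simp only [pow_zero, div_one] at h1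
    rw [div_le_div_iff₀ (by positivity) hρd] at h1
    rw [Real.div_rpow hρpos.le hR0.le]
    rw [mul_div_assoc', div_le_iff₀ (by positivity)]
    exact h1
  have hNpos : 0 < N := lt_of_lt_of_le (by positivity) hd'
  have h2d : (2 : ℝ) ^ d ≤ 8 := by
    calc (2 : ℝ) ^ d ≤ 2 ^ (3 : ℝ) := Real.rpow_le_rpow_of_exponent_le (by norm_num) hd3
      _ = 8 := by norm_num
  have hpt : ∀ j ∈ Finset.range (J0 + 1), (mx q (R / 2 ^ j) : ℝ) ≤ N * ((R / 2 ^ j) / ρ) ^ d := by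
    intro j hj
    have h1 := hmax j hj
    have h3 : 0 < (R / 2 ^ j) ^ d := Real.rpow_pos_of_pos (hρ0 j) d
    rw [div_le_div_iff₀ h3 hρd] at h1
    rw [Real.div_rpow (hρ0 j).le hρpos.le, mul_div_assoc', le_div_iff₀ hρd]
    exact h1
  -- (a)
  have ha : ∀ t : ℝ, s ≤ t → t ≤ R → (mx q t : ℝ) ≤ 8 * N * (t / ρ) ^ d := by
    intro t hst htR
    have ht0 : 0 < t := lt_of_lt_of_le hs hst
    obtain ⟨j, hj1, hj2⟩ := exists_nat_pow_near (x := R / t) (y := 2)
      (by rw [le_div_iff₀ ht0]; linarith) (by norm_num)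
    have hjJ : j ∈ Finset.range (J0 + 1) := by
      rw [Finset.mem_range]
      by_contra hcon
      have h1 : (2 : ℝ) ^ (J0 + 1) ≤ 2 ^ j := pow_le_pow_right₀ (by norm_num) (not_lt.1 hcon)
      have h2 : R / t ≤ R / s := div_le_div_of_nonneg_left hR0.le hs hst
      linarith
    have h1 : t ≤ R / 2 ^ j := by
      rw [le_div_iff₀ (by positivity)]
      rw [le_div_iff₀ ht0] at hj1
      linarith
    have h2 : R / 2 ^ j ≤ 2 * t := by
      rw [div_le_iff₀ (by positivity)]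
      rw [div_lt_iff₀ ht0, pow_succ] at hj2
      linarith
    calc (mx q t : ℝ) ≤ (mx q (R / 2 ^ j) : ℝ) := by exact_mod_cast mx_mono q h1
      _ ≤ N * ((R / 2 ^ j) / ρ) ^ d := hpt j hjJ
      _ ≤ N * ((2 * t) / ρ) ^ d := by
          apply mul_le_mul_of_nonneg_left _ hN0'
          apply Real.rpow_le_rpow (div_nonneg (hρ0 j).le hρpos.le) _ (by linarith)
          exact div_le_div_of_nonneg_right h2 hρpos.le
      _ = 2 ^ d * N * (t / ρ) ^ d := by
          rw [mul_div_assoc, Real.mul_rpow (by norm_num) (by positivity)]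
          ring
      _ ≤ 8 * N * (t / ρ) ^ d := by
          apply mul_le_mul_of_nonneg_right _ (by positivity)
          exact mul_le_mul_of_nonneg_right h2d hN0'
  -- (b)
  have hb : (mx q (2 * ρ) : ℝ) ≤ 125 * N := by
    have h1 := cover q hBall hρpos (show 0 ≤ 2 * ρ by positivity)
    have h3 : 2 * ρ / ρ = 2 := by field_simp
    rw [h3, ← hN] at h1
    norm_num at h1
    linarith
  -- (c)
  obtain ⟨x0, hx0⟩ := exists_mx q ρ
  have hx0' : (cb (fun i => ρ⁻¹ • q i) 1 (ρ⁻¹ • x0) : ℝ) = N := by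
    rw [cb_smul q hρpos, mul_one, smul_smul, mul_inv_cancel₀ hρpos.ne', one_smul, hx0, hN]
  have hγρ : g σ * ρ ≤ s := by
    by_contra hcon
    have hcon' : s < g σ * ρ := not_le.1 hcon
    obtain ⟨η, hη1, hη2, hη3⟩ := hcore n (fun i => ρ⁻¹ • q i) T (ρ⁻¹ • x0)
      (srf_smul hS (inv_ne_zero hρpos.ne')) (by rw [ncard_cb, hx0']; exact hNpos) (by
        rw [ncard_cb, ncard_cb, hx0', cb_smul q hρpos, smul_smul, mul_inv_cancel₀ hρpos.ne',
          one_smul, mul_comm ρ 2]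
        have h1 : (cb q (2 * ρ) x0 : ℝ) ≤ (mx q (2 * ρ) : ℝ) := by
          exact_mod_cast cb_le_mx q (2 * ρ) x0
        linarith)
    rw [ncard_cb, hx0'] at hη3
    apply hη3
    intro x
    have hη0 : 0 < η := lt_of_lt_of_le hσ0 hη1
    have e1 : ((Finset.univ.filter (fun i => ‖ρ⁻¹ • q i - x‖ ≤ g η)).card : ℝ) =
        (cb q (ρ * g η) (ρ • x) : ℝ) := by
      rw [← cb_smul q hρpos]
      rfl
    rw [e1]
    have h1 : (cb q (ρ * g η) (ρ • x) : ℝ) ≤ (mx q (ρ * g η) : ℝ) := by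
      exact_mod_cast cb_le_mx q _ _
    have h2 : g σ ≤ g η := hgm σ η hσ0 hη1
    have h3 : s ≤ ρ * g η := by nlinarith
    have h4 : ρ * g η ≤ R := by
      have h5 : g η ≤ 1 := (hg0 η hη0).2.trans hη2
      have h6 : ρ ≤ R := by
        rw [hρ]
        exact div_le_self hR0.le (one_le_pow₀ (by norm_num))
      nlinarith [(hg0 η hη0).1]
    have h5 := ha _ h3 h4
    have h6 : ρ * g η / ρ = g η := by field_simp
    rw [h6] at h5
    have h7 := hgd η hη0
    calc (cb q (ρ * g η) (ρ • x) : ℝ) ≤ 8 * N * (g η) ^ d := h1.trans h5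
      _ = N * (8 * (g η) ^ d) := by ring
      _ ≤ N * (η * (g η) ^ 2) := mul_le_mul_of_nonneg_left h7 hN0'
      _ = η * (g η) ^ 2 * N := by ring
  -- (e)
  have he : N ≤ (mx q s : ℝ) * (2 / g σ + 1) ^ 3 := by
    have h1 := cover q hBall hs hρpos.le
    rw [← hN] at h1
    refine h1.trans (mul_le_mul_of_nonneg_left ?_ (by positivity))
    refine pow_le_pow_left₀ (by positivity) ?_ 3
    have h2 : ρ / s ≤ 1 / g σ := by
      rw [div_le_div_iff₀ hs hγ0]
      linarith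
    have h3 : 2 / g σ = 2 * (1 / g σ) := by ring
    rw [h3]
    linarith
  have h9 : (mx q R : ℝ) * (s / R) ^ d ≤ (mx q s : ℝ) * (2 / g σ + 1) ^ 3 := by
    refine le_trans ?_ (hd'.trans he)
    apply mul_le_mul_of_nonneg_left _ hnR.le
    apply Real.rpow_le_rpow (by positivity) _ (by linarith)
    exact div_le_div_of_nonneg_right hsρ hR0.le
  have h10 : 0 < (2 / g σ + 1) ^ 3 := by positivity
  rw [mul_assoc, inv_mul_le_iff₀ h10]
  linarith

end Fin2Aux

/-- The theorem: for `d > 2` there is `c > 0` such that for every neighborly surface and all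
`0 < s ≤ R`: if there are `N` vertices in a ball of radius `R`, there are `c (s / R) ^ d N` in a ball
of radius `s`; the ratio of the largest and the smallest distance between the vertices is at least
`c n ^ (1 / d)`. -/
def StFin3 : Prop := ∀ d : ℝ, 2 < d → ∃ c : ℝ, 0 < c ∧ ∀ (n : ℕ) (q : Fin n → E3)
  (T : Finset (Finset (Fin n))), Srf q T → (∀ (R s : ℝ) (y : E3), 0 < s → s ≤ R →
      ∃ x : E3, c * (s / R) ^ d * ({i | dist (q i) y ≤ R}.ncard : ℝ) ≤
        ({i | dist (q i) x ≤ s}.ncard : ℝ)) ∧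
    (2 ≤ n → ∀ R s : ℝ, 0 < s → (∀ i j, dist (q i) (q j) ≤ R) →
      (∀ i j, i ≠ j → s ≤ dist (q i) (q j)) → c * (n : ℝ) ^ (1 / d) ≤ R / s)

open Fin2Aux in
/-- The theorem from the core. -/
theorem stFin3 (hC : StCore) (hBall : StBall) : StFin3 := by
  intro d hd
  obtain ⟨c, hc0, hc⟩ := main hC hBall (d := min d 3) (lt_min hd (by norm_num)) (min_le_right _ _)
  have hd0 : 0 < d := by linarith
  have key : ∀ (n : ℕ) (q : Fin n → E3) (T : Finset (Finset (Fin n))), Srf q T →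
      ∀ (R s : ℝ) (y : E3), 0 < s → s ≤ R →
        ∃ x : E3, c * (s / R) ^ d * ({i | dist (q i) y ≤ R}.ncard : ℝ) ≤
          ({i | dist (q i) x ≤ s}.ncard : ℝ) := by
    intro n q T hS R s y hs hsR
    have hR0 : 0 < R := lt_of_lt_of_le hs hsR
    obtain ⟨x, hx⟩ := hc n q T hS R s hs hsR
    refine ⟨x, ?_⟩
    have e1 : ∀ (x : E3) (s : ℝ), {i | dist (q i) x ≤ s} = {i | ‖q i - x‖ ≤ s} := by
      intro x s
      ext i
      simp only [Set.mem_ofPred_eq, dist_eq_norm]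
    rw [e1, e1, ncard_cb, ncard_cb]
    refine le_trans ?_ hx
    have h1 : (s / R) ^ d ≤ (s / R) ^ (min d 3) :=
      Real.rpow_le_rpow_of_exponent_ge (by positivity) (by rw [div_le_one hR0]; exact hsR)
        (min_le_left _ _)
    have h2 : (cb q R y : ℝ) ≤ (mx q R : ℝ) := by exact_mod_cast cb_le_mx q R y
    gcongr
  refine ⟨min c (c ^ (1 / d) / 4), by positivity, ?_⟩
  intro n q T hS
  refine ⟨?_, ?_⟩
  · intro R s y hs hsR
    have hR0 : 0 < R := lt_of_lt_of_le hs hsR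
    obtain ⟨x, hx⟩ := key n q T hS R s y hs hsR
    refine ⟨x, le_trans ?_ hx⟩
    have h1 : min c (c ^ (1 / d) / 4) ≤ c := min_le_left _ _
    have h2 : 0 ≤ (s / R) ^ d := by positivity
    gcongr
  · intro hn R s hs hdist hsep
    have hne : (⟨0, by omega⟩ : Fin n) ≠ ⟨1, by omega⟩ := by
      intro h0
      have := congrArg Fin.val h0
      simp at this
    have hsR : s ≤ R := (hsep _ _ hne).trans (hdist _ _)
    have hR0 : 0 < R := lt_of_lt_of_le hs hsR
    obtain ⟨x, hx⟩ := key n q T hS R (s / 4) (q ⟨0, by omega⟩) (by positivity) (by linarith)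
    have h0 : {i | dist (q i) (q ⟨0, by omega⟩) ≤ R}.ncard = n := by
      have e1 : {i | dist (q i) (q ⟨0, by omega⟩) ≤ R} = Set.univ :=
        Set.eq_univ_of_forall fun i => hdist i _
      rw [e1, Set.ncard_univ, Nat.card_fin]
    rw [h0] at hx
    have h1 : {i | dist (q i) x ≤ s / 4}.ncard ≤ 1 := by
      rw [Set.ncard_le_one_iff]
      intro i j hi hj
      by_contra hij
      have h2 := hsep i j hij
      have h3 := dist_triangle_right (q i) (q j) x
      simp only [Set.mem_ofPred_eq] at hi hj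
      linarith
    have h2 : c * (s / 4 / R) ^ d * n ≤ 1 := hx.trans (by exact_mod_cast h1)
    have hz0 : 0 < s / 4 / R := by positivity
    have h3 : (c * (s / 4 / R) ^ d * n) ^ (1 / d) ≤ 1 :=
      Real.rpow_le_one (by positivity) h2 (by positivity)
    have h4 : (c * (s / 4 / R) ^ d * n) ^ (1 / d) =
        c ^ (1 / d) * (s / 4 / R) * (n : ℝ) ^ (1 / d) := by
      rw [Real.mul_rpow (by positivity) (by positivity), Real.mul_rpow hc0.le (by positivity),
        ← Real.rpow_mul hz0.le, mul_one_div_cancel hd0.ne', Real.rpow_one]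
    rw [h4] at h3
    have h5 : c ^ (1 / d) / 4 * (n : ℝ) ^ (1 / d) ≤ R / s := by
      rw [le_div_iff₀ hs]
      have h6 : c ^ (1 / d) * (s / 4 / R) * (n : ℝ) ^ (1 / d) =
          c ^ (1 / d) / 4 * (n : ℝ) ^ (1 / d) * s / R := by
        field_simp
      rw [h6, div_le_one hR0] at h3
      exact h3
    refine le_trans ?_ h5
    have h7 : min c (c ^ (1 / d) / 4) ≤ c ^ (1 / d) / 4 := min_le_right _ _
    gcongr

end Pool.Agent.Lib.MP_4f1247_co
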