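import Pool.Agent.Lib.MP_4f1247_co.Stmts2

set_option autoImplicit false

/-!
# Neighborly polyhedral surfaces: many faces with the same middle vertex
-/

namespace Pool.Agent.Lib.MP_4f1247_co

open Finset
open scoped RealInnerProductSpace

namespace FlagAux

variable {n : ℕ} {q : Fin n → E3} {T : Finset (Finset (Fin n))}

lemma ne_of_card {x a w : Fin n} (h : ({x, a, w} : Finset (Fin n)).card = 3) :
    x ≠ a ∧ x ≠ w ∧ a ≠ w := by
  refine ⟨?_, ?_, ?_⟩
  · rintro rfl
    rw [Finset.insert_eq_of_mem (Finset.mem_insert_self _ _)] at h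
    have := Finset.card_le_two (a := x) (b := w)
    omega
  · rintro rfl
    rw [Finset.insert_eq_of_mem (by simp)] at h
    have := Finset.card_le_two (a := a) (b := x)
    omega
  · rintro rfl
    rw [Finset.pair_eq_singleton] at h
    have := Finset.card_le_two (a := x) (b := a)
    omega

lemma swap12 (x a w : Fin n) : ({x, a, w} : Finset (Fin n)) = {a, x, w} := by
  ext z
  simp
  tauto

lemma swap23 (x a w : Fin n) : ({x, a, w} : Finset (Fin n)) = {x, w, a} := by
  ext z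
  simp
  tauto

/-- The third vertices. -/
noncomputable def third (T : Finset (Finset (Fin n))) (a b : Fin n) : Finset (Fin n) := by
  classical exact Finset.univ.filter (fun c => ({a, b, c} : Finset (Fin n)) ∈ T)

lemma mem_third {a b c : Fin n} : c ∈ third T a b ↔ ({a, b, c} : Finset (Fin n)) ∈ T := by
  unfold third
  simp

lemma third_card (hT : Srf q T) {a b : Fin n} (hab : a ≠ b) : (third T a b).card = 2 := by
  classical
  rw [← hT.two a b hab]
  refine Finset.card_nbij (fun c => {a, b, c}) ?_ ?_ ?_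
  · intro c hc
    rw [Finset.mem_coe, mem_third] at hc
    rw [Finset.mem_coe, Finset.mem_filter]
    exact ⟨hc, by simp, by simp⟩
  · intro c hc c' hc' h
    rw [Finset.mem_coe, mem_third] at hc hc'
    obtain ⟨-, h2, h3⟩ := ne_of_card (hT.card _ hc)
    have h4 : c ∈ ({a, b, c'} : Finset (Fin n)) := by
      rw [← show ({a, b, c} : Finset (Fin n)) = {a, b, c'} from h]
      simp
    simp only [Finset.mem_insert, Finset.mem_singleton] at h4
    rcases h4 with h4 | h4 | h4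
    · exact absurd h4.symm h2
    · exact absurd h4.symm h3
    · exact h4
  · intro t ht
    rw [Finset.mem_coe, Finset.mem_filter] at ht
    obtain ⟨ht, ha, hb⟩ := ht
    have hb' : b ∈ t.erase a := Finset.mem_erase.2 ⟨hab.symm, hb⟩
    have h1 : ((t.erase a).erase b).card = 1 := by
      rw [Finset.card_erase_of_mem hb', Finset.card_erase_of_mem ha, hT.card t ht]
    obtain ⟨c, hc⟩ := Finset.card_eq_one.1 h1
    have h2 : ({a, b, c} : Finset (Fin n)) = t := by
      rw [← hc, Finset.insert_erase hb', Finset.insert_erase ha]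
    refine ⟨c, ?_, h2⟩
    rw [Finset.mem_coe, mem_third, h2]
    exact ht

lemma third_le (hT : Srf q T) (a b : Fin n) : (third T a b).card ≤ 2 := by
  classical
  by_cases hab : a = b
  · subst hab
    have : third T a a = ∅ := by
      rw [Finset.eq_empty_iff_forall_notMem]
      intro c hc
      rw [mem_third] at hc
      exact (ne_of_card (hT.card _ hc)).1 rfl
    rw [this]
    simp
  · exact (third_card hT hab).le

/-- Flags are determined by two vertices and one of two faces. -/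
lemma f12 (hT : Srf q T) (s : Finset (Fin n × Fin n × Fin n))
    (hs : ∀ f ∈ s, ({f.1, f.2.1, f.2.2} : Finset (Fin n)) ∈ T) (S : Finset (Fin n × Fin n))
    (hS : ∀ f ∈ s, (f.1, f.2.1) ∈ S) : s.card ≤ 2 * S.card := by
  classical
  refine Finset.card_le_mul_card_image_of_maps_to (f := fun f => (f.1, f.2.1)) hS 2 ?_
  rintro ⟨a, b⟩ _
  refine le_trans ?_ (third_le hT a b)
  refine Finset.card_le_card_of_injOn (fun f => f.2.2) ?_ ?_
  · rintro ⟨a', b', c'⟩ hf
    rw [Finset.mem_coe, Finset.mem_filter] at hf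
    obtain ⟨h1, h2⟩ := hf
    simp only [Prod.mk.injEq] at h2
    obtain ⟨rfl, rfl⟩ := h2
    exact mem_third.2 (hs _ h1)
  · rintro ⟨a1, b1, c1⟩ hf ⟨a2, b2, c2⟩ hf' h
    rw [Finset.mem_coe, Finset.mem_filter] at hf hf'
    simp only [Prod.mk.injEq] at hf hf' h ⊢
    exact ⟨hf.2.1.trans hf'.2.1.symm, hf.2.2.trans hf'.2.2.symm, h⟩

lemma f13 (hT : Srf q T) (s : Finset (Fin n × Fin n × Fin n))
    (hs : ∀ f ∈ s, ({f.1, f.2.1, f.2.2} : Finset (Fin n)) ∈ T) (S : Finset (Fin n × Fin n))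
    (hS : ∀ f ∈ s, (f.1, f.2.2) ∈ S) : s.card ≤ 2 * S.card := by
  classical
  refine Finset.card_le_mul_card_image_of_maps_to (f := fun f => (f.1, f.2.2)) hS 2 ?_
  rintro ⟨a, b⟩ _
  refine le_trans ?_ (third_le hT a b)
  refine Finset.card_le_card_of_injOn (fun f => f.2.1) ?_ ?_
  · rintro ⟨a', b', c'⟩ hf
    rw [Finset.mem_coe, Finset.mem_filter] at hf
    obtain ⟨h1, h2⟩ := hf
    simp only [Prod.mk.injEq] at h2
    obtain ⟨rfl, rfl⟩ := h2
    refine mem_third.2 ?_
    rw [swap23]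
    exact hs _ h1
  · rintro ⟨a1, b1, c1⟩ hf ⟨a2, b2, c2⟩ hf' h
    rw [Finset.mem_coe, Finset.mem_filter] at hf hf'
    simp only [Prod.mk.injEq] at hf hf' h ⊢
    exact ⟨hf.2.1.trans hf'.2.1.symm, h, hf.2.2.trans hf'.2.2.symm⟩

lemma f23 (hT : Srf q T) (s : Finset (Fin n × Fin n × Fin n))
    (hs : ∀ f ∈ s, ({f.1, f.2.1, f.2.2} : Finset (Fin n)) ∈ T) (S : Finset (Fin n × Fin n))
    (hS : ∀ f ∈ s, (f.2.1, f.2.2) ∈ S) : s.card ≤ 2 * S.card := by
  classical
  refine Finset.card_le_mul_card_image_of_maps_to (f := fun f => (f.2.1, f.2.2)) hS 2 ?_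
  rintro ⟨a, b⟩ _
  refine le_trans ?_ (third_le hT a b)
  refine Finset.card_le_card_of_injOn (fun f => f.1) ?_ ?_
  · rintro ⟨a', b', c'⟩ hf
    rw [Finset.mem_coe, Finset.mem_filter] at hf
    obtain ⟨h1, h2⟩ := hf
    simp only [Prod.mk.injEq] at h2
    obtain ⟨rfl, rfl⟩ := h2
    refine mem_third.2 ?_
    rw [swap23, swap12]
    exact hs _ h1
  · rintro ⟨a1, b1, c1⟩ hf ⟨a2, b2, c2⟩ hf' h
    rw [Finset.mem_coe, Finset.mem_filter] at hf hf'
    simp only [Prod.mk.injEq] at hf hf' h ⊢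
    exact ⟨h, hf.2.1.trans hf'.2.1.symm, hf.2.2.trans hf'.2.2.symm⟩

/-- The flags with two vertices in `P`. -/
noncomputable def flags (T : Finset (Finset (Fin n))) (P : Finset (Fin n)) :
    Finset (Fin n × Fin n × Fin n) := by
  classical exact Finset.univ.filter (fun f => ({f.1, f.2.1, f.2.2} : Finset (Fin n)) ∈ T ∧
    f.1 ∈ P ∧ f.2.1 ∈ P)

lemma mem_flags {P : Finset (Fin n)} {f : Fin n × Fin n × Fin n} :
    f ∈ flags T P ↔ ({f.1, f.2.1, f.2.2} : Finset (Fin n)) ∈ T ∧ f.1 ∈ P ∧ f.2.1 ∈ P := by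
  unfold flags
  simp

lemma flags_card (hT : Srf q T) (P : Finset (Fin n)) :
    2 * P.offDiag.card ≤ (flags T P).card := by
  classical
  refine Finset.mul_card_image_le_card_of_maps_to (f := fun f => (f.1, f.2.1)) ?_ 2 ?_
  · rintro ⟨a, b, c⟩ hf
    rw [mem_flags] at hf
    rw [Finset.mem_offDiag]
    exact ⟨hf.2.1, hf.2.2, (ne_of_card (hT.card _ hf.1)).1⟩
  · rintro ⟨a, b⟩ hab
    rw [Finset.mem_offDiag] at hab
    rw [← third_card hT hab.2.2]
    refine Finset.card_le_card_of_injOn (fun c => (a, b, c)) ?_ ?_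
    · intro c hc
      rw [Finset.mem_coe, mem_third] at hc
      rw [Finset.mem_coe, Finset.mem_filter, mem_flags]
      exact ⟨⟨hc, hab.1, hab.2.1⟩, rfl⟩
    · intro c _ c' _ h
      simpa using h

/-- The pairs at distance at most `l`. -/
noncomputable def near (q : Fin n → E3) (P : Finset (Fin n)) (l : ℝ) : Finset (Fin n × Fin n) := by
  classical exact (P ×ˢ Finset.univ).filter (fun p => ‖q p.2 - q p.1‖ ≤ l)

lemma near_card {P : Finset (Fin n)} {l ν : ℝ} (hD : DenW Finset.univ q l ν) :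
    ((near q P l).card : ℝ) ≤ P.card * ν := by
  classical
  have h1 : (near q P l).card = ∑ a ∈ P, (Finset.univ.filter (fun i => ‖q i - q a‖ ≤ l)).card := by
    unfold near
    rw [Finset.card_filter, Finset.sum_product]
    refine Finset.sum_congr rfl fun a _ => ?_
    rw [Finset.card_filter]
  rw [h1]
  push_cast
  calc ∑ a ∈ P, ((Finset.univ.filter (fun i => ‖q i - q a‖ ≤ l)).card : ℝ) ≤ ∑ a ∈ P, ν :=
        Finset.sum_le_sum fun a _ => hD (q a)
    _ = P.card * ν := by rw [Finset.sum_const, nsmul_eq_mul]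

/-- Good faces. -/
def Good (q : Fin n → E3) (x0 : E3) (β : ℝ) (t : Finset (Fin n)) (x a w : Fin n) : Prop :=
  t = {x, a, w} ∧ ‖q x - x0‖ ≤ 2 ∧ ‖q a - x0‖ ≤ 1 ∧ Btw β (q x) (q a) (q w)

/-- Good flags give good faces. -/
lemma good (hS : StSliv2) (hM : StMid) (hT : Srf q T) {x0 : E3} {r l β : ℝ} (hr : 0 < r)
    (hrl : 30 * r < l) (hl : l ≤ 1) (hβ : 120 * r / l ≤ β) {a b c : Fin n}
    (ht : ({a, b, c} : Finset (Fin n)) ∈ T) (ha : ‖q a - x0‖ ≤ 1) (hb : ‖q b - x0‖ ≤ 1)
    (hsa : Sur q r a) (hsb : Sur q r b) (h1 : l ≤ ‖q b - q a‖) (h2 : l ≤ ‖q c - q a‖)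
    (h3 : l ≤ ‖q c - q b‖) : ∃ x y z : Fin n, Good q x0 β {a, b, c} x y z := by
  -- points near the segment
  have hseg : ∀ (y z c : E3), ‖y - x0‖ ≤ 1 → ‖z - x0‖ ≤ 1 →
      (∃ t : ℝ, 0 ≤ t ∧ t ≤ 1 ∧ ‖c - ((1 - t) • y + t • z)‖ ≤ 30 * r) → ‖c - x0‖ ≤ 2 := by
    rintro y z c hy hz ⟨t, ht0, ht1, ht⟩
    have e1 : ‖((1 - t) • y + t • z) - x0‖ ≤ 1 := by
      have e2 : ((1 - t) • y + t • z) - x0 = (1 - t) • (y - x0) + t • (z - x0) := by
        simp only [smul_sub, sub_smul, one_smul]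
        abel
      rw [e2]
      refine (norm_add_le _ _).trans ?_
      rw [norm_smul, norm_smul, Real.norm_of_nonneg ht0, Real.norm_of_nonneg (by linarith)]
      nlinarith
    have e3 : c - x0 = (c - ((1 - t) • y + t • z)) + (((1 - t) • y + t • z) - x0) := by abel
    rw [e3]
    refine (norm_add_le _ _).trans ?_
    linarith
  have hmono : ∀ x y z : E3, Btw (120 * r / l) x y z → Btw β x y z := fun x y z h => h.trans hβ
  rcases hS n q T r hT a b c ht hsa hsb (by linarith) with ⟨e1, e2⟩ | ⟨e1, e2⟩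
  · rcases hM (q a) (q b) (q c) r l hr hrl h1 h2 h3 e1 e2 with ⟨f1, f2⟩ | f1
    · refine ⟨c, a, b, ?_, hseg _ _ _ ha hb f2, ha, hmono _ _ _ f1⟩
      rw [swap12 c a b, swap23 a c b]
    · refine ⟨b, a, c, swap12 _ _ _, by linarith, ha, hmono _ _ _ f1⟩
  · have e3 : ‖cr (q a - q b) (q c - q b)‖ ≤ 20 * r * ‖q c - q b‖ := by
      refine le_trans (le_of_eq ?_) e2
      have e4 : cr (q a - q b) (q c - q b) = -cr (q b - q a) (q c - q a) := by
        apply ext3 <;> simp <;> ring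
      rw [e4, norm_neg]
    rcases hM (q b) (q a) (q c) r l hr hrl (by rw [norm_sub_rev]; exact h1) h3 h2 e1 e3 with
      ⟨f1, f2⟩ | f1
    · refine ⟨c, b, a, ?_, hseg _ _ _ hb ha f2, hb, hmono _ _ _ f1⟩
      rw [swap12 c b a, swap23 b c a, swap12 b a c]
    · exact ⟨a, b, c, rfl, by linarith, hb, hmono _ _ _ f1⟩

/-- The density of the vectors from the apex. -/
lemma denW {I : Finset (Finset (Fin n))} {ρ ν : ℝ} (hT : Srf q T)
    (hD : DenW Finset.univ q ρ ν) (x : Fin n) (a : Finset (Fin n) → Fin n) (hI : I ⊆ T)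
    (hx : ∀ t ∈ I, x ∈ t ∧ a t ∈ t ∧ x ≠ a t) : DenW I (fun t => q (a t) - q x) ρ (2 * ν) := by
  classical
  intro y
  have h1 : (I.filter (fun t => ‖q (a t) - q x - y‖ ≤ ρ)).card ≤
      2 * (Finset.univ.filter (fun i => ‖q i - (q x + y)‖ ≤ ρ)).card := by
    refine Finset.card_le_mul_card_image_of_maps_to (f := a) ?_ 2 ?_
    · intro t ht
      rw [Finset.mem_filter] at ht
      rw [Finset.mem_filter]
      refine ⟨Finset.mem_univ _, ?_⟩
      have e : q (a t) - (q x + y) = q (a t) - q x - y := by abel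
      rw [e]
      exact ht.2
    · intro i _
      by_cases hix : x = i
      · have h0 : ((I.filter (fun t => ‖q (a t) - q x - y‖ ≤ ρ)).filter
            (fun t => a t = i)) = ∅ := by
          rw [Finset.eq_empty_iff_forall_notMem]
          intro t ht
          rw [Finset.mem_filter, Finset.mem_filter] at ht
          exact (hx t ht.1.1).2.2 (hix.trans ht.2.symm)
        rw [h0]
        simp
      · rw [← hT.two x i hix]
        refine Finset.card_le_card ?_
        intro t ht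
        rw [Finset.mem_filter, Finset.mem_filter] at ht
        rw [Finset.mem_filter]
        obtain ⟨h1, h2, _⟩ := hx t ht.1.1
        exact ⟨hI ht.1.1, h1, ht.2 ▸ h2⟩
  have h2 := hD (q x + y)
  have h3 : ((I.filter (fun t => ‖q (a t) - q x - y‖ ≤ ρ)).card : ℝ) ≤
      2 * ((Finset.univ.filter (fun i => ‖q i - (q x + y)‖ ≤ ρ)).card : ℝ) := by
    exact_mod_cast h1
  linarith

end FlagAux

open FlagAux in
/-- Many faces with the same middle vertex. -/
theorem stFlag (hS : StSliv2) (hM : StMid) : StFlag := by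
  classical
  intro n q T x0 N r l β hT hr hrl hl hβ hN0 hN hns hD hQ
  -- the points
  obtain ⟨P, hP⟩ : ∃ P : Finset (Fin n), P = Finset.univ.filter (fun i => ‖q i - x0‖ ≤ 1) :=
    ⟨_, rfl⟩
  obtain ⟨NS, hNS⟩ : ∃ NS : Finset (Fin n),
      NS = Finset.univ.filter (fun i => ‖q i - x0‖ ≤ 1 ∧ ¬ Sur q r i) := ⟨_, rfl⟩
  obtain ⟨Q, hQd⟩ : ∃ Q : Finset (Fin n), Q = Finset.univ.filter (fun i => ‖q i - x0‖ ≤ 2) :=
    ⟨_, rfl⟩
  have hPm : ∀ i, i ∈ P ↔ ‖q i - x0‖ ≤ 1 := fun i => by rw [hP]; simp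
  have hQm : ∀ i, i ∈ Q ↔ ‖q i - x0‖ ≤ 2 := fun i => by rw [hQd]; simp
  have hPc : N = (P.card : ℝ) := by
    rw [hN, ← Set.ncard_coe_finset]
    congr 2
    ext i
    simp [hPm]
  have hNSc : ({i | ‖q i - x0‖ ≤ 1 ∧ ¬ Sur q r i}.ncard : ℝ) = (NS.card : ℝ) := by
    rw [← Set.ncard_coe_finset]
    congr 2
    ext i
    simp [hNS]
  have hQc : ({i | ‖q i - x0‖ ≤ 2}.ncard : ℝ) = (Q.card : ℝ) := by
    rw [← Set.ncard_coe_finset]
    congr 2
    ext i
    simp [hQm]
  rw [hNSc] at hns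
  rw [hQc] at hQ
  have hPne : P.Nonempty := by
    rw [← Finset.card_pos]
    have : (0 : ℝ) < P.card := by rw [← hPc]; exact hN0
    exact_mod_cast this
  obtain ⟨i₀, hi₀⟩ := hPne
  have hN100 : 100 ≤ N := by
    have h1 := hD (q i₀)
    have h2 : 0 < (Finset.univ.filter (fun i : Fin n => ‖q i - q i₀‖ ≤ l)).card := by
      rw [Finset.card_pos]
      exact ⟨i₀, by simp; linarith⟩
    have h3 : (1 : ℝ) ≤ ((Finset.univ.filter (fun i : Fin n => ‖q i - q i₀‖ ≤ l)).card : ℝ) := by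
      exact_mod_cast h2
    linarith
  -- the flags
  obtain ⟨F, hF⟩ : ∃ F, F = flags T P := ⟨_, rfl⟩
  have hFT : ∀ f ∈ F, ({f.1, f.2.1, f.2.2} : Finset (Fin n)) ∈ T := fun f hf => by
    rw [hF, mem_flags] at hf
    exact hf.1
  have hF1 : ∀ f ∈ F, f.1 ∈ P := fun f hf => by
    rw [hF, mem_flags] at hf
    exact hf.2.1
  have hF2 : ∀ f ∈ F, f.2.1 ∈ P := fun f hf => by
    rw [hF, mem_flags] at hf
    exact hf.2.2
  have hFc : 2 * (N * N - N) ≤ (F.card : ℝ) := by
    have h1 := flags_card hT P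
    rw [← hF, Finset.offDiag_card] at h1
    have h2 : P.card ≤ P.card * P.card := Nat.le_mul_self _
    have h3 : ((2 * (P.card * P.card - P.card) : ℕ) : ℝ) ≤ (F.card : ℝ) := by exact_mod_cast h1
    rw [Nat.cast_mul, Nat.cast_sub h2, Nat.cast_mul, ← hPc] at h3
    exact_mod_cast h3
  -- the bad flags
  obtain ⟨B1, hB1⟩ : ∃ B, B = F.filter (fun f => ¬ Sur q r f.1) := ⟨_, rfl⟩
  obtain ⟨B2, hB2⟩ : ∃ B, B = F.filter (fun f => ¬ Sur q r f.2.1) := ⟨_, rfl⟩
  obtain ⟨B3, hB3⟩ : ∃ B, B = F.filter (fun f => ‖q f.2.1 - q f.1‖ ≤ l) := ⟨_, rfl⟩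
  obtain ⟨B4, hB4⟩ : ∃ B, B = F.filter (fun f => ‖q f.2.2 - q f.1‖ ≤ l) := ⟨_, rfl⟩
  obtain ⟨B5, hB5⟩ : ∃ B, B = F.filter (fun f => ‖q f.2.2 - q f.2.1‖ ≤ l) := ⟨_, rfl⟩
  have hnearc : ((near q P l).card : ℝ) ≤ N * (N / 100) := by
    rw [hPc]
    rw [hPc] at hD
    exact near_card hD
  have hc1 : (B1.card : ℝ) ≤ 2 * (NS.card * N) := by
    have h1 : B1.card ≤ 2 * (NS ×ˢ P).card := by
      rw [hB1]
      refine f12 hT _ (fun f hf => hFT f (Finset.mem_of_mem_filter f hf)) _ fun f hf => ?_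
      rw [Finset.mem_filter] at hf
      rw [Finset.mem_product]
      refine ⟨?_, hF2 f hf.1⟩
      rw [hNS, Finset.mem_filter]
      exact ⟨Finset.mem_univ _, (hPm _).1 (hF1 f hf.1), hf.2⟩
    rw [Finset.card_product] at h1
    rw [hPc]
    exact_mod_cast h1
  have hc2 : (B2.card : ℝ) ≤ 2 * (N * NS.card) := by
    have h1 : B2.card ≤ 2 * (P ×ˢ NS).card := by
      rw [hB2]
      refine f12 hT _ (fun f hf => hFT f (Finset.mem_of_mem_filter f hf)) _ fun f hf => ?_
      rw [Finset.mem_filter] at hf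
      rw [Finset.mem_product]
      refine ⟨hF1 f hf.1, ?_⟩
      rw [hNS, Finset.mem_filter]
      exact ⟨Finset.mem_univ _, (hPm _).1 (hF2 f hf.1), hf.2⟩
    rw [Finset.card_product] at h1
    rw [hPc]
    exact_mod_cast h1
  have hmemn : ∀ i j, i ∈ P → ‖q j - q i‖ ≤ l → (i, j) ∈ near q P l := by
    intro i j hi hj
    unfold near
    rw [Finset.mem_filter, Finset.mem_product]
    exact ⟨⟨hi, Finset.mem_univ _⟩, hj⟩
  have hc3 : (B3.card : ℝ) ≤ 2 * (N * (N / 100)) := by
    have h1 : B3.card ≤ 2 * (near q P l).card := by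
      rw [hB3]
      refine f12 hT _ (fun f hf => hFT f (Finset.mem_of_mem_filter f hf)) _ fun f hf => ?_
      rw [Finset.mem_filter] at hf
      exact hmemn _ _ (hF1 f hf.1) hf.2
    have h2 : (B3.card : ℝ) ≤ 2 * ((near q P l).card : ℝ) := by exact_mod_cast h1
    linarith
  have hc4 : (B4.card : ℝ) ≤ 2 * (N * (N / 100)) := by
    have h1 : B4.card ≤ 2 * (near q P l).card := by
      rw [hB4]
      refine f13 hT _ (fun f hf => hFT f (Finset.mem_of_mem_filter f hf)) _ fun f hf => ?_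
      rw [Finset.mem_filter] at hf
      exact hmemn _ _ (hF1 f hf.1) hf.2
    have h2 : (B4.card : ℝ) ≤ 2 * ((near q P l).card : ℝ) := by exact_mod_cast h1
    linarith
  have hc5 : (B5.card : ℝ) ≤ 2 * (N * (N / 100)) := by
    have h1 : B5.card ≤ 2 * (near q P l).card := by
      rw [hB5]
      refine f23 hT _ (fun f hf => hFT f (Finset.mem_of_mem_filter f hf)) _ fun f hf => ?_
      rw [Finset.mem_filter] at hf
      exact hmemn _ _ (hF2 f hf.1) hf.2
    have h2 : (B5.card : ℝ) ≤ 2 * ((near q P l).card : ℝ) := by exact_mod_cast h1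
    linarith
  -- the good faces
  obtain ⟨G, hG⟩ : ∃ G, G = T.filter (fun t => ∃ x y z : Fin n, Good q x0 β t x y z) := ⟨_, rfl⟩
  obtain ⟨H, hH⟩ : ∃ H, H = F.filter (fun f => Sur q r f.1 ∧ Sur q r f.2.1 ∧
      l ≤ ‖q f.2.1 - q f.1‖ ∧ l ≤ ‖q f.2.2 - q f.1‖ ∧ l ≤ ‖q f.2.2 - q f.2.1‖) := ⟨_, rfl⟩
  have hcov : F ⊆ H ∪ (B1 ∪ (B2 ∪ (B3 ∪ (B4 ∪ B5)))) := by
    intro f hf
    simp only [Finset.mem_union, hH, hB1, hB2, hB3, hB4, hB5, Finset.mem_filter, hf, true_and]
    by_cases h1 : Sur q r f.1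
    · by_cases h2 : Sur q r f.2.1
      · rcases le_total l ‖q f.2.1 - q f.1‖ with h3 | h3
        · rcases le_total l ‖q f.2.2 - q f.1‖ with h4 | h4
          · rcases le_total l ‖q f.2.2 - q f.2.1‖ with h5 | h5
            · exact Or.inl ⟨h1, h2, h3, h4, h5⟩
            · exact Or.inr (Or.inr (Or.inr (Or.inr (Or.inr h5))))
          · exact Or.inr (Or.inr (Or.inr (Or.inr (Or.inl h4))))
        · exact Or.inr (Or.inr (Or.inr (Or.inl h3)))
      · exact Or.inr (Or.inr (Or.inl h2))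
    · exact Or.inr (Or.inl h1)
  have hHc : (F.card : ℝ) ≤ H.card + (B1.card + (B2.card + (B3.card + (B4.card + B5.card)))) := by
    have h1 := Finset.card_le_card hcov
    have h2 := Finset.card_union_le H (B1 ∪ (B2 ∪ (B3 ∪ (B4 ∪ B5))))
    have h3 := Finset.card_union_le B1 (B2 ∪ (B3 ∪ (B4 ∪ B5)))
    have h4 := Finset.card_union_le B2 (B3 ∪ (B4 ∪ B5))
    have h5 := Finset.card_union_le B3 (B4 ∪ B5)
    have h6 := Finset.card_union_le B4 B5
    have h7 : F.card ≤ H.card + (B1.card + (B2.card + (B3.card + (B4.card + B5.card)))) := by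
      omega
    exact_mod_cast h7
  have hHG : H.card ≤ 9 * G.card := by
    refine Finset.card_le_mul_card_image_of_maps_to
      (f := fun f : Fin n × Fin n × Fin n => ({f.1, f.2.1, f.2.2} : Finset (Fin n))) ?_ 9 ?_
    · intro f hf
      rw [hH, Finset.mem_filter] at hf
      obtain ⟨hf0, e1, e2, e3, e4, e5⟩ := hf
      rw [hG, Finset.mem_filter]
      exact ⟨hFT f hf0, good hS hM hT hr hrl hl hβ (hFT f hf0) ((hPm _).1 (hF1 f hf0))
        ((hPm _).1 (hF2 f hf0)) e1 e2 e3 e4 e5⟩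
    · intro t ht
      have htT : t ∈ T := by
        rw [hG] at ht
        exact Finset.mem_of_mem_filter t ht
      have h9 : (t ×ˢ t).card = 9 := by
        rw [Finset.card_product, hT.card t htT]
      rw [← h9]
      refine Finset.card_le_card_of_injOn (fun f => (f.1, f.2.1)) ?_ ?_
      · rintro ⟨a, b, c⟩ hf
        rw [Finset.mem_coe, Finset.mem_filter] at hf
        rw [Finset.mem_coe, Finset.mem_product, ← hf.2]
        simp
      · rintro ⟨a1, b1, c1⟩ hf ⟨a2, b2, c2⟩ hf' h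
        rw [Finset.mem_coe, Finset.mem_filter] at hf hf'
        simp only [Prod.mk.injEq] at hf hf' h ⊢
        obtain ⟨rfl, rfl⟩ := h
        refine ⟨rfl, rfl, ?_⟩
        have k1 := hT.card t htT
        have k2 := k1
        rw [← hf.2] at k1
        rw [← hf'.2] at k2
        obtain ⟨-, m1, m2⟩ := ne_of_card k1
        have m3 : c1 ∈ ({a1, b1, c2} : Finset (Fin n)) := by
          rw [hf'.2, ← hf.2]
          simp
        simp only [Finset.mem_insert, Finset.mem_singleton] at m3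
        rcases m3 with m3 | m3 | m3
        · exact absurd m3.symm m1
        · exact absurd m3.symm m2
        · exact m3
  have hGc : N * (N / 6) ≤ (G.card : ℝ) := by
    have h1 : (H.card : ℝ) ≤ 9 * G.card := by exact_mod_cast hHG
    have h2 : (NS.card : ℝ) * N ≤ N / 100 * N := mul_le_mul_of_nonneg_right (by linarith) hN0.le
    nlinarith
  -- the choice of the middle vertex
  have hch : ∀ t : Finset (Fin n), ∃ p : Fin n × Fin n × Fin n, t ∈ G → Good q x0 β t p.1 p.2.1 p.2.2 := by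
    intro t
    by_cases ht : t ∈ G
    · rw [hG, Finset.mem_filter] at ht
      obtain ⟨x, y, z, h⟩ := ht.2
      exact ⟨(x, y, z), fun _ => h⟩
    · exact ⟨(i₀, i₀, i₀), fun h => absurd h ht⟩
  choose p hp using hch
  have hQne : Q.Nonempty := ⟨i₀, (hQm _).2 (((hPm _).1 hi₀).trans (by norm_num))⟩
  obtain ⟨x, hxQ, hx⟩ := Finset.exists_le_card_fiber_of_nsmul_le_card_of_maps_to (s := G)
    (t := Q) (f := fun t => (p t).1) (b := N / 24576)
    (fun t ht => (hQm _).2 (hp t ht).2.1) hQne (by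
      rw [nsmul_eq_mul]
      have h1 : (Q.card : ℝ) * (N / 24576) ≤ 4096 * N * (N / 24576) :=
        mul_le_mul_of_nonneg_right hQ (by positivity)
      have h2 : 4096 * N * (N / 24576) = N * (N / 6) := by ring
      linarith)
  refine ⟨x, G.filter (fun t => (p t).1 = x), fun t => (p t).2.1, fun t => (p t).2.2, ?_,
    (hQm _).1 hxQ, ?_, ?_, ?_⟩
  · refine (Finset.filter_subset _ _).trans ?_
    rw [hG]
    exact Finset.filter_subset _ _
  · linarith
  · intro t ht
    rw [Finset.mem_filter] at ht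
    have h1 := hp t ht.1
    rw [ht.2] at h1
    exact ⟨h1.1, h1.2.2.1, h1.2.2.2⟩
  · intro ρ ν hν
    refine denW hT hν x (fun t => (p t).2.1) ?_ ?_
    · refine (Finset.filter_subset _ _).trans ?_
      rw [hG]
      exact Finset.filter_subset _ _
    · intro t ht
      rw [Finset.mem_filter] at ht
      have h1 := hp t ht.1
      rw [ht.2] at h1
      have htT : t ∈ T := by
        have := ht.1
        rw [hG] at this
        exact Finset.mem_of_mem_filter t this
      have h2 : ({x, (p t).2.1, (p t).2.2} : Finset (Fin n)).card = 3 := by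
        rw [← h1.1]
        exact hT.card t htT
      refine ⟨?_, ?_, (ne_of_card h2).1⟩
      · rw [h1.1]
        simp
      · have h3 : (p t).2.1 ∈ ({x, (p t).2.1, (p t).2.2} : Finset (Fin n)) := by simp
        rw [← h1.1] at h3
        exact h3

end Pool.Agent.Lib.MP_4f1247_co
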