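import Pool.Agent.Lib.MP_4f1247_co.Stmts2

set_option autoImplicit false

/-!
# Thin triangles have a middle vertex
-/

namespace Pool.Agent.Lib.MP_4f1247_co

open Finset
open scoped RealInnerProductSpace

namespace MidAux

/-- The norm of the sum of two unit vectors. -/
lemma norm_un_add_sq {x y : E3} (hx : 0 < ‖x‖) (hy : 0 < ‖y‖) :
    ‖un x + un y‖ ^ 2 = 2 + 2 * (⟪x, y⟫ / (‖x‖ * ‖y‖)) := by
  have key : ∀ z : E3, 0 < ‖z‖ → ‖un z‖ = 1 := fun z hz => by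
    rw [un, norm_smul, norm_inv, norm_norm]
    exact inv_mul_cancel₀ hz.ne'
  have h3 : ⟪un x, un y⟫ = ⟪x, y⟫ / (‖x‖ * ‖y‖) := by
    rw [un, un, real_inner_smul_left, real_inner_smul_right]
    field_simp
  rw [norm_add_sq_real, key x hx, key y hy, h3]
  ring

/-- The first case. -/
lemma scal1 {r l L M K p q h : ℝ} (hl : 0 < l) (hM : l ≤ M) (hK : l ≤ K) (hp : 0 ≤ p)
    (hq : 0 ≤ q) (hM2 : M ^ 2 = p ^ 2 + h ^ 2) (hK2 : K ^ 2 = q ^ 2 + h ^ 2)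
    (hh : h ^ 2 ≤ 720 * r ^ 2) :
    2 + 2 * ((h ^ 2 - p * q) / (M * K)) ≤ (120 * r / l) ^ 2 := by
  have hM0 : 0 < M := hl.trans_le hM
  have hK0 : 0 < K := hl.trans_le hK
  obtain ⟨S, hS⟩ : ∃ S, S = M * K := ⟨_, rfl⟩
  have hS0 : 0 < S := by rw [hS]; positivity
  have hpq : 0 ≤ p * q := mul_nonneg hp hq
  have hh0 : 0 ≤ h ^ 2 := sq_nonneg h
  have e1 : S ^ 2 - (p * q) ^ 2 = h ^ 2 * (p ^ 2 + q ^ 2 + h ^ 2) := by
    rw [hS, mul_pow, hM2, hK2]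
    ring
  have e2 : 0 ≤ S - p * q := by
    have h1 : (p * q) ^ 2 ≤ S ^ 2 := by
      have : 0 ≤ h ^ 2 * (p ^ 2 + q ^ 2 + h ^ 2) := by positivity
      linarith
    have := abs_le_of_sq_le_sq' h1 hS0.le
    linarith [this.2]
  have e3 : (S - p * q) * S ≤ h ^ 2 * (M ^ 2 + K ^ 2) := by
    have h1 : 0 ≤ (S - p * q) * (p * q) := mul_nonneg e2 hpq
    have h2 : (S - p * q) * (S + p * q) = h ^ 2 * (p ^ 2 + q ^ 2 + h ^ 2) := by
      rw [← e1]
      ring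
    have h3 : h ^ 2 * (p ^ 2 + q ^ 2 + h ^ 2) ≤ h ^ 2 * (M ^ 2 + K ^ 2) := by
      refine mul_le_mul_of_nonneg_left ?_ hh0
      rw [hM2, hK2]
      linarith
    nlinarith
  have e4 : (M ^ 2 + K ^ 2 + S) * l ^ 2 ≤ 3 * S ^ 2 := by
    have hl2 : l ^ 2 ≤ K ^ 2 := pow_le_pow_left₀ hl.le hK 2
    have hl3 : l ^ 2 ≤ M ^ 2 := pow_le_pow_left₀ hl.le hM 2
    have hl4 : l ^ 2 ≤ S := by
      rw [hS, pow_two]
      exact mul_le_mul hM hK hl.le hM0.le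
    have h1 : M ^ 2 * l ^ 2 ≤ S ^ 2 := by
      rw [hS, mul_pow]
      exact mul_le_mul_of_nonneg_left hl2 (sq_nonneg M)
    have h2 : K ^ 2 * l ^ 2 ≤ S ^ 2 := by
      rw [hS, mul_pow, mul_comm (M ^ 2)]
      exact mul_le_mul_of_nonneg_left hl3 (sq_nonneg K)
    have h3 : S * l ^ 2 ≤ S ^ 2 := by
      rw [pow_two S]
      exact mul_le_mul_of_nonneg_left hl4 hS0.le
    linarith
  have e5 : (S - p * q + h ^ 2) * l ^ 2 ≤ 3 * h ^ 2 * S := by
    have h1 : (S - p * q + h ^ 2) * S ≤ h ^ 2 * (M ^ 2 + K ^ 2 + S) := by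
      nlinarith
    have h2 : ((S - p * q + h ^ 2) * l ^ 2) * S ≤ (3 * h ^ 2 * S) * S := by
      calc ((S - p * q + h ^ 2) * l ^ 2) * S = ((S - p * q + h ^ 2) * S) * l ^ 2 := by ring
        _ ≤ (h ^ 2 * (M ^ 2 + K ^ 2 + S)) * l ^ 2 :=
          mul_le_mul_of_nonneg_right h1 (sq_nonneg l)
        _ = h ^ 2 * ((M ^ 2 + K ^ 2 + S) * l ^ 2) := by ring
        _ ≤ h ^ 2 * (3 * S ^ 2) := mul_le_mul_of_nonneg_left e4 hh0
        _ = (3 * h ^ 2 * S) * S := by ring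
    exact le_of_mul_le_mul_right h2 hS0
  have e6 : 2 + 2 * ((h ^ 2 - p * q) / (M * K)) = 2 * ((S - p * q + h ^ 2) / S) := by
    rw [← hS]
    field_simp
    ring
  rw [e6, div_pow, mul_div_assoc', div_le_div_iff₀ hS0 (by positivity)]
  have e7 : 3 * h ^ 2 * S ≤ 3 * (720 * r ^ 2) * S := by
    refine mul_le_mul_of_nonneg_right ?_ hS0.le
    linarith
  have e8 : 0 ≤ r ^ 2 * S := mul_nonneg (sq_nonneg r) hS0.le
  nlinarith

/-- The second case. -/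
lemma scal2 {r l K q h : ℝ} (hl : 0 < l) (hK : l ≤ K) (hq : 0 ≤ q)
    (hK2 : K ^ 2 = q ^ 2 + h ^ 2) (hh : h ^ 2 * l ^ 2 ≤ 1600 * r ^ 2 * K ^ 2) :
    2 + 2 * (-q / K) ≤ (120 * r / l) ^ 2 := by
  have hK0 : 0 < K := hl.trans_le hK
  have e0 : 0 ≤ K - q := by
    have h1 : q ^ 2 ≤ K ^ 2 := by
      have := sq_nonneg h
      linarith
    have := abs_le_of_sq_le_sq' h1 hK0.le
    linarith [this.2]
  have e1 : (K - q) * K ≤ h ^ 2 := by
    have h1 : 0 ≤ (K - q) * q := mul_nonneg e0 hq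
    nlinarith
  have e2 : (K - q) * l ^ 2 ≤ 1600 * r ^ 2 * K := by
    have h1 : ((K - q) * l ^ 2) * K ≤ (1600 * r ^ 2 * K) * K := by
      calc ((K - q) * l ^ 2) * K = ((K - q) * K) * l ^ 2 := by ring
        _ ≤ h ^ 2 * l ^ 2 := mul_le_mul_of_nonneg_right e1 (sq_nonneg l)
        _ ≤ 1600 * r ^ 2 * K ^ 2 := hh
        _ = (1600 * r ^ 2 * K) * K := by ring
    exact le_of_mul_le_mul_right h1 hK0
  have e6 : 2 + 2 * (-q / K) = 2 * ((K - q) / K) := by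
    field_simp
    ring
  rw [e6, div_pow, mul_div_assoc', div_le_div_iff₀ hK0 (by positivity)]
  have e8 : 0 ≤ r ^ 2 * K := mul_nonneg (sq_nonneg r) hK0.le
  nlinarith

end MidAux

open MidAux in
theorem stMid : StMid := by
  intro a b c r l hr hrl hL hM hK hP hH
  have hl : 0 < l := by linarith
  obtain ⟨u, hu⟩ : ∃ u : E3, u = b - a := ⟨_, rfl⟩
  obtain ⟨v, hv⟩ : ∃ v : E3, v = c - a := ⟨_, rfl⟩
  have hcb : c - b = v - u := by rw [hu, hv]; abel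
  rw [← hu] at hL hP hH
  rw [← hv] at hM hP hH
  rw [hcb] at hK
  obtain ⟨L, hLd⟩ : ∃ L : ℝ, L = ‖u‖ := ⟨_, rfl⟩
  obtain ⟨M, hMd⟩ : ∃ M : ℝ, M = ‖v‖ := ⟨_, rfl⟩
  obtain ⟨K, hKd⟩ : ∃ K : ℝ, K = ‖v - u‖ := ⟨_, rfl⟩
  obtain ⟨P, hPd⟩ : ∃ P : ℝ, P = ⟪v, u⟫ := ⟨_, rfl⟩
  have hL0 : 0 < L := by rw [hLd]; linarith
  have hM0 : 0 < M := by rw [hMd]; linarith
  have hK0 : 0 < K := by rw [hKd]; linarith
  have hcr : ‖cr u v‖ ^ 2 = L ^ 2 * M ^ 2 - P ^ 2 := by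
    rw [norm_cr_sq, hLd, hMd, hPd, real_inner_comm u v]
  have hK2 : K ^ 2 = M ^ 2 - 2 * P + L ^ 2 := by
    rw [hKd, hMd, hLd, hPd, norm_sub_sq_real]
  have hMLK : M ≤ K + L := by
    rw [hMd, hKd, hLd]
    have := norm_add_le (v - u) u
    rwa [sub_add_cancel] at this
  have hHs : L ^ 2 * M ^ 2 - P ^ 2 ≤ 400 * r ^ 2 * M ^ 2 := by
    rw [← hcr]
    calc ‖cr u v‖ ^ 2 ≤ (20 * r * ‖v‖) ^ 2 := pow_le_pow_left₀ (norm_nonneg _) hH 2
      _ = 400 * r ^ 2 * M ^ 2 := by rw [← hMd]; ring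
  rw [← hPd] at hP
  rw [← hLd] at hL
  rw [← hMd] at hM
  rw [← hKd] at hK
  -- the coordinates of `c - a`
  obtain ⟨p, hp⟩ : ∃ p : ℝ, p = P / L := ⟨_, rfl⟩
  have hp0 : 0 < p := by rw [hp]; positivity
  have hPp : P = p * L := by rw [hp]; field_simp
  obtain ⟨h, hh0, hh⟩ : ∃ h : ℝ, 0 ≤ h ∧ h ^ 2 = M ^ 2 - p ^ 2 := by
    refine ⟨Real.sqrt (M ^ 2 - p ^ 2), Real.sqrt_nonneg _, Real.sq_sqrt ?_⟩
    have h1 : 0 ≤ L ^ 2 * M ^ 2 - P ^ 2 := by
      rw [← hcr]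
      positivity
    rw [hPp] at h1
    have h2 : 0 ≤ L ^ 2 * (M ^ 2 - p ^ 2) := by nlinarith
    exact nonneg_of_mul_nonneg_right h2 (by positivity)
  have hhL : L ^ 2 * h ^ 2 ≤ 400 * r ^ 2 * M ^ 2 := by
    rw [hh]
    rw [hPp] at hHs
    nlinarith
  have hr2 : 900 * r ^ 2 ≤ L ^ 2 := by
    have h1 : 30 * r ≤ L := by linarith
    have h2 := pow_le_pow_left₀ (by linarith : (0 : ℝ) ≤ 30 * r) h1 2
    nlinarith
  have hM2 : M ^ 2 = p ^ 2 + h ^ 2 := by rw [hh]; ring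
  rcases le_or_gt P (L ^ 2) with hPL | hPL
  · -- `c` is between `a` and `b`
    left
    have hpL : p ≤ L := by
      rw [hPp] at hPL
      nlinarith
    have hMp : 5 * M ^ 2 ≤ 9 * p ^ 2 := by
      -- `L^2 h^2 ≤ 400 r^2 M^2 ≤ (4/9) L^2 M^2`
      have h1 : L ^ 2 * (9 * h ^ 2) ≤ L ^ 2 * (4 * M ^ 2) := by
        have h2 : 0 ≤ M ^ 2 := sq_nonneg M
        nlinarith
      have h3 : 9 * h ^ 2 ≤ 4 * M ^ 2 := le_of_mul_le_mul_left h1 (by positivity)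
      rw [hh] at h3
      linarith
    have hh2 : h ^ 2 ≤ 720 * r ^ 2 := by
      have h1 : 5 * M ^ 2 ≤ 9 * L ^ 2 := by
        have := pow_le_pow_left₀ hp0.le hpL 2
        linarith
      have h2 : L ^ 2 * h ^ 2 ≤ L ^ 2 * (720 * r ^ 2) := by
        have h3 : 0 ≤ r ^ 2 := sq_nonneg r
        nlinarith
      exact le_of_mul_le_mul_left h2 (by positivity)
    refine ⟨?_, p / L, by positivity, (div_le_one hL0).2 hpL, ?_⟩
    · unfold Btw
      have hac : a - c = -v := by rw [hv]; abel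
      have hbc : b - c = u - v := by rw [hu, hv]; abel
      rw [hac, hbc]
      have hn1 : ‖-v‖ = M := by rw [norm_neg, hMd]
      have hn2 : ‖u - v‖ = K := by rw [norm_sub_rev, hKd]
      have h1 := norm_un_add_sq (x := -v) (y := u - v) (by rw [hn1]; exact hM0)
        (by rw [hn2]; exact hK0)
      have h2 : ⟪-v, u - v⟫ = h ^ 2 - p * (L - p) := by
        rw [inner_neg_left, inner_sub_right, real_inner_self_eq_norm_sq, ← hPd, ← hMd, hPp, hM2]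
        ring
      rw [h2, hn1, hn2] at h1
      have h3 := scal1 (r := r) (l := l) (L := L) hl hM hK hp0.le (sub_nonneg.2 hpL) hM2
        (by rw [hK2, hM2, hPp]; ring) hh2
      rw [← h1] at h3
      exact le_of_sq_le_sq h3 (by positivity)
    · have h1 : c - ((1 - p / L) • a + (p / L) • b) = v - (p / L) • u := by
        rw [hu, hv, sub_smul, one_smul, smul_sub]
        abel
      rw [h1]
      have h2 : ‖v - (p / L) • u‖ ^ 2 = h ^ 2 := by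
        rw [norm_sub_sq_real, real_inner_smul_right, norm_smul, ← hPd, ← hMd, ← hLd, hPp, hM2,
          Real.norm_eq_abs, abs_of_nonneg (by positivity : (0 : ℝ) ≤ p / L)]
        field_simp
        ring
      have h3 : ‖v - (p / L) • u‖ ^ 2 ≤ (30 * r) ^ 2 := by
        rw [h2]
        nlinarith [sq_nonneg r]
      exact le_of_sq_le_sq h3 (by positivity)
  · -- `b` is between `a` and `c`
    right
    have hpL : L < p := by
      rw [hPp] at hPL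
      nlinarith
    unfold Btw
    have hab : a - b = -u := by rw [hu]; abel
    rw [hab, hcb]
    have hn1 : ‖-u‖ = L := by rw [norm_neg, hLd]
    have hn2 : ‖v - u‖ = K := hKd.symm
    have h1 := norm_un_add_sq (x := -u) (y := v - u) (by rw [hn1]; exact hL0)
      (by rw [hn2]; exact hK0)
    have h2 : ⟪-u, v - u⟫ = L * (-(p - L)) := by
      rw [inner_neg_left, inner_sub_right, real_inner_self_eq_norm_sq, real_inner_comm v u,
        ← hPd, ← hLd, hPp]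
      ring
    rw [h2, hn1, hn2, mul_div_mul_left _ _ hL0.ne'] at h1
    have h3 := scal2 (r := r) (l := l) (K := K) (q := p - L) (h := h) hl hK (by linarith)
      (by rw [hK2, hM2, hPp]; ring) (by
        have h4 : M ^ 2 ≤ 2 * K ^ 2 + 2 * L ^ 2 := by
          have h5 := pow_le_pow_left₀ hM0.le hMLK 2
          nlinarith [sq_nonneg (K - L)]
        have h6 : L ^ 2 * h ^ 2 ≤ 800 * r ^ 2 * (K ^ 2 + L ^ 2) := by
          have : 0 ≤ r ^ 2 := sq_nonneg r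
          nlinarith
        have h7 : l ^ 2 ≤ L ^ 2 := pow_le_pow_left₀ hl.le hL 2
        have h8 : l ^ 2 ≤ K ^ 2 := pow_le_pow_left₀ hl.le hK 2
        have h9 : L ^ 2 * (h ^ 2 * l ^ 2) ≤ L ^ 2 * (1600 * r ^ 2 * K ^ 2) := by
          calc L ^ 2 * (h ^ 2 * l ^ 2) = (L ^ 2 * h ^ 2) * l ^ 2 := by ring
            _ ≤ (800 * r ^ 2 * (K ^ 2 + L ^ 2)) * l ^ 2 :=
              mul_le_mul_of_nonneg_right h6 (sq_nonneg l)
            _ = 800 * r ^ 2 * (K ^ 2 * l ^ 2 + L ^ 2 * l ^ 2) := by ring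
            _ ≤ 800 * r ^ 2 * (K ^ 2 * L ^ 2 + L ^ 2 * K ^ 2) := by gcongr
            _ = L ^ 2 * (1600 * r ^ 2 * K ^ 2) := by ring
        exact le_of_mul_le_mul_left h9 (by positivity))
    rw [← h1] at h3
    exact le_of_sq_le_sq h3 (by positivity)

end Pool.Agent.Lib.MP_4f1247_co
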