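import Pool.Agent.Lib.MP_4f1247_co.Stmts2
import Pool.Agent.Lib.MP_4f1247_co.Sel

set_option autoImplicit false

/-!
# The vertex sets of neighborly polyhedral surfaces: choice of three flags
-/

namespace Pool.Agent.Lib.MP_4f1247_co

open Finset Classical
open scoped RealInnerProductSpace

namespace Sel2Aux

open SelAux

section

variable {ι : Type} {I : Finset ι} {A : ι → E3} {ε ζ : ℝ}

lemma cr_un {x : E3} (h : x ≠ 0) (y : E3) : cr x y = ‖x‖ • cr (un x) y := by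
  rw [un, cr_smul_left, smul_smul, mul_inv_cancel₀ (norm_ne_zero_iff.2 h), one_smul]

/-- The flags with a small inner product with a given vector. -/
lemma count_inner2 (hε : 0 < ε) (hA : ∀ i ∈ I, A i ≠ 0 ∧ ‖A i‖ ≤ 3)
    (hI : ∀ u : E3, ‖u‖ = 1 →
      16 * ((I.filter (fun i => |⟪A i, u⟫| ≤ 6 * ε)).card : ℝ) ≤ (I.card : ℝ)) {m0 : E3}
    (hm : 1 / 2 ≤ ‖m0‖) (c : ι → ℝ) (hc : ∀ i ∈ I, c i ≤ 1) :
    ((I.filter (fun j => |⟪un (A j), m0⟫| < ε * c j)).card : ℝ) ≤ (I.card : ℝ) / 16 := by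
  have hm0 : m0 ≠ 0 := by
    rintro rfl
    rw [norm_zero] at hm
    norm_num at hm
  have h := hI (un m0) (norm_un hm0)
  have hsub : I.filter (fun j => |⟪un (A j), m0⟫| < ε * c j) ⊆
      I.filter (fun i => |⟪A i, un m0⟫| ≤ 6 * ε) := by
    intro j hj
    obtain ⟨hjI, hj2⟩ := Finset.mem_filter.1 hj
    refine Finset.mem_filter.2 ⟨hjI, ?_⟩
    obtain ⟨h1, h2⟩ := hA j hjI
    rw [inner_un h1, abs_mul, abs_of_nonneg (norm_nonneg (A j))]
    have e1 : ⟪un (A j), m0⟫ = ‖m0‖ * ⟪un (A j), un m0⟫ := by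
      rw [real_inner_comm, inner_un hm0, real_inner_comm]
    rw [e1, abs_mul, abs_of_nonneg (norm_nonneg m0)] at hj2
    have h3 : ‖m0‖ * |⟪un (A j), un m0⟫| < ε :=
      lt_of_lt_of_le hj2 (mul_le_of_le_one_right hε.le (hc j hjI))
    have h4 : |⟪un (A j), un m0⟫| ≤ 2 * ε := by
      nlinarith [abs_nonneg ⟪un (A j), un m0⟫]
    calc ‖A j‖ * |⟪un (A j), un m0⟫| ≤ 3 * (2 * ε) :=
          mul_le_mul h2 h4 (abs_nonneg _) (by norm_num)
      _ = 6 * ε := by ring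
  have h5 : ((I.filter (fun j => |⟪un (A j), m0⟫| < ε * c j)).card : ℝ) ≤
      ((I.filter (fun i => |⟪A i, un m0⟫| ≤ 6 * ε)).card : ℝ) := by
    exact_mod_cast Finset.card_le_card hsub
  linarith

/-- The flags nearly in the direction of a given one. -/
lemma count_cr2 (hA : ∀ i ∈ I, A i ≠ 0 ∧ ‖A i‖ ≤ 3) {K : ℝ}
    (hI : ∀ u : E3, ‖u‖ = 1 →
      ((I.filter (fun i => ‖cr (A i) u‖ ≤ 3 * ζ)).card : ℝ) < K) {a : E3} (ha : ‖a‖ = 1) :
    ((I.filter (fun j => ‖cr a (un (A j))‖ < ζ)).card : ℝ) < K := by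
  refine lt_of_le_of_lt ?_ (hI a ha)
  have hsub : I.filter (fun j => ‖cr a (un (A j))‖ < ζ) ⊆
      I.filter (fun i => ‖cr (A i) a‖ ≤ 3 * ζ) := by
    intro j hj
    obtain ⟨hjI, hj2⟩ := Finset.mem_filter.1 hj
    refine Finset.mem_filter.2 ⟨hjI, ?_⟩
    obtain ⟨h1, h2⟩ := hA j hjI
    rw [cr_un h1, norm_smul, norm_norm, norm_cr_comm]
    exact mul_le_mul h2 hj2.le (norm_nonneg _) (by norm_num)
  exact_mod_cast Finset.card_le_card hsub

end

end Sel2Aux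

open SelAux Sel2Aux in
/-- Among many flags there are three nearly coplanar ones. -/
theorem stSel2 : StSel2 := by
  intro ι I A m ε ζ hIne hε hε1 hζ hζ1 hA hm hI1 hI2
  have hM : (0 : ℝ) < I.card := by exact_mod_cast Finset.card_pos.2 hIne
  set M : ℝ := (I.card : ℝ) with hMd
  have hεζ : 0 < ε * ζ := by positivity
  have hεζ1 : ε * ζ ≤ 1 := by
    calc ε * ζ ≤ 1 * 1 := by gcongr
      _ = 1 := one_mul 1
  -- the first flag
  obtain ⟨i, hi, hbad1⟩ := exists_few hIne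
    (fun i j => |⟪un (A i), m j⟫| < ε * ‖cr (un (A i)) (un (A j))‖) (K := M / 16) (by
      intro j hj
      exact count_inner2 hε hA hI1 (hm j hj) (fun i => ‖cr (un (A i)) (un (A j))‖)
        (fun i hi => norm_cr_un_le (hA i hi).1 (hA j hj).1))
  have hbad2 := count_inner2 hε hA hI1 (hm i hi) (fun j => ‖cr (un (A i)) (un (A j))‖)
    (fun j hj => norm_cr_un_le (hA i hi).1 (hA j hj).1)
  have hna : ‖un (A i)‖ = 1 := norm_un (hA i hi).1
  have hbad3 := count_cr2 hA hI2 hna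
  -- the good flags
  set G := I.filter (fun j => ε * ‖cr (un (A i)) (un (A j))‖ ≤ |⟪un (A i), m j⟫| ∧
    ε * ‖cr (un (A i)) (un (A j))‖ ≤ |⟪un (A j), m i⟫| ∧ ζ ≤ ‖cr (un (A i)) (un (A j))‖) with hG
  have hsub : I ⊆ G ∪ (I.filter (fun j => |⟪un (A i), m j⟫| < ε * ‖cr (un (A i)) (un (A j))‖) ∪
      (I.filter (fun j => |⟪un (A j), m i⟫| < ε * ‖cr (un (A i)) (un (A j))‖) ∪
        I.filter (fun j => ‖cr (un (A i)) (un (A j))‖ < ζ))) := by
    intro j hj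
    simp only [Finset.mem_union, hG, Finset.mem_filter, hj, true_and]
    by_cases h1 : |⟪un (A i), m j⟫| < ε * ‖cr (un (A i)) (un (A j))‖
    · exact Or.inr (Or.inl h1)
    by_cases h2 : |⟪un (A j), m i⟫| < ε * ‖cr (un (A i)) (un (A j))‖
    · exact Or.inr (Or.inr (Or.inl h2))
    by_cases h3 : ‖cr (un (A i)) (un (A j))‖ < ζ
    · exact Or.inr (Or.inr (Or.inr h3))
    exact Or.inl ⟨not_lt.1 h1, not_lt.1 h2, not_lt.1 h3⟩
  have hM40 : ε * ζ / 40 * M ≤ M / 40 := by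
    have : ε * ζ / 40 * M ≤ 1 / 40 * M := by gcongr
    linarith
  have hGc : M ≤ G.card + (M / 16 + (M / 16 + M / 40)) := by
    have h1 := Finset.card_le_card hsub
    have h2 := h1.trans ((Finset.card_union_le _ _).trans (Nat.add_le_add_left
      ((Finset.card_union_le _ _).trans (Nat.add_le_add_left (Finset.card_union_le _ _) _)) _))
    have h3 : (I.card : ℝ) ≤ G.card +
      ((I.filter (fun j => |⟪un (A i), m j⟫| < ε * ‖cr (un (A i)) (un (A j))‖)).card +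
      ((I.filter (fun j => |⟪un (A j), m i⟫| < ε * ‖cr (un (A i)) (un (A j))‖)).card +
        (I.filter (fun j => ‖cr (un (A i)) (un (A j))‖ < ζ)).card)) := by exact_mod_cast h2
    linarith
  -- the classes
  obtain ⟨v, w, hF⟩ := Fr.exists_of_unit (un (A i)) hna
  have hκ : 0 < ε * ζ / 4 := by positivity
  set κ : ℝ := ε * ζ / 4 with hκd
  set S : Finset (Bool × ℤ) := (Finset.univ : Finset Bool) ×ˢ Finset.Icc (-⌈1 / κ⌉) ⌈1 / κ⌉ with hS
  have hSc : (S.card : ℝ) ≤ 22 / (ε * ζ) := by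
    have h0 : (0 : ℝ) < 1 / κ := by positivity
    have h1 : 0 < ⌈1 / κ⌉ := Int.ceil_pos.2 h0
    have h2 : S.card = 2 * (⌈1 / κ⌉ + 1 - -⌈1 / κ⌉).toNat := by
      rw [hS, Finset.card_product, Int.card_Icc, Finset.card_univ, Fintype.card_bool]
    have h3 : ((⌈1 / κ⌉ + 1 - -⌈1 / κ⌉).toNat : ℤ) = ⌈1 / κ⌉ + 1 - -⌈1 / κ⌉ :=
      Int.toNat_of_nonneg (by omega)
    have h4 : ((⌈1 / κ⌉ + 1 - -⌈1 / κ⌉).toNat : ℝ) = (⌈1 / κ⌉ : ℝ) + 1 - -(⌈1 / κ⌉ : ℝ) := by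
      exact_mod_cast h3
    have h5 : (⌈1 / κ⌉ : ℝ) < 1 / κ + 1 := Int.ceil_lt_add_one _
    have h6 : 1 / κ = 4 / (ε * ζ) := by
      rw [hκd]
      field_simp
    have h7 : 1 ≤ 1 / (ε * ζ) := by
      rw [le_div_iff₀ (by positivity)]
      linarith
    rw [h2]
    push_cast
    rw [h4]
    have h8 : 4 / (ε * ζ) = 4 * (1 / (ε * ζ)) := by ring
    have h9 : 22 / (ε * ζ) = 22 * (1 / (ε * ζ)) := by ring
    rw [h9]
    linarith
  have hmaps : ∀ j ∈ G, sl κ ⟪un (A j), v⟫ ⟪un (A j), w⟫ ∈ S := fun j _ => sl_mem hκ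
  have hSne : S.Nonempty := by
    rw [← Finset.card_pos]
    obtain ⟨j, hj⟩ : G.Nonempty := by
      rw [← Finset.card_pos]
      have : (0 : ℝ) < G.card := by linarith
      exact_mod_cast this
    exact Finset.card_pos.2 ⟨_, hmaps j hj⟩
  obtain ⟨c, -, hc⟩ := Finset.exists_le_card_fiber_of_nsmul_le_card_of_maps_to (M := ℝ)
    (b := ε * ζ / 40 * M) hmaps hSne (by
      rw [nsmul_eq_mul]
      have h1 : (S.card : ℝ) * (ε * ζ / 40 * M) ≤ 22 / (ε * ζ) * (ε * ζ / 40 * M) :=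
        mul_le_mul_of_nonneg_right hSc (by positivity)
      have h2 : 22 / (ε * ζ) * (ε * ζ / 40 * M) = 22 / 40 * M := by
        field_simp
      linarith)
  have hpos : 0 < ε * ζ / 40 * M := by positivity
  obtain ⟨j, hj⟩ : (G.filter (fun j => sl κ ⟪un (A j), v⟫ ⟪un (A j), w⟫ = c)).Nonempty := by
    rw [← Finset.card_pos]
    have := hpos.trans_le hc
    exact_mod_cast this
  obtain ⟨hjG, hjc⟩ := Finset.mem_filter.1 hj
  obtain ⟨hjI, hj1, hj2, hj3⟩ := Finset.mem_filter.1 hjG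
  have hnj : ‖un (A j)‖ = 1 := norm_un (hA j hjI).1
  have hpl := count_cr2 hA hI2 hnj
  -- members of the class are nearly coplanar
  have hdt : ∀ k ∈ I, 0 < ‖cr (un (A i)) (un (A k))‖ →
      sl κ ⟪un (A k), v⟫ ⟪un (A k), w⟫ = c → |dt (un (A i)) (un (A j)) (un (A k))| ≤
        κ * (‖cr (un (A i)) (un (A j))‖ * ‖cr (un (A i)) (un (A k))‖) := by
    intro k hk2 hk3 hk4
    have hj0 : 0 < ‖cr (un (A i)) (un (A j))‖ := hζ.trans_le hj3
    have h1 := sl_eq (X := ⟪un (A j), v⟫) (Y := ⟪un (A j), w⟫) (X' := ⟪un (A k), v⟫)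
      (Y' := ⟪un (A k), w⟫) hκ (by rw [← norm_cr_frame hF]; positivity)
      (by rw [← norm_cr_frame hF]; positivity) (hjc.trans hk4.symm)
    rw [← dt_sq hF, ← norm_cr_frame hF, ← norm_cr_frame hF, ← mul_pow, ← mul_pow] at h1
    exact abs_le_of_sq_le_sq h1 (by positivity)
  -- the third flag
  obtain ⟨k, hk1, hk2⟩ : ∃ k ∈ G.filter (fun j => sl κ ⟪un (A j), v⟫ ⟪un (A j), w⟫ = c),
      ζ ≤ ‖cr (un (A j)) (un (A k))‖ := by
    by_contra hcon
    push Not at hcon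
    have h1 : G.filter (fun j => sl κ ⟪un (A j), v⟫ ⟪un (A j), w⟫ = c) ⊆
        I.filter (fun k => ‖cr (un (A j)) (un (A k))‖ < ζ) := by
      intro k hk1
      have hk2 := hcon k hk1
      obtain ⟨hkG, -⟩ := Finset.mem_filter.1 hk1
      obtain ⟨hkI, -⟩ := Finset.mem_filter.1 hkG
      exact Finset.mem_filter.2 ⟨hkI, hk2⟩
    have h2 := Finset.card_le_card h1
    have h3 : ((G.filter (fun j => sl κ ⟪un (A j), v⟫ ⟪un (A j), w⟫ = c)).card : ℝ) ≤
        ((I.filter (fun k => ‖cr (un (A j)) (un (A k))‖ < ζ)).card : ℝ) := by exact_mod_cast h2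
    linarith
  obtain ⟨hkG, hkc⟩ := Finset.mem_filter.1 hk1
  obtain ⟨hkI, hk3, hk4, hk5⟩ := Finset.mem_filter.1 hkG
  exact ⟨i, hi, j, hjI, k, hkI,
    { g12 := hj1, g21 := hj2, g13 := hk3, g31 := hk4, c12 := hj3, c13 := hk5, c23 := hk2,
      d123 := hdt k hkI (hζ.trans_le hk5) hkc }⟩

end Pool.Agent.Lib.MP_4f1247_co
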