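import Pool.Agent.Lib.MP_4f1247_co.Stmts2
import Pool.Agent.Lib.MP_4f1247_co.Sliv

set_option autoImplicit false

/-!
# Neighborly polyhedral surfaces: two surrounded vertices make a face thin
-/

namespace Pool.Agent.Lib.MP_4f1247_co

open Finset
open scoped RealInnerProductSpace

namespace Sliv2Aux

/-- The vector part of the proof. -/
lemma core2 {D P v v' e1 e2 e3 : E3} {r l h L : ℝ} (hr : 0 < r)
    (hF : Fr e1 e2 e3) (hL : D = L • e1) (hP : P = l • D + h • e2)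
    (h20 : 20 * r ≤ L) (hh0 : 0 < h) (hv : ‖v‖ ≤ r) (hv' : ‖v'‖ ≤ r) (hv0 : v ≠ 0) (hv0' : v' ≠ 0)
    (h1 : 9 / 10 * ‖v‖ * √2 ≤ ⟪v, e2⟫ + ⟪v, e3⟫)
    (h2 : 9 / 10 * ‖v'‖ * √2 ≤ ⟪v', e2⟫ + -⟪v', e3⟫) :
    0 < ⟪v, e3⟫ ∧ ⟪v', e3⟫ < 0 ∧ ∃ μ α β γ : ℝ, 0 ≤ μ ∧ μ ≤ 1 ∧ 0 ≤ γ ∧
      γ + α + β = 1 ∧ (β < 0 → 0 < l ∧ h ≤ 11 * r * l) ∧
      (α < 0 → 0 < 1 - l ∧ h ≤ 11 * r * (1 - l)) ∧
      β • D + γ • P = (1 - μ) • v + μ • (v' + D) := by
  have hn : 0 < ‖v‖ := norm_pos_iff.2 hv0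
  have hn' : 0 < ‖v'‖ := norm_pos_iff.2 hv0'
  have e := hF.norm_sq v
  have e' := hF.norm_sq v'
  obtain ⟨c1, c2⟩ := SlivAux.diag hn.le (by nlinarith [sq_nonneg ⟪v, e1⟫]) h1
  obtain ⟨c1', c2'⟩ := SlivAux.diag hn'.le (by nlinarith [sq_nonneg ⟪v', e1⟫]) h2
  set z : ℝ := ⟪v, e3⟫ with hz
  set z' : ℝ := -⟪v', e3⟫ with hz'
  have z0 : 0 < z := by linarith
  have z0' : 0 < z' := by linarith
  refine ⟨z0, by linarith, ?_⟩
  have hzr : z ≤ r := by
    have : |⟪v, e3⟫| ≤ ‖v‖ * ‖e3‖ := abs_real_inner_le_norm _ _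
    rw [hF.nw, mul_one] at this
    exact (le_abs_self _).trans (this.trans hv)
  have hzr' : z' ≤ r := by
    have : |⟪v', e3⟫| ≤ ‖v'‖ * ‖e3‖ := abs_real_inner_le_norm _ _
    rw [hF.nw, mul_one] at this
    exact (neg_le_abs _).trans (this.trans hv')
  set μ : ℝ := z / (z + z') with hμ
  have hs0 : 0 < z + z' := by linarith
  have μ0 : 0 < μ := div_pos z0 hs0
  have μ1 : 1 - μ = z' / (z + z') := by
    rw [hμ]
    field_simp
    ring
  have μ1' : 0 < 1 - μ := by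
    rw [μ1]
    exact div_pos z0' hs0
  have hμz : (1 - μ) * z = μ * z' := by
    rw [μ1, hμ]
    ring
  set s : E3 := (1 - μ) • v + μ • v' with hs
  have hs3 : ⟪s, e3⟫ = 0 := by
    rw [hs, inner_add_left, real_inner_smul_left, real_inner_smul_left, ← hz]
    have : ⟪v', e3⟫ = -z' := by rw [hz']; ring
    rw [this]
    linarith
  have hs2 : 0 ≤ ⟪s, e2⟫ := by
    rw [hs, inner_add_left, real_inner_smul_left, real_inner_smul_left]
    have : 0 ≤ ⟪v, e2⟫ := by linarith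
    have : 0 ≤ ⟪v', e2⟫ := by linarith
    positivity
  -- the size of `s`
  have hsn : ‖s‖ ≤ 20 / 3 * ((1 - μ) * z) := by
    calc ‖s‖ ≤ ‖(1 - μ) • v‖ + ‖μ • v'‖ := norm_add_le _ _
      _ = (1 - μ) * ‖v‖ + μ * ‖v'‖ := by
          rw [norm_smul, norm_smul, Real.norm_of_nonneg μ1'.le, Real.norm_of_nonneg μ0.le]
      _ ≤ (1 - μ) * (10 / 3 * z) + μ * (10 / 3 * z') := by
          gcongr
          · linarith
          · linarith
      _ = 20 / 3 * ((1 - μ) * z) := by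
          linear_combination (-10 / 3) * hμz
  have hsa : ‖s‖ ≤ 7 * ((1 - μ) * r) := by
    have : (1 - μ) * z ≤ (1 - μ) * r := mul_le_mul_of_nonneg_left hzr μ1'.le
    have : 0 ≤ (1 - μ) * r := by positivity
    linarith
  have hsb : ‖s‖ ≤ 7 * (μ * r) := by
    rw [hμz] at hsn
    have : μ * z' ≤ μ * r := mul_le_mul_of_nonneg_left hzr' μ0.le
    have : 0 ≤ μ * r := by positivity
    linarith
  have hL0 : 0 < L := by linarith
  -- the coordinates of `s`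
  have a1 : |⟪s, e1⟫| ≤ ‖s‖ := by
    have : |⟪s, e1⟫| ≤ ‖s‖ * ‖e1‖ := abs_real_inner_le_norm _ _
    rwa [hF.nu, mul_one] at this
  have a2 : ⟪s, e2⟫ ≤ ‖s‖ := by
    have : |⟪s, e2⟫| ≤ ‖s‖ * ‖e2‖ := abs_real_inner_le_norm _ _
    rw [hF.nv, mul_one] at this
    exact (le_abs_self _).trans this
  set γ : ℝ := ⟪s, e2⟫ / h with hγ
  set ρ : ℝ := ⟪s, e1⟫ / L with hρ
  have γ0 : 0 ≤ γ := div_nonneg hs2 hh0.le
  have bd : ∀ t : ℝ, 0 ≤ t → ‖s‖ ≤ 7 * (t * r) → γ * h ≤ 7 * (t * r) ∧ |ρ| ≤ 7 / 20 * t := by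
    intro t ht hst
    constructor
    · rw [hγ, div_mul_cancel₀ _ hh0.ne']
      exact a2.trans hst
    · rw [hρ, abs_div, abs_of_pos hL0, div_le_iff₀ hL0]
      have : t * (20 * r) ≤ t * L := mul_le_mul_of_nonneg_left h20 ht
      have := a1.trans hst
      linarith
  obtain ⟨g1, g2⟩ := bd (1 - μ) μ1'.le hsa
  obtain ⟨g3, g4⟩ := bd μ μ0.le hsb
  have g5 := abs_le.1 g2
  have g6 := abs_le.1 g4
  -- the main estimate
  have main : ∀ t x : ℝ, 0 < t → γ * h ≤ 7 * (t * r) → 13 / 20 * t < γ * x →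
      0 < x ∧ h ≤ 11 * r * x := by
    intro t x ht hg hx
    have hgx : 0 < γ * x := lt_trans (by positivity) hx
    have hγ0 : 0 < γ := by
      rcases γ0.lt_or_eq with h | h
      · exact h
      · rw [← h, zero_mul] at hgx
        exact absurd hgx (lt_irrefl _)
    have hx0 : 0 < x := (mul_pos_iff_of_pos_left hγ0).1 hgx
    refine ⟨hx0, ?_⟩
    -- `γ * h * x ≤ 7 * t * r * x`, `13/20 t h < γ x h`
    have k1 : γ * h * x ≤ 7 * (t * r) * x := mul_le_mul_of_nonneg_right hg hx0.le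
    have k2 : 13 / 20 * t * h < γ * x * h := mul_lt_mul_of_pos_right hx hh0
    have k3 : t * (13 / 20 * h) < t * (7 * r * x) := by nlinarith
    have k4 : 13 / 20 * h < 7 * r * x := lt_of_mul_lt_mul_left k3 ht.le
    have k5 : 0 < r * x := mul_pos hr hx0
    nlinarith
  refine ⟨μ, 1 - μ - ρ - γ * (1 - l), μ + ρ - γ * l, γ, μ0.le, by linarith, γ0, by ring, ?_, ?_, ?_⟩
  · intro hb
    exact main μ l μ0 g3 (by linarith)
  · intro hb
    exact main (1 - μ) (1 - l) μ1' g1 (by linarith)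
  have hexp := hF.expand s
  rw [hs3, zero_smul, add_zero] at hexp
  have h6 : (1 - μ) • v + μ • (v' + D) = μ • D + s := by
    rw [hs]
    module
  have h7 : ⟪s, e1⟫ • e1 = ρ • D := by
    rw [hL, smul_smul, hρ, div_mul_cancel₀ _ hL0.ne']
  have h8 : ⟪s, e2⟫ • e2 = γ • (P - l • D) := by
    have : P - l • D = h • e2 := by rw [hP]; abel
    rw [this, smul_smul, hγ, div_mul_cancel₀ _ hh0.ne']
  rw [h6, hexp, h7, h8]
  module

end Sliv2Aux

open Sliv2Aux in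
/-- Two surrounded vertices make a face thin. -/
theorem stSliv2 (hP : StPie) : StSliv2 := by
  intro n q T r hT a b c ht ha hb hL20
  set D : E3 := q b - q a with hD
  set P : E3 := q c - q a with hPd
  have hcb : q c - q b = P - D := by rw [hD, hPd]; abel
  have hab : q a - q b = -D := by rw [hD]; abel
  rw [hcb, hab]
  -- the radius is positive
  have hr : 0 < r := by
    obtain ⟨j, hj1, hj2, -⟩ := ha (EuclideanSpace.single 0 1) (by simp)
    exact (norm_pos_iff.2 (sub_ne_zero.2 hj1)).trans_le hj2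
  have hL0 : 0 < ‖D‖ := by linarith
  have hD0 : D ≠ 0 := norm_pos_iff.1 hL0
  have hDD : ⟪D, D⟫ = ‖D‖ ^ 2 := real_inner_self_eq_norm_sq D
  have hsum : ⟪P, D⟫ + ⟪P - D, -D⟫ = ‖D‖ ^ 2 := by
    have e : ⟪P - D, D⟫ = ⟪P, D⟫ - ⟪D, D⟫ := inner_sub_left P D D
    rw [inner_neg_right, e, hDD]
    ring
  -- the foot
  set l : ℝ := ⟪P, D⟫ / ‖D‖ ^ 2 with hl
  have hlD : ⟪P, D⟫ = l * ‖D‖ ^ 2 := by
    rw [hl, div_mul_cancel₀]
    positivity
  set w : E3 := P - l • D with hw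
  have horth : ⟪w, D⟫ = 0 := by
    rw [hw, inner_sub_left, real_inner_smul_left, hDD, hlD]
    ring
  have hcr : cr D P = cr D w := by
    have e : P = w + l • D := by rw [hw]; abel
    conv_lhs => rw [e]
    rw [cr_add_right, cr_smul_right, cr_self, smul_zero, add_zero]
  have hcrn : ‖cr D w‖ = ‖D‖ * ‖w‖ := by
    have e : ‖cr D w‖ ^ 2 = (‖D‖ * ‖w‖) ^ 2 := by
      rw [norm_cr_sq, real_inner_comm, horth]
      ring
    exact (sq_eq_sq₀ (norm_nonneg _) (by positivity)).1 e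
  rcases eq_or_ne w 0 with hw0 | hw0
  · -- collinear
    have hz : ‖cr D P‖ = 0 := by
      rw [hcr, hcrn, hw0, norm_zero, mul_zero]
    rw [hz]
    rcases lt_or_ge 0 ⟪P, D⟫ with h | h
    · left
      exact ⟨h, by positivity⟩
    · right
      refine ⟨?_, by positivity⟩
      have : 0 < ‖D‖ ^ 2 := by positivity
      linarith
  have hh0 : 0 < ‖w‖ := norm_pos_iff.2 hw0
  set h : ℝ := ‖w‖ with hh
  set e1 : E3 := ‖D‖⁻¹ • D with he1
  set e2 : E3 := h⁻¹ • w with he2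
  have hDe : D = ‖D‖ • e1 := by
    rw [he1, smul_smul, mul_inv_cancel₀ hL0.ne', one_smul]
  have hwe : w = h • e2 := by
    rw [he2, smul_smul, mul_inv_cancel₀ hh0.ne', one_smul]
  have hPe : P = l • D + h • e2 := by
    rw [← hwe, hw]
    abel
  have n1 : ‖e1‖ = 1 := by
    rw [he1, norm_smul, norm_inv, norm_norm, inv_mul_cancel₀ hL0.ne']
  have n2 : ‖e2‖ = 1 := by
    rw [he2, norm_smul, norm_inv, Real.norm_of_nonneg hh0.le, ← hh, inv_mul_cancel₀ hh0.ne']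
  have n12 : ⟪e1, e2⟫ = 0 := by
    rw [he1, he2, real_inner_smul_left, real_inner_smul_right, real_inner_comm, horth]
    simp
  have hF := Fr.of_two n1 n2 n12
  set e3 : E3 := cr e1 e2 with he3
  have hs : √2 ^ 2 = 2 := Real.sq_sqrt (by norm_num)
  have hs0 : 0 < √2 := Real.sqrt_pos.2 (by norm_num)
  -- unit vectors
  have unit : ∀ ε : ℝ, ε ^ 2 = 1 → ‖(√2)⁻¹ • (e2 + ε • e3)‖ = 1 := by
    intro ε hε
    have e : ‖e2 + ε • e3‖ ^ 2 = 2 := by
      rw [hF.norm_sq]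
      have u1 : ⟪e2, e1⟫ = 0 := by rw [real_inner_comm]; exact hF.uv
      have u2 : ⟪e3, e1⟫ = 0 := by rw [real_inner_comm]; exact hF.uw
      have u3 : ⟪e3, e2⟫ = 0 := by rw [real_inner_comm]; exact hF.vw
      have u4 : ⟪e2, e2⟫ = 1 := by rw [real_inner_self_eq_norm_sq, hF.nv]; norm_num
      have u5 : ⟪e3, e3⟫ = 1 := by rw [real_inner_self_eq_norm_sq, hF.nw]; norm_num
      simp only [inner_add_left, real_inner_smul_left, u1, u2, u3, u4, u5, hF.vw]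
      linear_combination hε
    have e' : ‖e2 + ε • e3‖ = √2 := by
      rw [← Real.sqrt_sq (norm_nonneg (e2 + ε • e3)), e]
    rw [norm_smul, e', norm_inv, Real.norm_of_nonneg hs0.le, inv_mul_cancel₀ hs0.ne']
  have val : ∀ (ε : ℝ) (v : E3), 9 / 10 * ‖v‖ ≤ ⟪v, (√2)⁻¹ • (e2 + ε • e3)⟫ →
      9 / 10 * ‖v‖ * √2 ≤ ⟪v, e2⟫ + ε * ⟪v, e3⟫ := by
    intro ε v h
    have e : ⟪v, (√2)⁻¹ • (e2 + ε • e3)⟫ = (⟪v, e2⟫ + ε * ⟪v, e3⟫) / √2 := by
      have e1 : ⟪v, (√2)⁻¹ • (e2 + ε • e3)⟫ = (√2)⁻¹ * ⟪v, e2 + ε • e3⟫ :=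
        real_inner_smul_right _ _ _
      have e2' : ⟪v, e2 + ε • e3⟫ = ⟪v, e2⟫ + ⟪v, ε • e3⟫ := inner_add_right _ _ _
      have e3' : ⟪v, ε • e3⟫ = ε * ⟪v, e3⟫ := real_inner_smul_right _ _ _
      rw [e1, e2', e3']
      ring
    rw [e, le_div_iff₀ hs0] at h
    exact h
  obtain ⟨j, j1, j2, j3⟩ := ha _ (unit 1 (by norm_num))
  obtain ⟨k, k1, k2, k3⟩ := hb _ (unit (-1) (by norm_num))
  have j4 := val _ _ j3
  have k4 := val _ _ k3
  rw [one_mul] at j4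
  rw [neg_one_mul] at k4
  obtain ⟨z0, z0', μ, α, β, γ, m0, m1, ga, hsm, hβ, hα, hc⟩ := core2 (D := D) (P := P) hr hF hDe
    hPe hL20 hh0 j2 k2 (sub_ne_zero.2 j1) (sub_ne_zero.2 k1) j4 k4
  -- the size of the components
  have i1 : ⟪P, e1⟫ = l * ‖D‖ := by
    rw [he1, real_inner_smul_right, hlD]
    field_simp
  have i2 : ⟪P - D, e1⟫ = -((1 - l) * ‖D‖) := by
    have : ⟪D, e1⟫ = ‖D‖ := by
      rw [he1, real_inner_smul_right, hDD]
      field_simp
    rw [inner_sub_left, i1, this]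
    ring
  have i3 : l * ‖D‖ ≤ ‖P‖ := by
    have : |⟪P, e1⟫| ≤ ‖P‖ * ‖e1‖ := abs_real_inner_le_norm _ _
    rw [n1, mul_one, i1] at this
    exact (le_abs_self _).trans this
  have i4 : (1 - l) * ‖D‖ ≤ ‖P - D‖ := by
    have : |⟪P - D, e1⟫| ≤ ‖P - D‖ * ‖e1‖ := abs_real_inner_le_norm _ _
    rw [n1, mul_one, i2, abs_neg] at this
    exact (le_abs_self _).trans this
  rw [hcr, hcrn]
  rcases lt_or_ge β 0 with hb0 | hb0
  · left
    obtain ⟨l0, hl1⟩ := hβ hb0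
    refine ⟨by rw [hlD]; positivity, ?_⟩
    calc ‖D‖ * h ≤ ‖D‖ * (11 * r * l) := mul_le_mul_of_nonneg_left hl1 hL0.le
      _ = 11 * r * (l * ‖D‖) := by ring
      _ ≤ 11 * r * ‖P‖ := mul_le_mul_of_nonneg_left i3 (by positivity)
      _ ≤ 20 * r * ‖P‖ := by gcongr; norm_num
  rcases lt_or_ge α 0 with ha0 | ha0
  · right
    obtain ⟨l0, hl1⟩ := hα ha0
    refine ⟨?_, ?_⟩
    · have : ⟪P - D, -D⟫ = (1 - l) * ‖D‖ ^ 2 := by
        rw [hlD] at hsum
        linarith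
      rw [this]
      positivity
    calc ‖D‖ * h ≤ ‖D‖ * (11 * r * (1 - l)) := mul_le_mul_of_nonneg_left hl1 hL0.le
      _ = 11 * r * ((1 - l) * ‖D‖) := by ring
      _ ≤ 11 * r * ‖P - D‖ := mul_le_mul_of_nonneg_left i4 (by positivity)
      _ ≤ 20 * r * ‖P - D‖ := by gcongr; norm_num
  exfalso
  have hD3 : ⟪D, e3⟫ = 0 := by
    rw [hDe, real_inner_smul_left, hF.uw, mul_zero]
  have hP3 : ⟪P, e3⟫ = 0 := by
    rw [hPe, inner_add_left, real_inner_smul_left, real_inner_smul_left, hD3, hF.vw]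
    ring
  have hja : j ≠ a := fun h => j1 (by rw [h])
  have hkb : k ≠ b := fun h => k1 (by rw [h])
  have hjb : j ≠ b := by
    rintro rfl
    rw [← hD, hD3] at z0
    exact lt_irrefl _ z0
  have hka : k ≠ a := by
    rintro rfl
    rw [hab, inner_neg_left, hD3, neg_zero] at z0'
    exact lt_irrefl _ z0'
  have hjc : j ≠ c := by
    rintro rfl
    rw [← hPd, hP3] at z0
    exact lt_irrefl _ z0
  have hkc : k ≠ c := by
    rintro rfl
    rw [hcb, inner_sub_left, hD3, hP3, sub_zero] at z0'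
    exact lt_irrefl _ z0'
  have hjk : j ≠ k := by
    rintro rfl
    have : q j - q a = (q j - q b) + D := by rw [hD]; abel
    rw [this, inner_add_left, hD3, add_zero] at z0
    exact lt_irrefl _ (z0.trans z0')
  refine hP n q T hT a b c j k ht hjk (by simp [hja, hjb, hjc]) (by simp [hka, hkb, hkc])
    α β γ μ ha0 hb0 ga (by linarith) m0 m1 ?_
  have e4 : q b = q a + D := by rw [hD]; abel
  have e5 : q c = q a + P := by rw [hPd]; abel
  have e6 : q j = q a + (q j - q a) := by abel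
  have e7 : q k = q a + D + (q k - q b) := by rw [hD]; abel
  have e8 : α = 1 - γ - β := by linarith
  set v : E3 := q j - q a with hv
  set v' : E3 := q k - q b with hv'
  rw [e6, e7, e4, e5, e8]
  have e9 : (1 - μ) • (q a + v) + μ • (q a + D + v') = q a +
      ((1 - μ) • v + μ • (v' + D)) := by module
  rw [e9, ← hc]
  module

end Pool.Agent.Lib.MP_4f1247_co
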