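import Pool.Agent.Lib.MP_4f1247_co.Stmts2

set_option autoImplicit false

/-!
# Neighborly polyhedral surfaces: the points of a ball which are not surrounded
-/

namespace Pool.Agent.Lib.MP_4f1247_co

open Finset
open scoped RealInnerProductSpace

namespace SurBAux

/-- Scaling and restriction to a subset. -/
lemma sur_of {n n' : ℕ} (q : Fin n → E3) (e : Fin n' → Fin n) {w r : ℝ} (hw : 0 < w) (k : Fin n')
    (h : Sur (fun k => w⁻¹ • q (e k)) (r / w) k) : Sur q r (e k) := by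
  intro u hu
  obtain ⟨j, h1, h2, h3⟩ := h u hu
  have h4 : w⁻¹ • q (e j) - w⁻¹ • q (e k) = w⁻¹ • (q (e j) - q (e k)) := by rw [smul_sub]
  simp only [h4] at h2 h3
  rw [norm_smul, norm_inv, Real.norm_of_nonneg hw.le] at h2 h3
  rw [real_inner_smul_left] at h3
  refine ⟨e j, fun h5 => h1 ?_, ?_, ?_⟩
  · simp only [h5]
  · rw [inv_mul_eq_div, div_le_div_iff_of_pos_right hw] at h2
    exact h2
  · have h5 : w * (9 / 10 * (w⁻¹ * ‖q (e j) - q (e k)‖)) ≤
        w * (w⁻¹ * ⟪q (e j) - q (e k), u⟫) := mul_le_mul_of_nonneg_left h3 hw.le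
    rw [mul_inv_cancel_left₀ hw.ne'] at h5
    calc 9 / 10 * ‖q (e j) - q (e k)‖ = w * (9 / 10 * (w⁻¹ * ‖q (e j) - q (e k)‖)) := by
          field_simp
      _ ≤ _ := h5

end SurBAux

open SurBAux in
/-- The number of points of a unit ball which are not surrounded. -/
theorem stSurB (hS : StSur) : StSurB := by
  classical
  obtain ⟨C, hC, h⟩ := hS
  refine ⟨8 * C, by linarith, ?_⟩
  intro n q w ν r x0 hw hwr hr hden
  obtain ⟨s, hs⟩ : ∃ s : Finset (Fin n), s = Finset.univ.filter (fun i => ‖q i - x0‖ ≤ 1) :=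
    ⟨_, rfl⟩
  obtain ⟨e, he⟩ : ∃ e : Fin s.card → Fin n, e = fun k => ((s.equivFin.symm k : s) : Fin n) :=
    ⟨_, rfl⟩
  have hinj : Function.Injective e := by
    rw [he]
    exact Subtype.val_injective.comp s.equivFin.symm.injective
  have hmem : ∀ k, ‖q (e k) - x0‖ ≤ 1 := by
    intro k
    have h1 : e k ∈ s := by
      rw [he]
      exact (s.equivFin.symm k).2
    rw [hs, Finset.mem_filter] at h1
    exact h1.2
  have hsurj : ∀ i, ‖q i - x0‖ ≤ 1 → ∃ k, e k = i := by
    intro i hi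
    have h1 : i ∈ s := by
      rw [hs, Finset.mem_filter]
      exact ⟨Finset.mem_univ i, hi⟩
    refine ⟨s.equivFin ⟨i, h1⟩, ?_⟩
    rw [he]
    simp
  have hr0 : 0 < r := hw.trans_le hwr
  have key := h s.card (fun k => w⁻¹ • q (e k)) ν (2 / w) (r / w) ?_ ?_ ?_ ?_
  · have h1 : {i | ‖q i - x0‖ ≤ 1 ∧ ¬ Sur q r i} ⊆
        e '' {k | ¬ Sur (fun k => w⁻¹ • q (e k)) (r / w) k} := by
      rintro i ⟨hi, hi'⟩
      obtain ⟨k, rfl⟩ := hsurj i hi
      exact ⟨k, fun h2 => hi' (sur_of q e hw k h2), rfl⟩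
    have h2 := Set.ncard_le_ncard h1 (Set.toFinite _)
    rw [Set.ncard_image_of_injective _ hinj] at h2
    have h3 : ({i | ‖q i - x0‖ ≤ 1 ∧ ¬ Sur q r i}.ncard : ℝ) ≤
        ({k | ¬ Sur (fun k => w⁻¹ • q (e k)) (r / w) k}.ncard : ℝ) := by exact_mod_cast h2
    refine (h3.trans key).trans (le_of_eq ?_)
    field_simp
    ring
  · intro x
    have h1 : ((Finset.univ.filter (fun k => ‖w⁻¹ • q (e k) - x‖ ≤ 1)).card : ℝ) ≤
        ((Finset.univ.filter (fun i => ‖q i - w • x‖ ≤ w)).card : ℝ) := by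
      norm_cast
      refine Finset.card_le_card_of_injOn e ?_ hinj.injOn
      intro k hk
      rw [Finset.mem_coe, Finset.mem_filter] at hk ⊢
      refine ⟨Finset.mem_univ _, ?_⟩
      have h2 : q (e k) - w • x = w • (w⁻¹ • q (e k) - x) := by
        rw [smul_sub, smul_smul, mul_inv_cancel₀ hw.ne', one_smul]
      rw [h2, norm_smul, Real.norm_of_nonneg hw.le]
      have := mul_le_mul_of_nonneg_left hk.2 hw.le
      linarith
    exact h1.trans (hden (w • x))
  · rw [le_div_iff₀ hw]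
    linarith
  · rw [div_le_div_iff_of_pos_right hw]
    linarith
  · intro k l
    have h1 : w⁻¹ • q (e k) - w⁻¹ • q (e l) = w⁻¹ • ((q (e k) - x0) - (q (e l) - x0)) := by
      rw [smul_sub, smul_sub, smul_sub]
      abel
    rw [h1, norm_smul, norm_inv, Real.norm_of_nonneg hw.le, inv_mul_eq_div,
      div_le_div_iff_of_pos_right hw]
    have := norm_sub_le (q (e k) - x0) (q (e l) - x0)
    linarith [hmem k, hmem l]

end Pool.Agent.Lib.MP_4f1247_co
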