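import Pool.Agent.Lib.MP_4f1247_co.All
import Pool.Agent.Lib.MP_4f1247_co.BoxW
import Pool.Agent.Lib.MP_4f1247_co.SurB
import Pool.Agent.Lib.MP_4f1247_co.Sliv2
import Pool.Agent.Lib.MP_4f1247_co.Mid
import Pool.Agent.Lib.MP_4f1247_co.CrossTri2
import Pool.Agent.Lib.MP_4f1247_co.Sel2
import Pool.Agent.Lib.MP_4f1247_co.Flag
import Pool.Agent.Lib.MP_4f1247_co.Core
import Pool.Agent.Lib.MP_4f1247_co.Fin2

set_option autoImplicit false

/-!
# The vertex sets of neighborly polyhedral surfaces have dimension at most two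
-/

namespace Pool.Agent.Lib.MP_4f1247_co

theorem stCoreAll : StCore :=
  stCore stCr stCon (stSlab (stBoxW stBox)) (stSurB (stSur stBall)) (stCross2 stCross) stTri2
    stSel2 (stFlag (stSliv2 stPie) stMid)

theorem stFin3All : StFin3 := stFin3 stCoreAll stBall

end Pool.Agent.Lib.MP_4f1247_co
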