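import Mathlib

set_option autoImplicit false

/-!
# Neighborly polyhedral surfaces: vectors in three-space (base file)
-/

namespace Pool.Agent.Lib.MP_4f1247_co

open Finset
open scoped RealInnerProductSpace

/-- Three-space. -/
abbrev E3 : Type := EuclideanSpace ℝ (Fin 3)

/-- The cross product. -/
noncomputable def cr (u v : E3) : E3 :=
  !₂[u 1 * v 2 - u 2 * v 1, u 2 * v 0 - u 0 * v 2, u 0 * v 1 - u 1 * v 0]

/-- The determinant. -/
noncomputable def dt (u v w : E3) : ℝ := ⟪cr u v, w⟫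

/-- Orthonormal frames. -/
structure Fr (u v w : E3) : Prop where
  nu : ‖u‖ = 1
  nv : ‖v‖ = 1
  nw : ‖w‖ = 1
  uv : ⟪u, v⟫ = 0
  uw : ⟪u, w⟫ = 0
  vw : ⟪v, w⟫ = 0

/-! ### Coordinates -/

lemma inner_coord (u v : E3) : ⟪u, v⟫ = u 0 * v 0 + u 1 * v 1 + u 2 * v 2 := by
  rw [PiLp.inner_apply, Fin.sum_univ_three]
  simp [mul_comm]

lemma norm_sq_coord (u : E3) : ‖u‖ ^ 2 = u 0 ^ 2 + u 1 ^ 2 + u 2 ^ 2 := by
  rw [← real_inner_self_eq_norm_sq, inner_coord]
  ring

lemma ext3 {u v : E3} (h0 : u 0 = v 0) (h1 : u 1 = v 1) (h2 : u 2 = v 2) : u = v := by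
  ext i
  fin_cases i
  · exact h0
  · exact h1
  · exact h2

@[simp] lemma cr_0 (u v : E3) : (cr u v) 0 = u 1 * v 2 - u 2 * v 1 := by simp [cr]
@[simp] lemma cr_1 (u v : E3) : (cr u v) 1 = u 2 * v 0 - u 0 * v 2 := by simp [cr]
@[simp] lemma cr_2 (u v : E3) : (cr u v) 2 = u 0 * v 1 - u 1 * v 0 := by simp [cr]

lemma dt_coord (u v w : E3) : dt u v w = (u 1 * v 2 - u 2 * v 1) * w 0 +
    (u 2 * v 0 - u 0 * v 2) * w 1 + (u 0 * v 1 - u 1 * v 0) * w 2 := by
  rw [dt, inner_coord]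
  simp

/-! ### Identities (all proved by coordinates) -/

lemma cr_self (u : E3) : cr u u = 0 := by
  apply ext3 <;> simp <;> ring

lemma cr_anti (u v : E3) : cr v u = -cr u v := by
  apply ext3 <;> simp <;> ring

lemma cr_smul_left (t : ℝ) (u v : E3) : cr (t • u) v = t • cr u v := by
  apply ext3 <;> simp <;> ring

lemma cr_smul_right (t : ℝ) (u v : E3) : cr u (t • v) = t • cr u v := by
  apply ext3 <;> simp <;> ring

lemma cr_add_left (u u' v : E3) : cr (u + u') v = cr u v + cr u' v := by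
  apply ext3 <;> simp <;> ring

lemma cr_add_right (u v v' : E3) : cr u (v + v') = cr u v + cr u v' := by
  apply ext3 <;> simp <;> ring

lemma inner_cr_left (u v : E3) : ⟪cr u v, u⟫ = 0 := by
  rw [inner_coord]; simp; ring

lemma inner_cr_right (u v : E3) : ⟪cr u v, v⟫ = 0 := by
  rw [inner_coord]; simp; ring

lemma dt_cyc (u v w : E3) : dt u v w = dt v w u := by
  rw [dt_coord, dt_coord]; ring

lemma dt_anti (u v w : E3) : dt v u w = -dt u v w := by
  rw [dt_coord, dt_coord]; ring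

lemma dt_eq_inner_right (u v w : E3) : dt u v w = ⟪u, cr v w⟫ := by
  rw [dt_coord, inner_coord]; simp; ring

/-- Lagrange's identity. -/
lemma norm_cr_sq (u v : E3) : ‖cr u v‖ ^ 2 = ‖u‖ ^ 2 * ‖v‖ ^ 2 - ⟪u, v⟫ ^ 2 := by
  rw [norm_sq_coord, norm_sq_coord, norm_sq_coord, inner_coord]
  simp
  ring

lemma norm_cr_le (u v : E3) : ‖cr u v‖ ≤ ‖u‖ * ‖v‖ := by
  have h := norm_cr_sq u v
  have h1 : ‖cr u v‖ ^ 2 ≤ (‖u‖ * ‖v‖) ^ 2 := by
    rw [h, mul_pow]
    nlinarith [sq_nonneg ⟪u, v⟫]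
  exact le_of_sq_le_sq h1 (by positivity)

lemma abs_dt_le (u v w : E3) : |dt u v w| ≤ ‖cr u v‖ * ‖w‖ := abs_real_inner_le_norm _ _

lemma abs_dt_le' (u v w : E3) : |dt u v w| ≤ ‖u‖ * ‖v‖ * ‖w‖ :=
  (abs_dt_le u v w).trans (mul_le_mul_of_nonneg_right (norm_cr_le u v) (norm_nonneg w))

/-- Binet's identity. -/
lemma inner_cr_cr (a b c d : E3) : ⟪cr a b, cr c d⟫ = ⟪a, c⟫ * ⟪b, d⟫ - ⟪a, d⟫ * ⟪b, c⟫ := by
  simp only [inner_coord, cr_0, cr_1, cr_2]
  ring

/-- The cross product of two cross products. -/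
lemma cr_cr (a b c d : E3) : cr (cr a b) (cr c d) = (dt a b d) • c - (dt a b c) • d := by
  apply ext3 <;> simp [dt_coord] <;> ring

/-- The relation of four vectors. -/
lemma relation (a b c d : E3) :
    dt b c d • a - dt a c d • b + dt a b d • c - dt a b c • d = 0 := by
  apply ext3 <;> simp [dt_coord] <;> ring

/-- The dual relation. -/
lemma relation' (a b c m : E3) :
    ⟪a, m⟫ • cr b c + ⟪b, m⟫ • cr c a + ⟪c, m⟫ • cr a b = dt a b c • m := by
  apply ext3 <;> simp [dt_coord, inner_coord] <;> ring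

/-! ### Frames -/

namespace Fr

variable {u v w : E3}

lemma of_two (hu : ‖u‖ = 1) (hv : ‖v‖ = 1) (huv : ⟪u, v⟫ = 0) : Fr u v (cr u v) where
  nu := hu
  nv := hv
  nw := by
    have h := norm_cr_sq u v
    rw [hu, hv, huv] at h
    have h1 : ‖cr u v‖ ^ 2 = 1 := by rw [h]; norm_num
    nlinarith [norm_nonneg (cr u v)]
  uv := huv
  uw := by rw [real_inner_comm]; exact inner_cr_left u v
  vw := by rw [real_inner_comm]; exact inner_cr_right u v

/-- The coordinates in a frame. -/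
lemma expand (h : Fr u v w) (x : E3) : x = ⟪x, u⟫ • u + ⟪x, v⟫ • v + ⟪x, w⟫ • w := by
  -- the vector `y = x - ...` is orthogonal to the frame
  have huu : ⟪u, u⟫ = 1 := by rw [real_inner_self_eq_norm_sq, h.nu]; norm_num
  have hvv : ⟪v, v⟫ = 1 := by rw [real_inner_self_eq_norm_sq, h.nv]; norm_num
  have hww : ⟪w, w⟫ = 1 := by rw [real_inner_self_eq_norm_sq, h.nw]; norm_num
  have hvu : ⟪v, u⟫ = 0 := by rw [real_inner_comm]; exact h.uv
  have hwu : ⟪w, u⟫ = 0 := by rw [real_inner_comm]; exact h.uw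
  have hwv : ⟪w, v⟫ = 0 := by rw [real_inner_comm]; exact h.vw
  set y : E3 := x - (⟪x, u⟫ • u + ⟪x, v⟫ • v + ⟪x, w⟫ • w) with hy
  have h1 : ⟪y, u⟫ = 0 := by
    rw [hy]
    simp only [inner_sub_left, inner_add_left, real_inner_smul_left, huu, hvu, hwu]
    ring
  have h2 : ⟪y, v⟫ = 0 := by
    rw [hy]
    simp only [inner_sub_left, inner_add_left, real_inner_smul_left, h.uv, hvv, hwv]
    ring
  have h3 : ⟪y, w⟫ = 0 := by
    rw [hy]
    simp only [inner_sub_left, inner_add_left, real_inner_smul_left, h.uw, h.vw, hww]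
    ring
  have hd : dt u v w ≠ 0 := by
    intro h0
    have e := cr_cr u v v w
    have e1 : ‖cr (cr u v) w‖ ^ 2 = 1 := by
      rw [norm_cr_sq]
      have e2 : ⟪cr u v, w⟫ = 0 := h0
      rw [e2, (of_two h.nu h.nv h.uv).nw, h.nw]
      norm_num
    have e3 : cr (cr u v) w = 0 := by
      have e4 : cr (cr u v) w = ⟪u, w⟫ • v - ⟪v, w⟫ • u := by
        apply ext3 <;> simp [inner_coord] <;> ring
      rw [e4, h.uw, h.vw]
      simp
    rw [e3] at e1
    simp at e1
  have hy0 : y = 0 := by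
    have e := relation' u v w y
    rw [real_inner_comm y u, real_inner_comm y v, real_inner_comm y w, h1, h2, h3] at e
    simp only [zero_smul, add_zero] at e
    exact (smul_eq_zero.1 e.symm).resolve_left hd
  exact (sub_eq_zero.1 hy0)

lemma norm_sq (h : Fr u v w) (x : E3) :
    ‖x‖ ^ 2 = ⟪x, u⟫ ^ 2 + ⟪x, v⟫ ^ 2 + ⟪x, w⟫ ^ 2 := by
  have huu : ⟪u, u⟫ = 1 := by rw [real_inner_self_eq_norm_sq, h.nu]; norm_num
  have e := h.expand x
  have e1 : ‖x‖ ^ 2 = ⟪x, ⟪x, u⟫ • u + ⟪x, v⟫ • v + ⟪x, w⟫ • w⟫ := by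
    rw [← e, real_inner_self_eq_norm_sq]
  rw [e1]
  simp only [inner_add_right, real_inner_smul_right]
  ring

lemma rot (h : Fr u v w) : Fr v w u where
  nu := h.nv
  nv := h.nw
  nw := h.nu
  uv := h.vw
  uw := by rw [real_inner_comm]; exact h.uv
  vw := by rw [real_inner_comm]; exact h.uw

lemma swap (h : Fr u v w) : Fr u w v where
  nu := h.nu
  nv := h.nw
  nw := h.nv
  uv := h.uw
  uw := h.uv
  vw := by rw [real_inner_comm]; exact h.vw

/-- Every unit vector belongs to a frame. -/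
lemma exists_of_unit (u : E3) (hu : ‖u‖ = 1) : ∃ v w : E3, Fr u v w := by
  -- a vector which is not proportional to `u`
  have key : ∃ x : E3, cr u x ≠ 0 := by
    by_contra hcon
    push Not at hcon
    have h0 := hcon !₂[1, 0, 0]
    have h1 := hcon !₂[0, 1, 0]
    have e0 : u 2 = 0 := by
      have := congrArg (fun z : E3 => z 1) h0
      simpa using this
    have e1 : u 1 = 0 := by
      have := congrArg (fun z : E3 => z 2) h0
      simpa using this
    have e2 : u 0 = 0 := by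
      have := congrArg (fun z : E3 => z 2) h1
      simpa using this
    have h := norm_sq_coord u
    rw [hu, e0, e1, e2] at h
    norm_num at h
  obtain ⟨x, hx⟩ := key
  set v : E3 := (‖cr u x‖)⁻¹ • cr u x with hv
  have hn : ‖cr u x‖ ≠ 0 := norm_ne_zero_iff.2 hx
  have hvn : ‖v‖ = 1 := by
    rw [hv, norm_smul, norm_inv, norm_norm]
    exact inv_mul_cancel₀ hn
  have huv : ⟪u, v⟫ = 0 := by
    rw [hv, real_inner_smul_right, real_inner_comm, inner_cr_left, mul_zero]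
  exact ⟨v, cr u v, of_two hu hvn huv⟩

end Fr

end Pool.Agent.Lib.MP_4f1247_co
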