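import Mathlib

/-!
# A checker for neighborly polyhedra with integer coordinates

`chkC n T L` and `chkG P T`: the triangles `T` (sorted triples of numbers below `n`) on the points
`P` form a neighborly polyhedral surface; `L` lists the links of the vertices.  For every two
triangles there is a plane that separates them and meets both only in their common vertices.
-/

set_option autoImplicit false

namespace Pool.Agent.Lib.MP_4f1247_co.Chk

open Finset

/-! ### Vectors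

Only natural numbers are used: the coordinates of the points are natural numbers, and a vector
consists of three pairs `(p, q)` which stand for `p - q`. -/

/-- points -/
abbrev N3 : Type := ℕ × ℕ × ℕ

/-- vectors -/
abbrev Z3 : Type := (ℕ × ℕ) × (ℕ × ℕ) × (ℕ × ℕ)

/-- `(a - b) * (c - d) - (a' - b') * (c' - d')` -/
def comp (a b c d a' b' c' d' : ℕ) : ℕ × ℕ :=
  (fun p q : ℕ => (Nat.sub p q, Nat.sub q p))
    (Nat.add (Nat.add (Nat.mul a c) (Nat.mul b d)) (Nat.add (Nat.mul a' d') (Nat.mul b' c')))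
    (Nat.add (Nat.add (Nat.mul a d) (Nat.mul b c)) (Nat.add (Nat.mul a' c') (Nat.mul b' d')))

/-- the cross product of `b - a` and `d - c` -/
def crs (a b c d : N3) : Z3 :=
  (comp b.2.1 a.2.1 d.2.2 c.2.2 b.2.2 a.2.2 d.2.1 c.2.1,
    comp b.2.2 a.2.2 d.1 c.1 b.1 a.1 d.2.2 c.2.2,
    comp b.1 a.1 d.2.1 c.2.1 b.2.1 a.2.1 d.1 c.1)

/-- the positive part of the scalar product -/
def dp (n : Z3) (x : N3) : ℕ :=
  Nat.add (Nat.mul n.1.1 x.1) (Nat.add (Nat.mul n.2.1.1 x.2.1) (Nat.mul n.2.2.1 x.2.2))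

/-- the negative part of the scalar product -/
def dm (n : Z3) (x : N3) : ℕ :=
  Nat.add (Nat.mul n.1.2 x.1) (Nat.add (Nat.mul n.2.1.2 x.2.1) (Nat.mul n.2.2.2 x.2.2))

/-- `n` is smaller in `x` than in `y` -/
def less (n : Z3) (x y : N3) : Bool :=
  Nat.blt (Nat.add (dp n x) (dm n y)) (Nat.add (dp n y) (dm n x))

def zadd (n m : Z3) : Z3 :=
  ((Nat.add n.1.1 m.1.1, Nat.add n.1.2 m.1.2),
    (Nat.add n.2.1.1 m.2.1.1, Nat.add n.2.1.2 m.2.1.2),
    (Nat.add n.2.2.1 m.2.2.1, Nat.add n.2.2.2 m.2.2.2))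

def zneg (n : Z3) : Z3 := ((n.1.2, n.1.1), (n.2.1.2, n.2.1.1), (n.2.2.2, n.2.2.1))

/-! ### Triangles -/

/-- three numbers -/
abbrev T3 : Type := ℕ × ℕ × ℕ

def mem (i : ℕ) (t : T3) : Bool := Nat.beq i t.1 || (Nat.beq i t.2.1 || Nat.beq i t.2.2)

def pt (P : List N3) (i : ℕ) : N3 := P.getD i (0, 0, 0)

/-- `n` is smaller in `a₁`, `a₂`, `a₃` than in `b₁`, `b₂`, `b₃` -/
def tryN (a₁ a₂ a₃ b₁ b₂ b₃ : N3) (n : Z3) : Bool :=
  less n a₁ b₁ && (less n a₂ b₁ && (less n a₃ b₁ && (less n a₁ b₂ && (less n a₂ b₂ &&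
    (less n a₃ b₂ && (less n a₁ b₃ && (less n a₂ b₃ && less n a₃ b₃)))))))

/-- the same, in any direction -/
def tryZ (a₁ a₂ a₃ b₁ b₂ b₃ : N3) (n : Z3) : Bool :=
  tryN a₁ a₂ a₃ b₁ b₂ b₃ n || tryN b₁ b₂ b₃ a₁ a₂ a₃ n

/-- disjoint triangles: the normal vectors of the separating axis theorem -/
def sep0 (a₁ a₂ a₃ b₁ b₂ b₃ : N3) : Bool :=
  tryZ a₁ a₂ a₃ b₁ b₂ b₃ (crs a₁ a₂ a₁ a₃) || (tryZ a₁ a₂ a₃ b₁ b₂ b₃ (crs b₁ b₂ b₁ b₃) ||
  (tryZ a₁ a₂ a₃ b₁ b₂ b₃ (crs a₁ a₂ b₁ b₂) || (tryZ a₁ a₂ a₃ b₁ b₂ b₃ (crs a₁ a₂ b₁ b₃) ||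
  (tryZ a₁ a₂ a₃ b₁ b₂ b₃ (crs a₁ a₂ b₂ b₃) || (tryZ a₁ a₂ a₃ b₁ b₂ b₃ (crs a₁ a₃ b₁ b₂) ||
  (tryZ a₁ a₂ a₃ b₁ b₂ b₃ (crs a₁ a₃ b₁ b₃) || (tryZ a₁ a₂ a₃ b₁ b₂ b₃ (crs a₁ a₃ b₂ b₃) ||
  (tryZ a₁ a₂ a₃ b₁ b₂ b₃ (crs a₂ a₃ b₁ b₂) || (tryZ a₁ a₂ a₃ b₁ b₂ b₃ (crs a₂ a₃ b₁ b₃) ||
  tryZ a₁ a₂ a₃ b₁ b₂ b₃ (crs a₂ a₃ b₂ b₃))))))))))

/-- is `n` on `a₁`, `a₂` at most, and on `b₁`, `b₂` at least the value in `v`? -/
def okN (v a₁ a₂ b₁ b₂ : N3) (n : Z3) : Bool :=
  !less n v a₁ && (!less n v a₂ && (!less n b₁ v && !less n b₂ v))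

def addIf (v a₁ a₂ b₁ b₂ : N3) (n acc : Z3) : Z3 :=
  cond (okN v a₁ a₂ b₁ b₂ n) (zadd n acc)
    (cond (okN v a₁ a₂ b₁ b₂ (zneg n)) (zadd (zneg n) acc) acc)

/-- one common vertex `v`: the vector `n` separates -/
def good (v a₁ a₂ b₁ b₂ : N3) (n : Z3) : Bool :=
  less n a₁ v && (less n a₂ v && (less n v b₁ && less n v b₂))

/-- one common vertex `v` -/
def sep1 (v a₁ a₂ b₁ b₂ : N3) : Bool :=
  good v a₁ a₂ b₁ b₂ (addIf v a₁ a₂ b₁ b₂ (crs v a₁ v a₂)
    (addIf v a₁ a₂ b₁ b₂ (crs v b₁ v b₂) (addIf v a₁ a₂ b₁ b₂ (crs v a₁ v b₁)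
      (addIf v a₁ a₂ b₁ b₂ (crs v a₁ v b₂) (addIf v a₁ a₂ b₁ b₂ (crs v a₂ v b₁)
        (addIf v a₁ a₂ b₁ b₂ (crs v a₂ v b₂) ((0, 0), (0, 0), (0, 0))))))))

/-- a common edge `v w`: the four points are not coplanar -/
def sep2 (v w a b : N3) : Bool :=
  (fun n : Z3 => less n v b || less n b v) (crs v w v a)

/-- the vertices of a triangle -/
def lst (t : T3) : List ℕ := [t.1, t.2.1, t.2.2]

def chkPair (P : List N3) (t₁ t₂ : T3) : Bool :=
  match (lst t₁).filter (fun i => mem i t₂), (lst t₁).filter (fun i => !mem i t₂),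
    (lst t₂).filter (fun i => !mem i t₁) with
  | [], _, _ => sep0 (pt P t₁.1) (pt P t₁.2.1) (pt P t₁.2.2)
      (pt P t₂.1) (pt P t₂.2.1) (pt P t₂.2.2)
  | [v], [a₁, a₂], [b₁, b₂] => sep1 (pt P v) (pt P a₁) (pt P a₂) (pt P b₁) (pt P b₂)
  | [v, w], [a], [b] => sep2 (pt P v) (pt P w) (pt P a) (pt P b)
  | _, _, _ => false

/-! ### Lists -/

def allB {α : Type} (f : α → Bool) : List α → Bool
  | [] => true
  | a :: l => f a && allB f l

/-- all pairs `(a, b)` with `a` before `b` -/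
def pairsB {α : Type} (f : α → α → Bool) : List α → Bool
  | [] => true
  | a :: l => allB (f a) l && pairsB f l

/-- number of elements -/
def cnt {α : Type} (f : α → Bool) : List α → ℕ
  | [] => 0
  | a :: l => cond (f a) (Nat.succ (cnt f l)) (cnt f l)

def sorted (n : ℕ) (t : T3) : Bool :=
  Nat.blt t.1 t.2.1 && (Nat.blt t.2.1 t.2.2 && Nat.blt t.2.2 n)

/-- different triples -/
def neqB (t₁ t₂ : T3) : Bool :=
  !(Nat.beq t₁.1 t₂.1 && (Nat.beq t₁.2.1 t₂.2.1 && Nat.beq t₁.2.2 t₂.2.2))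

/-- is `{v, x, y}` a triangle? -/
def adj (T : List T3) (v x y : ℕ) : Bool :=
  (!Nat.beq x y && (!Nat.beq x v && !Nat.beq y v)) &&
    !allB (fun t => !(mem v t && (mem x t && mem y t))) T

/-- the list `x :: l` is a path in the link of `v` -/
def chainFrom (T : List T3) (v : ℕ) : ℕ → List ℕ → Bool
  | _, [] => true
  | x, y :: l => adj T v x y && chainFrom T v y l

def chain (T : List T3) (v : ℕ) : List ℕ → Bool
  | [] => true
  | x :: l => chainFrom T v x l

/-- the list `l` is a path in the link of `v` through all vertices -/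
def linkOK (n : ℕ) (T : List T3) (v : ℕ) (l : List ℕ) : Bool :=
  chain T v l && allB (fun a => Nat.beq a v || !allB (fun x => !Nat.beq x a) l) (List.range n)

/-- every pair of vertices is in exactly two triangles -/
def edgesOK (n : ℕ) (T : List T3) : Bool :=
  allB (fun i => allB (fun j => Nat.beq i j ||
    Nat.beq (cnt (fun t => mem i t && mem j t) T) 2) (List.range n)) (List.range n)

def linksOK (n : ℕ) (T : List T3) (L : List (List ℕ)) : Bool :=
  allB (fun v => linkOK n T v (L.getD v [])) (List.range n)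

/-- the combinatorial part -/
def chkC (n : ℕ) (T : List T3) (L : List (List ℕ)) : Bool :=
  allB (sorted n) T && (pairsB neqB T && (edgesOK n T && linksOK n T L))

/-- the geometric part -/
def chkG (P : List N3) (T : List T3) : Bool := pairsB (chkPair P) T

/-- the first triangle of the list against all others -/
def chkRow (P : List N3) : List T3 → Bool
  | [] => true
  | t :: l => allB (chkPair P t) l

/-- the rows `a`, ..., `a + m - 1` -/
def chunk (P : List N3) (T : List T3) (a m : ℕ) : Bool :=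
  allB (fun k => chkRow P (T.drop k)) (List.range' a m)

/-! ### Correctness: lists -/

theorem allB_iff {α : Type} {f : α → Bool} {l : List α} :
    allB f l = true ↔ ∀ a ∈ l, f a = true := by
  induction l with
  | nil => simp [allB]
  | cons a l ih => simp [allB, ih]

theorem allB_not {α : Type} {f : α → Bool} {l : List α} (h : (!allB (fun a => !f a) l) = true) :
    ∃ a ∈ l, f a = true := by
  by_contra hcon
  push Not at hcon
  have h1 : allB (fun a => !f a) l = true :=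
    allB_iff.2 fun a ha => by simpa using hcon a ha
  rw [h1] at h
  cases h

theorem pairsB_iff {α : Type} {f : α → α → Bool} {l : List α} :
    pairsB f l = true ↔ l.Pairwise fun a b => f a b = true := by
  induction l with
  | nil => simp [pairsB]
  | cons a l ih => simp [pairsB, ih, allB_iff]

theorem cnt_eq {α : Type} (f : α → Bool) (l : List α) : cnt f l = l.countP f := by
  induction l with
  | nil => rfl
  | cons a l ih =>
    rw [List.countP_cons, cnt, ih]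
    cases f a <;> simp

theorem mem_iff {i : ℕ} {t : T3} : mem i t = true ↔ i = t.1 ∨ i = t.2.1 ∨ i = t.2.2 := by
  simp [mem]

theorem mem_lst {i : ℕ} {t : T3} : i ∈ lst t ↔ mem i t = true := by
  rw [mem_iff]
  simp [lst]

theorem sorted_iff {n : ℕ} {t : T3} (h : sorted n t = true) :
    t.1 < t.2.1 ∧ t.2.1 < t.2.2 ∧ t.2.2 < n := by
  simpa [sorted] using h

theorem nodup_lst {n : ℕ} {t : T3} (h : sorted n t = true) : (lst t).Nodup := by
  have h1 := sorted_iff h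
  simp only [lst, List.nodup_cons, List.mem_cons, List.not_mem_nil, or_false, not_or,
    List.nodup_nil, and_true, not_false_eq_true]
  omega

end Pool.Agent.Lib.MP_4f1247_co.Chk
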