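import Pool.Agent.Lib.MP_4f1247_co.Check30

/-!
# A checker for neighborly polyhedra with integer coordinates: correctness
-/

set_option autoImplicit false

namespace Pool.Agent.Lib.MP_4f1247_co.Chk

open Finset

/-! ### Integer vectors -/

/-- integer vectors -/
abbrev V : Type := ℤ × ℤ × ℤ

def sub (u w : V) : V := (u.1 - w.1, u.2.1 - w.2.1, u.2.2 - w.2.2)

def add (u w : V) : V := (u.1 + w.1, u.2.1 + w.2.1, u.2.2 + w.2.2)

def neg (u : V) : V := (-u.1, -u.2.1, -u.2.2)

def dot (u w : V) : ℤ := u.1 * w.1 + u.2.1 * w.2.1 + u.2.2 * w.2.2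

def cross (u w : V) : V :=
  (u.2.1 * w.2.2 - u.2.2 * w.2.1, u.2.2 * w.1 - u.1 * w.2.2, u.1 * w.2.1 - u.2.1 * w.1)

/-- the value of an affine function -/
def ev (f : V × ℤ) (x : V) : ℤ := dot f.1 x + f.2

def det (a b c d : V) : ℤ := dot (cross (sub b a) (sub c a)) (sub d a)

/-- the point as an integer vector -/
def tv (x : N3) : V := ((x.1 : ℤ), (x.2.1 : ℤ), (x.2.2 : ℤ))

/-- the vector as an integer vector -/
def zv (n : Z3) : V :=
  ((n.1.1 : ℤ) - n.1.2, (n.2.1.1 : ℤ) - n.2.1.2, (n.2.2.1 : ℤ) - n.2.2.2)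

theorem dp_dm (n : Z3) (x : N3) : (dp n x : ℤ) - dm n x = dot (zv n) (tv x) := by
  simp only [dp, dm, dot, zv, tv, Nat.add_eq, Nat.mul_eq]
  push_cast
  ring

theorem less_iff {n : Z3} {x y : N3} :
    less n x y = true ↔ dot (zv n) (tv x) < dot (zv n) (tv y) := by
  have h1 := dp_dm n x
  have h2 := dp_dm n y
  unfold less
  rw [Nat.blt_eq, Nat.add_eq, Nat.add_eq]
  omega

theorem comp_eq (a b c d a' b' c' d' : ℕ) :
    ((comp a b c d a' b' c' d').1 : ℤ) - (comp a b c d a' b' c' d').2 =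
      ((a : ℤ) - b) * ((c : ℤ) - d) - ((a' : ℤ) - b') * ((c' : ℤ) - d') := by
  have h : ∀ p q : ℕ, ((Nat.sub p q : ℕ) : ℤ) - (Nat.sub q p : ℕ) = (p : ℤ) - q := by
    intro p q
    rw [Nat.sub_eq, Nat.sub_eq]
    omega
  unfold comp
  dsimp only
  rw [h]
  simp only [Nat.add_eq, Nat.mul_eq]
  push_cast
  ring

theorem zv_crs (a b c d : N3) :
    zv (crs a b c d) = cross (sub (tv b) (tv a)) (sub (tv d) (tv c)) := by
  simp only [zv, crs, comp_eq, cross, sub, tv]

theorem zv_add (n m : Z3) : zv (zadd n m) = add (zv n) (zv m) := by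
  simp only [zv, zadd, add, Nat.add_eq]
  push_cast
  refine Prod.ext ?_ (Prod.ext ?_ ?_)
  · show _ = _
    ring
  · show _ = _
    ring
  · show _ = _
    ring

/-! ### Geometry -/

/-- three-space -/
abbrev E : Type := EuclideanSpace ℝ (Fin 3)

/-- the real point -/
noncomputable def rp (v : V) : E := !₂[(v.1 : ℝ), (v.2.1 : ℝ), (v.2.2 : ℝ)]

/-- the affine function -/
noncomputable def fn (f : V × ℤ) (x : E) : ℝ :=
  (f.1.1 : ℝ) * x 0 + (f.1.2.1 : ℝ) * x 1 + (f.1.2.2 : ℝ) * x 2 + (f.2 : ℝ)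

theorem fn_rp (f : V × ℤ) (v : V) : fn f (rp v) = ((ev f v : ℤ) : ℝ) := by
  simp [fn, rp, ev, dot]

theorem fn_sum {ι : Type} (f : V × ℤ) (s : Finset ι) (w : ι → ℝ) (q : ι → E) :
    ∑ i ∈ s, w i * fn f (q i) =
      fn f (∑ i ∈ s, w i • q i) + (∑ i ∈ s, w i - 1) * (f.2 : ℝ) := by
  have h : ∀ k : Fin 3, (∑ i ∈ s, w i • q i) k = ∑ i ∈ s, w i * (q i) k := by
    intro k
    simp
  unfold fn
  rw [h, h, h, Finset.mul_sum, Finset.mul_sum, Finset.mul_sum, sub_mul, Finset.sum_mul]
  simp only [mul_add, Finset.sum_add_distrib]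
  have e1 : ∀ (c : ℝ) (g : ι → ℝ), ∑ i ∈ s, w i * (c * g i) = ∑ i ∈ s, c * (w i * g i) :=
    fun c g => Finset.sum_congr rfl fun i _ => by ring
  rw [e1, e1, e1]
  ring

/-- affine independence from functionals -/
theorem affInd {n : ℕ} (S : Finset (Fin n)) (p : Fin n → V)
    (h : ∀ i ∈ S, ∃ f : V × ℤ, ev f (p i) ≠ 0 ∧ ∀ j ∈ S, j ≠ i → ev f (p j) = 0) :
    AffineIndependent ℝ (fun x : {i // i ∈ S} => rp (p x.1)) := by
  rw [affineIndependent_iff]
  intro s w h0 h1 e he
  obtain ⟨f, hf, hf'⟩ := h e.1 e.2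
  have h2 := fn_sum f s w fun x => rp (p x.1)
  rw [h0, h1, Finset.sum_eq_single_of_mem e he] at h2
  · have h3 : fn f (0 : E) + (0 - 1) * (f.2 : ℝ) = 0 := by
      simp [fn]
    rw [h3, fn_rp] at h2
    rcases mul_eq_zero.1 h2 with h4 | h4
    · exact h4
    · exact absurd (by exact_mod_cast h4) hf
  · intro j hj hje
    rw [fn_rp, hf' j.1 j.2 fun h4 => hje (Subtype.ext h4)]
    simp

/-- one side -/
theorem side {n : ℕ} (S : Finset (Fin n)) (p : Fin n → V) (f : V × ℤ) (x : E)
    (hx : x ∈ convexHull ℝ ((fun i => rp (p i)) '' (S : Set (Fin n))))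
    (h0 : ∀ i ∈ S, ev f (p i) ≤ 0) :
    fn f x ≤ 0 ∧ (fn f x = 0 → x ∈ convexHull ℝ ((fun i => rp (p i)) ''
      ((S.filter fun i => ev f (p i) = 0 : Finset (Fin n)) : Set (Fin n)))) := by
  classical
  rw [← Finset.coe_image, Finset.mem_convexHull'] at hx
  obtain ⟨w, hw0, hw1, hw2⟩ := hx
  have h1 := fn_sum f (S.image fun i => rp (p i)) w fun y => y
  rw [hw1, hw2, sub_self, zero_mul, add_zero] at h1
  have h2 : ∀ y ∈ S.image fun i => rp (p i), w y * fn f y ≤ 0 := by
    intro y hy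
    obtain ⟨i, hi, rfl⟩ := Finset.mem_image.1 hy
    rw [fn_rp]
    exact mul_nonpos_of_nonneg_of_nonpos (hw0 _ hy) (by exact_mod_cast h0 i hi)
  refine ⟨h1 ▸ Finset.sum_nonpos h2, fun h3 => ?_⟩
  rw [h3] at h1
  have h4 : ∀ y ∈ S.image fun i => rp (p i), w y * fn f y = 0 :=
    (Finset.sum_eq_zero_iff_of_nonpos h2).1 h1
  rw [← Finset.coe_image, Finset.mem_convexHull']
  have h5 : ((S.filter fun i => ev f (p i) = 0).image fun i => rp (p i)) ⊆
      S.image fun i => rp (p i) := Finset.image_subset_image (Finset.filter_subset _ _)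
  have h6 : ∀ y ∈ S.image fun i => rp (p i),
      y ∉ ((S.filter fun i => ev f (p i) = 0).image fun i => rp (p i)) → w y = 0 := by
    intro y hy hy'
    rcases mul_eq_zero.1 (h4 y hy) with h7 | h7
    · exact h7
    · exfalso
      obtain ⟨i, hi, rfl⟩ := Finset.mem_image.1 hy
      rw [fn_rp] at h7
      exact hy' (Finset.mem_image.2 ⟨i, Finset.mem_filter.2 ⟨hi, by exact_mod_cast h7⟩, rfl⟩)
  refine ⟨w, fun y hy => hw0 y (h5 hy), ?_, ?_⟩
  · rw [Finset.sum_subset h5 h6, hw1]
  · rw [Finset.sum_subset h5 fun y hy hy' => by rw [h6 y hy hy', zero_smul], hw2]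

/-- the negative of a functional -/
theorem ev_neg (f : V × ℤ) (v : V) : ev (neg f.1, -f.2) v = -ev f v := by
  simp only [ev, neg, dot]
  ring

/-- two triangles -/
theorem hull {n : ℕ} (S₁ S₂ : Finset (Fin n)) (p : Fin n → V) (f : V × ℤ)
    (h1 : ∀ i ∈ S₁, (i ∈ S₂ → ev f (p i) = 0) ∧ (i ∉ S₂ → ev f (p i) < 0))
    (h2 : ∀ i ∈ S₂, (i ∈ S₁ → ev f (p i) = 0) ∧ (i ∉ S₁ → 0 < ev f (p i))) :
    convexHull ℝ ((fun i => rp (p i)) '' (S₁ : Set (Fin n))) ∩
      convexHull ℝ ((fun i => rp (p i)) '' (S₂ : Set (Fin n))) =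
    convexHull ℝ ((fun i => rp (p i)) '' ((S₁ ∩ S₂ : Finset (Fin n)) : Set (Fin n))) := by
  classical
  apply Set.Subset.antisymm
  · rintro x ⟨hx1, hx2⟩
    have a1 := side S₁ p f x hx1 fun i hi => by
      by_cases h : i ∈ S₂
      · exact ((h1 i hi).1 h).le
      · exact ((h1 i hi).2 h).le
    have a2 := side S₂ p (neg f.1, -f.2) x hx2 fun i hi => by
      rw [ev_neg]
      by_cases h : i ∈ S₁
      · rw [(h2 i hi).1 h, neg_zero]
      · have := (h2 i hi).2 h
        omega
    have a3 : fn (neg f.1, -f.2) x = -fn f x := by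
      simp only [fn, neg]
      push_cast
      ring
    have a4 : fn f x = 0 := le_antisymm a1.1 (by linarith [a2.1])
    refine convexHull_mono (Set.image_mono ?_) (a1.2 a4)
    intro i hi
    obtain ⟨hi1, hi2⟩ := Finset.mem_filter.1 (Finset.mem_coe.1 hi)
    refine Finset.mem_coe.2 (Finset.mem_inter.2 ⟨hi1, ?_⟩)
    by_contra hcon
    have := (h1 i hi1).2 hcon
    omega
  · refine Set.subset_inter (convexHull_mono (Set.image_mono ?_))
      (convexHull_mono (Set.image_mono ?_))
    · exact Finset.coe_subset.2 Finset.inter_subset_left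
    · exact Finset.coe_subset.2 Finset.inter_subset_right

/-! ### Triangles as sets -/

/-- the triangle as a set -/
def tri (n : ℕ) (t : T3) : Finset (Fin n) := univ.filter fun i => mem i.val t = true

theorem mem_tri {n : ℕ} {t : T3} {i : Fin n} : i ∈ tri n t ↔ mem i.val t = true := by
  simp [tri]

theorem card_tri_filter {n : ℕ} {t : T3} (h : sorted n t = true) (f : ℕ → Bool) :
    ((tri n t).filter fun i => f i.val = true).card = ((lst t).filter f).length := by
  classical
  have h1 := sorted_iff h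
  rw [← List.toFinset_card_of_nodup ((nodup_lst h).filter _)]
  refine Finset.card_bij (fun i _ => i.val) ?_ ?_ ?_
  · intro i hi
    rw [Finset.mem_filter, mem_tri] at hi
    rw [List.mem_toFinset, List.mem_filter, mem_lst]
    exact hi
  · intro i _ j _ hij
    exact Fin.ext hij
  · intro k hk
    rw [List.mem_toFinset, List.mem_filter, mem_lst] at hk
    have h2 : k < n := by
      have := mem_iff.1 hk.1
      omega
    exact ⟨⟨k, h2⟩, Finset.mem_filter.2 ⟨mem_tri.2 hk.1, hk.2⟩, rfl⟩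

theorem card_tri {n : ℕ} {t : T3} (h : sorted n t = true) : (tri n t).card = 3 := by
  have h1 := card_tri_filter h fun _ => true
  simpa [lst] using h1

theorem card_inter {n : ℕ} {t₁ t₂ : T3} (h : sorted n t₁ = true) :
    (tri n t₁ ∩ tri n t₂).card = ((lst t₁).filter fun i => mem i t₂).length := by
  rw [← card_tri_filter h]
  congr 1
  ext i
  rw [Finset.mem_inter, Finset.mem_filter, mem_tri, mem_tri]

theorem card_sdiff' {n : ℕ} {t₁ t₂ : T3} (h : sorted n t₁ = true) :
    (tri n t₁ \ tri n t₂).card = ((lst t₁).filter fun i => !mem i t₂).length := by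
  rw [← card_tri_filter h]
  congr 1
  ext i
  rw [Finset.mem_sdiff, Finset.mem_filter, mem_tri, mem_tri]
  simp

theorem tri_inj {n : ℕ} {t₁ t₂ : T3} (h₁ : sorted n t₁ = true) (h₂ : sorted n t₂ = true)
    (h : tri n t₁ = tri n t₂) : t₁ = t₂ := by
  have a1 := sorted_iff h₁
  have a2 := sorted_iff h₂
  have key : ∀ i < n, mem i t₁ = true ↔ mem i t₂ = true := by
    intro i hi
    have := Finset.ext_iff.1 h ⟨i, hi⟩
    rwa [mem_tri, mem_tri] at this
  have b1 := (key t₁.1 (by omega)).1 (mem_iff.2 (Or.inl rfl))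
  have b2 := (key t₁.2.1 (by omega)).1 (mem_iff.2 (Or.inr (Or.inl rfl)))
  have b3 := (key t₁.2.2 (by omega)).1 (mem_iff.2 (Or.inr (Or.inr rfl)))
  have c1 := (key t₂.1 (by omega)).2 (mem_iff.2 (Or.inl rfl))
  have c2 := (key t₂.2.1 (by omega)).2 (mem_iff.2 (Or.inr (Or.inl rfl)))
  have c3 := (key t₂.2.2 (by omega)).2 (mem_iff.2 (Or.inr (Or.inr rfl)))
  rw [mem_iff] at b1 b2 b3 c1 c2 c3
  have d1 : t₁.1 = t₂.1 := by omega
  have d2 : t₁.2.1 = t₂.2.1 := by omega
  have d3 : t₁.2.2 = t₂.2.2 := by omega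
  exact Prod.ext d1 (Prod.ext d2 d3)

/-! ### The separating plane -/

/-- there is a plane that separates the triangles and meets them only in the common vertices -/
def Sep (P : List N3) (t₁ t₂ : T3) : Prop := ∃ f : V × ℤ,
  (∀ i, mem i t₁ = true → (mem i t₂ = true → ev f (tv (pt P i)) = 0) ∧
    (¬ mem i t₂ = true → ev f (tv (pt P i)) < 0)) ∧
  ∀ i, mem i t₂ = true → (mem i t₁ = true → ev f (tv (pt P i)) = 0) ∧
    (¬ mem i t₁ = true → 0 < ev f (tv (pt P i)))

theorem hull_of_sep {n : ℕ} {P : List N3} {t₁ t₂ : T3} (h : Sep P t₁ t₂) :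
    convexHull ℝ ((fun i : Fin n => rp (tv (pt P i.val))) '' (tri n t₁ : Set (Fin n))) ∩
      convexHull ℝ ((fun i : Fin n => rp (tv (pt P i.val))) '' (tri n t₂ : Set (Fin n))) =
    convexHull ℝ ((fun i : Fin n => rp (tv (pt P i.val))) ''
      ((tri n t₁ ∩ tri n t₂ : Finset (Fin n)) : Set (Fin n))) := by
  obtain ⟨f, h1, h2⟩ := h
  refine hull (tri n t₁) (tri n t₂) (fun i => tv (pt P i.val)) f ?_ ?_
  · intro i hi
    rw [mem_tri] at hi ⊢
    exact h1 _ hi
  · intro i hi
    rw [mem_tri] at hi ⊢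
    exact h2 _ hi

theorem sep_lists {P : List N3} {t₁ t₂ : T3} {C A B : List ℕ}
    (h1 : (lst t₁).filter (fun i => mem i t₂) = C)
    (h2 : (lst t₁).filter (fun i => !mem i t₂) = A)
    (h3 : (lst t₂).filter (fun i => !mem i t₁) = B) (f : V × ℤ)
    (hC : ∀ i ∈ C, ev f (tv (pt P i)) = 0) (hA : ∀ i ∈ A, ev f (tv (pt P i)) < 0)
    (hB : ∀ i ∈ B, 0 < ev f (tv (pt P i))) : Sep P t₁ t₂ := by
  have hC' : ∀ i, mem i t₁ = true → mem i t₂ = true → ev f (tv (pt P i)) = 0 := by
    intro i a1 a2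
    apply hC
    rw [← h1, List.mem_filter, mem_lst]
    exact ⟨a1, a2⟩
  refine ⟨f, fun i hi => ⟨hC' i hi, fun h => hA i ?_⟩,
    fun i hi => ⟨fun h => hC' i h hi, fun h => hB i ?_⟩⟩
  · rw [← h2, List.mem_filter, mem_lst]
    exact ⟨hi, by simpa using h⟩
  · rw [← h3, List.mem_filter, mem_lst]
    exact ⟨hi, by simpa using h⟩

theorem tryN_sep {a₁ a₂ a₃ b₁ b₂ b₃ : N3} {n : Z3} (h : tryN a₁ a₂ a₃ b₁ b₂ b₃ n = true) :
    ∃ f : V × ℤ, (∀ x, x = a₁ ∨ x = a₂ ∨ x = a₃ → ev f (tv x) < 0) ∧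
      ∀ x, x = b₁ ∨ x = b₂ ∨ x = b₃ → 0 < ev f (tv x) := by
  unfold tryN at h
  simp only [Bool.and_eq_true, less_iff] at h
  obtain ⟨c1, c2, c3, c4, c5, c6, c7, c8, c9⟩ := h
  set A : N3 → ℤ := fun x => dot (zv n) (tv x) with hA
  have hev : ∀ (x : N3) (c : ℤ), ev (add (zv n) (zv n), c) (tv x) = 2 * A x + c := by
    intro x c
    simp only [hA, ev, add, dot]
    ring
  have e1 : ∀ x y, dot (zv n) (tv x) < dot (zv n) (tv y) ↔ A x < A y := fun x y => Iff.rfl
  rw [e1] at c1 c2 c3 c4 c5 c6 c7 c8 c9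
  refine ⟨(add (zv n) (zv n),
    -(max (A a₁) (max (A a₂) (A a₃)) + min (A b₁) (min (A b₂) (A b₃)))), ?_, ?_⟩
  · intro x hx
    rw [hev]
    rcases hx with rfl | rfl | rfl <;> omega
  · intro x hx
    rw [hev]
    rcases hx with rfl | rfl | rfl <;> omega

theorem tryZ_sep {a₁ a₂ a₃ b₁ b₂ b₃ : N3} {n : Z3} (h : tryZ a₁ a₂ a₃ b₁ b₂ b₃ n = true) :
    ∃ f : V × ℤ, (∀ x, x = a₁ ∨ x = a₂ ∨ x = a₃ → ev f (tv x) < 0) ∧
      ∀ x, x = b₁ ∨ x = b₂ ∨ x = b₃ → 0 < ev f (tv x) := by
  unfold tryZ at h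
  rw [Bool.or_eq_true] at h
  rcases h with h | h
  · exact tryN_sep h
  · obtain ⟨f, h1, h2⟩ := tryN_sep h
    refine ⟨(neg f.1, -f.2), fun x hx => ?_, fun x hx => ?_⟩
    · rw [ev_neg]
      have := h2 x hx
      omega
    · rw [ev_neg]
      have := h1 x hx
      omega

theorem sep0_sep {a₁ a₂ a₃ b₁ b₂ b₃ : N3} (h : sep0 a₁ a₂ a₃ b₁ b₂ b₃ = true) :
    ∃ f : V × ℤ, (∀ x, x = a₁ ∨ x = a₂ ∨ x = a₃ → ev f (tv x) < 0) ∧
      ∀ x, x = b₁ ∨ x = b₂ ∨ x = b₃ → 0 < ev f (tv x) := by
  unfold sep0 at h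
  simp only [Bool.or_eq_true] at h
  rcases h with h | h | h | h | h | h | h | h | h | h | h <;> exact tryZ_sep h

theorem good_sep {v a₁ a₂ b₁ b₂ : N3} {n : Z3} (h : good v a₁ a₂ b₁ b₂ n = true) :
    ∃ f : V × ℤ, ev f (tv v) = 0 ∧ ev f (tv a₁) < 0 ∧ ev f (tv a₂) < 0 ∧
      0 < ev f (tv b₁) ∧ 0 < ev f (tv b₂) := by
  unfold good at h
  simp only [Bool.and_eq_true, less_iff] at h
  obtain ⟨c1, c2, c3, c4⟩ := h
  refine ⟨(zv n, -dot (zv n) (tv v)), ?_, ?_, ?_, ?_, ?_⟩ <;> unfold ev <;> dsimp only <;> omega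

theorem det_of_sep2 {v w a b : N3} (h : sep2 v w a b = true) :
    det (tv v) (tv w) (tv a) (tv b) ≠ 0 := by
  unfold sep2 at h
  simp only [Bool.or_eq_true, less_iff, zv_crs] at h
  have h1 : det (tv v) (tv w) (tv a) (tv b) =
      dot (cross (sub (tv w) (tv v)) (sub (tv a) (tv v))) (tv b) -
        dot (cross (sub (tv w) (tv v)) (sub (tv a) (tv v))) (tv v) := by
    simp only [det, dot, sub]
    ring
  rw [h1]
  omega

theorem sep_of_det {v w a b : V} (h : det v w a b ≠ 0) :
    ∃ f : V × ℤ, ev f v = 0 ∧ ev f w = 0 ∧ ev f a < 0 ∧ 0 < ev f b := by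
  have key : ∀ s : ℤ, 0 < s * det v w a b →
      ∃ f : V × ℤ, ev f v = 0 ∧ ev f w = 0 ∧ ev f a < 0 ∧ 0 < ev f b := by
    intro s hs
    have e : ∀ x : V, ev ((s * (add (cross (sub w v) (sub a v)) (cross (sub w v) (sub b v))).1,
        s * (add (cross (sub w v) (sub a v)) (cross (sub w v) (sub b v))).2.1,
        s * (add (cross (sub w v) (sub a v)) (cross (sub w v) (sub b v))).2.2),
        -(s * dot (add (cross (sub w v) (sub a v)) (cross (sub w v) (sub b v))) v)) x =
        s * dot (add (cross (sub w v) (sub a v)) (cross (sub w v) (sub b v))) (sub x v) := by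
      intro x
      simp only [ev, dot, sub]
      ring
    refine ⟨_, (e v).trans ?_, (e w).trans ?_, (e a).trans_lt ?_, lt_of_lt_of_eq ?_ (e b).symm⟩
    · simp only [dot, sub, add, cross]
      ring
    · simp only [dot, sub, add, cross]
      ring
    · have h1 : s * dot (add (cross (sub w v) (sub a v)) (cross (sub w v) (sub b v)))
          (sub a v) = -(s * det v w a b) := by
        simp only [det, dot, sub, add, cross]
        ring
      omega
    · have h1 : s * dot (add (cross (sub w v) (sub a v)) (cross (sub w v) (sub b v)))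
          (sub b v) = s * det v w a b := by
        simp only [det, dot, sub, add, cross]
        ring
      omega
  rcases lt_or_gt_of_ne h with h1 | h1
  · exact key (-1) (by omega)
  · exact key 1 (by omega)

theorem sep_of_chk {P : List N3} {t₁ t₂ : T3} (h : chkPair P t₁ t₂ = true) : Sep P t₁ t₂ := by
  unfold chkPair at h
  split at h
  · rename_i h1
    obtain ⟨f, h2, h3⟩ := sep0_sep h
    refine sep_lists h1 rfl rfl f (fun i hi => absurd hi List.not_mem_nil) ?_ ?_
    · intro i hi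
      rw [List.mem_filter, mem_lst, mem_iff] at hi
      apply h2
      rcases hi.1 with h4 | h4 | h4 <;> rw [h4] <;> simp
    · intro i hi
      rw [List.mem_filter, mem_lst, mem_iff] at hi
      apply h3
      rcases hi.1 with h4 | h4 | h4 <;> rw [h4] <;> simp
  · rename_i h1 h2 h3
    obtain ⟨f, c1, c2, c3, c4, c5⟩ := good_sep h
    refine sep_lists h1 h2 h3 f ?_ ?_ ?_
    · intro i hi
      rw [List.mem_singleton] at hi
      rw [hi]
      exact c1
    · intro i hi
      simp only [List.mem_cons, List.not_mem_nil, or_false] at hi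
      rcases hi with hi | hi <;> rw [hi] <;> assumption
    · intro i hi
      simp only [List.mem_cons, List.not_mem_nil, or_false] at hi
      rcases hi with hi | hi <;> rw [hi] <;> assumption
  · rename_i h1 h2 h3
    obtain ⟨f, c1, c2, c3, c4⟩ := sep_of_det (det_of_sep2 h)
    refine sep_lists h1 h2 h3 f ?_ ?_ ?_
    · intro i hi
      simp only [List.mem_cons, List.not_mem_nil, or_false] at hi
      rcases hi with hi | hi <;> rw [hi] <;> assumption
    · intro i hi
      rw [List.mem_singleton] at hi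
      rw [hi]
      exact c3
    · intro i hi
      rw [List.mem_singleton] at hi
      rw [hi]
      exact c4
  · cases h

theorem det_of_chk {P : List N3} {t₁ t₂ : T3} (h : chkPair P t₁ t₂ = true)
    (h2 : ((lst t₁).filter fun i => mem i t₂).length = 2) :
    ∃ v w a b, ((lst t₁).filter fun i => mem i t₂) = [v, w] ∧
      ((lst t₁).filter fun i => !mem i t₂) = [a] ∧
      ((lst t₂).filter fun i => !mem i t₁) = [b] ∧
      det (tv (pt P v)) (tv (pt P w)) (tv (pt P a)) (tv (pt P b)) ≠ 0 := by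
  unfold chkPair at h
  split at h
  · rename_i h3
    rw [h3] at h2
    cases h2
  · rename_i h3 _ _
    rw [h3] at h2
    cases h2
  · rename_i v w a b h3 h4 h5
    exact ⟨v, w, a, b, h3, h4, h5, det_of_sep2 h⟩
  · cases h

/-! ### Determinants -/

/-- the plane through three points -/
def plane (a b c : V) : V × ℤ :=
  (cross (sub b a) (sub c a), -dot (cross (sub b a) (sub c a)) a)

theorem ev_plane (a b c d : V) : ev (plane a b c) d = det a b c d := by
  simp only [ev, plane, det, dot, cross, sub]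
  ring

theorem det_a (a b c : V) : det a b c a = 0 := by
  simp only [det, dot, cross, sub]
  ring

theorem det_b (a b c : V) : det a b c b = 0 := by
  simp only [det, dot, cross, sub]
  ring

theorem det_c (a b c : V) : det a b c c = 0 := by
  simp only [det, dot, cross, sub]
  ring

theorem det_1 (a b c d : V) : det b c d a = -det a b c d := by
  simp only [det, dot, cross, sub]
  ring

theorem det_2 (a b c d : V) : det a c d b = det a b c d := by
  simp only [det, dot, cross, sub]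
  ring

theorem det_3 (a b c d : V) : det a b d c = -det a b c d := by
  simp only [det, dot, cross, sub]
  ring

/-! ### The surface -/

/-- the set of triangles -/
def TF (n : ℕ) (T : List T3) : Finset (Finset (Fin n)) := (T.map (tri n)).toFinset

theorem mem_TF {n : ℕ} {T : List T3} {s : Finset (Fin n)} : s ∈ TF n T ↔ ∃ t ∈ T, tri n t = s := by
  simp [TF]

theorem card_TF {n : ℕ} {T : List T3} (hs : ∀ t ∈ T, sorted n t = true)
    (hn : T.Pairwise fun a b => neqB a b = true) (i j : Fin n) :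
    ((TF n T).filter fun s => i ∈ s ∧ j ∈ s).card =
      cnt (fun t => mem i.val t && mem j.val t) T := by
  have hnd : T.Nodup := hn.imp fun {a b} h1 h2 => by
    subst h2
    simp [neqB] at h1
  have h1 : (T.map (tri n)).Nodup := hnd.map_on fun x hx y hy h => tri_inj (hs x hx) (hs y hy) h
  have h2 : (TF n T).filter (fun s => i ∈ s ∧ j ∈ s) =
      ((T.map (tri n)).filter fun s => decide (i ∈ s ∧ j ∈ s)).toFinset := by
    ext s
    simp [TF]
  rw [h2, List.toFinset_card_of_nodup (h1.filter _), ← List.countP_eq_length_filter,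
    List.countP_map, cnt_eq]
  refine List.countP_congr fun t _ => ?_
  simp [mem_tri]

/-- the link of a vertex -/
def Lk (n : ℕ) (T : List T3) (v : Fin n) : SimpleGraph (Fin n) :=
  SimpleGraph.fromRel fun x y : Fin n => ({v, x, y} : Finset (Fin n)) ∈ TF n T ∧ x ≠ v ∧ y ≠ v

theorem adj_iff {n : ℕ} {T : List T3} (hs : ∀ t ∈ T, sorted n t = true) {v x y : ℕ}
    (h : adj T v x y = true) : ∃ (hv : v < n) (hx : x < n) (hy : y < n),
      (Lk n T ⟨v, hv⟩).Adj ⟨x, hx⟩ ⟨y, hy⟩ := by
  unfold adj at h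
  rw [Bool.and_eq_true] at h
  obtain ⟨h1, h2⟩ := h
  obtain ⟨t, ht, h3⟩ := allB_not h2
  simp only [Bool.and_eq_true, Bool.not_eq_true'] at h1 h3
  have h4 : x ≠ y ∧ x ≠ v ∧ y ≠ v := ⟨Nat.ne_of_beq_eq_false h1.1,
    Nat.ne_of_beq_eq_false h1.2.1, Nat.ne_of_beq_eq_false h1.2.2⟩
  obtain ⟨a1, a2, a3⟩ := h3
  have hb := sorted_iff (hs t ht)
  have b1 := mem_iff.1 a1
  have b2 := mem_iff.1 a2
  have b3 := mem_iff.1 a3
  refine ⟨by omega, by omega, by omega, ?_⟩
  rw [Lk, SimpleGraph.fromRel_adj]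
  refine ⟨fun h5 => h4.1 (congrArg Fin.val h5), Or.inl ⟨mem_TF.2 ⟨t, ht, ?_⟩,
    fun h5 => h4.2.1 (congrArg Fin.val h5), fun h5 => h4.2.2 (congrArg Fin.val h5)⟩⟩
  symm
  apply Finset.eq_of_subset_of_card_le
  · intro i hi
    simp only [Finset.mem_insert, Finset.mem_singleton] at hi
    rw [mem_tri]
    rcases hi with rfl | rfl | rfl
    · exact a1
    · exact a2
    · exact a3
  · rw [card_tri (hs t ht), Finset.card_insert_of_notMem, Finset.card_pair]
    · exact fun h5 => h4.1 (congrArg Fin.val h5)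
    · simp only [Finset.mem_insert, Finset.mem_singleton, not_or]
      exact ⟨fun h5 => h4.2.1 (congrArg Fin.val h5).symm,
        fun h5 => h4.2.2 (congrArg Fin.val h5).symm⟩

theorem reach {n : ℕ} {T : List T3} (hs : ∀ t ∈ T, sorted n t = true) (v : Fin n) :
    ∀ (l : List ℕ) (x : ℕ), chainFrom T v.val x l = true → ∀ a ∈ x :: l,
      ∀ (hx : x < n) (ha : a < n), (Lk n T v).Reachable ⟨x, hx⟩ ⟨a, ha⟩ := by
  intro l
  induction l with
  | nil =>
    intro x _ a ha hx han
    obtain rfl : a = x := by simpa using ha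
    exact SimpleGraph.Reachable.refl _
  | cons y l ih =>
    intro x hc a ha hx han
    rw [chainFrom, Bool.and_eq_true] at hc
    rcases List.mem_cons.1 ha with rfl | ha
    · exact SimpleGraph.Reachable.refl _
    · obtain ⟨hv', hx', hy, h1⟩ := adj_iff hs hc.1
      exact h1.reachable.trans (ih y hc.2 a ha hy han)

theorem link {n : ℕ} {T : List T3} (hs : ∀ t ∈ T, sorted n t = true) (v : Fin n) (l : List ℕ)
    (h : linkOK n T v.val l = true) (a b : Fin n) (ha : a ≠ v) (hb : b ≠ v) :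
    (Lk n T v).Reachable a b := by
  unfold linkOK at h
  rw [Bool.and_eq_true, allB_iff] at h
  obtain ⟨hc, h1⟩ := h
  have key : ∀ c : Fin n, c ≠ v → c.val ∈ l := by
    intro c hcv
    have h2 := h1 c.val (List.mem_range.2 c.2)
    rw [Bool.or_eq_true] at h2
    rcases h2 with h2 | h2
    · exact absurd (Fin.ext (Nat.eq_of_beq_eq_true h2)) hcv
    · obtain ⟨x, hx, h3⟩ := allB_not h2
      rw [← Nat.eq_of_beq_eq_true h3]
      exact hx
  cases l with
  | nil => exact absurd (key a ha) (by simp)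
  | cons x l =>
    have hx : x < n := by
      cases l with
      | nil =>
        have := key a ha
        rw [List.mem_singleton] at this
        omega
      | cons y l =>
        rw [chain, chainFrom, Bool.and_eq_true] at hc
        obtain ⟨_, hx, _⟩ := adj_iff hs hc.1
        exact hx
    have e1 := reach hs v l x hc a.val (key a ha) hx a.2
    have e2 := reach hs v l x hc b.val (key b hb) hx b.2
    exact e1.symm.trans e2

/-- two adjacent triangles are not coplanar -/
theorem indep {n : ℕ} {P : List N3} {t₁ t₂ : T3} (h₁ : sorted n t₁ = true)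
    (h : chkPair P t₁ t₂ = true) (hc : (tri n t₁ ∩ tri n t₂).card = 2) :
    AffineIndependent ℝ
      (fun x : {i // i ∈ tri n t₁ ∪ tri n t₂} => rp (tv (pt P x.1.val))) := by
  rw [card_inter h₁] at hc
  obtain ⟨v, w, a, b, hvw, ha, hb, hD⟩ := det_of_chk h hc
  have hU : ∀ i : Fin n, i ∈ tri n t₁ ∪ tri n t₂ →
      i.val = v ∨ i.val = w ∨ i.val = a ∨ i.val = b := by
    intro i hi
    by_cases h1 : mem i.val t₁ = true
    · by_cases h2 : mem i.val t₂ = true
      · have h4 : i.val ∈ (lst t₁).filter fun i => mem i t₂ := by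
          rw [List.mem_filter, mem_lst]
          exact ⟨h1, h2⟩
        rw [hvw] at h4
        simp only [List.mem_cons, List.not_mem_nil, or_false] at h4
        rcases h4 with h4 | h4
        · exact Or.inl h4
        · exact Or.inr (Or.inl h4)
      · have h4 : i.val ∈ (lst t₁).filter fun i => !mem i t₂ := by
          rw [List.mem_filter, mem_lst]
          exact ⟨h1, by simpa using h2⟩
        rw [ha, List.mem_singleton] at h4
        exact Or.inr (Or.inr (Or.inl h4))
    · have h4 : i.val ∈ (lst t₂).filter fun i => !mem i t₁ := by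
        rw [List.mem_filter, mem_lst]
        rw [Finset.mem_union, mem_tri, mem_tri] at hi
        exact ⟨hi.resolve_left h1, by simpa using h1⟩
      rw [hb, List.mem_singleton] at h4
      exact Or.inr (Or.inr (Or.inr h4))
  refine affInd (tri n t₁ ∪ tri n t₂) (fun i => tv (pt P i.val)) ?_
  intro i hi
  rcases hU i hi with h1 | h1 | h1 | h1
  · refine ⟨plane (tv (pt P w)) (tv (pt P a)) (tv (pt P b)), ?_, ?_⟩
    · rw [ev_plane, h1, det_1]
      exact neg_ne_zero.2 hD
    · intro j hj hji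
      rw [ev_plane]
      rcases hU j hj with h2 | h2 | h2 | h2
      · exact absurd (Fin.ext (h2.trans h1.symm)) hji
      · rw [h2, det_a]
      · rw [h2, det_b]
      · rw [h2, det_c]
  · refine ⟨plane (tv (pt P v)) (tv (pt P a)) (tv (pt P b)), ?_, ?_⟩
    · rw [ev_plane, h1, det_2]
      exact hD
    · intro j hj hji
      rw [ev_plane]
      rcases hU j hj with h2 | h2 | h2 | h2
      · rw [h2, det_a]
      · exact absurd (Fin.ext (h2.trans h1.symm)) hji
      · rw [h2, det_b]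
      · rw [h2, det_c]
  · refine ⟨plane (tv (pt P v)) (tv (pt P w)) (tv (pt P b)), ?_, ?_⟩
    · rw [ev_plane, h1, det_3]
      exact neg_ne_zero.2 hD
    · intro j hj hji
      rw [ev_plane]
      rcases hU j hj with h2 | h2 | h2 | h2
      · rw [h2, det_a]
      · rw [h2, det_b]
      · exact absurd (Fin.ext (h2.trans h1.symm)) hji
      · rw [h2, det_c]
  · refine ⟨plane (tv (pt P v)) (tv (pt P w)) (tv (pt P a)), ?_, ?_⟩
    · rw [ev_plane, h1]
      exact hD
    · intro j hj hji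
      rw [ev_plane]
      rcases hU j hj with h2 | h2 | h2 | h2
      · rw [h2, det_a]
      · rw [h2, det_b]
      · rw [h2, det_c]
      · exact absurd (Fin.ext (h2.trans h1.symm)) hji

/-- the rows one by one -/
theorem chkG_of_rows {P : List N3} {T : List T3}
    (h : ∀ k < T.length, chkRow P (T.drop k) = true) : chkG P T = true := by
  unfold chkG
  induction T with
  | nil => rfl
  | cons t l ih =>
    rw [pairsB, Bool.and_eq_true]
    refine ⟨h 0 (by simp), ih fun k hk => ?_⟩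
    have := h (k + 1) (by simpa using hk)
    simpa using this

/-- the rows in groups of `s` -/
theorem chkG_of_chunks {P : List N3} {T : List T3} (s N : ℕ) (hT : T.length ≤ s * N)
    (h : ∀ j < N, chunk P T (s * j) s = true) : chkG P T = true := by
  refine chkG_of_rows fun k hk => ?_
  have hs : 0 < s := by
    rcases Nat.eq_zero_or_pos s with h0 | h0
    · rw [h0, Nat.zero_mul] at hT
      omega
    · exact h0
  have h1 : k / s < N := (Nat.div_lt_iff_lt_mul hs).2 (by rw [Nat.mul_comm]; omega)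
  refine allB_iff.1 (h (k / s) h1) k ?_
  rw [List.mem_range'_1]
  have h2 := Nat.div_add_mod k s
  have h3 := Nat.mod_lt k hs
  omega

/-- the checker is correct -/
theorem surface (n : ℕ) (P : List N3) (T : List T3) (L : List (List ℕ))
    (hC : chkC n T L = true) (hG : chkG P T = true) :
    ∃ (p : Fin n → EuclideanSpace ℝ (Fin 3)) (T : Finset (Finset (Fin n))),
      (∀ t ∈ T, t.card = 3) ∧
      (∀ i j : Fin n, i ≠ j → (T.filter (fun t => i ∈ t ∧ j ∈ t)).card = 2) ∧
      (∀ v a b : Fin n, a ≠ v → b ≠ v →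
        (SimpleGraph.fromRel (fun x y : Fin n =>
          ({v, x, y} : Finset (Fin n)) ∈ T ∧ x ≠ v ∧ y ≠ v)).Reachable a b) ∧
      (∀ t ∈ T, AffineIndependent ℝ (fun x : {i // i ∈ t} => p x.1)) ∧
      (∀ t₁ ∈ T, ∀ t₂ ∈ T,
        convexHull ℝ (p '' (t₁ : Set (Fin n))) ∩ convexHull ℝ (p '' (t₂ : Set (Fin n)))
          = convexHull ℝ (p '' ((t₁ ∩ t₂ : Finset (Fin n)) : Set (Fin n)))) ∧
      (∀ t₁ ∈ T, ∀ t₂ ∈ T, (t₁ ∩ t₂).card = 2 →
        AffineIndependent ℝ (fun x : {i // i ∈ t₁ ∪ t₂} => p x.1)) := by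
  unfold chkC at hC
  simp only [Bool.and_eq_true] at hC
  obtain ⟨hs, hn, he, hl⟩ := hC
  rw [allB_iff] at hs
  rw [pairsB_iff] at hn
  have hG' : T.Pairwise fun a b => chkPair P a b = true ∨ chkPair P b a = true :=
    (pairsB_iff.1 hG).imp fun h => Or.inl h
  have hsym : Std.Symm fun a b : T3 => chkPair P a b = true ∨ chkPair P b a = true :=
    ⟨fun a b h => h.symm⟩
  have hpair : ∀ a ∈ T, ∀ b ∈ T, a ≠ b → chkPair P a b = true ∨ chkPair P b a = true :=
    fun a ha b hb hab => hG'.forall ha hb hab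
  have hcard : ∀ t ∈ TF n T, t.card = 3 := by
    intro t ht
    obtain ⟨u, hu, rfl⟩ := mem_TF.1 ht
    exact card_tri (hs u hu)
  have htwo : ∀ i j : Fin n, i ≠ j → ((TF n T).filter (fun t => i ∈ t ∧ j ∈ t)).card = 2 := by
    intro i j hij
    rw [card_TF hs hn]
    unfold edgesOK at he
    have h1 := allB_iff.1 (allB_iff.1 he i.val (List.mem_range.2 i.2)) j.val
      (List.mem_range.2 j.2)
    rw [Bool.or_eq_true] at h1
    rcases h1 with h1 | h1
    · exact absurd (Fin.ext (Nat.eq_of_beq_eq_true h1)) hij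
    · exact Nat.eq_of_beq_eq_true h1
  have hadj : ∀ t₁ ∈ TF n T, ∀ t₂ ∈ TF n T, (t₁ ∩ t₂).card = 2 →
      AffineIndependent ℝ (fun x : {i // i ∈ t₁ ∪ t₂} => rp (tv (pt P x.1.val))) := by
    intro t₁ h₁ t₂ h₂ hc
    obtain ⟨u₁, hu₁, rfl⟩ := mem_TF.1 h₁
    obtain ⟨u₂, hu₂, rfl⟩ := mem_TF.1 h₂
    have hne : u₁ ≠ u₂ := by
      rintro rfl
      rw [Finset.inter_self, card_tri (hs _ hu₁)] at hc
      omega
    rcases hpair u₁ hu₁ u₂ hu₂ hne with h | h
    · exact indep (hs _ hu₁) h hc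
    · rw [Finset.inter_comm] at hc
      have h1 := indep (hs _ hu₂) h hc
      rw [Finset.union_comm]
      exact h1
  refine ⟨fun i => rp (tv (pt P i.val)), TF n T, hcard, htwo, ?_, ?_, ?_, hadj⟩
  · intro v a b ha hb
    exact link hs v _ (allB_iff.1 hl v.val (List.mem_range.2 v.2)) a b ha hb
  · intro t ht
    obtain ⟨a, b, c, hab, hac, hbc, habc⟩ := Finset.card_eq_three.1 (hcard t ht)
    have h1 := htwo a b hab
    have ht' : t ∈ (TF n T).filter (fun t => a ∈ t ∧ b ∈ t) :=
      Finset.mem_filter.2 ⟨ht, by rw [habc]; simp, by rw [habc]; simp⟩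
    have h0 : 1 < ((TF n T).filter (fun t => a ∈ t ∧ b ∈ t)).card := by
      rw [h1]
      norm_num
    obtain ⟨t', ht1, hne⟩ := Finset.exists_mem_ne h0 t
    obtain ⟨ht2, hat, hbt⟩ := Finset.mem_filter.1 ht1
    have h2 : (t ∩ t').card = 2 := by
      apply le_antisymm
      · by_contra hcon
        push Not at hcon
        have h3 : t ∩ t' = t := Finset.eq_of_subset_of_card_le Finset.inter_subset_left (by
          rw [hcard t ht]
          omega)
        have h4 : t ∩ t' = t' := Finset.eq_of_subset_of_card_le Finset.inter_subset_right (by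
          rw [hcard t' ht2]
          omega)
        exact hne (h4.symm.trans h3)
      · rw [← Finset.card_pair hab]
        apply Finset.card_le_card
        intro x hx
        simp only [Finset.mem_insert, Finset.mem_singleton] at hx
        rw [Finset.mem_inter]
        rcases hx with rfl | rfl
        · exact ⟨(Finset.mem_filter.1 ht').2.1, hat⟩
        · exact ⟨(Finset.mem_filter.1 ht').2.2, hbt⟩
    have h5 := hadj t ht t' ht2 h2
    exact h5.comp_embedding ⟨fun x : {i // i ∈ t} =>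
      (⟨x.1, Finset.mem_union_left _ x.2⟩ : {i // i ∈ t ∪ t'}), fun x y hxy => by
        apply Subtype.ext
        exact congrArg (fun z : {i // i ∈ t ∪ t'} => z.1) hxy⟩
  · intro t₁ h₁ t₂ h₂
    obtain ⟨u₁, hu₁, rfl⟩ := mem_TF.1 h₁
    obtain ⟨u₂, hu₂, rfl⟩ := mem_TF.1 h₂
    by_cases hne : u₁ = u₂
    · subst hne
      rw [Set.inter_self, Finset.inter_self]
    · rcases hpair u₁ hu₁ u₂ hu₂ hne with h | h
      · exact hull_of_sep (sep_of_chk h)
      · rw [Set.inter_comm, Finset.inter_comm]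
        exact hull_of_sep (sep_of_chk h)

end Pool.Agent.Lib.MP_4f1247_co.Chk
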