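import Pool.Agent.Lib.MP_4f1247_co.Stmts

set_option autoImplicit false

/-!
# Elementary properties of neighborly surfaces
-/

namespace Pool.Agent.Lib.MP_4f1247_co

open Finset
open scoped RealInnerProductSpace

namespace EleAux

variable {n : ℕ} {q : Fin n → E3} {T : Finset (Finset (Fin n))}

lemma ne_of_card {x a w : Fin n} (h : ({x, a, w} : Finset (Fin n)).card = 3) :
    x ≠ a ∧ x ≠ w ∧ a ≠ w := by
  refine ⟨?_, ?_, ?_⟩
  · rintro rfl
    rw [Finset.insert_eq_of_mem (Finset.mem_insert_self _ _)] at h
    have := Finset.card_le_two (a := x) (b := w)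
    omega
  · rintro rfl
    rw [Finset.insert_eq_of_mem (by simp)] at h
    have := Finset.card_le_two (a := a) (b := x)
    omega
  · rintro rfl
    rw [Finset.pair_eq_singleton] at h
    have := Finset.card_le_two (a := x) (b := a)
    omega

/-- The edges of a face from a vertex are linearly independent. -/
lemma lin (hS : Srf q T) {x a w : Fin n} (ht : ({x, a, w} : Finset (Fin n)) ∈ T) {α β : ℝ}
    (h : α • (q a - q x) + β • (q w - q x) = 0) : α = 0 ∧ β = 0 := by
  obtain ⟨h1, h2, h3⟩ := ne_of_card (hS.card _ ht)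
  have hi := hS.ind _ ht
  let f : Fin 3 ↪ {i // i ∈ ({x, a, w} : Finset (Fin n))} :=
    ⟨![⟨x, by simp⟩, ⟨a, by simp⟩, ⟨w, by simp⟩], by
      intro i j hij
      fin_cases i <;> fin_cases j <;>
        simp_all [Subtype.ext_iff, Matrix.cons_val_zero, Matrix.cons_val_one]⟩
  have h4 := hi.comp_embedding f
  rw [affineIndependent_iff] at h4
  have h5 := h4 Finset.univ ![-α - β, α, β] (by
    rw [Fin.sum_univ_three]
    simp
    ring) (by
    rw [Fin.sum_univ_three]
    have e : (-α - β) • q x + α • q a + β • q w = α • (q a - q x) + β • (q w - q x) := by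
      simp only [smul_sub, sub_smul, neg_smul]
      abel
    rw [h] at e
    exact e)
  exact ⟨by simpa using h5 1 (Finset.mem_univ _), by simpa using h5 2 (Finset.mem_univ _)⟩

/-- The double cross product. -/
lemma cr_cr_left (u v w : E3) : cr (cr u v) w = ⟪u, w⟫ • v - ⟪v, w⟫ • u := by
  apply ext3 <;> simp [inner_coord] <;> ring

/-- Convex combinations of the vertices of a face are in the face. -/
lemma mem_hull {x a w : Fin n} {α β γ : ℝ} (hα : 0 ≤ α) (hβ : 0 ≤ β) (hγ : 0 ≤ γ)
    (h : α + β + γ = 1) :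
    α • q x + β • q a + γ • q w ∈
      convexHull ℝ (q '' (({x, a, w} : Finset (Fin n)) : Set (Fin n))) := by
  have hc := convex_convexHull ℝ (q '' (({x, a, w} : Finset (Fin n)) : Set (Fin n)))
  have hm : ∀ i ∈ ({x, a, w} : Finset (Fin n)), q i ∈
      convexHull ℝ (q '' (({x, a, w} : Finset (Fin n)) : Set (Fin n))) := fun i hi =>
    subset_convexHull ℝ _ ⟨i, hi, rfl⟩
  have h1 := hc.sum_mem (t := (Finset.univ : Finset (Fin 3))) (w := ![α, β, γ])
    (z := ![q x, q a, q w]) (by
      intro i _
      fin_cases i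
      · exact hα
      · exact hβ
      · exact hγ) (by
      rw [Fin.sum_univ_three]
      exact h) (by
      intro i _
      fin_cases i
      · exact hm x (by simp)
      · exact hm a (by simp)
      · exact hm w (by simp))
  rw [Fin.sum_univ_three] at h1
  exact h1

end EleAux

open EleAux

theorem stCr : StCr := by
  intro n q T hS x a w ht h
  have h1 := @lin n q T hS x a w ht
  have e := cr_cr_left (q a - q x) (q w - q x) (q a - q x)
  rw [h] at e
  have e0 : cr (0 : E3) (q a - q x) = 0 := by
    apply ext3 <;> simp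
  rw [e0] at e
  have h2 := h1 (α := -⟪q w - q x, q a - q x⟫) (β := ⟪q a - q x, q a - q x⟫) (by
    rw [neg_smul, neg_add_eq_sub]
    exact e.symm)
  have h3 : q a - q x = 0 := inner_self_eq_zero.1 h2.2
  have h4 := h1 (α := 1) (β := 0) (by rw [h3]; simp)
  exact one_ne_zero h4.1

theorem stPie : StPie := by
  intro n q T hS i j k a b ht hab ha hb α β γ l hα hβ hγ hs hl0 hl1 h
  have h2 := hS.two a b hab
  obtain ⟨t', ht'⟩ : (T.filter (fun t => a ∈ t ∧ b ∈ t)).Nonempty := by
    rw [← Finset.card_pos, h2]
    norm_num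
  obtain ⟨htT, hat, hbt⟩ : t' ∈ T ∧ a ∈ t' ∧ b ∈ t' := by simpa using ht'
  obtain ⟨c, hc⟩ : ∃ c, t' = {a, b, c} := by
    have h3 : ((t'.erase a).erase b).card = 1 := by
      rw [Finset.card_erase_of_mem (Finset.mem_erase.2 ⟨hab.symm, hbt⟩),
        Finset.card_erase_of_mem hat, hS.card t' htT]
    obtain ⟨c, hc⟩ := Finset.card_eq_one.1 h3
    refine ⟨c, ?_⟩
    rw [← hc, Finset.insert_erase (Finset.mem_erase.2 ⟨hab.symm, hbt⟩), Finset.insert_erase hat]
  subst hc
  have m1 := mem_hull (q := q) (x := i) (a := j) (w := k) hα hβ hγ hs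
  have m2 := mem_hull (q := q) (x := a) (a := b) (w := c) (α := 1 - l) (β := l) (γ := 0)
    (by linarith) hl0 le_rfl (by ring)
  rw [zero_smul, add_zero, ← h] at m2
  have m3 := (hS.emb _ ht _ htT).le ⟨m1, m2⟩
  have hsub : q '' ((({i, j, k} : Finset (Fin n)) ∩ {a, b, c} : Finset (Fin n)) : Set (Fin n)) ⊆
      {q c} := by
    rintro _ ⟨e, he, rfl⟩
    have he' := Finset.mem_inter.1 (Finset.mem_coe.1 he)
    have he2 : e = a ∨ e = b ∨ e = c := by simpa using he'.2
    rcases he2 with rfl | rfl | rfl
    · exact absurd he'.1 ha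
    · exact absurd he'.1 hb
    · rfl
  have m4 := convexHull_mono hsub m3
  rw [convexHull_singleton, Set.mem_singleton_iff] at m4
  have h5 := lin hS htT (α := -l) (β := 1) (by
    rw [← m4, h]
    simp only [smul_sub, sub_smul, neg_smul, one_smul]
    abel)
  exact one_ne_zero h5.2

theorem stCon : StCon := by
  intro n q T hS x a b c d h1 h2 hne α β γ δ hα hβ hγ hδ h
  set s : ℝ := (α + β + γ + δ)⁻¹ with hs
  have hpos : 0 < α + β + γ + δ := by linarith
  have hs0 : 0 < s := inv_pos.2 hpos
  have hs1 : s * (α + β + γ + δ) = 1 := inv_mul_cancel₀ hpos.ne'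
  have m1 := mem_hull (q := q) (x := x) (a := a) (w := b) (α := 1 - s * (α + β)) (β := s * α)
    (γ := s * β) (by nlinarith [mul_pos hs0 hγ, mul_pos hs0 hδ]) (by positivity) (by positivity)
    (by ring)
  have m2 := mem_hull (q := q) (x := x) (a := c) (w := d) (α := 1 - s * (γ + δ)) (β := s * γ)
    (γ := s * δ) (by nlinarith [mul_pos hs0 hα, mul_pos hs0 hβ]) (by positivity) (by positivity)
    (by ring)
  have e1 : (1 - s * (α + β)) • q x + (s * α) • q a + (s * β) • q b =
      q x + s • (α • (q a - q x) + β • (q b - q x)) := by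
    module
  have e2 : (1 - s * (γ + δ)) • q x + (s * γ) • q c + (s * δ) • q d =
      q x + s • (γ • (q c - q x) + δ • (q d - q x)) := by
    module
  rw [e1] at m1
  rw [e2, ← h] at m2
  have m3 := (hS.emb _ h1 _ h2).le ⟨m1, m2⟩
  have key : ∀ e : Fin n, (({x, a, b} : Finset (Fin n)) ∩ {x, c, d} : Finset (Fin n)) ⊆ {x, e} →
      ∃ l : ℝ, s • (α • (q a - q x) + β • (q b - q x)) = l • (q e - q x) := by
    intro e he
    have hsub : q '' ((({x, a, b} : Finset (Fin n)) ∩ {x, c, d} : Finset (Fin n)) : Set (Fin n)) ⊆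
        {q x, q e} := by
      rintro _ ⟨z, hz, rfl⟩
      have hz' : z = x ∨ z = e := by simpa using he (Finset.mem_coe.1 hz)
      rcases hz' with rfl | rfl
      · exact Set.mem_insert _ _
      · exact Set.mem_insert_of_mem _ rfl
    have m4 := convexHull_mono hsub m3
    rw [convexHull_pair] at m4
    obtain ⟨u, v, hu, hv, huv, hy⟩ := m4
    refine ⟨v, ?_⟩
    have e3 : u • q x + v • q e = q x + v • (q e - q x) := by
      have : u = 1 - v := by linarith
      rw [this]
      module
    rw [e3] at hy
    exact (add_left_cancel hy).symm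
  have hor : a ∉ ({x, c, d} : Finset (Fin n)) ∨ b ∉ ({x, c, d} : Finset (Fin n)) := by
    by_contra hcon
    push Not at hcon
    apply hne
    refine Finset.eq_of_subset_of_card_le ?_ (by rw [hS.card _ h1, hS.card _ h2])
    intro z hz
    have hz' : z = x ∨ z = a ∨ z = b := by simpa using hz
    rcases hz' with rfl | rfl | rfl
    · simp
    · exact hcon.1
    · exact hcon.2
  rcases hor with ha | hb
  · obtain ⟨l, hl⟩ := key b (by
      intro z hz
      have hz1 := Finset.mem_inter.1 hz
      have hz' : z = x ∨ z = a ∨ z = b := by simpa using hz1.1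
      rcases hz' with rfl | rfl | rfl
      · simp
      · exact absurd hz1.2 ha
      · simp)
    have h5 := lin hS h1 (α := s * α) (β := s * β - l) (by
      have e4 : (s * α) • (q a - q x) + (s * β - l) • (q b - q x) =
          s • (α • (q a - q x) + β • (q b - q x)) - l • (q b - q x) := by module
      rw [e4, hl, sub_self])
    exact (mul_pos hs0 hα).ne' h5.1
  · obtain ⟨l, hl⟩ := key a (by
      intro z hz
      have hz1 := Finset.mem_inter.1 hz
      have hz' : z = x ∨ z = a ∨ z = b := by simpa using hz1.1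
      rcases hz' with rfl | rfl | rfl
      · simp
      · simp
      · exact absurd hz1.2 hb)
    have h5 := lin hS h1 (α := s * α - l) (β := s * β) (by
      have e4 : (s * α - l) • (q a - q x) + (s * β) • (q b - q x) =
          s • (α • (q a - q x) + β • (q b - q x)) - l • (q a - q x) := by module
      rw [e4, hl, sub_self])
    exact (mul_pos hs0 hβ).ne' h5.2

theorem stNum : StNum := by
  intro n q T hS
  have hdeg : ∀ i : Fin n, (T.filter (fun t => i ∈ t)).card = n - 1 := by
    intro i
    have h1 : ∑ j ∈ Finset.univ.erase i, (T.filter (fun t => i ∈ t ∧ j ∈ t)).card = (n - 1) * 2 := by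
      rw [Finset.sum_congr rfl (fun j hj => hS.two i j (Finset.ne_of_mem_erase hj).symm)]
      rw [Finset.sum_const, Finset.card_erase_of_mem (Finset.mem_univ _), Finset.card_univ,
        Fintype.card_fin, smul_eq_mul]
    have h2 : ∑ j ∈ Finset.univ.erase i, (T.filter (fun t => i ∈ t ∧ j ∈ t)).card =
        ∑ t ∈ T.filter (fun t => i ∈ t), (t.erase i).card := by
      have e1 : ∀ j, (T.filter (fun t => i ∈ t ∧ j ∈ t)).card =
          ∑ t ∈ T.filter (fun t => i ∈ t), if j ∈ t then 1 else 0 := by
        intro j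
        rw [← Finset.card_filter, Finset.filter_filter]
      rw [Finset.sum_congr rfl (fun j _ => e1 j), Finset.sum_comm]
      refine Finset.sum_congr rfl fun t _ => ?_
      rw [← Finset.card_filter]
      congr 1
      ext j
      simp
    have h3 : ∑ t ∈ T.filter (fun t => i ∈ t), (t.erase i).card =
        (T.filter (fun t => i ∈ t)).card * 2 := by
      rw [Finset.sum_congr rfl (fun t ht => ?_), Finset.sum_const, smul_eq_mul]
      have ht' := Finset.mem_filter.1 ht
      rw [Finset.card_erase_of_mem ht'.2, hS.card t ht'.1]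
    rw [h2, h3] at h1
    omega
  refine ⟨?_, hdeg⟩
  have h1 : ∑ i : Fin n, (T.filter (fun t => i ∈ t)).card = n * (n - 1) := by
    rw [Finset.sum_congr rfl (fun i _ => hdeg i), Finset.sum_const, Finset.card_univ,
      Fintype.card_fin, smul_eq_mul]
  have h2 : ∑ i : Fin n, (T.filter (fun t => i ∈ t)).card = ∑ t ∈ T, t.card := by
    rw [Finset.sum_congr rfl (fun i _ => Finset.card_filter _ _), Finset.sum_comm]
    refine Finset.sum_congr rfl fun t _ => ?_
    rw [← Finset.card_filter]
    congr 1
    ext i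
    simp
  rw [← h1, h2, Finset.sum_congr rfl (fun t ht => hS.card t ht), Finset.sum_const, smul_eq_mul,
    mul_comm]

end Pool.Agent.Lib.MP_4f1247_co
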