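import Pool.Agent.Lib.MP_4f1247_co.Base

set_option autoImplicit false

/-!
# Neighborly polyhedral surfaces are not dense: statements of the modules

Proofs: team store `NSD_plan.md`.
-/

namespace Pool.Agent.Lib.MP_4f1247_co

open Finset
open scoped RealInnerProductSpace

/-- `T` is the set of faces of a neighborly surface with the vertices `q i`: every pair of vertices
is in two faces, the faces are triangles and meet in common faces only. -/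
structure Srf {n : ℕ} (q : Fin n → E3) (T : Finset (Finset (Fin n))) : Prop where
  card : ∀ t ∈ T, t.card = 3
  two : ∀ i j : Fin n, i ≠ j → (T.filter (fun t => i ∈ t ∧ j ∈ t)).card = 2
  ind : ∀ t ∈ T, AffineIndependent ℝ (fun x : {i // i ∈ t} => q x.1)
  emb : ∀ t₁ ∈ T, ∀ t₂ ∈ T,
    convexHull ℝ (q '' (t₁ : Set (Fin n))) ∩ convexHull ℝ (q '' (t₂ : Set (Fin n)))
      = convexHull ℝ (q '' ((t₁ ∩ t₂ : Finset (Fin n)) : Set (Fin n)))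

/-- Every ball of radius one contains at most `μ` of the points `A i`, `i ∈ I`. -/
def Den {ι : Type} (I : Finset ι) (A : ι → E3) (μ : ℝ) : Prop :=
  ∀ x : E3, ((I.filter (fun i => ‖A i - x‖ ≤ 1)).card : ℝ) ≤ μ

/-- The point `q i` is surrounded by points at distance at most `r`: there is one nearly in every
direction. -/
def Sur {n : ℕ} (q : Fin n → E3) (r : ℝ) (i : Fin n) : Prop :=
  ∀ u : E3, ‖u‖ = 1 → ∃ j, q j ≠ q i ∧ ‖q j - q i‖ ≤ r ∧ 9 / 10 * ‖q j - q i‖ ≤ ⟪q j - q i, u⟫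

/-- The unit vector in the direction of `x`. -/
noncomputable def un (x : E3) : E3 := ‖x‖⁻¹ • x

/-! ### Ele: elementary properties of neighborly surfaces -/

/-- The vertices of the faces are not collinear. -/
def StCr : Prop := ∀ (n : ℕ) (q : Fin n → E3) (T : Finset (Finset (Fin n))), Srf q T →
  ∀ x a w : Fin n, ({x, a, w} : Finset (Fin n)) ∈ T → cr (q a - q x) (q w - q x) ≠ 0

/-- The segments between vertices do not meet the other faces. -/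
def StPie : Prop := ∀ (n : ℕ) (q : Fin n → E3) (T : Finset (Finset (Fin n))), Srf q T →
  ∀ i j k a b : Fin n, ({i, j, k} : Finset (Fin n)) ∈ T → a ≠ b → a ∉ ({i, j, k} : Finset (Fin n)) →
    b ∉ ({i, j, k} : Finset (Fin n)) → ∀ α β γ l : ℝ, 0 ≤ α → 0 ≤ β → 0 ≤ γ → α + β + γ = 1 →
      0 ≤ l → l ≤ 1 → α • q i + β • q j + γ • q k ≠ (1 - l) • q a + l • q b

/-- The cones of two faces at a common vertex do not meet in the interior. -/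
def StCon : Prop := ∀ (n : ℕ) (q : Fin n → E3) (T : Finset (Finset (Fin n))), Srf q T →
  ∀ x a b c d : Fin n, ({x, a, b} : Finset (Fin n)) ∈ T → ({x, c, d} : Finset (Fin n)) ∈ T →
    ({x, a, b} : Finset (Fin n)) ≠ {x, c, d} → ∀ α β γ δ : ℝ, 0 < α → 0 < β → 0 < γ → 0 < δ →
      α • (q a - q x) + β • (q b - q x) ≠ γ • (q c - q x) + δ • (q d - q x)

/-- The numbers of faces, and of faces with a given vertex. -/
def StNum : Prop := ∀ (n : ℕ) (q : Fin n → E3) (T : Finset (Finset (Fin n))), Srf q T →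
  3 * T.card = n * (n - 1) ∧ ∀ i, (T.filter (fun t => i ∈ t)).card = n - 1

/-! ### Box: points in boxes -/

/-- The number of points in a box. -/
def StBox : Prop := ∀ (ι : Type) (I : Finset ι) (A : ι → E3) (μ : ℝ), Den I A μ →
  ∀ u v w : E3, Fr u v w → ∀ (x : E3) (a b c : ℝ), 0 ≤ a → 0 ≤ b → 0 ≤ c →
    ((I.filter (fun i => |⟪A i - x, u⟫| ≤ a ∧ |⟪A i - x, v⟫| ≤ b ∧ |⟪A i - x, w⟫| ≤ c)).card : ℝ)
      ≤ μ * ((2 * a + 1) * (2 * b + 1) * (2 * c + 1))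

/-- The number of points in a ball. -/
def StBall : Prop := ∀ (ι : Type) (I : Finset ι) (A : ι → E3) (μ : ℝ), Den I A μ →
  ∀ (x : E3) (a : ℝ), 0 ≤ a →
    ((I.filter (fun i => ‖A i - x‖ ≤ a)).card : ℝ) ≤ μ * (2 * a + 1) ^ 3

/-! ### Sur: almost all points are surrounded -/

/-- The number of points which are not surrounded. -/
def StSur : Prop := ∃ C : ℝ, 3 ≤ C ∧ ∀ (n : ℕ) (q : Fin n → E3) (m R r : ℝ),
  Den Finset.univ q m → 1 ≤ r → r ≤ R → (∀ i j, ‖q i - q j‖ ≤ R) →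
    ({i | ¬ Sur q r i}.ncard : ℝ) ≤ C * m * R ^ 3 / r

/-! ### Sliv: the triangles are thin -/

/-- The height of a face over its longest side is small if the vertices on this side are
surrounded. -/
def StSliv : Prop := ∀ (n : ℕ) (q : Fin n → E3) (T : Finset (Finset (Fin n))) (r : ℝ), Srf q T →
  ∀ x a w : Fin n, ({x, a, w} : Finset (Fin n)) ∈ T → Sur q r a → Sur q r w →
    ‖q x - q a‖ ≤ ‖q w - q a‖ → ‖q x - q w‖ ≤ ‖q w - q a‖ →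
      ∀ l : ℝ, 0 ≤ l → l ≤ 1 → ⟪(1 - l) • (q a - q x) + l • (q w - q x), q w - q a⟫ = 0 →
        ‖(1 - l) • (q a - q x) + l • (q w - q x)‖ ≤ 20 * r

/-! ### Cross and Tri: vectors -/

/-- The cones of two thin triangles meet. -/
def StCross : Prop := ∀ (A1 B1 A2 B2 : E3) (l1 l2 τ : ℝ), 0 < l1 → l1 ≤ 1 / 2 → 0 < l2 →
  l2 ≤ 1 / 2 → 0 < τ → (1 - l1) • A1 + l1 • B1 ≠ 0 → (1 - l2) • A2 + l2 • B2 ≠ 0 →
    ‖(1 - l1) • A1 + l1 • B1‖ < τ / 2 * ‖A1‖ → ‖(1 - l2) • A2 + l2 • B2‖ < τ / 2 * ‖A2‖ →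
      τ * (‖A1‖ * ‖A2‖ * ‖(1 - l1) • A1 + l1 • B1‖) ≤ dt A1 A2 ((1 - l1) • A1 + l1 • B1) →
        τ * (‖A1‖ * ‖A2‖ * ‖(1 - l2) • A2 + l2 • B2‖) ≤ dt A1 A2 ((1 - l2) • A2 + l2 • B2) →
          ∃ α β γ δ : ℝ, 0 < α ∧ 0 < β ∧ 0 < γ ∧ 0 < δ ∧ α • A1 + β • B1 = γ • A2 + δ • B2

/-- The numbers `⟪a, m'⟫` and `⟪a', m⟫` have different signs and are not small. -/
def Opp (τ : ℝ) (a m a' m' : E3) : Prop :=
  ⟪a, m'⟫ * ⟪a', m⟫ < 0 ∧ τ ≤ |⟪a, m'⟫| ∧ τ ≤ |⟪a', m⟫|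

/-- The conditions on three flags. -/
structure TriH (ε : ℝ) (a1 m1 a2 m2 a3 m3 : E3) : Prop where
  g12 : ε * ‖cr a1 a2‖ ≤ |⟪a1, m2⟫|
  g21 : ε * ‖cr a1 a2‖ ≤ |⟪a2, m1⟫|
  g13 : ε * ‖cr a1 a3‖ ≤ |⟪a1, m3⟫|
  g31 : ε * ‖cr a1 a3‖ ≤ |⟪a3, m1⟫|
  c12 : ε ≤ ‖cr a1 a2‖
  c13 : ε ≤ ‖cr a1 a3‖
  c23 : ε ≤ ‖cr a2 a3‖
  d123 : |dt a1 a2 a3| ≤ ε ^ 2 / 4 * (‖cr a1 a2‖ * ‖cr a1 a3‖)

/-- Three nearly coplanar flags. -/
def StTri : Prop := ∀ (ε : ℝ) (a1 m1 a2 m2 a3 m3 : E3), 0 < ε → ‖a1‖ = 1 → ‖a2‖ = 1 → ‖a3‖ = 1 →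
  ‖m1‖ ≤ 1 → ‖m2‖ ≤ 1 → ‖m3‖ ≤ 1 → ⟪a1, m1⟫ = 0 → ⟪a2, m2⟫ = 0 → ⟪a3, m3⟫ = 0 →
    TriH ε a1 m1 a2 m2 a3 m3 → Opp (3 / 4 * ε ^ 2) a1 m1 a2 m2 ∨
      Opp (3 / 4 * ε ^ 2) a1 m1 a3 m3 ∨ Opp (3 / 4 * ε ^ 2) a2 m2 a3 m3

/-! ### Sel: choice of three flags -/

/-- Among many flags there are three nearly coplanar ones. -/
def StSel : Prop := ∀ (ι : Type) (I : Finset ι) (A m : ι → E3) (μ D ε : ℝ), Den I A μ → 0 < μ →
  1 ≤ D → 0 < ε → ε ≤ 1 → 4 ≤ ε ^ 2 * D → (∀ i ∈ I, A i ≠ 0 ∧ ‖A i‖ ≤ D) →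
    (∀ i ∈ I, 1 / 2 ≤ ‖m i‖) → 300 * μ * ε * D ^ 3 ≤ (I.card : ℝ) →
      ∃ i ∈ I, ∃ j ∈ I, ∃ k ∈ I, TriH ε (un (A i)) (m i) (un (A j)) (m j) (un (A k)) (m k)

/-! ### Pick: choice of the vertex and of the scale -/

/-- Many faces with the same vertex opposite to the longest side, at the same scale. -/
def StPick : Prop := ∀ (n : ℕ) (q : Fin n → E3) (T : Finset (Finset (Fin n))) (m R r : ℝ),
  Srf q T → 2 ≤ n → Den Finset.univ q m → 1 ≤ R → (∀ i j, ‖q i - q j‖ ≤ R) →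
    12 * ({i | ¬ Sur q r i}.ncard : ℝ) ≤ n → 864 * m ≤ n →
      ∃ (x : Fin n) (J : Finset (Finset (Fin n))) (a w : Finset (Fin n) → Fin n) (D : ℝ),
        J ⊆ T ∧ (∀ t ∈ J, t = {x, a t, w t} ∧ Sur q r (a t) ∧ Sur q r (w t) ∧
          ‖q x - q (a t)‖ ≤ ‖q (w t) - q (a t)‖ ∧ ‖q x - q (w t)‖ ≤ ‖q (w t) - q (a t)‖ ∧
            ‖q x - q (a t)‖ ≤ ‖q x - q (w t)‖) ∧
        Den J (fun t => q (a t) - q x) (2 * m) ∧ 1 ≤ D ∧ D ≤ R ∧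
        (∀ t ∈ J, D / 2 < ‖q (a t) - q x‖ ∧ ‖q (a t) - q x‖ ≤ D) ∧
        (n : ℝ) * D ≤ 32 * R * (J.card : ℝ)

/-! ### Fin: the theorem -/

/-- A neighborly surface is not dense: normal form. -/
def StNorm : Prop := ∃ K : ℝ, 1 ≤ K ∧ ∀ (n : ℕ) (q : Fin n → E3) (T : Finset (Finset (Fin n)))
  (m R : ℝ), Srf q T → 1 ≤ m → 1 ≤ R → Den Finset.univ q m → (∀ i j, ‖q i - q j‖ ≤ R) →
    (n : ℝ) ^ 3 ≤ K * m ^ 3 * R ^ 8

/-- The theorem: every neighborly surface with `n` vertices of diameter at most `R` has a ball of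
radius `s` with at least `c (s / R) ^ (8 / 3) n` vertices; the ratio of the largest and the smallest
distance between its vertices is at least `c n ^ (3 / 8)`. -/
def StFin : Prop := ∃ c : ℝ, 0 < c ∧ ∀ (n : ℕ) (q : Fin n → E3) (T : Finset (Finset (Fin n))),
  Srf q T → (∀ R s : ℝ, 0 < s → s ≤ R → (∀ i j, dist (q i) (q j) ≤ R) →
    ∃ x : E3, c * (s / R) ^ (8 / 3 : ℝ) * n ≤
      ({i | dist (q i) x ≤ s}.ncard : ℝ)) ∧
    (2 ≤ n → ∀ R s : ℝ, 0 < s → (∀ i j, dist (q i) (q j) ≤ R) →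
      (∀ i j, i ≠ j → s ≤ dist (q i) (q j)) → c * (n : ℝ) ^ (3 / 8 : ℝ) ≤ R / s)

end Pool.Agent.Lib.MP_4f1247_co
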