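import Pool.Agent.Lib.MP_4f1247_co.Stmts

set_option autoImplicit false

/-!
# The vertex sets of neighborly polyhedral surfaces have dimension at most two: statements

Proofs: team store `NSE_plan.md`.
-/

namespace Pool.Agent.Lib.MP_4f1247_co

open Finset
open scoped RealInnerProductSpace

/-- Every ball of radius `w` contains at most `ν` of the points `A i`, `i ∈ I`. -/
def DenW {ι : Type} (I : Finset ι) (A : ι → E3) (w ν : ℝ) : Prop :=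
  ∀ x : E3, ((I.filter (fun i => ‖A i - x‖ ≤ w)).card : ℝ) ≤ ν

/-! ### BoxW -/

/-- The number of points in a box. -/
def StBoxW : Prop := ∀ (ι : Type) (I : Finset ι) (A : ι → E3) (w ν : ℝ), 0 < w → DenW I A w ν →
  ∀ u v z : E3, Fr u v z → ∀ (x : E3) (a b c : ℝ), 0 ≤ a → 0 ≤ b → 0 ≤ c →
    ((I.filter (fun i => |⟪A i - x, u⟫| ≤ a ∧ |⟪A i - x, v⟫| ≤ b ∧ |⟪A i - x, z⟫| ≤ c)).card : ℝ)
      ≤ ν * ((2 * a / w + 1) * (2 * b / w + 1) * (2 * c / w + 1))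

/-- The number of points in a slab and in a tube of the ball of radius three. -/
def StSlab : Prop := ∀ (ι : Type) (I : Finset ι) (A : ι → E3) (w ν : ℝ), 0 < w → w ≤ 1 →
  DenW I A w ν → (∀ i ∈ I, ‖A i‖ ≤ 3) → ∀ u : E3, ‖u‖ = 1 →
    ((I.filter (fun i => |⟪A i, u⟫| ≤ w / 2)).card : ℝ) ≤ 98 * ν / w ^ 2 ∧
    ((I.filter (fun i => ‖cr (A i) u‖ ≤ w / 2)).card : ℝ) ≤ 28 * ν / w

/-! ### SurB -/

/-- The number of points of a unit ball which are not surrounded. -/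
def StSurB : Prop := ∃ C : ℝ, 3 ≤ C ∧ ∀ (n : ℕ) (q : Fin n → E3) (w ν r : ℝ) (x0 : E3),
  0 < w → w ≤ r → r ≤ 1 → DenW Finset.univ q w ν →
    ({i | ‖q i - x0‖ ≤ 1 ∧ ¬ Sur q r i}.ncard : ℝ) ≤ C * ν / (w ^ 2 * r)

/-! ### Sliv2 -/

/-- If two vertices of a face are surrounded then the face is thin. -/
def StSliv2 : Prop := ∀ (n : ℕ) (q : Fin n → E3) (T : Finset (Finset (Fin n))) (r : ℝ), Srf q T →
  ∀ a b c : Fin n, ({a, b, c} : Finset (Fin n)) ∈ T → Sur q r a → Sur q r b →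
    20 * r ≤ ‖q b - q a‖ →
      (0 < ⟪q c - q a, q b - q a⟫ ∧ ‖cr (q b - q a) (q c - q a)‖ ≤ 20 * r * ‖q c - q a‖) ∨
      (0 < ⟪q c - q b, q a - q b⟫ ∧ ‖cr (q b - q a) (q c - q a)‖ ≤ 20 * r * ‖q c - q b‖)

/-! ### Mid -/

/-- `x` is nearly between `y` and `z`. -/
def Btw (β : ℝ) (x y z : E3) : Prop := ‖un (y - x) + un (z - x)‖ ≤ β

/-- A thin triangle has a middle vertex. -/
def StMid : Prop := ∀ (a b c : E3) (r l : ℝ), 0 < r → 30 * r < l → l ≤ ‖b - a‖ → l ≤ ‖c - a‖ →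
  l ≤ ‖c - b‖ → 0 < ⟪c - a, b - a⟫ → ‖cr (b - a) (c - a)‖ ≤ 20 * r * ‖c - a‖ →
    (Btw (120 * r / l) c a b ∧ ∃ t : ℝ, 0 ≤ t ∧ t ≤ 1 ∧ ‖c - ((1 - t) • a + t • b)‖ ≤ 30 * r) ∨
      Btw (120 * r / l) b a c

/-! ### CrossTri2 -/

/-- The cones of two thin triangles meet. -/
def StCross2 : Prop := ∀ (A1 B1 A2 B2 : E3) (τ : ℝ), 0 < τ → A1 ≠ 0 → B1 ≠ 0 → A2 ≠ 0 → B2 ≠ 0 →
  un A1 + un B1 ≠ 0 → un A2 + un B2 ≠ 0 → ‖un A1 + un B1‖ < τ → ‖un A2 + un B2‖ < τ →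
    Opp τ (un A1) (cr (un A1) (un (un A1 + un B1))) (un A2) (cr (un A2) (un (un A2 + un B2))) →
      ∃ α β γ δ : ℝ, 0 < α ∧ 0 < β ∧ 0 < γ ∧ 0 < δ ∧ α • A1 + β • B1 = γ • A2 + δ • B2

/-- The conditions on three flags. -/
structure TriH2 (ε ζ : ℝ) (a1 m1 a2 m2 a3 m3 : E3) : Prop where
  g12 : ε * ‖cr a1 a2‖ ≤ |⟪a1, m2⟫|
  g21 : ε * ‖cr a1 a2‖ ≤ |⟪a2, m1⟫|
  g13 : ε * ‖cr a1 a3‖ ≤ |⟪a1, m3⟫|
  g31 : ε * ‖cr a1 a3‖ ≤ |⟪a3, m1⟫|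
  c12 : ζ ≤ ‖cr a1 a2‖
  c13 : ζ ≤ ‖cr a1 a3‖
  c23 : ζ ≤ ‖cr a2 a3‖
  d123 : |dt a1 a2 a3| ≤ ε * ζ / 4 * (‖cr a1 a2‖ * ‖cr a1 a3‖)

/-- Three nearly coplanar flags. -/
def StTri2 : Prop := ∀ (ε ζ : ℝ) (a1 m1 a2 m2 a3 m3 : E3), 0 < ε → ε ≤ 1 → 0 < ζ → ‖a1‖ = 1 →
  ‖a2‖ = 1 → ‖a3‖ = 1 → ‖m1‖ ≤ 1 → ‖m2‖ ≤ 1 → ‖m3‖ ≤ 1 → ⟪a1, m1⟫ = 0 → ⟪a2, m2⟫ = 0 →
    ⟪a3, m3⟫ = 0 → TriH2 ε ζ a1 m1 a2 m2 a3 m3 → Opp (3 / 4 * (ε * ζ)) a1 m1 a2 m2 ∨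
      Opp (3 / 4 * (ε * ζ)) a1 m1 a3 m3 ∨ Opp (3 / 4 * (ε * ζ)) a2 m2 a3 m3

/-! ### Sel2 -/

/-- Among many flags there are three nearly coplanar ones. -/
def StSel2 : Prop := ∀ (ι : Type) (I : Finset ι) (A m : ι → E3) (ε ζ : ℝ), I.Nonempty → 0 < ε →
  ε ≤ 1 → 0 < ζ → ζ ≤ 1 → (∀ i ∈ I, A i ≠ 0 ∧ ‖A i‖ ≤ 3) → (∀ i ∈ I, 1 / 2 ≤ ‖m i‖) →
    (∀ u : E3, ‖u‖ = 1 →
      16 * ((I.filter (fun i => |⟪A i, u⟫| ≤ 6 * ε)).card : ℝ) ≤ (I.card : ℝ)) →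
    (∀ u : E3, ‖u‖ = 1 →
      ((I.filter (fun i => ‖cr (A i) u‖ ≤ 3 * ζ)).card : ℝ) < ε * ζ / 40 * (I.card : ℝ)) →
      ∃ i ∈ I, ∃ j ∈ I, ∃ k ∈ I, TriH2 ε ζ (un (A i)) (m i) (un (A j)) (m j) (un (A k)) (m k)

/-! ### Flag -/

/-- Many faces with the same middle vertex. -/
def StFlag : Prop := ∀ (n : ℕ) (q : Fin n → E3) (T : Finset (Finset (Fin n))) (x0 : E3)
  (N r l β : ℝ), Srf q T → 0 < r → 30 * r < l → l ≤ 1 → 120 * r / l ≤ β → 0 < N →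
    N = ({i | ‖q i - x0‖ ≤ 1}.ncard : ℝ) →
    100 * ({i | ‖q i - x0‖ ≤ 1 ∧ ¬ Sur q r i}.ncard : ℝ) ≤ N → DenW Finset.univ q l (N / 100) →
    ({i | ‖q i - x0‖ ≤ 2}.ncard : ℝ) ≤ 4096 * N →
      ∃ (x : Fin n) (J : Finset (Finset (Fin n))) (a w : Finset (Fin n) → Fin n),
        J ⊆ T ∧ ‖q x - x0‖ ≤ 2 ∧ N ≤ 24576 * (J.card : ℝ) ∧
        (∀ t ∈ J, t = {x, a t, w t} ∧ ‖q (a t) - x0‖ ≤ 1 ∧ Btw β (q x) (q (a t)) (q (w t))) ∧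
        (∀ ρ ν : ℝ, DenW Finset.univ q ρ ν → DenW J (fun t => q (a t) - q x) ρ (2 * ν))

/-! ### Core -/

/-- The core: a neighborly surface has no ball with the following properties. -/
def StCore : Prop := ∀ g : ℝ → ℝ, (∀ η, 0 < η → 0 < g η ∧ g η ≤ η) → ∃ σ : ℝ, 0 < σ ∧ σ ≤ 1 ∧
  ∀ (n : ℕ) (q : Fin n → E3) (T : Finset (Finset (Fin n))) (x0 : E3), Srf q T →
    0 < ({i | ‖q i - x0‖ ≤ 1}.ncard : ℝ) →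
    ({i | ‖q i - x0‖ ≤ 2}.ncard : ℝ) ≤ 4096 * ({i | ‖q i - x0‖ ≤ 1}.ncard : ℝ) →
      ∃ η : ℝ, σ ≤ η ∧ η ≤ 1 ∧
        ¬ DenW Finset.univ q (g η) (η * (g η) ^ 2 * ({i | ‖q i - x0‖ ≤ 1}.ncard : ℝ))

/-- The theorem: for `d > 2`, every neighborly surface with `n` vertices of diameter at most `R`
has a ball of radius `s` with at least `c (s / R) ^ d n` vertices; the ratio of the largest and the
smallest distance between its vertices is at least `c n ^ (1 / d)`. -/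
def StFin2 : Prop := ∀ d : ℝ, 2 < d → ∃ c : ℝ, 0 < c ∧ ∀ (n : ℕ) (q : Fin n → E3)
  (T : Finset (Finset (Fin n))), Srf q T → (∀ R s : ℝ, 0 < s → s ≤ R →
    (∀ i j, dist (q i) (q j) ≤ R) →
      ∃ x : E3, c * (s / R) ^ d * n ≤ ({i | dist (q i) x ≤ s}.ncard : ℝ)) ∧
    (2 ≤ n → ∀ R s : ℝ, 0 < s → (∀ i j, dist (q i) (q j) ≤ R) →
      (∀ i j, i ≠ j → s ≤ dist (q i) (q j)) → c * (n : ℝ) ^ (1 / d) ≤ R / s)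

end Pool.Agent.Lib.MP_4f1247_co
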